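import Pool.Agent.EXB.StK

/-!
# EXB: an approximation of the partition function has the same monomials ([Apx])
-/

set_option autoImplicit false

open MvPolynomial

namespace Pool.Agent.EXB

private theorem apx_growth {ι : Type} (I : Finset ι) (a : ι → NNReal) (e : ι → ℤ) (c : NNReal)
    (k : ℤ) (hc : 0 < c) (h : ∀ T : NNReal, 1 ≤ T → c * T ^ k ≤ ∑ i ∈ I, a i * T ^ e i) :
    ∃ i ∈ I, k ≤ e i := by
  by_contra hne
  have hlt : ∀ i ∈ I, e i ≤ k - 1 := fun i hi => by
    by_contra h1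
    exact hne ⟨i, hi, by omega⟩
  have hT1 : 1 ≤ (∑ i ∈ I, a i) / c + 1 := le_add_of_nonneg_left zero_le
  have hT0 : (∑ i ∈ I, a i) / c + 1 ≠ 0 := (lt_of_lt_of_le one_pos hT1).ne'
  have h1 := h ((∑ i ∈ I, a i) / c + 1) hT1
  have h2 : ∑ i ∈ I, a i * ((∑ i ∈ I, a i) / c + 1) ^ e i ≤
      (∑ i ∈ I, a i) * ((∑ i ∈ I, a i) / c + 1) ^ (k - 1) := by
    rw [Finset.sum_mul]
    exact Finset.sum_le_sum fun i hi =>
      mul_le_mul_right (zpow_le_zpow_right₀ hT1 (hlt i hi)) (a i)
  have h3 := h1.trans h2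
  have h4 : ((∑ i ∈ I, a i) / c + 1) ^ k =
      ((∑ i ∈ I, a i) / c + 1) ^ (k - 1) * ((∑ i ∈ I, a i) / c + 1) := by
    rw [← zpow_add_one₀ hT0, sub_add_cancel]
  have h5 : 0 < ((∑ i ∈ I, a i) / c + 1) ^ (k - 1) := zpow_pos (lt_of_lt_of_le one_pos hT1) _
  rw [h4, mul_left_comm, mul_comm (∑ i ∈ I, a i)] at h3
  have h6 := le_of_mul_le_mul_left h3 h5
  rw [mul_add, mul_one, mul_div_cancel₀ _ hc.ne'] at h6
  exact absurd h6 (not_le.2 (lt_add_of_pos_right _ hc))

private theorem apx_zpow_sum {ι : Type} (s : Finset ι) (T : NNReal) (hT : T ≠ 0) (k : ι → ℤ) :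
    ∏ i ∈ s, T ^ k i = T ^ ∑ i ∈ s, k i := by
  classical
  induction s using Finset.induction_on with
  | empty => simp
  | insert i s hi ih => rw [Finset.prod_insert hi, Finset.sum_insert hi, ih, zpow_add₀ hT]

variable {V D : Type} [Fintype V] [Fintype D]

/-- The exponent of a monomial. -/
private noncomputable def apx_e (m : (V × D) →₀ ℕ) (y : V × D → ℤ) : ℤ := ∑ p, (m p : ℤ) * y p

private theorem apx_eval (P : MvPolynomial (V × D) NNReal) (y : V × D → ℤ) (T : NNReal)
    (hT : T ≠ 0) :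
    MvPolynomial.eval (fun p => T ^ y p) P = ∑ m ∈ P.support, P.coeff m * T ^ apx_e m y := by
  rw [MvPolynomial.eval_eq']
  refine Finset.sum_congr rfl fun m _ => ?_
  congr 1
  unfold apx_e
  rw [← apx_zpow_sum _ _ hT]
  refine Finset.prod_congr rfl fun p _ => ?_
  rw [← zpow_natCast, ← zpow_mul, mul_comm]

private theorem apx_Zf (X : Set (V → D)) (y : V × D → ℤ) (T : NNReal) (hT : T ≠ 0) :
    Zf X (fun p => T ^ y p) = ∑ f ∈ (Set.toFinite X).toFinset, T ^ ∑ v, y (v, f v) := by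
  unfold Zf
  rw [finsum_mem_eq_finite_toFinset_sum _ (Set.toFinite X)]
  exact Finset.sum_congr rfl fun f _ => apx_zpow_sum _ _ hT _

private theorem apx_pos {T : NNReal} (hT : 1 ≤ T) : 0 < T := lt_of_lt_of_le one_pos hT

private theorem apx_A (P : MvPolynomial (V × D) NNReal) (X : Set (V → D)) (K : NNReal)
    (h : ∀ x : V × D → NNReal, (∀ p, 0 < x p) → MvPolynomial.eval x P ≤ K * Zf X x)
    (m : (V × D) →₀ ℕ) (hm : m ∈ P.support) (y : V × D → ℤ) :
    ∃ f ∈ X, apx_e m y ≤ ∑ v, y (v, f v) := by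
  obtain ⟨f, hf, hf'⟩ := apx_growth (Set.toFinite X).toFinset (fun _ => K)
    (fun f => ∑ v, y (v, f v)) (P.coeff m) (apx_e m y)
    (pos_iff_ne_zero.2 (MvPolynomial.mem_support_iff.1 hm)) (fun T hT => by
      have hT0 := apx_pos hT
      have h1 := h (fun p => T ^ y p) fun p => zpow_pos hT0 _
      rw [apx_eval P y T hT0.ne', apx_Zf X y T hT0.ne'] at h1
      rw [← Finset.mul_sum]
      exact (Finset.single_le_sum (f := fun m => P.coeff m * T ^ apx_e m y)
        (fun _ _ => zero_le) hm).trans h1)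
  exact ⟨f, (Set.Finite.mem_toFinset _).1 hf, hf'⟩

private theorem apx_B (P : MvPolynomial (V × D) NNReal) (X : Set (V → D)) (K : NNReal)
    (h : ∀ x : V × D → NNReal, (∀ p, 0 < x p) → Zf X x ≤ K * MvPolynomial.eval x P)
    (f : V → D) (hf : f ∈ X) (y : V × D → ℤ) :
    ∃ m ∈ P.support, ∑ v, y (v, f v) ≤ apx_e m y := by
  refine apx_growth P.support (fun m => K * P.coeff m) (fun m => apx_e m y) 1 _ one_pos
    (fun T hT => ?_)
  have hT0 := apx_pos hT
  have h1 := h (fun p => T ^ y p) fun p => zpow_pos hT0 _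
  rw [apx_eval P y T hT0.ne', apx_Zf X y T hT0.ne', Finset.mul_sum] at h1
  rw [one_mul]
  refine (Finset.single_le_sum (f := fun f : V → D => T ^ ∑ v, y (v, f v))
    (fun _ _ => zero_le) ((Set.Finite.mem_toFinset _).2 hf)).trans (h1.trans (le_of_eq ?_))
  exact Finset.sum_congr rfl fun m _ => (mul_assoc _ _ _).symm

open Classical in
private theorem apx_mono_apply (f : V → D) (v : V) (a : D) :
    mono f (v, a) = if f v = a then 1 else 0 := by
  unfold mono
  rw [Finsupp.finsetSum_apply, Finset.sum_eq_single v]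
  · rw [Finsupp.single_apply]
    simp
  · intro w _ hw
    rw [Finsupp.single_apply, if_neg]
    intro h
    exact hw (congrArg Prod.fst h)
  · intro h
    exact absurd (Finset.mem_univ v) h

open Classical in
private theorem apx_row (m : (V × D) →₀ ℕ) (v : V) (t : ℤ) :
    apx_e m (fun p => if p.1 = v then t else 0) = (∑ a, (m (v, a) : ℤ)) * t := by
  unfold apx_e
  rw [Fintype.sum_prod_type, Finset.sum_eq_single v]
  · rw [Finset.sum_mul]
    refine Finset.sum_congr rfl fun a _ => ?_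
    change (m (v, a) : ℤ) * (if v = v then t else 0) = _
    rw [if_pos rfl]
  · intro w _ hw
    refine Finset.sum_eq_zero fun a _ => ?_
    change (m (w, a) : ℤ) * (if w = v then t else 0) = 0
    rw [if_neg hw, mul_zero]
  · intro h
    exact absurd (Finset.mem_univ v) h

open Classical in
private theorem apx_row' (v : V) (t : ℤ) :
    ∑ w : V, (if w = v then t else 0) = t := by
  rw [Finset.sum_ite_eq' Finset.univ v]
  simp

private theorem apx_row_one (P : MvPolynomial (V × D) NNReal) (X : Set (V → D)) (K : NNReal)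
    (h : ∀ x : V × D → NNReal, (∀ p, 0 < x p) → MvPolynomial.eval x P ≤ K * Zf X x)
    (m : (V × D) →₀ ℕ) (hm : m ∈ P.support) (v : V) : ∑ a, m (v, a) = 1 := by
  classical
  obtain ⟨f, _, h1⟩ := apx_A P X K h m hm fun p => if p.1 = v then 1 else 0
  obtain ⟨g, _, h2⟩ := apx_A P X K h m hm fun p => if p.1 = v then -1 else 0
  rw [apx_row] at h1 h2
  have h3 : ∑ w : V, (if ((w, f w) : V × D).1 = v then (1 : ℤ) else 0) = 1 := apx_row' v 1
  have h4 : ∑ w : V, (if ((w, g w) : V × D).1 = v then (-1 : ℤ) else 0) = -1 := apx_row' v (-1)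
  rw [h3] at h1
  rw [h4] at h2
  have h5 : (∑ a, (m (v, a) : ℤ)) = 1 := by omega
  exact_mod_cast h5

private theorem apx_exists (m : (V × D) →₀ ℕ) (h : ∀ v, ∑ a, m (v, a) = 1) :
    ∃ g : V → D, m = mono g := by
  classical
  have h1 : ∀ v, ∃ a, m (v, a) ≠ 0 := by
    intro v
    by_contra hne
    have h2 : ∑ a, m (v, a) = 0 := Finset.sum_eq_zero fun a _ => by
      by_contra h3
      exact hne ⟨a, h3⟩
    rw [h v] at h2
    exact one_ne_zero h2
  choose g hg using h1
  refine ⟨g, Finsupp.ext ?_⟩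
  rintro ⟨v, a⟩
  rw [apx_mono_apply]
  have h2 := Finset.add_sum_erase Finset.univ (fun a => m (v, a)) (Finset.mem_univ (g v))
  rw [h v] at h2
  have h3 : 1 ≤ m (v, g v) := Nat.one_le_iff_ne_zero.2 (hg v)
  have h4 : ∑ a ∈ Finset.univ.erase (g v), m (v, a) = 0 := by omega
  have h5 : m (v, g v) = 1 := by omega
  by_cases ha : g v = a
  · rw [if_pos ha, ← ha, h5]
  · rw [if_neg ha]
    exact Finset.sum_eq_zero_iff.1 h4 a
      (Finset.mem_erase.2 ⟨fun h6 => ha h6.symm, Finset.mem_univ a⟩)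

open Classical in
private theorem apx_e_mono (g : V → D) (y : V × D → ℤ) :
    apx_e (mono g) y = ∑ v, y (v, g v) := by
  unfold apx_e
  rw [Fintype.sum_prod_type]
  refine Finset.sum_congr rfl fun v _ => ?_
  rw [Finset.sum_eq_single (g v)]
  · rw [apx_mono_apply, if_pos rfl]
    simp
  · intro a _ ha
    rw [apx_mono_apply, if_neg (fun h => ha h.symm)]
    simp
  · intro h
    exact absurd (Finset.mem_univ (g v)) h

private theorem apx_eq (f g : V → D)
    (h : ∑ v : V, ((mono g (v, g v) : ℕ) : ℤ) ≤ ∑ v : V, ((mono g (v, f v) : ℕ) : ℤ)) :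
    f = g := by
  classical
  have h1 : ∀ v ∈ (Finset.univ : Finset V), ((mono g (v, f v) : ℕ) : ℤ) ≤
      ((mono g (v, g v) : ℕ) : ℤ) := by
    intro v _
    rw [apx_mono_apply, apx_mono_apply, if_pos rfl]
    split_ifs <;> simp
  have h2 := (Finset.sum_eq_sum_iff_of_le h1).1 (le_antisymm (Finset.sum_le_sum h1) h)
  funext v
  have h3 := h2 v (Finset.mem_univ v)
  rw [apx_mono_apply, apx_mono_apply, if_pos rfl] at h3
  by_contra hne
  rw [if_neg (fun h4 => hne h4.symm)] at h3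
  simp at h3

theorem thm_Apx : St_Apx := by
  intro V D _ _ P X K h
  have hA : ∀ m ∈ P.support, ∃ f ∈ X, m = mono f := by
    intro m hm
    obtain ⟨g, rfl⟩ := apx_exists m (apx_row_one P X K (fun x hx => (h x hx).1) m hm)
    obtain ⟨f, hf, h1⟩ := apx_A P X K (fun x hx => (h x hx).1) _ hm
      fun p => ((mono g p : ℕ) : ℤ)
    rw [apx_e_mono] at h1
    exact ⟨f, hf, by rw [apx_eq f g h1]⟩
  intro m
  constructor
  · exact hA m
  · rintro ⟨f, hf, rfl⟩
    obtain ⟨m, hm, h1⟩ := apx_B P X K (fun x hx => (h x hx).2) f hf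
      fun p => ((mono f p : ℕ) : ℤ)
    obtain ⟨g, -, rfl⟩ := hA m hm
    rw [apx_e_mono] at h1
    rw [← apx_eq g f h1]
    exact hm

end Pool.Agent.EXB
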