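import Pool.Agent.EXB.StM

/-!
# EXB, module Ari: from deterministic smooth circuits to monotone arithmetic circuits
-/

set_option autoImplicit false

namespace Pool.Agent.EXB

variable {V D : Type}

private theorem ari_dep_mono {A B : Finset V} {X : Set (V → D)} (h : DepOn A X) (hAB : A ⊆ B) :
    DepOn B X := fun f g hfg hf => h f g (fun v hv => hfg v (hAB hv)) hf

/-- the sets of the gates depend only on the scopes -/
private theorem ari_dep (Q : Circ V D) (k : ℕ) (hQ : Q.Ok k) (i : ℕ) (hi : i < Q.n) :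
    DepOn (Q.sc i) (Q.X i) := by
  induction i using Nat.strong_induction_on with
  | _ i ih =>
    obtain ⟨h1, h2⟩ := hQ.2 i hi
    have h3 : ∀ j ∈ Q.ch i, DepOn (Q.sc i) (Q.X j) := fun j hj =>
      ari_dep_mono (ih j (h1 j hj).1 (lt_trans (h1 j hj).1 hi)) (h1 j hj).2
    rcases h2 with h2 | h2 | h2
    · exact h2.2.2
    · intro f g hfg hf
      obtain ⟨j, hj, hfj⟩ := (h2 f).1 hf
      exact (h2 g).2 ⟨j, hj, h3 j hj f g hfg hfj⟩
    · intro f g hfg hf
      exact (h2.2 g).2 fun j hj => h3 j hj f g hfg ((h2.2 f).1 hf j hj)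

section

variable [Fintype V] [Fintype D]

open Classical in
/-- the sum of the monomials of the assignments of `B` -/
private noncomputable def ariF (d₀ : D) (B : Finset V) (X : Set (V → D)) :
    MvPolynomial (V × D) NNReal :=
  ∑ f ∈ (Finset.univ.filter fun f : V → D => ∀ v, v ∉ B → f v = d₀),
    if f ∈ X then ∏ v ∈ B, MvPolynomial.X (v, f v) else 0

private theorem ariF_uni (d₀ : D) (B : Finset V) (s : Finset ℕ) (X : Set (V → D))
    (Y : ℕ → Set (V → D)) (h : ∀ f, f ∈ X ↔ ∃ j ∈ s, f ∈ Y j)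
    (hd : ∀ j ∈ s, ∀ j' ∈ s, j ≠ j' → Disjoint (Y j) (Y j')) :
    ariF d₀ B X = ∑ j ∈ s, ariF d₀ B (Y j) := by
  classical
  unfold ariF
  rw [Finset.sum_comm]
  refine Finset.sum_congr rfl fun f _ => ?_
  by_cases hf : f ∈ X
  · obtain ⟨j, hj, hfj⟩ := (h f).1 hf
    rw [if_pos hf, Finset.sum_eq_single j, if_pos hfj]
    · intro j' hj' hne
      rw [if_neg]
      intro hfj'
      exact Set.disjoint_left.1 (hd j hj j' hj' (Ne.symm hne)) hfj hfj'
    · exact fun h' => absurd hj h'
  · rw [if_neg hf, Finset.sum_eq_zero]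
    intro j hj
    rw [if_neg]
    exact fun hfj => hf ((h f).2 ⟨j, hj, hfj⟩)

private theorem ariF_empty (d₀ : D) (B : Finset V) (hB : ∀ v, v ∉ B) (X : Set (V → D)) :
    (ariF d₀ B X = 1 ∧ (fun _ => d₀) ∈ X) ∨ (ariF d₀ B X = 0 ∧ (fun _ => d₀) ∉ X) := by
  classical
  have h1 : (Finset.univ.filter fun f : V → D => ∀ v, v ∉ B → f v = d₀) = {fun _ => d₀} := by
    ext f
    rw [Finset.mem_filter, Finset.mem_singleton]
    exact ⟨fun h => funext fun v => h.2 v (hB v), fun h => ⟨Finset.mem_univ _, fun v _ => by rw [h]⟩⟩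
  have h2 : B = ∅ := Finset.eq_empty_of_forall_notMem hB
  by_cases h : (fun _ => d₀) ∈ X
  · left
    refine ⟨?_, h⟩
    unfold ariF
    rw [h1, Finset.sum_singleton, if_pos h, h2, Finset.prod_empty]
  · right
    refine ⟨?_, h⟩
    unfold ariF
    rw [h1, Finset.sum_singleton, if_neg h]

private theorem ariF_mul (d₀ : D) (B B' C : Finset V) (hB : Disjoint B B')
    (hC : ∀ v, v ∈ C ↔ v ∈ B ∨ v ∈ B') (X Y Z : Set (V → D)) (hX : DepOn B X) (hY : DepOn B' Y)
    (hZ : ∀ f, f ∈ Z ↔ f ∈ X ∧ f ∈ Y) :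
    ariF d₀ C Z = ariF d₀ B X * ariF d₀ B' Y := by
  classical
  have hCeq : C = B.disjUnion B' hB := by
    ext v
    rw [hC, Finset.mem_disjUnion]
  unfold ariF
  rw [Finset.sum_mul_sum, ← Finset.sum_product']
  refine Finset.sum_bij' (fun h _ => ((fun v => if v ∈ B then h v else d₀ : V → D),
    (fun v => if v ∈ B' then h v else d₀ : V → D)))
    (fun p _ => fun v => if v ∈ B then p.1 v else p.2 v) ?_ ?_ ?_ ?_ ?_
  · intro h _
    rw [Finset.mem_product, Finset.mem_filter, Finset.mem_filter]
    exact ⟨⟨Finset.mem_univ _, fun v hv => if_neg hv⟩, ⟨Finset.mem_univ _, fun v hv => if_neg hv⟩⟩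
  · intro p hp
    rw [Finset.mem_product, Finset.mem_filter, Finset.mem_filter] at hp
    rw [Finset.mem_filter]
    refine ⟨Finset.mem_univ _, fun v hv => ?_⟩
    have h1 : v ∉ B := fun h => hv ((hC v).2 (Or.inl h))
    have h2 : v ∉ B' := fun h => hv ((hC v).2 (Or.inr h))
    exact (if_neg h1).trans (hp.2.2 v h2)
  · intro h hh
    rw [Finset.mem_filter] at hh
    funext v
    by_cases h1 : v ∈ B
    · simp [h1]
    · by_cases h2 : v ∈ B'
      · simp [h1, h2]
      · simp only [h1, h2, if_false]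
        exact (hh.2 v fun h => ((hC v).1 h).elim h1 h2).symm
  · intro p hp
    rw [Finset.mem_product, Finset.mem_filter, Finset.mem_filter] at hp
    refine Prod.ext (funext fun v => ?_) (funext fun v => ?_)
    · by_cases h1 : v ∈ B
      · simp [h1]
      · simp only [h1, if_false]
        exact (hp.1.2 v h1).symm
    · by_cases h2 : v ∈ B'
      · have h1 : v ∉ B := fun h => Finset.disjoint_left.1 hB h h2
        simp [h1, h2]
      · simp only [h2, if_false]
        exact (hp.2.2 v h2).symm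
  · intro h _
    have e1 : (fun v => if v ∈ B then h v else d₀ : V → D) ∈ X ↔ h ∈ X :=
      ⟨fun h' => hX _ _ (fun v hv => by rw [if_pos hv]) h',
        fun h' => hX _ _ (fun v hv => by rw [if_pos hv]) h'⟩
    have e2 : (fun v => if v ∈ B' then h v else d₀ : V → D) ∈ Y ↔ h ∈ Y :=
      ⟨fun h' => hY _ _ (fun v hv => by rw [if_pos hv]) h',
        fun h' => hY _ _ (fun v hv => by rw [if_pos hv]) h'⟩
    have p1 : ∏ v ∈ B, (MvPolynomial.X (v, if v ∈ B then h v else d₀) :
        MvPolynomial (V × D) NNReal) = ∏ v ∈ B, MvPolynomial.X (v, h v) :=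
      Finset.prod_congr rfl fun v hv => by rw [if_pos hv]
    have p2 : ∏ v ∈ B', (MvPolynomial.X (v, if v ∈ B' then h v else d₀) :
        MvPolynomial (V × D) NNReal) = ∏ v ∈ B', MvPolynomial.X (v, h v) :=
      Finset.prod_congr rfl fun v hv => by rw [if_pos hv]
    by_cases hx : h ∈ X
    · by_cases hy : h ∈ Y
      · rw [if_pos ((hZ h).2 ⟨hx, hy⟩), if_pos (e1.2 hx), if_pos (e2.2 hy), p1, p2, hCeq,
          Finset.prod_disjUnion]
      · rw [if_neg (fun h' => hy ((hZ h).1 h').2), if_neg (fun h' => hy (e2.1 h')), mul_zero]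
    · rw [if_neg (fun h' => hx ((hZ h).1 h').1), if_neg (fun h' => hx (e1.1 h')), zero_mul]

private theorem ariF_prod (d₀ : D) (sc : ℕ → Finset V) (Y : ℕ → Set (V → D)) (s : Finset ℕ) :
    (∀ j ∈ s, DepOn (sc j) (Y j)) →
    (∀ j ∈ s, ∀ j' ∈ s, j ≠ j' → Disjoint (sc j) (sc j')) →
    ∀ (C : Finset V) (Z : Set (V → D)), (∀ v, v ∈ C ↔ ∃ j ∈ s, v ∈ sc j) →
      (∀ f, f ∈ Z ↔ ∀ j ∈ s, f ∈ Y j) → ariF d₀ C Z = ∏ j ∈ s, ariF d₀ (sc j) (Y j) := by
  classical
  induction s using Finset.induction_on with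
  | empty =>
    intro _ _ C Z hC hZ
    rw [Finset.prod_empty]
    rcases ariF_empty d₀ C (fun v hv => by simpa using (hC v).1 hv) Z with h | h
    · exact h.1
    · exact absurd ((hZ _).2 (fun j hj => absurd hj (Finset.notMem_empty j))) h.2
  | insert j s hj ih =>
    intro hdep hd C Z hC hZ
    rw [Finset.prod_insert hj]
    have hdep' : ∀ i ∈ s, DepOn (sc i) (Y i) := fun i hi => hdep i (Finset.mem_insert_of_mem hi)
    have hd' : ∀ i ∈ s, ∀ i' ∈ s, i ≠ i' → Disjoint (sc i) (sc i') := fun i hi i' hi' =>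
      hd i (Finset.mem_insert_of_mem hi) i' (Finset.mem_insert_of_mem hi')
    rw [← ih hdep' hd' (s.biUnion sc) {f | ∀ i ∈ s, f ∈ Y i}
      (fun v => by rw [Finset.mem_biUnion]) (fun f => Iff.rfl)]
    refine ariF_mul d₀ (sc j) (s.biUnion sc) C ?_ ?_ (Y j) _ Z
      (hdep j (Finset.mem_insert_self _ _)) ?_ ?_
    · rw [Finset.disjoint_biUnion_right]
      intro i hi
      exact hd j (Finset.mem_insert_self _ _) i (Finset.mem_insert_of_mem hi)
        (fun h => hj (h ▸ hi))
    · intro v
      rw [hC, Finset.mem_biUnion]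
      constructor
      · rintro ⟨i, hi, hv⟩
        rcases Finset.mem_insert.1 hi with rfl | hi
        · exact Or.inl hv
        · exact Or.inr ⟨i, hi, hv⟩
      · rintro (hv | ⟨i, hi, hv⟩)
        · exact ⟨j, Finset.mem_insert_self _ _, hv⟩
        · exact ⟨i, Finset.mem_insert_of_mem hi, hv⟩
    · intro f g hfg hf i hi
      exact hdep' i hi f g (fun v hv => hfg v (Finset.mem_biUnion.2 ⟨i, hi, hv⟩)) (hf i hi)
    · intro f
      rw [hZ, Finset.forall_mem_insert]
      rfl

private theorem ariF_single (d₀ : D) (v : V) (X : Set (V → D)) (hX : DepOn {v} X)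
    (col : ℕ → D) (e : Fin (Fintype.card D) ≃ D) (hcol : ∀ k : Fin (Fintype.card D), col k = e k)
    (p : ℕ → MvPolynomial (V × D) NNReal)
    (hp1 : ∀ k, k < Fintype.card D → (fun _ => col k) ∈ X → p k = MvPolynomial.X (v, col k))
    (hp2 : ∀ k, k < Fintype.card D → (fun _ => col k) ∉ X → p k = 0) :
    ariF d₀ {v} X = ∑ k ∈ Finset.range (Fintype.card D), p k := by
  classical
  rw [Finset.sum_range]
  unfold ariF
  refine Finset.sum_bij' (fun f _ => e.symm (f v)) (fun k _ => fun u => if u = v then e k else d₀)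
    ?_ ?_ ?_ ?_ ?_
  · intro f _
    exact Finset.mem_univ _
  · intro k _
    rw [Finset.mem_filter]
    refine ⟨Finset.mem_univ _, fun u hu => ?_⟩
    rw [Finset.mem_singleton] at hu
    exact if_neg hu
  · intro f hf
    rw [Finset.mem_filter] at hf
    funext u
    by_cases hu : u = v
    · rw [if_pos hu, Equiv.apply_symm_apply, hu]
    · rw [if_neg hu]
      exact (hf.2 u (fun h => hu (Finset.mem_singleton.1 h))).symm
  · intro k _
    simp
  · intro f _
    have h1 : col (e.symm (f v) : Fin (Fintype.card D)) = f v := by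
      rw [hcol, Equiv.apply_symm_apply]
    have h2 : (fun _ => col (e.symm (f v) : Fin (Fintype.card D))) ∈ X ↔ f ∈ X := by
      rw [h1]
      exact ⟨fun h => hX _ _ (fun u hu => by rw [Finset.mem_singleton.1 hu]) h,
        fun h => hX _ _ (fun u hu => by rw [Finset.mem_singleton.1 hu]) h⟩
    by_cases hf : f ∈ X
    · rw [if_pos hf, hp1 _ (Fin.is_lt _) (h2.2 hf), h1, Finset.prod_singleton]
    · rw [if_neg hf, hp2 _ (Fin.is_lt _) (fun h => hf (h2.1 h))]

open Classical in
/-- the arithmetic circuit -/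
private noncomputable def ariC (d₀ : D) (col : ℕ → D) (Q : Circ V D) : Arith V D where
  n := (Fintype.card D + 1) * Q.n
  P m := if m % (Fintype.card D + 1) = Fintype.card D then
      ariF d₀ (Q.sc (m / (Fintype.card D + 1))) (Q.X (m / (Fintype.card D + 1)))
    else if h : ∃ v, Q.sc (m / (Fintype.card D + 1)) = {v} ∧
        (fun _ => col (m % (Fintype.card D + 1))) ∈ Q.X (m / (Fintype.card D + 1)) then
      MvPolynomial.X (h.choose, col (m % (Fintype.card D + 1))) else 0
  ch m := if m % (Fintype.card D + 1) = Fintype.card D then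
      (if Q.IsLeaf 1 (m / (Fintype.card D + 1)) then
        (if Q.sc (m / (Fintype.card D + 1)) = ∅ then [] else
          (List.range (Fintype.card D)).map fun k =>
            (Fintype.card D + 1) * (m / (Fintype.card D + 1)) + k)
      else (Q.ch (m / (Fintype.card D + 1))).toList.map fun j =>
        (Fintype.card D + 1) * j + Fintype.card D) else []
  out := (Fintype.card D + 1) * Q.out + Fintype.card D

private theorem ari_div (b i k : ℕ) (hk : k < b) : (b * i + k) / b = i := by
  rw [Nat.mul_add_div (by omega), Nat.div_eq_of_lt hk, add_zero]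

private theorem ari_mod (b i k : ℕ) (hk : k < b) : (b * i + k) % b = k := by
  rw [Nat.mul_add_mod, Nat.mod_eq_of_lt hk]

private theorem ariC_P_main (d₀ : D) (col : ℕ → D) (Q : Circ V D) (i : ℕ) :
    (ariC d₀ col Q).P ((Fintype.card D + 1) * i + Fintype.card D) =
      ariF d₀ (Q.sc i) (Q.X i) := by
  unfold ariC
  simp only
  rw [ari_div _ _ _ (Nat.lt_succ_self _), ari_mod _ _ _ (Nat.lt_succ_self _), if_pos rfl]

private theorem ariC_P_col (d₀ : D) (col : ℕ → D) (Q : Circ V D) (i k : ℕ)
    (hk : k < Fintype.card D) :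
    (∃ v, Q.sc i = {v} ∧ (fun _ => col k) ∈ Q.X i ∧
      (ariC d₀ col Q).P ((Fintype.card D + 1) * i + k) = MvPolynomial.X (v, col k)) ∨
    ((¬ ∃ v, Q.sc i = {v} ∧ (fun _ => col k) ∈ Q.X i) ∧
      (ariC d₀ col Q).P ((Fintype.card D + 1) * i + k) = 0) := by
  classical
  unfold ariC
  simp only
  rw [ari_div _ _ _ (Nat.lt_succ_of_lt hk), ari_mod _ _ _ (Nat.lt_succ_of_lt hk),
    if_neg hk.ne]
  by_cases h : ∃ v, Q.sc i = {v} ∧ (fun _ => col k) ∈ Q.X i
  · left
    rw [dif_pos h]
    exact ⟨h.choose, h.choose_spec.1, h.choose_spec.2, rfl⟩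
  · right
    rw [dif_neg h]
    exact ⟨h, rfl⟩

open Classical in
private theorem ariC_ch_main (d₀ : D) (col : ℕ → D) (Q : Circ V D) (i : ℕ) :
    (ariC d₀ col Q).ch ((Fintype.card D + 1) * i + Fintype.card D) =
      (if Q.IsLeaf 1 i then
        (if Q.sc i = ∅ then [] else
          (List.range (Fintype.card D)).map fun k => (Fintype.card D + 1) * i + k)
      else (Q.ch i).toList.map fun j => (Fintype.card D + 1) * j + Fintype.card D) := by
  unfold ariC
  simp only
  rw [ari_div _ _ _ (Nat.lt_succ_self _), ari_mod _ _ _ (Nat.lt_succ_self _), if_pos rfl]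

private theorem ariC_ch_col (d₀ : D) (col : ℕ → D) (Q : Circ V D) (i k : ℕ)
    (hk : k < Fintype.card D) :
    (ariC d₀ col Q).ch ((Fintype.card D + 1) * i + k) = [] := by
  unfold ariC
  simp only
  rw [ari_mod _ _ _ (Nat.lt_succ_of_lt hk), if_neg hk.ne]

private theorem ariC_size (d₀ : D) (col : ℕ → D) (Q : Circ V D) :
    (ariC d₀ col Q).size ≤ (2 * Fintype.card D + 1) * Q.size := by
  classical
  have h1 : ∀ N : ℕ, ∑ m ∈ Finset.range ((Fintype.card D + 1) * N),
      ((ariC d₀ col Q).ch m).length ≤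
        ∑ i ∈ Finset.range N, (Fintype.card D + (Q.ch i).card) := by
    intro N
    induction N with
    | zero => simp
    | succ N ih =>
      rw [Nat.mul_succ, Finset.sum_range_add, Finset.sum_range_succ _ N]
      refine Nat.add_le_add ih ?_
      rw [Finset.sum_range_succ, Finset.sum_eq_zero, zero_add, ariC_ch_main]
      · split_ifs
        · simp
        · simp
        · simp
      · intro k hk
        rw [ariC_ch_col d₀ col Q N k (Finset.mem_range.1 hk)]
        rfl
  have h2 := h1 Q.n
  rw [Finset.sum_add_distrib, Finset.sum_const, Finset.card_range, smul_eq_mul] at h2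
  unfold Arith.size Circ.size
  change (Fintype.card D + 1) * Q.n + ∑ m ∈ Finset.range ((Fintype.card D + 1) * Q.n),
    ((ariC d₀ col Q).ch m).length ≤ _
  nlinarith [Nat.zero_le (Fintype.card D * ∑ i ∈ Finset.range Q.n, (Q.ch i).card)]

private theorem ariF_univ (d₀ : D) (X : Set (V → D)) :
    ariF d₀ Finset.univ X = ∑ᶠ f ∈ X, MvPolynomial.monomial (mono f) (1 : NNReal) := by
  classical
  rw [finsum_mem_def, finsum_eq_sum_of_fintype]
  unfold ariF
  rw [Finset.filter_true_of_mem (fun f _ v hv => absurd (Finset.mem_univ v) hv)]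
  refine Finset.sum_congr rfl fun f _ => ?_
  by_cases hf : f ∈ X
  · rw [if_pos hf, Set.indicator_of_mem hf]
    unfold mono
    rw [MvPolynomial.monomial_sum_one]
    rfl
  · rw [if_neg hf, Set.indicator_of_notMem hf]

end

/-- **Ari.** -/
theorem thm_Ari : St_Ari := by
  classical
  intro V D _ _ _ Q hok hdet hout
  obtain ⟨d₀⟩ : Nonempty D := inferInstance
  let e : Fin (Fintype.card D) ≃ D := (Fintype.equivFin D).symm
  let col : ℕ → D := fun k => if h : k < Fintype.card D then e ⟨k, h⟩ else d₀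
  have hcol : ∀ k : Fin (Fintype.card D), col k = e k := fun k => dif_pos k.2
  refine ⟨ariC d₀ col Q, ⟨?_, ?_⟩, ?_, ariC_size d₀ col Q⟩
  · change (Fintype.card D + 1) * Q.out + Fintype.card D < (Fintype.card D + 1) * Q.n
    have h1 := Nat.mul_le_mul_left (Fintype.card D + 1) (Nat.succ_le_of_lt hok.1)
    rw [Nat.mul_succ] at h1
    omega
  · intro m hm
    have hb : 0 < Fintype.card D + 1 := Nat.succ_pos _
    obtain ⟨i, k, hk, rfl⟩ : ∃ i k, k < Fintype.card D + 1 ∧
        m = (Fintype.card D + 1) * i + k :=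
      ⟨m / (Fintype.card D + 1), m % (Fintype.card D + 1), Nat.mod_lt _ hb,
        (Nat.div_add_mod _ _).symm⟩
    have hi : i < Q.n := by
      by_contra hcon
      have h1 := Nat.mul_le_mul_left (Fintype.card D + 1) (not_lt.1 hcon)
      change (Fintype.card D + 1) * i + k < (Fintype.card D + 1) * Q.n at hm
      omega
    rcases Nat.eq_or_lt_of_le (Nat.le_of_lt_succ hk) with rfl | hk
    · rw [ariC_ch_main, ariC_P_main]
      by_cases hleaf : Q.IsLeaf 1 i
      · rw [if_pos hleaf]
        by_cases hsc : Q.sc i = ∅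
        · rw [if_pos hsc]
          refine ⟨fun j hj => absurd hj List.not_mem_nil, Or.inl ⟨rfl, ?_⟩⟩
          rcases ariF_empty d₀ (Q.sc i) (fun v hv => by simp [hsc] at hv) (Q.X i) with h | h
          · exact ⟨1, by rw [h.1, map_one]⟩
          · exact ⟨0, by rw [h.1, map_zero]⟩
        · rw [if_neg hsc]
          obtain ⟨v, hv⟩ : ∃ v, Q.sc i = {v} := by
            have h1 : (Q.sc i).card = 1 := by
              have h2 := hleaf.2.1
              have h3 := Finset.card_pos.2 (Finset.nonempty_iff_ne_empty.2 hsc)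
              omega
            exact Finset.card_eq_one.1 h1
          refine ⟨fun j hj => ?_, Or.inr (Or.inr (Or.inl ?_))⟩
          · rw [List.mem_map] at hj
            obtain ⟨k, hk, rfl⟩ := hj
            rw [List.mem_range] at hk
            omega
          · rw [List.map_map, hv]
            have hdep : DepOn {v} (Q.X i) := hv ▸ hleaf.2.2
            rw [ariF_single d₀ v (Q.X i) hdep col e hcol
              (fun k => (ariC d₀ col Q).P ((Fintype.card D + 1) * i + k)) ?_ ?_]
            · rfl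
            · intro k hk hX
              rcases ariC_P_col d₀ col Q i k hk with ⟨v', h1, -, h3⟩ | ⟨h1, -⟩
              · rw [hv, Finset.singleton_inj] at h1
                rw [h3, h1]
              · exact absurd ⟨v, hv, hX⟩ h1
            · intro k hk hX
              rcases ariC_P_col d₀ col Q i k hk with ⟨v', -, h2, -⟩ | ⟨-, h2⟩
              · exact absurd h2 hX
              · exact h2
      · rw [if_neg hleaf]
        refine ⟨fun j hj => ?_, ?_⟩
        · rw [List.mem_map] at hj
          obtain ⟨j', hj', rfl⟩ := hj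
          rw [Finset.mem_toList] at hj'
          have h1 := ((hok.2 i hi).1 j' hj').1
          have h2 := Nat.mul_lt_mul_of_pos_left h1 hb
          omega
        · have hch : ∀ j ∈ Q.ch i, DepOn (Q.sc j) (Q.X j) := fun j hj =>
            ari_dep Q 1 hok j (lt_trans ((hok.2 i hi).1 j hj).1 hi)
          rcases hdet i hi with h | ⟨h, h'⟩ | ⟨h, h', h''⟩
          · exact absurd h hleaf
          · refine Or.inr (Or.inr (Or.inr ?_))
            rw [List.map_map, ariF_prod d₀ Q.sc Q.X (Q.ch i) hch h.1 (Q.sc i) (Q.X i)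
              (fun v => ⟨fun hv => h' v hv, fun ⟨j, hj, hv⟩ => ((hok.2 i hi).1 j hj).2 hv⟩) h.2,
              ← Finset.prod_map_toList]
            congr 1
            refine List.map_congr_left fun j _ => ?_
            exact (ariC_P_main d₀ col Q j).symm
          · refine Or.inr (Or.inr (Or.inl ?_))
            rw [List.map_map, ariF_uni d₀ (Q.sc i) (Q.ch i) (Q.X i) Q.X h h'',
              ← Finset.sum_map_toList]
            congr 1
            refine List.map_congr_left fun j hj => ?_
            rw [Finset.mem_toList] at hj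
            rw [← h' j hj]
            exact (ariC_P_main d₀ col Q j).symm
    · rw [ariC_ch_col d₀ col Q i k hk]
      refine ⟨fun j hj => absurd hj List.not_mem_nil, ?_⟩
      rcases ariC_P_col d₀ col Q i k hk with ⟨v', -, -, h3⟩ | ⟨-, h2⟩
      · exact Or.inr (Or.inl ⟨rfl, _, h3⟩)
      · exact Or.inl ⟨rfl, 0, by rw [h2, map_zero]⟩
  · change (ariC d₀ col Q).P ((Fintype.card D + 1) * Q.out + Fintype.card D) = _
    rw [ariC_P_main, hout, ariF_univ]

end Pool.Agent.EXB
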