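import Mathlib

/-!
# EXB: the exact base of pathwidth and treewidth for counting list homomorphisms, unconditionally
in the model of union / product circuits.   Text: team store HUNT2_EXB.md.
-/

set_option autoImplicit false

namespace Pool.Agent.EXB

/-- walks of length `n` in the relation `H` -/
def Wk {D : Type} (H : D → D → Prop) : ℕ → D → D → Prop
  | 0, a, b => a = b
  | n + 1, a, b => ∃ c, H a c ∧ Wk H n c b

/-- any two colours of `S` are joined by a walk of even length, and different colours of `S` have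
different neighbourhoods -/
def Irr {D : Type} (H : D → D → Prop) (S : Finset D) : Prop :=
  ∀ a ∈ S, ∀ b ∈ S, (∃ n, Wk H (2 * n) a b) ∧ (a ≠ b → ∃ t, ¬ (H a t ↔ H b t))

open Classical in
/-- the largest size of such a set -/
noncomputable def irr {D : Type} [Fintype D] (H : D → D → Prop) : ℕ :=
  ((Finset.univ : Finset (Finset D)).filter fun S => Irr H S).sup Finset.card

/-- list homomorphisms -/
def Hom {V D : Type} (H : D → D → Prop) (G : SimpleGraph V) (L : V → Set D) : Set (V → D) :=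
  {f | (∀ v, f v ∈ L v) ∧ ∀ u v, G.Adj u v → H (f u) (f v)}

/-- `X` depends only on the variables in `A` -/
def DepOn {V D : Type} (A : Finset V) (X : Set (V → D)) : Prop :=
  ∀ f g : V → D, (∀ v ∈ A, f v = g v) → f ∈ X → g ∈ X

/-- a circuit: gates `0, ..., n - 1` with scopes, sets of assignments, and finite sets of inputs -/
structure Circ (V D : Type) where
  n : ℕ
  sc : ℕ → Finset V
  X : ℕ → Set (V → D)
  ch : ℕ → Finset ℕ
  out : ℕ

namespace Circ

variable {V D : Type}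

/-- gates and wires -/
def size (C : Circ V D) : ℕ := C.n + ∑ i ∈ Finset.range C.n, (C.ch i).card

/-- gate `i` is a leaf on at most `k` variables -/
def IsLeaf (C : Circ V D) (k i : ℕ) : Prop :=
  C.ch i = ∅ ∧ (C.sc i).card ≤ k ∧ DepOn (C.sc i) (C.X i)

/-- gate `i` is the union of its inputs -/
def IsUni (C : Circ V D) (i : ℕ) : Prop := ∀ f, f ∈ C.X i ↔ ∃ j ∈ C.ch i, f ∈ C.X j

/-- gate `i` is the product of its inputs, whose scopes are pairwise disjoint -/
def IsPro (C : Circ V D) (i : ℕ) : Prop :=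
  (∀ j ∈ C.ch i, ∀ j' ∈ C.ch i, j ≠ j' → Disjoint (C.sc j) (C.sc j')) ∧
    ∀ f, f ∈ C.X i ↔ ∀ j ∈ C.ch i, f ∈ C.X j

/-- union / product circuit with leaves on at most `k` variables -/
def Ok (C : Circ V D) (k : ℕ) : Prop :=
  C.out < C.n ∧ ∀ i < C.n, (∀ j ∈ C.ch i, j < i ∧ C.sc j ⊆ C.sc i) ∧
    (C.IsLeaf k i ∨ C.IsUni i ∨ C.IsPro i)

/-- deterministic and smooth: every gate is a leaf, a disjoint union of inputs with the same
scope as the gate, or a product of inputs whose scopes cover the scope of the gate -/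
def Det (C : Circ V D) (k : ℕ) : Prop :=
  ∀ i < C.n, C.IsLeaf k i ∨
    (C.IsPro i ∧ ∀ v ∈ C.sc i, ∃ j ∈ C.ch i, v ∈ C.sc j) ∨
    (C.IsUni i ∧ (∀ j ∈ C.ch i, C.sc j = C.sc i) ∧
      ∀ j ∈ C.ch i, ∀ j' ∈ C.ch i, j ≠ j' → Disjoint (C.X j) (C.X j'))

end Circ

/-- a monotone arithmetic circuit: gates `0, ..., n - 1` with polynomials in the variables `(v, a)`
with nonnegative real coefficients, and lists of inputs -/
structure Arith (V D : Type) where
  n : ℕ
  P : ℕ → MvPolynomial (V × D) NNReal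
  ch : ℕ → List ℕ
  out : ℕ

namespace Arith

variable {V D : Type}

/-- gates and wires -/
def size (A : Arith V D) : ℕ := A.n + ∑ i ∈ Finset.range A.n, (A.ch i).length

/-- every gate is a nonnegative constant, a variable, or the sum or the product of its inputs -/
def Ok (A : Arith V D) : Prop :=
  A.out < A.n ∧ ∀ i < A.n, (∀ j ∈ A.ch i, j < i) ∧
    ((A.ch i = [] ∧ ∃ c, A.P i = MvPolynomial.C c) ∨
      (A.ch i = [] ∧ ∃ p, A.P i = MvPolynomial.X p) ∨
      A.P i = ((A.ch i).map A.P).sum ∨ A.P i = ((A.ch i).map A.P).prod)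

end Arith

/-- the exponents of the monomial `∏ v, x (v, f v)` -/
noncomputable def mono {V D : Type} [Fintype V] (f : V → D) : (V × D) →₀ ℕ :=
  ∑ v, Finsupp.single (v, f v) 1

/-- path decomposition of width at most `m` -/
def PathDec {V : Type} (G : SimpleGraph V) (m : ℕ) : Prop :=
  ∃ bag : ℕ → Finset V, (∀ i, (bag i).card ≤ m + 1) ∧ (∀ v, ∃ i, v ∈ bag i) ∧
    (∀ u v, G.Adj u v → ∃ i, u ∈ bag i ∧ v ∈ bag i) ∧
    ∀ v i j k, i ≤ j → j ≤ k → v ∈ bag i → v ∈ bag k → v ∈ bag j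

/-- tree decomposition with nodes `0, ..., N - 1` and width at most `t`: `par i` is the parent of
`i` (larger than `i`; nodes with `N ≤ par i` are roots), `top v` is the highest node of `v` -/
structure TreeDec {V : Type} (G : SimpleGraph V) (N t : ℕ) where
  bag : ℕ → Finset V
  par : ℕ → ℕ
  top : V → ℕ
  par_lt : ∀ i, i < par i
  card_le : ∀ i, (bag i).card ≤ t + 1
  top_lt : ∀ v, top v < N
  top_mem : ∀ v, v ∈ bag (top v)
  edge : ∀ u v, G.Adj u v → ∃ i < N, u ∈ bag i ∧ v ∈ bag i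
  up : ∀ v i, i < N → v ∈ bag i → i ≠ top v → par i < N ∧ v ∈ bag (par i)

/-- independent sets: everything is allowed but two ones -/
def IndSet (a b : Bool) : Prop := ¬ (a = true ∧ b = true)

/-- THE LOWER BOUND (homomorphisms without lists) -/
def Lower : Prop :=
  ∀ (D : Type) [Fintype D] [Nonempty D] (H : D → D → Prop), (∀ a b, H a b → H b a) →
    ∃ C : ℕ, ∀ w : ℕ, 1 ≤ w → ∃ (V : Type) (_ : Fintype V) (G : SimpleGraph V)
      (μ : (V → D) → ℝ), Fintype.card V ≤ C * w ^ 4 ∧ (∀ v, (G.neighborSet v).ncard ≤ C) ∧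
      G.Connected ∧ PathDec G (w + C) ∧ (∀ f, 0 ≤ μ f) ∧
      (∀ f, f ∉ Hom H G (fun _ => Set.univ) → μ f = 0) ∧ (∑ᶠ f, μ f = 1) ∧
      ∀ Q : Circ V D, Q.Ok (w ^ 3) → Q.X Q.out ⊆ Hom H G (fun _ => Set.univ) →
        (∑ᶠ f ∈ Q.X Q.out, μ f) * (irr H : ℝ) ^ w ≤ 2 * Q.size

/-- THE UPPER BOUND -/
def Upper : Prop :=
  ∀ (D : Type) [Fintype D] [Nonempty D] (H : D → D → Prop), (∀ a b, H a b → H b a) →
    ∃ C : ℕ, ∀ (V : Type) [Fintype V] (G : SimpleGraph V) (L : V → Set D) (N t : ℕ),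
      G.Connected → Nonempty (TreeDec G N t) →
      ∃ Q : Circ V D, Q.Ok 1 ∧ Q.Det 1 ∧ Q.sc Q.out = Finset.univ ∧ Q.X Q.out = Hom H G L ∧
        Q.size ≤ C * (Fintype.card V + N) * irr H ^ (t + 1)

end Pool.Agent.EXB
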