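import Mathlib
import Pool.Agent.EXB.Defs

/-!
# EXB: the graph of the lower bound and its measure; elementary lemmas on walks
-/

set_option autoImplicit false

namespace Pool.Agent.EXB

/-- vertices: `U r i` (rows), `V r i p` (between `U r i` and `U r (i+1)`), `Z k j` (connectors) -/
abbrev Vx (D : Type) (w K m : ℕ) : Type :=
  (Fin w × Fin (K + 1)) ⊕ (Fin w × Fin K × D × D) ⊕ (Fin K × Fin m)

/-- which rows the connector of column `k` joins, and its types -/
structure Lay (D : Type) (w K : ℕ) where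
  r1 : Fin K → Fin w
  r2 : Fin K → Fin w
  ty1 : Fin K → Option (D × D)
  ty2 : Fin K → Option (D × D)

section

variable {D : Type} {w K m : ℕ}

def U (m : ℕ) (r : Fin w) (i : Fin (K + 1)) : Vx D w K m := Sum.inl (r, i)

def Vv (m : ℕ) (r : Fin w) (i : Fin K) (p : D × D) : Vx D w K m := Sum.inr (Sum.inl (r, i, p))

def Zz (k : Fin K) (j : Fin m) : Vx D w K m := Sum.inr (Sum.inr (k, j))

/-- the connector of column `k` as a path `pos 0 = U (r1 k) k, pos (j+1) = Z k j,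
pos (m+1) = U (r2 k) k` -/
def pos (Y : Lay D w K) (m : ℕ) (k : Fin K) (j : ℕ) : Vx D w K m :=
  if j = 0 then U m (Y.r1 k) k.castSucc
  else if h : j - 1 < m then Zz k ⟨j - 1, h⟩ else U m (Y.r2 k) k.castSucc

inductive Rel (Y : Lay D w K) (m : ℕ) : Vx D w K m → Vx D w K m → Prop
  | uv (r : Fin w) (i : Fin K) (p : D × D) : Rel Y m (U m r i.castSucc) (Vv m r i p)
  | vu (r : Fin w) (i : Fin K) (p : D × D) : Rel Y m (Vv m r i p) (U m r i.succ)
  | cn (k : Fin K) (j : ℕ) (hj : j ≤ m) : Rel Y m (pos Y m k j) (pos Y m k (j + 1))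

/-- the graph -/
def Gr (Y : Lay D w K) (m : ℕ) : SimpleGraph (Vx D w K m) := SimpleGraph.fromRel (Rel Y m)

/-- NO LISTS: all lists are everything (`S` is a dummy argument) -/
def Li (_S : Finset D) : Vx D w K m → Set D := fun _ => Set.univ

/-- the assignment with row states `c` and connector values `g` -/
def asm (τ : D × D → D → D) (c : Fin w → D) (g : Fin K → Fin m → D) : Vx D w K m → D
  | Sum.inl (r, _) => c r
  | Sum.inr (Sum.inl (r, _, p)) => τ p (c r)
  | Sum.inr (Sum.inr (k, j)) => g k j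

/-- value at position `j` of the connector `k` with inner values `h` -/
def vl (Y : Lay D w K) (c : Fin w → D) (k : Fin K) (h : Fin m → D) (j : ℕ) : D :=
  if j = 0 then c (Y.r1 k)
  else if h' : j - 1 < m then h ⟨j - 1, h'⟩ else c (Y.r2 k)

/-- the admissible inner values of the connector `k` -/
def Gd (H : D → D → Prop) (τ : D × D → D → D) (Y : Lay D w K) (c : Fin w → D) (k : Fin K)
    (h : Fin m → D) : Prop :=
  (∀ j ≤ m, H (vl Y c k h j) (vl Y c k h (j + 1))) ∧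
    (∀ p, Y.ty1 k = some p → vl Y c k h 1 = τ p (c (Y.r1 k))) ∧
    (∀ p, Y.ty2 k = some p → vl Y c k h m = τ p (c (Y.r2 k)))

/-- the points with row states `c` -/
def Om (H : D → D → Prop) (τ : D × D → D → D) (Y : Lay D w K) (m : ℕ) (c : Fin w → D) :
    Set (Vx D w K m → D) :=
  {f | ∃ g : Fin K → Fin m → D, (∀ k, Gd H τ Y c k (g k)) ∧ f = asm τ c g}

end

/-- the two properties of `τ` -/
def Tau {D : Type} (H : D → D → Prop) (S : Finset D) (τ : D × D → D → D) : Prop :=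
  (∀ p, ∀ e ∈ S, H e (τ p e)) ∧
    ∀ s ∈ S, ∀ s' ∈ S, (∃ t, H s' t ∧ ¬ H s t) → ¬ H s (τ (s, s') s')

/-- `M` is a mixing length -/
def Mixes {D : Type} (H : D → D → Prop) (M : ℕ) : Prop :=
  ∀ a b n₀ n, Wk H n₀ a b → (∃ x, H a x) → M ≤ n → n % 2 = n₀ % 2 → Wk H n a b

/-- average over the row states `c ∈ S ^ w` of the uniform probability on `Om c` -/
noncomputable def mu {D : Type} [Fintype D] {w K : ℕ} (H : D → D → Prop) (S : Finset D)
    (τ : D × D → D → D) (Y : Lay D w K) (m : ℕ) (f : Vx D w K m → D) : ℝ :=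
  ∑ᶠ c ∈ {c : Fin w → D | (∀ r, c r ∈ S) ∧ f ∈ Om H τ Y m c},
    1 / ((S.card : ℝ) ^ w * ((Om H τ Y m c).ncard : ℝ))

/-- `R` is closed under mixing along `A` -/
def MixCl {V D : Type} (A : Finset V) (R : Set (V → D)) : Prop :=
  ∀ f ∈ R, ∀ g ∈ R, ∀ h : V → D, (∀ v ∈ A, h v = f v) → (∀ v, v ∉ A → h v = g v) → h ∈ R

/-- at most one state of the row `r` occurs in `R` -/
def One {D : Type} {w K m : ℕ} (H : D → D → Prop) (S : Finset D) (τ : D × D → D → D)
    (Y : Lay D w K) (R : Set (Vx D w K m → D)) (r : Fin w) : Prop :=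
  ∀ c c' : Fin w → D, (∀ r, c r ∈ S) → (∀ r, c' r ∈ S) →
    (R ∩ Om H τ Y m c).Nonempty → (R ∩ Om H τ Y m c').Nonempty → c r = c' r

/-- context of a gate -/
inductive Ctx {V D : Type} (C : Circ V D) : ℕ → (V → D) → Prop
  | out (f : V → D) : Ctx C C.out f
  | uni (i j : ℕ) (f : V → D) : i < C.n → j ∈ C.ch i → C.IsUni i → Ctx C i f → Ctx C j f
  | pro (i j : ℕ) (f : V → D) : i < C.n → j ∈ C.ch i → C.IsPro i →
      (∀ j' ∈ C.ch i, j' ≠ j → f ∈ C.X j') → Ctx C i f → Ctx C j f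

/-- the rectangle of a gate -/
def Rc {V D : Type} (C : Circ V D) (j : ℕ) : Set (V → D) := {f | f ∈ C.X j ∧ Ctx C j f}

theorem Wk.add {D : Type} {H : D → D → Prop} : ∀ {m n : ℕ} {a b c : D},
    Wk H m a b → Wk H n b c → Wk H (m + n) a c
  | 0, n, a, b, c, h1, h2 => by
      rw [Wk] at h1
      subst h1
      simpa using h2
  | m + 1, n, a, b, c, h1, h2 => by
      obtain ⟨d, hd, h1⟩ := h1
      rw [Nat.succ_add]
      exact ⟨d, hd, Wk.add h1 h2⟩

theorem Wk.split {D : Type} {H : D → D → Prop} : ∀ {m n : ℕ} {a c : D},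
    Wk H (m + n) a c → ∃ b, Wk H m a b ∧ Wk H n b c
  | 0, n, a, c, h => ⟨a, rfl, by simpa using h⟩
  | m + 1, n, a, c, h => by
      rw [Nat.succ_add] at h
      obtain ⟨d, hd, h⟩ := h
      obtain ⟨b, h1, h2⟩ := Wk.split h
      exact ⟨b, ⟨d, hd, h1⟩, h2⟩

theorem Wk.one {D : Type} {H : D → D → Prop} {a b : D} (h : H a b) : Wk H 1 a b := ⟨b, h, rfl⟩

theorem Wk.symm {D : Type} {H : D → D → Prop} (hH : ∀ a b, H a b → H b a) :
    ∀ {n : ℕ} {a b : D}, Wk H n a b → Wk H n b a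
  | 0, a, b, h => (show a = b from h).symm
  | n + 1, a, b, h => by
      obtain ⟨d, hd, h⟩ := h
      have := Wk.add (Wk.symm hH h) (Wk.one (hH _ _ hd))
      exact this

theorem Wk.pad {D : Type} {H : D → D → Prop} (hH : ∀ a b, H a b → H b a) {n : ℕ} {a b x : D}
    (hx : H a x) (h : Wk H n a b) : Wk H (n + 2) a b :=
  ⟨x, hx, a, hH _ _ hx, h⟩

end Pool.Agent.EXB
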