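import Mathlib
import Pool.Agent.EXB.Base

/-!
# EXB: statements of the modules.   Paper text: team store HUNT2_EXB.md.

Convention: `H` is a symmetric relation on a finite type `D`.  Everything is elementary; use
`classical` freely.  Module `X` goes to `Pool/Agent/EXB/X.lean`, theorem `EXB.thm_X : St_X`.
-/

set_option autoImplicit false

namespace Pool.Agent.EXB

/-! ## Pure part (relation `H` only) -/

/-- [Mix] MIXING LENGTH.  For every pair `a, b` and every parity choose the shortest walk of that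
parity; let `M` be the maximum of their lengths (finitely many pairs).  A longer walk of the same
parity exists by `Wk.pad` (go back and forth at `a`). -/
def St_Mix : Prop := ∀ (D : Type) [Fintype D] (H : D → D → Prop), (∀ a b, H a b → H b a) →
  ∃ M, Mixes H M

/-- [Key] With `P n a = {x : Wk H n a x}`.  `Z ⊇ P J a`, `Z' ⊇ P (J+1) a`, `Z × Z' ⊆ H`, some
`x ∈ Z` with `Wk H J a' x`, `b ∈ N(a) \ N(a')`, and two vertices `s, d` at even distance,
reachable from `a`, with different neighbourhoods: impossible.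
J = 0: `x = a'` (as `Wk H 0 a' x`), `b ∈ P 1 a ⊆ Z'`, so `H a' b`.  Contradiction.
J = 1: `P 1 a × P 2 a ⊆ H`.  `a ∈ P 2 a` (go to `b` and back), `x ∈ Z`, so `H x a`, so
`x ∈ P 1 a`.  `H a' x`, so `H x a'`, so `a' ∈ P 2 a ⊆ Z'`; `b ∈ P 1 a ⊆ Z`; so `H b a'`, `H a' b`.
J ≥ 2: for `x ∈ P J a`: `N(x) = P (J+1) a` (⊆ clear, ⊇ completeness).  `P (J-2) a ⊆ P J a` (pad
at the end or at `a`; `P (J-2) a` is nonempty), so
`P (J-1) a = ∪ N(x), x ∈ P (J-2) a, = P (J+1) a`.  Let `A = P J a`, `B = P (J+1) a`.  Every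
vertex of `A` has neighbourhood `B`.  A vertex `y ∈ B = P (J-1) a` has `N(y) ⊆ P J a = A`, and it
is adjacent to all of `A`; so `N(y) = A`.  Walks from `A ∪ B` stay inside, even walks keep the
side.  `a` reaches `A` (`b` exists, so walks of every length start at `a`), so by symmetry
`a ∈ A ∪ B`, `s ∈ A ∪ B`, `d` on the same side as `s`, so `N(s) = N(d)`.  Contradiction. -/
def St_Key : Prop := ∀ (D : Type) (H : D → D → Prop), (∀ a b, H a b → H b a) →
  ∀ (J : ℕ) (a a' b s d t x : D) (Z Z' : Set D) (n₀ n₁ : ℕ),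
    (∀ u ∈ Z, ∀ v ∈ Z', H u v) → (∀ u, Wk H J a u → u ∈ Z) → (∀ v, Wk H (J + 1) a v → v ∈ Z') →
    x ∈ Z → Wk H J a' x → H a b → ¬ H a' b →
    Wk H n₀ a s → Wk H (2 * n₁) s d → ¬ (H s t ↔ H d t) → False

/-- [Wal] A MISSING WALK.  `a, e` = values at the two ends, `a', e'` = values at the ends for two
other points; cut between position `J` and `J + 1`, `J' ` = distance of position `J + 1` to the
end.  If all walks `z` from `a` to `e` of length `J + 1 + J'` had `z J ∈ Z`, `z (J+1) ∈ Z'`, and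
(say) `M ≤ J'`, then `Z ⊇ P J a`, `Z' ⊇ P (J+1) a`: a walk `a → u` of length `J` is continued by
an edge `u - v` (`u` has a neighbour: if `J = 0` then `u = a`, otherwise its predecessor) and by a
walk `v → e` of length `J'`, which exists by `Mixes` since `v → u → a → e` has the right parity
(use the walk `a → e` of length `n₀`, `n₀ % 2 = (J + 1 + J') % 2`); now [Key].  If `M ≤ J`
instead: the mirror image (walk `n ↦ z (J+1+J'-n)`, exchange `Z` and `Z'`, `a` and `e`). -/
def St_Wal : Prop := ∀ (D : Type) (H : D → D → Prop), (∀ a b, H a b → H b a) →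
  ∀ (M J J' : ℕ) (a a' b s d t e e' b' s' d' t' x y : D) (Z Z' : Set D) (n₀ n₁ n₂ n₃ n₄ : ℕ),
    Mixes H M → 2 * M + 1 ≤ J + 1 + J' → (∀ u ∈ Z, ∀ v ∈ Z', H u v) →
    Wk H n₀ a e → n₀ % 2 = (J + 1 + J') % 2 →
    x ∈ Z → Wk H J a' x → H a b → ¬ H a' b →
    Wk H n₁ a s → Wk H (2 * n₂) s d → ¬ (H s t ↔ H d t) →
    y ∈ Z' → Wk H J' e' y → H e b' → ¬ H e' b' →
    Wk H n₃ e s' → Wk H (2 * n₄) s' d' → ¬ (H s' t' ↔ H d' t') →
    ∃ z : ℕ → D, z 0 = a ∧ z (J + 1 + J') = e ∧ (∀ i < J + 1 + J', H (z i) (z (i + 1))) ∧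
      ¬ (z J ∈ Z ∧ z (J + 1) ∈ Z')

/-- [Tau] choice of `τ`.  Every `e ∈ S` has a neighbour: `S` has another element `e'`, which is
joined to `e` by an even walk, of positive length as `e ≠ e'`.  For `s, s' ∈ S` with some
`t ∈ N(s') \ N(s)` put `τ (s,s') s' = t`; all other values: any neighbour. -/
def St_Tau : Prop := ∀ (D : Type) (H : D → D → Prop), (∀ a b, H a b → H b a) →
  ∀ S : Finset D, Irr H S → 2 ≤ S.card → ∃ τ : D × D → D → D, Tau H S τ

/-! ## The graph -/

/-- [Pdc] PATH DECOMPOSITION.  For `t = w * k + r` (`k < K`, `r < w`) the bag is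
`U(r',k+1), r' ≤ r; U(r',k), r' ≥ r; V(r,k,p), all p; Z(k,j), all j; U(r1 k,k), U(r2 k,k)`:
at most `w + 1 + |D|^2 + m + 2` elements.  For `t ≥ w K` the bag is empty.
Edges: `U(r,k) - V(r,k,p) - U(r,k+1)` in bag `(k,r)`; connector `k` in every bag `(k,r)`.
The times of `U(r,k)`: from `(k-1,r)` (or `(0,0)` if `k = 0`) to `(k,r)`, or to `(k,w-1)` if
`r ∈ {r1 k, r2 k}` (nothing of column `K`): an interval. -/
def St_Pdc : Prop := ∀ (D : Type) [Fintype D] (w K m : ℕ) (Y : Lay D w K), 1 ≤ w → 1 ≤ K →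
  1 ≤ m → PathDec (Gr Y m) (w + (Fintype.card D ^ 2 + m + 3))

/-- [Dgr] DEGREES.  `U(r,i)`: `V(r,i,p)`, `V(r,i-1,p)`, and at most 2 vertices `Z(i,0)`,
`Z(i,m-1)`; `V`: 2; `Z`: 2. -/
def St_Dgr : Prop := ∀ (D : Type) [Fintype D] (w K m : ℕ) (Y : Lay D w K), 1 ≤ m →
  ∀ v, ((Gr Y m).neighborSet v).ncard ≤ 2 * Fintype.card D ^ 2 + 2

/-! ## The measure -/

/-- [Omg] THE POINTS.  (1) every `asm τ c g` with admissible `g` is a homomorphism (`Li S` is
everything, there are no lists);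
(2) `asm τ c g ∈ Om c` iff all `g k` are admissible (`asm τ c` is injective in `g`);
(3) admissible inner values exist (`m = 2 M + 3`, so `m + 1` is even; the walk `τ_p(c r1) → τ_q(c r2)` of
the remaining length exists by `Mixes`; parity: `c r1` and `c r2` are joined by an even walk);
(4) hence the size of `Om c` is the product over `k` of the numbers of admissible `h`;
(5) for any predicates `B k` on `Fin m → D`: the number of `f ∈ Om c` all of whose connector
values satisfy `B` is the product of the numbers of admissible `h` with `B k h`. -/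
def St_Omg : Prop := ∀ (D : Type) [Fintype D] (H : D → D → Prop), (∀ a b, H a b → H b a) →
  ∀ (S : Finset D) (τ : D × D → D → D) (w K M : ℕ) (Y : Lay D w K), Irr H S → 2 ≤ S.card →
    Tau H S τ → Mixes H M → ∀ c : Fin w → D, (∀ r, c r ∈ S) →
    Om H τ Y (2 * M + 3) c ⊆ Hom H (Gr Y (2 * M + 3)) (Li S) ∧
    (∀ k, ∃ h : Fin (2 * M + 3) → D, Gd H τ Y c k h) ∧
    ∀ B : Fin K → (Fin (2 * M + 3) → D) → Prop,
      {f | ∃ g : Fin K → Fin (2 * M + 3) → D, (∀ k, Gd H τ Y c k (g k) ∧ B k (g k)) ∧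
        f = asm τ c g}.ncard = ∏ k, {h : Fin (2 * M + 3) → D | Gd H τ Y c k h ∧ B k h}.ncard

/-- [Mea] THE MEASURE.  From [Omg] (each `Om c` nonempty, `Om c` and `Om c'` disjoint for `c ≠ c'`
as `U r 0` has value `c r`).  (a) `mu ≥ 0`; (b) `mu f = 0` unless `f ∈ Hom`; (c) total mass 1;
(d) a set in which all rows have at most one state has mass `≤ q^(-w)`; (e) if
`|R ∩ Om c| ≤ δ |Om c|` for all `c` then the mass of `R` is `≤ δ`. -/
def St_Mea : Prop := ∀ (D : Type) [Fintype D] (H : D → D → Prop), (∀ a b, H a b → H b a) →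
  ∀ (S : Finset D) (τ : D × D → D → D) (w K M : ℕ) (Y : Lay D w K), Irr H S → 2 ≤ S.card →
    Tau H S τ → Mixes H M →
    (∀ f, 0 ≤ mu H S τ Y (2 * M + 3) f) ∧
    (∀ f, f ∉ Hom H (Gr Y (2 * M + 3)) (Li S) → mu H S τ Y (2 * M + 3) f = 0) ∧
    (∑ᶠ f, mu H S τ Y (2 * M + 3) f = 1) ∧
    (∀ f, mu H S τ Y (2 * M + 3) f ≠ 0 → ∃ c : Fin w → D, (∀ r, c r ∈ S) ∧
      f ∈ Om H τ Y (2 * M + 3) c) ∧
    (∀ R : Set (Vx D w K (2 * M + 3) → D), (∀ r, One H S τ Y R r) →
      (∑ᶠ f ∈ R, mu H S τ Y (2 * M + 3) f) * (S.card : ℝ) ^ w ≤ 1) ∧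
    (∀ (R : Set (Vx D w K (2 * M + 3) → D)) (δ : ℝ), 0 ≤ δ →
      (∀ c : Fin w → D, (∀ r, c r ∈ S) →
        ((R ∩ Om H τ Y (2 * M + 3) c).ncard : ℝ) ≤ δ * (Om H τ Y (2 * M + 3) c).ncard) →
      ∑ᶠ f ∈ R, mu H S τ Y (2 * M + 3) f ≤ δ)

/-! ## Rows -/

/-- [Row] (1) CUT ROWS.  `f ∈ R ∩ Om c`, `f' ∈ R ∩ Om c'`, `c r = s ≠ s' = c' r`.  `N(s) ≠ N(s')`,
so (exchange the two points) there is `t ∈ N(s') \ N(s)`; `p = (s,s')`, `v = V(r,i,p)`,
`T = τ p s' `, not adjacent to `s`.  Case `U(r,i) ∈ A`, `U(r,i+1) ∉ A`: if `v ∈ A` take `f'` on `A`,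
`f` outside: `v = T`, `U(r,i+1) = s`: no edge; if `v ∉ A` take `f` on `A`, `f'` outside:
`U(r,i) = s`, `v = T`.  The other orientation is the same with `i` and `i+1` exchanged.
(2) FREE ROWS.  If changing the value of `U(r,0)` alone keeps `R` inside `R`: with the same
same letters take `f'` and change `U(r,0)` to `s`: adjacent to `V(r,0,p) = T`.  Needs `1 ≤ K`. -/
def St_Row : Prop := ∀ (D : Type) [Fintype D] (H : D → D → Prop), (∀ a b, H a b → H b a) →
  ∀ (S : Finset D) (τ : D × D → D → D) (w K m : ℕ) (Y : Lay D w K), Irr H S → Tau H S τ →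
    1 ≤ m → ∀ (R : Set (Vx D w K m → D)), R ⊆ Hom H (Gr Y m) (Li S) →
    (∀ (A : Finset (Vx D w K m)) (r : Fin w) (i : Fin K), MixCl A R →
      ((U m r i.castSucc ∈ A ∧ U m r i.succ ∉ A) ∨ (U m r i.castSucc ∉ A ∧ U m r i.succ ∈ A)) →
      One H S τ Y R r) ∧
    (1 ≤ K → ∀ r : Fin w, (∀ f ∈ R, ∀ g : Vx D w K m → D,
      (∀ v, v ≠ U m r 0 → g v = f v) → g ∈ R) → One H S τ Y R r)

/-- [Neg] NEGLIGIBLE RECTANGLES.  `R ⊆ Hom` closed under mixing along `A`, row `r` inside `A`,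
row `r'` outside `A`, both with two states in `R`.  Then
`|R ∩ Om c| ≤ (1 - |D|^(-m))^L |Om c|` for all `c`, if every `(r, r', α, β)` is the type of at
least `L` connectors.
Proof.  Fix `c`; may assume `R ∩ Om c` nonempty; `s = c r`, `e = c r'`.  There is a point
`f₁ ∈ R ∩ Om c₁` with `d = c₁ r ≠ s` and `f₂ ∈ R ∩ Om c₂` with `d' = c₂ r' ≠ e`; `f₀ ∈ R ∩ Om c`.
`α = none` if `N(s) ⊄ N(d)`: then `a = s, a' = d`.  Otherwise (so `N(s) ⊊ N(d)`)
`α = some (s,d)`: `a = τ(s,d) s`, `a' = τ(s,d) d`: `s ∈ N(a)`, `s ∉ N(a')` by (T2).  `β, e`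
likewise.  Let `k` be a connector of the type `(r, r', α, β)`, position `o = 0` or `1` of `a`,
position `o' = m + 1` or `m` of `e`.  `pos o ∈ A`: clear for `α = none`; for `α = some (s,d)`: if
`pos 1 ∉ A`, mix `f₀` on `A` with `f₁` outside: `U = s` next to `τ(s,d) d`, contradiction with
(T2).  `pos o' ∉ A` in the same way (`f₂` on `A`, `f₀` outside).  So there is `j` with
`o ≤ j < o'`, `pos j ∈ A`, `pos (j+1) ∉ A`.  `Z = {f (pos j) : f ∈ R}`,
`Z' = {f (pos (j+1)) : f ∈ R}`: `Z × Z' ⊆ H` by mixing.  [Wal] with `J = j - o`,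
`J' = o' - (j+1)`, `x = f₁ (pos j)`, `y = f₂ (pos (j+1))` (walks from `a'`, to `e'` along the
connector), `m = 2 M + 3` gives an admissible `h` whose walk is not in `Z × Z'` at `j`.  So
the points of `R ∩ Om c` miss one of the at most `|D|^m` admissible `h` at each of the `L`
connectors: factor `1 - 1/|D|^m` each, by the product formula of [Omg]. -/
def St_Neg : Prop := St_Wal → St_Omg → ∀ (D : Type) [Fintype D] (H : D → D → Prop),
  (∀ a b, H a b → H b a) →
  ∀ (S : Finset D) (τ : D × D → D → D) (w K M L : ℕ) (Y : Lay D w K), Irr H S → 2 ≤ S.card →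
    Tau H S τ → Mixes H M → ∀ (r r' : Fin w),
    (∀ α β, L ≤ {k | Y.r1 k = r ∧ Y.r2 k = r' ∧ Y.ty1 k = α ∧ Y.ty2 k = β}.ncard) →
    ∀ (R : Set (Vx D w K (2 * M + 3) → D)) (A : Finset (Vx D w K (2 * M + 3))),
    R ⊆ Hom H (Gr Y (2 * M + 3)) (Li S) → MixCl A R →
    (∀ i, U (2 * M + 3) r i ∈ A) → (∀ i, U (2 * M + 3) r' i ∉ A) →
    ¬ One H S τ Y R r → ¬ One H S τ Y R r' →
    ∀ c : Fin w → D, (∀ r, c r ∈ S) →
      ((R ∩ Om H τ Y (2 * M + 3) c).ncard : ℝ) ≤
        (1 - 1 / (Fintype.card D : ℝ) ^ (2 * M + 3)) ^ L * (Om H τ Y (2 * M + 3) c).ncard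

/-! ## Circuits -/

/-- [Rec] RECTANGLES OF GATES (any circuit).  (1) `X i` depends only on `sc i` (induction on
`i`); (2) `Ctx i` depends only on the variables outside `sc i` (induction on `Ctx`; for a
product: `X j'` depends on `sc j'`, disjoint from `sc j`, so `f, g` which agree outside `sc j`
agree on `sc j'`); (3) `f ∈ X i`, `Ctx i f` imply `f ∈ X out` (induction on `Ctx`);
(4) so `Rc C i` is closed under mixing along `sc i`. -/
def St_Rec : Prop := ∀ (V D : Type) (C : Circ V D) (k : ℕ), C.Ok k →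
  (∀ i < C.n, DepOn (C.sc i) (C.X i)) ∧
  (∀ i f g, (∀ v, v ∉ C.sc i → f v = g v) → Ctx C i f → Ctx C i g) ∧
  (∀ i, Rc C i ⊆ C.X C.out) ∧
  (∀ i, Ctx C i ≤ fun _ => i < C.n) ∧
  (∀ i < C.n, MixCl (C.sc i) (Rc C i))

/-- [Ind] THE WALK BY STATES (abstract form; `rows r` = the finite nonempty set of the vertices
`U(r,i)`, `P R r` = at most one state, decreasing in `R`).  Hypotheses: (cut) if `R ⊆ X out` is
closed under mixing along `A` and row `r` meets `A` and its complement then `P R r`; (free) if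
changing any values on row `r` keeps `R` (contained in `X out`) then `P R r`; leaves have fewer
variables than every row.  Call a rectangle NEGLIGIBLE if some row inside `sc j` and some row
outside `sc j` both fail `P`.  Then every `f ∈ X out` lies in a negligible `Rc j`, or in a
rectangle `Rc j` with `P` for all rows, or in `Rc i ∩ X j`, `j ∈ ch i`, with `P` for all rows.
Proof.  Claim by strong induction on `j < n`: if `f ∈ Rc j`, `f` in no negligible rectangle, and
`P (Rc j) r` for all rows `r` outside `sc j`, then the conclusion holds.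
Rows which are neither inside nor outside `sc j` satisfy `P (Rc j) r` by (cut).
Leaf: no row is inside, so all rows satisfy `P`.
Product, and some input `j'` has a row inside `sc j'` without `P (Rc j')`: as `f ∈ Rc j'` and
`Rc j'` is not negligible, the rows outside `sc j'` satisfy `P (Rc j')`: induction.
Product otherwise: `Rc j ⊆ Rc j'` for each input.  Row `r`: inside some `sc j'`: `P (Rc j')`,
monotone; meeting some `sc j'` and its complement: (cut) for `Rc j'`, monotone; disjoint from all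
`sc j'`: if outside or cut by `sc j`: known; if inside `sc j`: `Rc j` does not depend on it
(`X j` is the intersection of the `X j'`, `Ctx j` depends on variables outside `sc j`): (free).
Union: some input `j'` has `f ∈ X j'`, so `f ∈ Rc j'`.  If `P (Rc j') r` for all rows outside
`sc j'`: induction.  Otherwise, `Rc j'` not being negligible, all rows inside `sc j'` have
`P (Rc j')`.  `T = Rc j ∩ X j' ⊆ Rc j'`, `T ⊆ Rc j`.  Row inside or cut by `sc j'`: `P (Rc j')`,
monotone.  Row disjoint from `sc j'`: outside or cut by `sc j`: `P (Rc j)`, monotone; inside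
`sc j`: `T` does not depend on it: (free).
Start: `j = out`: `Ctx out` is everything, so rows outside `sc out` are free for `Rc out = X out`. -/
def St_Ind : Prop := St_Rec → ∀ (V D : Type) (C : Circ V D) (k : ℕ), C.Ok k →
  ∀ (ι : Type) (rows : ι → Finset V) (P : Set (V → D) → ι → Prop),
    (∀ R R' r, R ⊆ R' → P R' r → P R r) → (∀ r, k < (rows r).card) →
    (∀ R A r, R ⊆ C.X C.out → MixCl A R → (∃ u ∈ rows r, u ∈ A) → (∃ u ∈ rows r, u ∉ A) →
      P R r) →
    (∀ R r, R ⊆ C.X C.out → (∀ f ∈ R, ∀ g : V → D, (∀ v, v ∉ rows r → g v = f v) → g ∈ R) →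
      P R r) →
    ∀ f ∈ C.X C.out,
      (∃ j < C.n, f ∈ Rc C j ∧ ∃ r r', rows r ⊆ C.sc j ∧ Disjoint (rows r') (C.sc j) ∧
        ¬ P (Rc C j) r ∧ ¬ P (Rc C j) r') ∨
      (∃ j < C.n, f ∈ Rc C j ∧ ∀ r, P (Rc C j) r) ∨
      (∃ i < C.n, ∃ j ∈ C.ch i, f ∈ Rc C i ∩ C.X j ∧ ∀ r, P (Rc C i ∩ C.X j) r)

/-- [Fin] MASS OF A SMALL CIRCUIT.  By [Ind] (rows `U(r,·)`, `K + 1 > lf` vertices each, `P R r` =
`One R r`; (cut) from [Row] (1): a row which meets `A` and its complement has a consecutive cut;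
(free) from [Row] (2)) `X out` is covered by at most `n` negligible sets (mass `≤ δ` by [Neg] and
[Mea] (e), `δ = (1-|D|^(-m))^L`), at most `n` sets with one state everywhere and at most
`wires` more (mass `≤ q^(-w)` by [Mea] (d)). -/
def St_Fin : Prop := St_Wal → St_Omg → St_Mea → St_Row → St_Neg → St_Rec → St_Ind →
  ∀ (D : Type) [Fintype D] (H : D → D → Prop), (∀ a b, H a b → H b a) →
  ∀ (S : Finset D) (τ : D × D → D → D) (w K M L lf : ℕ) (Y : Lay D w K), Irr H S →
    2 ≤ S.card → Tau H S τ → Mixes H M → 1 ≤ w → lf ≤ K → 1 ≤ K →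
    (∀ r r' α β, L ≤ {k | Y.r1 k = r ∧ Y.r2 k = r' ∧ Y.ty1 k = α ∧ Y.ty2 k = β}.ncard) →
    (1 - 1 / (Fintype.card D : ℝ) ^ (2 * M + 3)) ^ L * (S.card : ℝ) ^ w ≤ 1 →
    ∀ Q : Circ (Vx D w K (2 * M + 3)) D, Q.Ok lf →
      Q.X Q.out ⊆ Hom H (Gr Y (2 * M + 3)) (Li S) →
      (∑ᶠ f ∈ Q.X Q.out, mu H S τ Y (2 * M + 3) f) * (S.card : ℝ) ^ w ≤ 2 * Q.size

/-- [Low] THE LOWER BOUND.  `irr H ≤ 1`: one vertex (or none), no edges, list everything, point
mass; `mass * irr^w ≤ 1 ≤ Q.n`.  `irr H = q ≥ 2`: `S` with `|S| = q`, `τ` ([Tau]), `M` ([Mix]),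
`m = 2 M + 3`, `C₀` with `(1 - |D|^(-m))^(C₀) * q ≤ 1`, `L = C₀ w`, columns `Fin K` in bijection
with `Fin w × Fin w × Option (D × D) × Option (D × D) × Fin L` (`Fintype.equivFin`), so
`K = w² (|D|²+1)² C₀ w ≥ w³` (`lf = w ^ 3`); number of vertices `w (K+1) + w K |D|² + K m ≤ C w⁴`. -/
def St_Low : Prop := St_Mix → St_Tau → St_Pdc → St_Dgr → St_Mea → St_Omg → St_Wal → St_Row →
  St_Neg → St_Rec → St_Ind → St_Fin → Lower

/-! ## The upper bound -/

/-- [Bld] BUILDING CIRCUITS from a finite set `I` of items with a rank: enumerate `I` by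
increasing rank (`Fintype.equivFin` after sorting by rank, or induction on `card I`). -/
def St_Bld : Prop := ∀ (V D I : Type) [Fintype I] (rk : I → ℕ) (sc : I → Finset V)
  (X : I → Set (V → D)) (ch : I → Finset I) (o : I),
  (∀ i, ∀ j ∈ ch i, rk j < rk i ∧ sc j ⊆ sc i) →
  (∀ i, (ch i = ∅ ∧ (sc i).card ≤ 1 ∧ DepOn (sc i) (X i)) ∨
    (((∀ j ∈ ch i, ∀ j' ∈ ch i, j ≠ j' → Disjoint (sc j) (sc j')) ∧
      ∀ f, f ∈ X i ↔ ∀ j ∈ ch i, f ∈ X j) ∧ ∀ v ∈ sc i, ∃ j ∈ ch i, v ∈ sc j) ∨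
    ((∀ f, f ∈ X i ↔ ∃ j ∈ ch i, f ∈ X j) ∧ (∀ j ∈ ch i, sc j = sc i) ∧
      ∀ j ∈ ch i, ∀ j' ∈ ch i, j ≠ j' → Disjoint (X j) (X j'))) →
  ∃ Q : Circ V D, Q.Ok 1 ∧ Q.Det 1 ∧ Q.sc Q.out = sc o ∧ Q.X Q.out = X o ∧
    Q.size = Fintype.card I + ∑ i, (ch i).card

/-- the neighbourhood of a colour -/
def nb {D : Type} (H : D → D → Prop) (a : D) : Set D := {b | H a b}

/-- the set of the neighbourhoods of the colours in a list -/
def nbs {D : Type} (H : D → D → Prop) (A : Set D) : Set (Set D) := nb H '' A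

section

variable {V D : Type} {G : SimpleGraph V} {N t : ℕ}

open Classical in
/-- bag vertices which also occur higher up -/
noncomputable def Old (T : TreeDec G N t) (i : ℕ) : Finset V :=
  (T.bag i).filter fun v => T.top v ≠ i

open Classical in
/-- bag vertices whose highest node is `i` -/
noncomputable def New (T : TreeDec G N t) (i : ℕ) : Finset V :=
  (T.bag i).filter fun v => T.top v = i

open Classical in
/-- restriction of a state -/
noncomputable def res (A : Finset V) (φ : V → Set D) : V → Set D := fun v => if v ∈ A then φ v else ∅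

/-- states on `A` -/
def IsSt (H : D → D → Prop) (L : V → Set D) (A : Finset V) (φ : V → Set D) : Prop :=
  (∀ v ∈ A, φ v ∈ nbs H (L v)) ∧ ∀ v, v ∉ A → φ v = ∅

/-- the state respects the edges of `G` inside `A` -/
def Vd (H : D → D → Prop) (G : SimpleGraph V) (A : Finset V) (φ : V → Set D) : Prop :=
  ∀ u ∈ A, ∀ v ∈ A, G.Adj u v → ∀ a b, nb H a = φ u → nb H b = φ v → H a b

/-- the leaf items -/
def LX (H : D → D → Prop) (L : V → Set D) (v : V) (σ : Set D) : Set (V → D) :=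
  {f | f v ∈ L v ∧ nb H (f v) = σ}

/-- the sets `A i ψ` (well-founded recursion on `i`) -/
noncomputable def AX (H : D → D → Prop) (L : V → Set D) (T : TreeDec G N t) :
    ℕ → (V → Set D) → Set (V → D)
  | i => fun ψ => {f | ∃ φ : V → Set D, IsSt H L (T.bag i) φ ∧ Vd H G (T.bag i) φ ∧
      res (Old T i) φ = ψ ∧ (∀ v ∈ New T i, f ∈ LX H L v (φ v)) ∧
      ∀ c : {c : ℕ // c < i}, T.par c.1 = i → f ∈ AX H L T c.1 (res (Old T c.1) φ)}
termination_by i => i
decreasing_by exact c.2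

/-- the sets `P i φ` -/
noncomputable def PX (H : D → D → Prop) (L : V → Set D) (T : TreeDec G N t) (i : ℕ)
    (φ : V → Set D) : Set (V → D) :=
  {f | (∀ v ∈ New T i, f ∈ LX H L v (φ v)) ∧
    ∀ c < i, T.par c = i → f ∈ AX H L T c (res (Old T c) φ)}

open Classical in
/-- the variables below `i`: `i` is `top v` or an ancestor of it -/
noncomputable def Sb [Fintype V] (T : TreeDec G N t) (i : ℕ) : Finset V :=
  Finset.univ.filter fun v => ∃ n, T.par^[n] (T.top v) = i

end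

/-- [Dya] DYNAMIC PROGRAMMING, SEMANTICS.  (1) `A i ψ` is the union of the `P i φ`, `φ` a valid
state on `bag i` with `res (Old i) φ = ψ` (unfold `AX`); (2) these are pairwise disjoint: `φ` is
`ψ` on `Old i` and `nb (f v)` on `New i`, `∅` outside `bag i`; (3) `A i ψ`, `P i φ` depend only
on `Sb i` (induction; `v ∈ New i` has `top v = i`; `Sb c ⊆ Sb i` if `par c = i`); (4) for
different children `c`, `c'` of `i`: `Sb c`, `Sb c'` disjoint, and `Sb c` contains no `v` with
`top v = i` (`par` is increasing, so the chain `par^[n] (top v)` is strictly increasing);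
(5) CORRECTNESS: `f ∈ Hom` iff `f ∈ A i ∅` for all roots `i` (`i < N ≤ par i`).  Forward: with
`φ_i v = nb (f v)` on `bag i`, `∅` outside, show `f ∈ A i (res (Old i) φ_i)` for all `i < N` by
strong induction (`Old c ⊆ bag (par c)` by `up`, `Old i = ∅` for a root).  Validity: a, b with
`nb a = nb (f u)`, `nb b = nb (f v)`, `H (f u) (f v)`: `f v ∈ nb a`, so `H a (f v)`,
`H (f v) a`, so `a ∈ nb (f v) = nb b`, `H b a`, `H a b`.  Backward: by strong DOWNWARD induction
on `i < N`: `f ∈ A i ψ_i` with `ψ_i v = nb (f v)` for `v ∈ Old i` (roots: `Old i = ∅`; child `c` of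
`i`: `Old c ⊆ bag i`, and the state `φ` found at `i` has `φ v = nb (f v)` on `bag i`).  So all
lists (at `top v`) and all edges ([edge], `Vd` with `a = f u`, `b = f v`) are respected. -/
def St_Dya : Prop := ∀ (V D : Type) [Fintype V] (H : D → D → Prop), (∀ a b, H a b → H b a) →
  ∀ (G : SimpleGraph V) (L : V → Set D) (N t : ℕ) (T : TreeDec G N t),
  (∀ i ψ f, f ∈ AX H L T i ψ ↔ ∃ φ, IsSt H L (T.bag i) φ ∧ Vd H G (T.bag i) φ ∧
    res (Old T i) φ = ψ ∧ f ∈ PX H L T i φ) ∧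
  (∀ i φ φ', IsSt H L (T.bag i) φ → IsSt H L (T.bag i) φ' → res (Old T i) φ = res (Old T i) φ' →
    φ ≠ φ' → Disjoint (PX H L T i φ) (PX H L T i φ')) ∧
  (∀ i φ, DepOn (Sb T i) (AX H L T i φ) ∧ DepOn (Sb T i) (PX H L T i φ)) ∧
  (∀ i c c', T.par c = i → T.par c' = i → c ≠ c' → Disjoint (Sb T c) (Sb T c')) ∧
  (∀ c v, T.top v = T.par c → v ∉ Sb T c) ∧
  Hom H G L = {f | ∀ i < N, N ≤ T.par i → f ∈ AX H L T i (fun _ => ∅)}

/-- [Dyn] DYNAMIC PROGRAMMING, CIRCUIT.  Items (finite type `I`, as a sum of subtypes), use [Bld]: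
leaves `(v, σ)`, `σ ∈ nbs (L v)` (rank 0, scope `{v}`, set `LX v σ`);
`P i φ`, `i < N`, `φ` a valid state on `bag i` (rank `2 i + 1`, scope `Sb i`, set `PX i φ`),
product of the leaves `(v, φ v)`, `v ∈ New i`, and of the `A c (res (Old c) φ)`, `par c = i`
(`c < N` as `c < i`; `res (Old c) φ` is a state on `Old c` since `Old c ⊆ bag i` by `up`);
`A i ψ`, `i < N`, `ψ` a state on `Old i` (rank `2 i + 2`, scope `Sb i`, set `AX i ψ`), disjoint
union of the valid `P i φ` with `res (Old i) φ = ψ`;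
root item (rank `2 N + 1`, scope everything), product of the `A i ∅`, `i < N ≤ par i`.
Scopes of the inputs of a product are disjoint by [Dya] (for the roots: two different roots `i, i'`
have disjoint `Sb` since `N ≤ par i` leaves the range; `par^[n] (top v)` is increasing).
Numbers: states on a set with at most `t + 1` elements: at most `q^(t+1)`; leaves at most
`|V| q`.  Wires: `Σ_i q^(t+1) (|New i| + children of i) + Σ_i q^(t+1) + N`; total at most
`6 (|V| + N) q^(t+1)`. -/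
def St_Dyn : Prop := St_Bld → St_Dya → ∀ (V D : Type) [Fintype V] [Fintype D]
  (H : D → D → Prop), (∀ a b, H a b → H b a) → ∀ (G : SimpleGraph V) (L : V → Set D)
  (N t q : ℕ), 1 ≤ q → 1 ≤ N → (∀ v, (nbs H (L v)).ncard ≤ q) → TreeDec G N t →
  ∃ Q : Circ V D, Q.Ok 1 ∧ Q.Det 1 ∧ Q.sc Q.out = Finset.univ ∧ Q.X Q.out = Hom H G L ∧
    Q.size ≤ 6 * (Fintype.card V + N) * q ^ (t + 1)

/-- [Cls] CLASSES.  `E a b` = joined by an even walk (equivalence relation).  `G` connected,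
`v₀ : V`, `x₀ ∈ D`: there are lists `L' ⊆ L` with at most `irr H` neighbourhoods each such that
the list homomorphisms for `L'` are exactly those `f ∈ Hom H G L` with `E x₀ (f v₀)`.
Take a walk of length `n_v` in `G` from `v₀` to `v`, `L' v` = the `y ∈ L v` such that there are
`x` and walks of `H` `E x₀ x`, `Wk H n_v x y`.  All elements of `L' v` are `E`-equivalent
(`y ← x ~ x' → y'`: length `n_v + even + n_v`), so choosing one colour for every neighbourhood
gives a set `S` with `Irr S`; its size is at most `irr H`. -/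
def St_Cls : Prop := ∀ (V D : Type) [Fintype V] [Fintype D] (H : D → D → Prop),
  (∀ a b, H a b → H b a) → ∀ (G : SimpleGraph V) (L : V → Set D) (v₀ : V) (x₀ : D),
  G.Connected → ∃ L' : V → Set D, (∀ v, (nbs H (L' v)).ncard ≤ irr H) ∧
    Hom H G L' = {f | f ∈ Hom H G L ∧ ∃ n, Wk H (2 * n) x₀ (f v₀)}

/-- [Uni] union of circuits: finitely many circuits with pairwise disjoint outputs. -/
def St_Uni : Prop := ∀ (V D : Type) [Fintype V] (n B : ℕ) (X : Fin n → Set (V → D)),
  (∀ a, ∃ Q : Circ V D, Q.Ok 1 ∧ Q.Det 1 ∧ Q.sc Q.out = Finset.univ ∧ Q.X Q.out = X a ∧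
    Q.size ≤ B) →
  (∀ a b, a ≠ b → Disjoint (X a) (X b)) →
  ∃ Q : Circ V D, Q.Ok 1 ∧ Q.Det 1 ∧ Q.sc Q.out = Finset.univ ∧ Q.X Q.out = ⋃ a, X a ∧
    Q.size ≤ n * (B + 1) + 1

/-- [Upp] THE UPPER BOUND: choose one representative `x₀` of every class of `E` (at most `|D|`);
`Hom H G L` is the disjoint union of the sets of [Cls]; [Dyn] (`q = irr H ≥ 1` as `D` is
nonempty: a singleton is `Irr`; `N ≥ 1` by `top_lt`), [Uni]. -/
def St_Upp : Prop := St_Bld → St_Dya → St_Dyn → St_Cls → St_Uni → Upper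

/-- [Ind2] independent sets: `irr IndSet = 2` (both colours; `N(1) = {0}`, `N(0) = {0,1}`;
`0 - 0` is an edge, so all even walks exist). -/
def St_Bool : Prop := irr IndSet = 2

end Pool.Agent.EXB
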