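import Mathlib
import Pool.Agent.EXB.Defs

/-!
# EXB: (max, +) circuits
-/

set_option autoImplicit false

namespace Pool.Agent.EXB

/-- a (max, +) circuit: gates `0, ..., n - 1` with functions of the real weights `x (v, a)`
(the value `-∞` is allowed), and lists of inputs -/
structure MaxPlus (V D : Type) where
  n : ℕ
  F : ℕ → (V × D → ℝ) → WithBot ℝ
  ch : ℕ → List ℕ
  out : ℕ

namespace MaxPlus

variable {V D : Type}

/-- gates and wires -/
def size (T : MaxPlus V D) : ℕ := T.n + ∑ i ∈ Finset.range T.n, (T.ch i).length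

/-- every gate is a constant, a weight `x p`, or the maximum or the sum of its inputs -/
def Ok (T : MaxPlus V D) : Prop :=
  T.out < T.n ∧ ∀ i < T.n, (∀ j ∈ T.ch i, j < i) ∧
    ((T.ch i = [] ∧ ∃ c, ∀ x, T.F i x = c) ∨
      (T.ch i = [] ∧ ∃ p, ∀ x, T.F i x = (x p : ℝ)) ∨
      (∀ x, T.F i x = (T.ch i).toFinset.sup fun j => T.F j x) ∨
      ∀ x, T.F i x = ((T.ch i).map fun j => T.F j x).sum)

/-- for all real weights the output is the maximum of the weights `∑ v, x (v, f v)`, `f ∈ X`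
(`-∞` if `X` is empty) -/
def Solves [Fintype V] (T : MaxPlus V D) (X : Set (V → D)) : Prop :=
  ∀ x : V × D → ℝ, IsLUB {y : WithBot ℝ | ∃ f ∈ X, y = ((∑ v, x (v, f v) : ℝ) : WithBot ℝ)}
    (T.F T.out x)

end MaxPlus

end Pool.Agent.EXB
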