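import Mathlib
import Pool.Agent.EXB.DefsT

/-!
# EXB: (max, +) circuits, statements
-/

set_option autoImplicit false

namespace Pool.Agent.EXB

/-- [Trp] FROM (max, +) CIRCUITS TO MONOTONE ARITHMETIC CIRCUITS WITH THE SAME MONOMIALS.
Same `n`, `ch`, `out`.  Define `P i` by strong recursion (`i < n`; decide the type of gate `i` by
`Classical`): constant `⊥`: `0`; other constants: `C 1`; weight `x p`: `X p`; maximum: the sum
of the `P j`, `j ∈ ch i` (list sum); sum: the product; `i ≥ n`: `0`.  (Instead of recursion: prove
by induction on `n` that there are `P` and `c` with the properties below.)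
CLAIM: for every `i < n` there is `c : (V × D →₀ ℕ) → ℝ` with
`F i x = (P i).support.sup (fun m => ((c m + m.sum fun p k => k * x p : ℝ) : WithBot ℝ))` for all `x`.
Over `NNReal`: `support (p + q) = support p ∪ support q`, `support (p * q) = support p + support q`
(nonnegative, no zero divisors); for the union take the maximum of the constants, for the sum set
`c m = max over m = m' + m'' of (c' m' + c'' m'')`; for lists by induction.
OUTPUT: let `S = (P out).support`, `m · x = m.sum fun p k => k * x p`.
(a) `m ∈ S` implies `m = mono f` with `f ∈ X`: for all `x` and all real `s > 0`, from the weights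
`s x`: `c m + s (m · x) ≤` the maximum of `s (mono f · x)`, `f ∈ X` (so `X` is not empty: the LUB of
the empty set is `⊥`); divide by `s → ∞`: for every `x` there is `f ∈ X` with `m · x ≤ mono f · x`
(if `m · x > mono f · x` for all `f ∈ X`: finitely many VALUES would give a positive gap; `D` is
finite here, so `X` is finite).  With `x = -(indicator of (v, ·))` and `x = +(indicator of (v, ·))`:
`∑ a, m (v, a) = 1`, so `m = mono g`; with `x = mono g`: `|V| ≤ mono f · mono g`, so `f = g`.
(b) `f ∈ X` implies `mono f ∈ S`: weights `x = s * mono f`: the value is `s |V|`, so for some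
`m ∈ S`: `s |V| = c m + s (m · mono f)`; if all `m = mono g ∈ S` had `g ≠ f` then
`m · mono f ≤ |V| - 1` and `s ≤ c m` for every `s`: contradiction with `S` finite. -/
def St_Trp : Prop := ∀ (V D : Type) [Fintype V] [Fintype D] (T : MaxPlus V D) (X : Set (V → D)),
  T.Ok → T.Solves X →
  ∃ A : Arith V D, A.Ok ∧ (∀ m, m ∈ (A.P A.out).support ↔ ∃ f ∈ X, m = mono f) ∧
    A.size ≤ T.size

/-- [TrA] FROM MONOTONE ARITHMETIC CIRCUITS TO (max, +) CIRCUITS.  Same `n`, `ch`, `out`;
`F i x = (P i).support.sup (fun m => ((m.sum fun p k => k * x p : ℝ) : WithBot ℝ))`.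
Constant `C 0`: `⊥`; constant `C c`, `c ≠ 0`: `0`; variable: `x p`;
sum: the support is the union of the supports (over `NNReal` nothing cancels): maximum;
product: the support is the Minkowski sum of the supports: sum (`Finset.sup` of a sum in
`WithBot ℝ`: `sup` over pairs of `(a + b)` is the sum of the two `sup`s, both `⊥` cases trivial).
Output: the support of `∑ᶠ f ∈ X, monomial (mono f) 1` is `{mono f | f ∈ X}` (`X` is finite, `mono` is
injective), and `(mono f).sum fun p k => k * x p` is `∑ v, x (v, f v)`. -/
def St_TrA : Prop := ∀ (V D : Type) [Fintype V] [Fintype D] (A : Arith V D) (X : Set (V → D)),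
  A.Ok → A.P A.out = ∑ᶠ f ∈ X, MvPolynomial.monomial (mono f) (1 : NNReal) →
  ∃ T : MaxPlus V D, T.Ok ∧ T.Solves X ∧ T.size ≤ A.size

end Pool.Agent.EXB
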