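import Mathlib
import Pool.Agent.EXB.StT

/-!
# EXB: (max, +) circuits which are correct for nonnegative weights, and maximum weight independent
sets
-/

set_option autoImplicit false

namespace Pool.Agent.EXB

/-- for all NONNEGATIVE weights the output is the maximum of `∑ v, x (v, f v)`, `f ∈ X` -/
def MaxPlus.SolvesPos {V D : Type} [Fintype V] (T : MaxPlus V D) (X : Set (V → D)) : Prop :=
  ∀ x : V × D → ℝ, (∀ p, 0 ≤ x p) →
    IsLUB {y : WithBot ℝ | ∃ f ∈ X, y = ((∑ v, x (v, f v) : ℝ) : WithBot ℝ)} (T.F T.out x)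

/-- for all weights `x v` of the vertices in `W` the output is the largest weight of an
independent set (`D = Unit`: the weight of the vertex `v` is the variable `(v, ())`) -/
def MaxPlus.SolvesInd {V : Type} (T : MaxPlus V Unit) (G : SimpleGraph V) (W : Set (V → ℝ)) :
    Prop :=
  ∀ x ∈ W, IsLUB {y : WithBot ℝ | ∃ I : Finset V, G.IsIndepSet (I : Set V) ∧
    y = ((∑ v ∈ I, x v : ℝ) : WithBot ℝ)} (T.F T.out fun p => x p.1)

/-- `G` with a pendant vertex `inr v` at every vertex `inl v` -/
def Pen {V : Type} (G : SimpleGraph V) : SimpleGraph (V ⊕ V) where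
  Adj a b := (∃ u v, a = Sum.inl u ∧ b = Sum.inl v ∧ G.Adj u v) ∨
    (∃ v, a = Sum.inl v ∧ b = Sum.inr v) ∨ ∃ v, a = Sum.inr v ∧ b = Sum.inl v
  symm := ⟨by
    rintro a b (⟨u, v, h1, h2, h3⟩ | ⟨v, h1, h2⟩ | ⟨v, h1, h2⟩)
    · exact Or.inl ⟨v, u, h2, h1, h3.symm⟩
    · exact Or.inr (Or.inr ⟨v, h2, h1⟩)
    · exact Or.inr (Or.inl ⟨v, h2, h1⟩)⟩
  loopless := ⟨by
    rintro a (⟨u, v, h1, h2, h3⟩ | ⟨v, h1, h2⟩ | ⟨v, h1, h2⟩)
    · rw [h1] at h2
      exact h3.ne (Sum.inl_injective h2)
    · rw [h1] at h2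
      exact Sum.inl_ne_inr h2
    · rw [h1] at h2
      exact Sum.inr_ne_inl h2⟩

/-- [TrN] as [Trp], for NONNEGATIVE weights: the monomials of degree `|V|` are those of `X`, all
others have smaller degree.
Same construction as in [Trp]: `F i x = (P i).support.sup (fun m => c m + m · x)` for all `x`
(`m · x = m.sum fun p k => k * x p`).
OUTPUT: let `S = (P out).support`.  (a) `m ∈ S`: for all `x ≥ 0`, `s > 0`: `c m + s (m · x) ≤` the
maximum of `s (mono f · x)`, `f ∈ X` (so `X` is not empty); `s → ∞`: for every `x ≥ 0` there is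
`f ∈ X` with `m · x ≤ mono f · x`.  With `x = 1`: `m.degree ≤ |V|`.  With `x` the indicator of
`(v, ·)`: `∑ a, m (v, a) ≤ 1`.  So if `m.degree = |V|` then `∑ a, m (v, a) = 1` for all `v` and
`m = mono g`; with `x = mono g`: `|V| ≤ mono f · mono g`, so `f = g`.
(b) `f ∈ X`: weights `s * mono f ≥ 0`: the value is `s |V|`, so for every `s` some `m ∈ S` has
`s |V| = c m + s (m · mono f)`; `S` is finite, so some `m ∈ S` has `m · mono f ≥ |V|`
(otherwise `m · mono f ≤ |V| - 1`, `s ≤ c m`); as `∑ a, m (v, a) ≤ 1` this gives `m = mono f`. -/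
def St_TrN : Prop := ∀ (V D : Type) [Fintype V] [Fintype D] (T : MaxPlus V D) (X : Set (V → D)),
  T.Ok → T.SolvesPos X →
  ∃ A : Arith V D, A.Ok ∧ (∀ m ∈ (A.P A.out).support, m.degree ≤ Fintype.card V) ∧
    (∀ m, (m ∈ (A.P A.out).support ∧ m.degree = Fintype.card V) ↔ ∃ f ∈ X, m = mono f) ∧
    A.size ≤ T.size

/-- [Top] PART OF HIGHEST DEGREE.  New circuit with the same `n`, `out`, and
`P' i = homogeneousComponent (totalDegree (P i)) (P i)`.
Constants and variables: `P' i = P i`.  Sum gate: nothing cancels over `NNReal`, so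
`totalDegree (P j) ≤ totalDegree (P i)` for the inputs `j`, and `P' i` is the sum of the `P' j`,
`j ∈ (A.ch i).filter (totalDegree (P j) = totalDegree (P i))`: a sum gate with these inputs.
Product gate: no zero divisors; if all inputs are nonzero then `totalDegree` is additive and
`P' i` is the product of the `P' j` (same inputs); if `P j = 0` for an input then `P i = 0`,
`P' i = 0 = P' j`.  The support of `P' i` is the set of the `m` of maximal degree in the support of
`P i` (also if `P i = 0`). -/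
def St_Top : Prop := ∀ (V D : Type) (A : Arith V D), A.Ok →
  ∃ A' : Arith V D, A'.Ok ∧ A'.size ≤ A.size ∧
    ∀ m, m ∈ (A'.P A'.out).support ↔
      (m ∈ (A.P A.out).support ∧ ∀ m' ∈ (A.P A.out).support, m'.degree ≤ m.degree)

/-- [Pen] INDEPENDENT SETS OF `Pen G`.  `T'`: same `n`, `ch`, `out`,
`F' i x = F i (fun p => Sum.elim (fun v => x (v, true)) (fun v => x (v, false)) p.1)`.
For nonnegative weights: `f ∈ Hom IndSet G` gives the independent set
`{inl v : f v = true} ∪ {inr v : f v = false}` of weight `∑ v, x (v, f v)`; and an independent set `I`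
of `Pen G` contains at most one of `inl v`, `inr v`: with `f v = true` iff `inl v ∈ I` its weight is at
most `∑ v, x (v, f v)`, and `f ∈ Hom IndSet G`.  So the two sets of values have the same upper
bounds. -/
def St_Pen : Prop := ∀ (V : Type) [Fintype V] (G : SimpleGraph V) (T : MaxPlus (V ⊕ V) Unit),
  T.Ok → T.SolvesInd (Pen G) {x | ∀ v, 0 ≤ x v} →
  ∃ T' : MaxPlus V Bool, T'.Ok ∧ T'.SolvesPos (Hom IndSet G fun _ => Set.univ) ∧
    T'.size ≤ T.size

/-- [PeG] THE GRAPH `Pen G`.  (1) connected: every `inr v` is adjacent to `inl v`, walks of `G` map to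
walks of `Pen G` (`V` nonempty).  (2) degrees: `inr v` has 1, `inl v` has one more than `v`.
(3) PATH DECOMPOSITION: `V` is nonempty, `n = |V|`, `V ≃ Fin n`; for every `v` choose `i v` with
`v ∈ bag (i v)`.  New bag `t`: `inl` of `bag (t / n)`, and `inr v` for the `v` with number
`t % n` if `i v = t / n`.  `inl u` occurs for `t / n` in an interval, `inr v` occurs only for
`t = n * i v + number of v`. -/
def St_PeG : Prop := ∀ (V : Type) [Fintype V] (G : SimpleGraph V), G.Connected →
  (Pen G).Connected ∧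
  (∀ C : ℕ, (∀ v, (G.neighborSet v).ncard ≤ C) → ∀ v, ((Pen G).neighborSet v).ncard ≤ C + 1) ∧
  ∀ m, PathDec G m → PathDec (Pen G) (m + 1)

/-- [InU] MAXIMUM WEIGHT INDEPENDENT SETS, UPPER BOUND.  `T'`: same `n`, `ch`, `out`,
`F' i x = F i (fun p => if p.2 then x (p.1, ()) else 0)`: a variable `(v, true)` becomes the
variable `(v, ())`, a variable `(v, false)` becomes the constant `0`.  `f ∈ Hom IndSet G`
corresponds to the independent set `{v : f v = true}` of the same weight. -/
def St_InU : Prop := ∀ (V : Type) [Fintype V] (G : SimpleGraph V) (T : MaxPlus V Bool),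
  T.Ok → T.Solves (Hom IndSet G fun _ => Set.univ) →
  ∃ T' : MaxPlus V Unit, T'.Ok ∧ T'.SolvesInd G Set.univ ∧ T'.size ≤ T.size

end Pool.Agent.EXB
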