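import Mathlib
import Pool.Agent.EXB.StN

/-!
# EXB: circuits which are only correct up to a constant factor (or an additive constant)
-/

set_option autoImplicit false

namespace Pool.Agent.EXB

/-- the partition function of `X`: the sum of the weights `∏ v, x (v, f v)`, `f ∈ X` -/
noncomputable def Zf {V D : Type} [Fintype V] (X : Set (V → D)) (x : V × D → NNReal) : NNReal :=
  ∑ᶠ f ∈ X, ∏ v, x (v, f v)

/-- for all positive weights the output is the partition function of `X` up to a constant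
factor -/
def Arith.Approx {V D : Type} [Fintype V] (A : Arith V D) (X : Set (V → D)) : Prop :=
  ∃ K : NNReal, ∀ x : V × D → NNReal, (∀ p, 0 < x p) →
    MvPolynomial.eval x (A.P A.out) ≤ K * Zf X x ∧ Zf X x ≤ K * MvPolynomial.eval x (A.P A.out)

/-- for all nonnegative weights the output is the maximum of `∑ v, x (v, f v)`, `f ∈ X`, up to an
additive constant -/
def MaxPlus.Approx {V D : Type} [Fintype V] (T : MaxPlus V D) (X : Set (V → D)) : Prop :=
  ∃ K : ℝ, ∀ x : V × D → ℝ, (∀ p, 0 ≤ x p) →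
    ∃ y, IsLUB {y : WithBot ℝ | ∃ f ∈ X, y = ((∑ v, x (v, f v) : ℝ) : WithBot ℝ)} y ∧
      T.F T.out x ≤ y + (K : WithBot ℝ) ∧ y ≤ T.F T.out x + (K : WithBot ℝ)

/-- for all nonnegative weights `x v` of the vertices the output is the largest weight of an
independent set up to an additive constant -/
def MaxPlus.ApproxInd {V : Type} (T : MaxPlus V Unit) (G : SimpleGraph V) : Prop :=
  ∃ K : ℝ, ∀ x : V → ℝ, (∀ v, 0 ≤ x v) →
    ∃ y, IsLUB {y : WithBot ℝ | ∃ I : Finset V, G.IsIndepSet (I : Set V) ∧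
        y = ((∑ v ∈ I, x v : ℝ) : WithBot ℝ)} y ∧
      T.F T.out (fun p => x p.1) ≤ y + (K : WithBot ℝ) ∧
      y ≤ T.F T.out (fun p => x p.1) + (K : WithBot ℝ)

/-- [Apx] AN APPROXIMATION HAS THE SAME MONOMIALS.  Weights `x p = exp (s * y p)`, `s > 0`; then a
monomial with exponents `m` has the value `exp (s (m · y))`, `m · y = m.sum fun p k => k * y p`.
(a) `m ∈ P.support`, `c = P.coeff m`: `c exp (s (m · y)) ≤ K ∑ f ∈ X, exp (s (mono f · y))` for all
`s > 0`.  So `X` is not empty and (`s → ∞`, `X` finite) for every `y` there is `f ∈ X` with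
`m · y ≤ mono f · y` (it is enough to use `y` with values `-1, 0, 1`, then `m · y` and `mono f · y` are
integers: otherwise `mono f · y ≤ m · y - 1` for all `f ∈ X` and `c exp s ≤ K |X|` for all `s`).
`y = ± indicator of (v, ·)`: `∑ a, m (v, a) = 1` for all `v`; so `m = mono g`; `y = mono g`:
`|V| ≤ mono f · mono g`, so `f = g`.
(b) `f ∈ X`, `y = mono f`: `exp (s |V|) ≤ K ∑ m ∈ P.support, c m * exp (s (m · mono f))`; if
`mono f ∉ P.support` then by (a) all `m ∈ P.support` are `mono g`, `g ≠ f`, `m · mono f ≤ |V| - 1`, so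
`exp s ≤ K ∑ c m` for all `s > 0`: contradiction. -/
def St_Apx : Prop := ∀ (V D : Type) [Fintype V] [Fintype D] (P : MvPolynomial (V × D) NNReal)
  (X : Set (V → D)) (K : NNReal),
  (∀ x : V × D → NNReal, (∀ p, 0 < x p) →
    MvPolynomial.eval x P ≤ K * Zf X x ∧ Zf X x ≤ K * MvPolynomial.eval x P) →
  ∀ m, m ∈ P.support ↔ ∃ f ∈ X, m = mono f

/-- [TrK] as [TrN] (`Pool/Agent/EXB/TrN.lean`, copy its lemmas), with an additive error `K`:
(a) for all `x ≥ 0`, `s > 0`: `c m + s (m · x) ≤ K +` the maximum of `s (mono f · x)`;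
(b) `s |V| ≤ K + c m + s (m · mono f)` for some `m ∈ S`.  As `s → ∞` the constant `K` does not
matter.  (If `X` is empty: `y = ⊥`, so `T.F T.out x = ⊥` for all `x ≥ 0`.) -/
def St_TrK : Prop := ∀ (V D : Type) [Fintype V] [Fintype D] (T : MaxPlus V D) (X : Set (V → D)),
  T.Ok → T.Approx X →
  ∃ A : Arith V D, A.Ok ∧ (∀ m ∈ (A.P A.out).support, m.degree ≤ Fintype.card V) ∧
    (∀ m, (m ∈ (A.P A.out).support ∧ m.degree = Fintype.card V) ↔ ∃ f ∈ X, m = mono f) ∧
    A.size ≤ T.size

/-- [PeK] as [Pen] (`Pool/Agent/EXB/Pen.lean`, copy its lemmas), with an additive error: the two sets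
of values have the same upper bounds, so the same `y`. -/
def St_PeK : Prop := ∀ (V : Type) [Fintype V] (G : SimpleGraph V) (T : MaxPlus (V ⊕ V) Unit),
  T.Ok → T.ApproxInd (Pen G) →
  ∃ T' : MaxPlus V Bool, T'.Ok ∧ T'.Approx (Hom IndSet G fun _ => Set.univ) ∧
    T'.size ≤ T.size

end Pool.Agent.EXB
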