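import Mathlib
import Pool.Agent.EXB.Defs

/-!
# EXB: monotone arithmetic circuits
-/

set_option autoImplicit false

namespace Pool.Agent.EXB

/-- [Sup] FROM MONOTONE ARITHMETIC CIRCUITS TO UNION / PRODUCT CIRCUITS.
Write `S i` for the support of `A.P i` (a set of exponent vectors) and
`mA B f = ∑ v ∈ B, single (v, f v) 1`, so `mono f = mA univ f`.
Over `NNReal`: `S (p + q) = S p ∪ S q`, `S (p * q) = S p + S q` (no cancellation, no zero divisors);
for lists by induction.
USEFUL gate: `A.P i ≠ 0` and there is `m₀` with `m₀ + m ∈ S out` for all `m ∈ S i`.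
(F) If `i` is useful with `m₀` then for `B = {v | ∀ a, m₀ (v, a) = 0}` every `m ∈ S i` is `mA B g` for
some `g`: `m₀ + m = mono f`; `m₀ (v, a) ≠ 0` implies `a = f v`, and then `m (v, ·) = 0`; if
`m₀ (v, ·) = 0` then `m (v, a) = mono f (v, a)`.  `B` is determined by any `m ∈ S i`:
`B = {v | ∃ a, m (v, a) ≠ 0}`; let `B i` be this set (choice), for useful `i`.
CIRCUIT (same `n`, same `out`): useful `i`: scope `B i`, set `X i = {f | mA (B i) f ∈ S i}`,
inputs: the `j` in `A.ch i` with `A.P j ≠ 0` (`List.toFinset`), `∅` for constants and variables;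
all other `i`: scope `∅`, set `∅`, no inputs (a leaf).
constant: `S i = {0}`, `B i = ∅`, `X i` = everything: leaf.  variable `(v, a)`:
`S i = {single (v, a) 1}`, `B i = {v}`, `X i = {f | f v = a}`: leaf.
sum: the inputs `j` with `A.P j ≠ 0` are useful with the same `m₀`, `B j = B i`; `X i = ⋃ X j`.
product, `A.P i ≠ 0`: all `A.P j ≠ 0`.  For `j ∈ l = A.ch i`: `A.P i = A.P j * R`, `R` the product of
`l.erase j`; `r ∈ S R`: `j` is useful with `m₀ + r`.  `j ≠ j'`: `A.P i = A.P j * A.P j' * R'`: for
`m ∈ S j`, `m' ∈ S j'`, `r' ∈ S R'` the vector `m₀ + m + m' + r'` is some `mono f`, so no `v` is in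
`B j` and `B j'`.  `B j ⊆ B i`.  `X i ⊆ X j`: `mA (B i) f = m + r` with `m ∈ S j`, `m = mA (B j) g ≤
mA (B i) f`, so `g = f` on `B j`.  `⋂ X j ⊆ X i`: `m* = ∑ j ∈ l, mA (B j) f ∈ S i` (induction on the
list), so `m* = mA (B i) g`, and `m* (v, a) ≠ 0` implies `a = f v`, so `g = f` on `B i`,
`m* = mA (B i) f`.
The output gate: if `A.P A.out ≠ 0` it is useful with `m₀ = 0` and `B = univ`.  If `A.P A.out = 0`
it is a leaf with the set `∅`. -/
def St_Sup : Prop := ∀ (V D : Type) [Fintype V] (A : Arith V D), A.Ok →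
  (∀ m ∈ (A.P A.out).support, ∃ f : V → D, m = mono f) →
  ∃ Q : Circ V D, Q.Ok 1 ∧ Q.X Q.out = {f | mono f ∈ (A.P A.out).support} ∧ Q.size ≤ A.size

/-- [Ari] FROM DETERMINISTIC SMOOTH CIRCUITS TO MONOTONE ARITHMETIC CIRCUITS.
Fix `d₀ : D`.  For `B : Finset V` and `X : Set (V → D)` let `F B X` be the sum of the
`∏ v ∈ B, X (v, f v)` over all `f ∈ X` with `f v = d₀` for `v ∉ B`.
(1) `F B (X ∩ Y) ...`: if `B, B'` are disjoint, `X` depends only on `B`, `Y` only on `B'` then
`F (B ∪ B') (X ∩ Y) = F B X * F B' Y` (pairs `(f, g)` correspond to `h` = `f` on `B`, `g` on `B'`, `d₀`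
elsewhere); by induction for finite families.  (2) disjoint union, same scope: sums.
(3) In a circuit with `Ok 1` and `Det 1` every `X i` depends only on `sc i` (induction).
Arithmetic circuit with `b = card D + 1` gates for every gate `i` of `Q`, numbers `b * i + k`,
`k ≤ card D`, main gate `k = card D` with the polynomial `F (sc i) (X i)`.  Inputs of the main gate:
the main gates of the inputs of `i` (product or sum, `Finset.toList`); for a leaf with scope `{v}`
the gates `b * i + k` with the variables `(v, a_k)` (`a_k` the `k`-th colour) for which the constant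
function `a_k` is in `X i`: sum; for a leaf with scope `∅`: the constant `1` or `0`.  The other gates
are constants `0`.  Size at most `b * n + wires + n * card D ≤ (2 * card D + 1) * Q.size`. -/
def St_Ari : Prop := ∀ (V D : Type) [Fintype V] [Fintype D] [Nonempty D] (Q : Circ V D),
  Q.Ok 1 → Q.Det 1 → Q.sc Q.out = Finset.univ →
  ∃ A : Arith V D, A.Ok ∧
    A.P A.out = ∑ᶠ f ∈ Q.X Q.out, MvPolynomial.monomial (mono f) (1 : NNReal) ∧
    A.size ≤ (2 * Fintype.card D + 1) * Q.size

end Pool.Agent.EXB
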