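import Mathlib
import Pool.Agent.EXB.St
import Pool.Agent.EXB.StM
import Pool.Agent.EXB.StT
import Pool.Agent.EXB.StN
import Pool.Agent.EXB.StK

/-!
# EXB: the exact base for dynamic programming, assembly
-/

set_option autoImplicit false

namespace Pool.Agent.EXB

/-- lower bounds for circuits, monotone arithmetic circuits and (max, +) circuits -/
def LowerDP : Prop :=
  ∀ (D : Type) [Fintype D] [Nonempty D] (H : D → D → Prop), (∀ a b, H a b → H b a) →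
    ∃ C : ℕ, ∀ w : ℕ, 1 ≤ w → ∃ (V : Type) (_ : Fintype V) (G : SimpleGraph V)
      (μ : (V → D) → ℝ), Fintype.card V ≤ C * w ^ 4 ∧ (∀ v, (G.neighborSet v).ncard ≤ C) ∧
      G.Connected ∧ PathDec G (w + C) ∧ (∀ f, 0 ≤ μ f) ∧
      (∀ f, f ∉ Hom H G (fun _ => Set.univ) → μ f = 0) ∧ (∑ᶠ f, μ f = 1) ∧
      ∀ X ⊆ Hom H G (fun _ => Set.univ),
        (∀ Q : Circ V D, Q.Ok (w ^ 3) → Q.X Q.out = X →
          (∑ᶠ f ∈ X, μ f) * (irr H : ℝ) ^ w ≤ 2 * Q.size) ∧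
        (∀ A : Arith V D, A.Ok → A.Approx X →
          (∑ᶠ f ∈ X, μ f) * (irr H : ℝ) ^ w ≤ 2 * A.size) ∧
        ∀ T : MaxPlus V D, T.Ok → T.Approx X →
          (∑ᶠ f ∈ X, μ f) * (irr H : ℝ) ^ w ≤ 2 * T.size

/-- upper bounds -/
def UpperDP : Prop :=
  ∀ (D : Type) [Fintype D] [Nonempty D] (H : D → D → Prop), (∀ a b, H a b → H b a) →
    ∃ C : ℕ, ∀ (V : Type) [Fintype V] (G : SimpleGraph V) (L : V → Set D) (N t : ℕ),
      G.Connected → Nonempty (TreeDec G N t) →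
      (∃ Q : Circ V D, Q.Ok 1 ∧ Q.Det 1 ∧ Q.sc Q.out = Finset.univ ∧ Q.X Q.out = Hom H G L ∧
        Q.size ≤ C * (Fintype.card V + N) * irr H ^ (t + 1)) ∧
      (∃ A : Arith V D, A.Ok ∧
        A.P A.out = ∑ᶠ f ∈ Hom H G L, MvPolynomial.monomial (mono f) (1 : NNReal) ∧
        A.size ≤ C * (Fintype.card V + N) * irr H ^ (t + 1)) ∧
      ∃ T : MaxPlus V D, T.Ok ∧ T.Solves (Hom H G L) ∧
        T.size ≤ C * (Fintype.card V + N) * irr H ^ (t + 1)

/-- maximum weight independent sets -/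
def IndDP : Prop :=
  ∃ C : ℕ,
    (∀ w : ℕ, 1 ≤ w → ∃ (V : Type) (_ : Fintype V) (G : SimpleGraph V),
      Fintype.card V ≤ C * w ^ 4 ∧ (∀ v, (G.neighborSet v).ncard ≤ C) ∧
      G.Connected ∧ PathDec G (w + C) ∧
      ∀ T : MaxPlus V Unit, T.Ok → T.ApproxInd G → 2 ^ w ≤ 2 * T.size) ∧
    ∀ (V : Type) [Fintype V] (G : SimpleGraph V) (N t : ℕ), G.Connected →
      Nonempty (TreeDec G N t) →
      ∃ T : MaxPlus V Unit, T.Ok ∧ T.SolvesInd G Set.univ ∧
        T.size ≤ C * (Fintype.card V + N) * 2 ^ (t + 1)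

private theorem asm_mono_apply {V D : Type} [Fintype V] (f : V → D) (v : V) (a : D) :
    mono f (v, a) = 0 ↔ f v ≠ a := by
  classical
  unfold mono
  rw [Finsupp.finsetSum_apply, Finset.sum_eq_zero_iff]
  constructor
  · intro h hfa
    have := h v (Finset.mem_univ v)
    rw [hfa, Finsupp.single_eq_same] at this
    exact one_ne_zero this
  · intro h u _
    rw [Finsupp.single_apply, if_neg]
    intro he
    have h1 : u = v := congrArg Prod.fst he
    have h2 : f u = a := congrArg Prod.snd he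
    exact h (h1 ▸ h2)

private theorem asm_mono_inj {V D : Type} [Fintype V] (f g : V → D) (h : mono f = mono g) :
    f = g := by
  funext v
  by_contra hne
  have h1 : mono f (v, f v) ≠ 0 := by
    intro h0
    exact (asm_mono_apply f v (f v)).1 h0 rfl
  apply h1
  rw [h, asm_mono_apply]
  exact fun h2 => hne h2.symm

private theorem asm_ok_mono {V D : Type} (Q : Circ V D) (k : ℕ) (hk : 1 ≤ k) (h : Q.Ok 1) :
    Q.Ok k := by
  refine ⟨h.1, fun i hi => ⟨(h.2 i hi).1, ?_⟩⟩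
  rcases (h.2 i hi).2 with h1 | h1 | h1
  · exact Or.inl ⟨h1.1, le_trans h1.2.1 hk, h1.2.2⟩
  · exact Or.inr (Or.inl h1)
  · exact Or.inr (Or.inr h1)

private theorem asm_top (hN : St_TrK) (hTop : St_Top) {V D : Type} [Fintype V] [Fintype D]
    (T : MaxPlus V D) (X : Set (V → D)) (hX : X.Nonempty) (hok : T.Ok) (hs : T.Approx X) :
    ∃ A : Arith V D, A.Ok ∧ (∀ m, m ∈ (A.P A.out).support ↔ ∃ f ∈ X, m = mono f) ∧
      A.size ≤ T.size := by
  obtain ⟨A, hA1, hA2, hA3, hA4⟩ := hN V D T X hok hs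
  obtain ⟨A', hA1', hA2', hA3'⟩ := hTop V D A hA1
  refine ⟨A', hA1', fun m => ?_, le_trans hA2' hA4⟩
  obtain ⟨f₀, hf₀⟩ := hX
  have h0 := (hA3 (mono f₀)).2 ⟨f₀, hf₀, rfl⟩
  rw [hA3', ← hA3]
  constructor
  · rintro ⟨h1, h2⟩
    refine ⟨h1, le_antisymm (hA2 m h1) ?_⟩
    rw [← h0.2]
    exact h2 _ h0.1
  · rintro ⟨h1, h2⟩
    refine ⟨h1, fun m' hm' => ?_⟩
    rw [h2]
    exact hA2 m' hm'

theorem asm_lower (hL : Lower) (hS : St_Sup) (hApx : St_Apx) (hN : St_TrK) (hTop : St_Top) :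
    LowerDP := by
  intro D _ _ H hH
  obtain ⟨C, hC⟩ := hL D H hH
  refine ⟨C, fun w hw => ?_⟩
  obtain ⟨V, hV, G, μ, h1, h2, h3, h4, h5, h6, h7, h8⟩ := hC w hw
  refine ⟨V, hV, G, μ, h1, h2, h3, h4, h5, h6, h7, fun X hX => ?_⟩
  have hQ : ∀ Q : Circ V D, Q.Ok (w ^ 3) → Q.X Q.out = X →
      (∑ᶠ f ∈ X, μ f) * (irr H : ℝ) ^ w ≤ 2 * Q.size := by
    intro Q hok hX'
    have := h8 Q hok (by rw [hX']; exact hX)
    rwa [hX'] at this
  have hA : ∀ A : Arith V D, A.Ok → (∀ m, m ∈ (A.P A.out).support ↔ ∃ f ∈ X, m = mono f) →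
      (∑ᶠ f ∈ X, μ f) * (irr H : ℝ) ^ w ≤ 2 * A.size := by
    intro A hok hsup
    obtain ⟨Q, hQ1, hQ2, hQ3⟩ := hS V D A hok (fun m hm => by
      obtain ⟨f, _, hf⟩ := (hsup m).1 hm
      exact ⟨f, hf⟩)
    have hX' : Q.X Q.out = X := by
      rw [hQ2]
      ext f
      simp only [Set.mem_ofPred_eq]
      rw [hsup]
      constructor
      · rintro ⟨g, hg, hfg⟩
        rw [asm_mono_inj f g hfg]
        exact hg
      · intro hf
        exact ⟨f, hf, rfl⟩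
    refine le_trans (hQ Q (asm_ok_mono Q (w ^ 3) (Nat.one_le_pow _ _ hw) hQ1) hX') ?_
    have : (Q.size : ℝ) ≤ A.size := by exact_mod_cast hQ3
    linarith
  refine ⟨hQ, fun A hok hap => ?_, ?_⟩
  · obtain ⟨K, hK⟩ := hap
    exact hA A hok (hApx V D (A.P A.out) X K hK)
  intro T hok hsol
  rcases X.eq_empty_or_nonempty with hX0 | hX0
  · rw [hX0, finsum_mem_empty, zero_mul]
    positivity
  obtain ⟨A, hA1, hA2, hA3⟩ := asm_top hN hTop T X hX0 hok hsol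
  refine le_trans (hA A hA1 hA2) ?_
  have : (A.size : ℝ) ≤ T.size := by exact_mod_cast hA3
  linarith

theorem asm_upper (hU : Upper) (hA : St_Ari) (hT : St_TrA) : UpperDP := by
  intro D _ _ H hH
  obtain ⟨C, hC⟩ := hU D H hH
  refine ⟨(2 * Fintype.card D + 1) * C, fun V _ G L N t hG hT' => ?_⟩
  obtain ⟨Q, hQ1, hQ2, hQ3, hQ4, hQ5⟩ := hC V G L N t hG hT'
  obtain ⟨A, hA1, hA2, hA3⟩ := hA V D Q hQ1 hQ2 hQ3
  rw [hQ4] at hA2
  obtain ⟨T, hT1, hT2, hT3⟩ := hT V D A (Hom H G L) hA1 hA2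
  have hb : (2 * Fintype.card D + 1) * Q.size ≤
      (2 * Fintype.card D + 1) * C * (Fintype.card V + N) * irr H ^ (t + 1) := by
    calc (2 * Fintype.card D + 1) * Q.size
        ≤ (2 * Fintype.card D + 1) * (C * (Fintype.card V + N) * irr H ^ (t + 1)) :=
          Nat.mul_le_mul_left _ hQ5
      _ = _ := by ring
  have hq : Q.size ≤ (2 * Fintype.card D + 1) * Q.size :=
    Nat.le_mul_of_pos_left _ (by omega)
  exact ⟨⟨Q, hQ1, hQ2, hQ3, hQ4, le_trans hq hb⟩, ⟨A, hA1, hA2, le_trans hA3 hb⟩,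
    ⟨T, hT1, hT2, le_trans hT3 (le_trans hA3 hb)⟩⟩

private theorem asm_ind_symm (a b : Bool) (h : IndSet a b) : IndSet b a :=
  fun h' => h ⟨h'.2, h'.1⟩

private theorem asm_path_mono {V : Type} (G : SimpleGraph V) (m m' : ℕ) (hm : m ≤ m')
    (h : PathDec G m) : PathDec G m' := by
  obtain ⟨bag, h1, h2, h3, h4⟩ := h
  exact ⟨bag, fun i => le_trans (h1 i) (by omega), h2, h3, h4⟩

theorem asm_ind (hL : LowerDP) (hU : UpperDP) (hB : St_Bool) (hPen : St_PeK) (hPeG : St_PeG)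
    (hInU : St_InU) : IndDP := by
  obtain ⟨C, hC⟩ := hL Bool IndSet asm_ind_symm
  obtain ⟨C', hC'⟩ := hU Bool IndSet asm_ind_symm
  refine ⟨2 * C + 1 + C', fun w hw => ?_, fun V _ G N t hG hT => ?_⟩
  · obtain ⟨V, hV, G, μ, h1, h2, h3, h4, h5, h6, h7, h8⟩ := hC w hw
    obtain ⟨p1, p2, p3⟩ := hPeG V G h3
    refine ⟨V ⊕ V, inferInstance, Pen G, ?_, ?_, p1, ?_, ?_⟩
    · rw [Fintype.card_sum]
      have : (2 * C + 1 + C') * w ^ 4 = C * w ^ 4 + C * w ^ 4 + (1 + C') * w ^ 4 := by ring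
      omega
    · intro v
      exact le_trans (p2 C h2 v) (by omega)
    · exact asm_path_mono _ _ _ (by omega) (p3 _ h4)
    · intro T hok hs
      obtain ⟨T', hT1, hT2, hT3⟩ := hPen V G T hok hs
      have h9 := (h8 (Hom IndSet G fun _ => Set.univ) subset_rfl).2.2 T' hT1 hT2
      have h10 : ∑ᶠ f ∈ Hom IndSet G (fun _ => Set.univ), μ f = 1 := by
        classical
        rw [← h7]
        apply finsum_congr
        intro f
        by_cases hf : f ∈ Hom IndSet G (fun _ => Set.univ)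
        · rw [finsum_eq_if, if_pos hf]
        · rw [finsum_eq_if, if_neg hf, h6 f hf]
      rw [h10, one_mul, show irr IndSet = 2 from hB] at h9
      have h11 : ((2 ^ w : ℕ) : ℝ) ≤ ((2 * T'.size : ℕ) : ℝ) := by
        push_cast
        push_cast at h9
        exact h9
      have h12 : 2 ^ w ≤ 2 * T'.size := by exact_mod_cast h11
      omega
  · obtain ⟨-, -, T, hT1, hT2, hT3⟩ := hC' V G (fun _ => Set.univ) N t hG hT
    obtain ⟨T', hT1', hT2', hT3'⟩ := hInU V G T hT1 hT2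
    refine ⟨T', hT1', hT2', le_trans hT3' (le_trans hT3 ?_)⟩
    rw [show irr IndSet = 2 from hB]
    exact Nat.mul_le_mul_right _ (Nat.mul_le_mul_right _ (by omega))

end Pool.Agent.EXB
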