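import Pool.Agent.EXB.St

/-!
# EXB: building a circuit from a finite ranked set of items
-/

set_option autoImplicit false

namespace Pool.Agent.EXB

private theorem bld_enum {I : Type} [Fintype I] (rk : I → ℕ) :
    ∃ e : Fin (Fintype.card I) ≃ I, ∀ i j, rk i < rk j → e.symm i < e.symm j := by
  classical
  let e₀ := Fintype.equivFin I
  let g : I → ℕ ×ₗ Fin (Fintype.card I) := fun i => toLex (rk i, e₀ i)
  have hg : Function.Injective g := by
    intro i j h
    have h' : (rk i, e₀ i) = (rk j, e₀ j) := toLex.injective h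
    exact e₀.injective (Prod.ext_iff.1 h').2
  let _ : LinearOrder I := LinearOrder.lift' g hg
  let e : Fin (Fintype.card I) ≃o I := Fintype.orderIsoFinOfCardEq I rfl
  refine ⟨e.toEquiv, fun i j hij => ?_⟩
  have hlt : i < j := by
    show g i < g j
    rw [Prod.Lex.lt_iff]
    exact Or.inl hij
  show e.symm i < e.symm j
  exact e.symm.strictMono hlt

/-- building circuits -/
theorem thm_Bld : St_Bld := by
  classical
  intro V D I _ rk sc X ch o h1 h2
  obtain ⟨e, he⟩ := bld_enum rk
  let k : I → ℕ := fun j => (e.symm j : ℕ)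
  let u : ℕ → I := fun i => if h : i < Fintype.card I then e ⟨i, h⟩ else o
  have hk : ∀ j, k j < Fintype.card I := fun j => (e.symm j).2
  have huk : ∀ j, u (k j) = j := by
    intro j
    show (if h : k j < Fintype.card I then e ⟨k j, h⟩ else o) = j
    rw [dif_pos (hk j)]
    exact e.apply_symm_apply j
  have hku : ∀ i < Fintype.card I, k (u i) = i := by
    intro i hi
    have : u i = e ⟨i, hi⟩ := dif_pos hi
    rw [this]
    show ((e.symm (e ⟨i, hi⟩) : Fin _) : ℕ) = i
    rw [e.symm_apply_apply]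
  have hkinj : Function.Injective k := fun a b hab => by
    rw [← huk a, ← huk b, hab]
  have hX : ∀ (i : I) (p : ℕ → Prop), (∃ j ∈ (ch i).image k, p j) ↔ ∃ j ∈ ch i, p (k j) := by
    intro i p
    simp
  refine ⟨⟨Fintype.card I, fun i => sc (u i), fun i => X (u i), fun i => (ch (u i)).image k, k o⟩,
    ⟨hk o, fun i hi => ⟨fun j hj => ?_, ?_⟩⟩, fun i hi => ?_, ?_, ?_, ?_⟩
  · obtain ⟨j', hj', rfl⟩ := Finset.mem_image.1 hj
    obtain ⟨h3, h4⟩ := h1 (u i) j' hj'
    refine ⟨?_, ?_⟩
    · have := he j' (u i) h3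
      have h5 : k j' < k (u i) := this
      rwa [hku i hi] at h5
    · show sc (u (k j')) ⊆ sc (u i)
      rw [huk]
      exact h4
  · rcases h2 (u i) with ⟨h3, h4, h5⟩ | ⟨⟨h3, h4⟩, _⟩ | ⟨h3, _, h4⟩
    · refine Or.inl ⟨?_, h4, h5⟩
      show (ch (u i)).image k = ∅
      rw [h3]
      rfl
    · refine Or.inr (Or.inr ⟨fun j hj j' hj' hjj => ?_, fun f => ?_⟩)
      · obtain ⟨a, ha, rfl⟩ := Finset.mem_image.1 hj
        obtain ⟨b, hb, rfl⟩ := Finset.mem_image.1 hj'
        show Disjoint (sc (u (k a))) (sc (u (k b)))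
        rw [huk, huk]
        exact h3 a ha b hb fun h => hjj (h ▸ rfl)
      · show f ∈ X (u i) ↔ ∀ j ∈ (ch (u i)).image k, f ∈ X (u j)
        rw [h4 f]
        simp only [Finset.mem_image, forall_exists_index, and_imp, forall_apply_eq_imp_iff₂, huk]
    · refine Or.inr (Or.inl fun f => ?_)
      show f ∈ X (u i) ↔ ∃ j ∈ (ch (u i)).image k, f ∈ X (u j)
      rw [h3 f, hX]
      simp only [huk]
  · rcases h2 (u i) with ⟨h3, h4, h5⟩ | ⟨⟨h3, h4⟩, h6⟩ | ⟨h3, h6, h4⟩
    · refine Or.inl ⟨?_, h4, h5⟩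
      show (ch (u i)).image k = ∅
      rw [h3]
      rfl
    · refine Or.inr (Or.inl ⟨⟨fun j hj j' hj' hjj => ?_, fun f => ?_⟩, fun v hv => ?_⟩)
      · obtain ⟨a, ha, rfl⟩ := Finset.mem_image.1 hj
        obtain ⟨b, hb, rfl⟩ := Finset.mem_image.1 hj'
        show Disjoint (sc (u (k a))) (sc (u (k b)))
        rw [huk, huk]
        exact h3 a ha b hb fun h => hjj (h ▸ rfl)
      · show f ∈ X (u i) ↔ ∀ j ∈ (ch (u i)).image k, f ∈ X (u j)
        rw [h4 f]
        simp only [Finset.mem_image, forall_exists_index, and_imp, forall_apply_eq_imp_iff₂, huk]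
      · obtain ⟨j, hj, hvj⟩ := h6 v hv
        refine ⟨k j, Finset.mem_image_of_mem _ hj, ?_⟩
        show v ∈ sc (u (k j))
        rw [huk]
        exact hvj
    · refine Or.inr (Or.inr ⟨fun f => ?_, fun j hj => ?_, fun j hj j' hj' hjj => ?_⟩)
      · show f ∈ X (u i) ↔ ∃ j ∈ (ch (u i)).image k, f ∈ X (u j)
        rw [h3 f, hX]
        simp only [huk]
      · obtain ⟨a, ha, rfl⟩ := Finset.mem_image.1 hj
        show sc (u (k a)) = sc (u i)
        rw [huk]
        exact h6 a ha
      · obtain ⟨a, ha, rfl⟩ := Finset.mem_image.1 hj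
        obtain ⟨b, hb, rfl⟩ := Finset.mem_image.1 hj'
        show Disjoint (X (u (k a))) (X (u (k b)))
        rw [huk, huk]
        exact h4 a ha b hb fun h => hjj (h ▸ rfl)
  · show sc (u (k o)) = sc o
    rw [huk]
  · show X (u (k o)) = X o
    rw [huk]
  · show Fintype.card I + ∑ i ∈ Finset.range (Fintype.card I), ((ch (u i)).image k).card = _
    congr 1
    rw [Finset.sum_range, ← Equiv.sum_comp e fun i => (ch i).card]
    refine Finset.sum_congr rfl fun i _ => ?_
    rw [Finset.card_image_of_injective _ hkinj]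
    have : u (i : ℕ) = e i := dif_pos i.2
    rw [this]

end Pool.Agent.EXB
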