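import Mathlib
import Pool.Agent.EXB.St

/-!
# EXB: independent sets
-/

set_option autoImplicit false

namespace Pool.Agent.EXB

private theorem bool_irr : Irr IndSet (Finset.univ : Finset Bool) := by
  intro a _ b _
  refine ⟨⟨1, ?_⟩, ?_⟩
  · refine ⟨false, ?_, b, ?_, rfl⟩
    · rintro ⟨_, h⟩
      exact absurd h (by decide)
    · rintro ⟨h, _⟩
      exact absurd h (by decide)
  · intro hab
    refine ⟨true, ?_⟩
    cases a <;> cases b
    · exact absurd rfl hab
    · intro h
      exact (h.1 (by rintro ⟨h1, _⟩; exact absurd h1 (by decide))) ⟨rfl, rfl⟩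
    · intro h
      exact (h.2 (by rintro ⟨h1, _⟩; exact absurd h1 (by decide))) ⟨rfl, rfl⟩
    · exact absurd rfl hab

theorem thm_Bool : St_Bool := by
  classical
  unfold St_Bool irr
  apply le_antisymm
  · apply Finset.sup_le
    intro S _
    exact (Finset.card_le_univ S).trans (le_of_eq (by simp))
  · have h1 : (Finset.univ : Finset Bool) ∈
        (Finset.univ : Finset (Finset Bool)).filter fun S => Irr IndSet S :=
      Finset.mem_filter.2 ⟨Finset.mem_univ _, bool_irr⟩
    have h2 := Finset.le_sup (f := Finset.card) h1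
    have h3 : (Finset.univ : Finset Bool).card = 2 := by simp
    rw [h3] at h2
    refine h2.trans (le_of_eq ?_)
    congr 1

end Pool.Agent.EXB
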