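import Pool.Agent.EXB.St

/-!
# EXB: classes of colours for connected graphs
-/

set_option autoImplicit false

namespace Pool.Agent.EXB

private theorem cls_walk {V D : Type} {H : D → D → Prop} {G : SimpleGraph V} {L : V → Set D}
    {f : V → D} (hf : f ∈ Hom H G L) : ∀ {u v : V} (p : G.Walk u v), Wk H p.length (f u) (f v)
  | _, _, SimpleGraph.Walk.nil => rfl
  | _, _, SimpleGraph.Walk.cons h p => ⟨_, hf.2 _ _ h, cls_walk hf p⟩

private theorem cls_irr {D : Type} [Fintype D] {H : D → D → Prop} {S : Finset D} (hS : Irr H S) :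
    S.card ≤ irr H := by
  classical
  rw [irr]
  exact Finset.le_sup (f := Finset.card) (Finset.mem_filter.2 ⟨Finset.mem_univ _, hS⟩)

/-- classes of colours -/
theorem thm_Cls : St_Cls := by
  classical
  intro V D _ _ H hH G L v₀ x₀ hG
  have hw : ∀ v, ∃ p : G.Walk v₀ v, p.length = G.dist v₀ v := fun v =>
    (hG.preconnected v₀ v).exists_walk_length_eq_dist
  refine ⟨fun v => {y | y ∈ L v ∧ ∃ x n, Wk H (2 * n) x₀ x ∧ Wk H (G.dist v₀ v) x y},
    fun v => ?_, ?_⟩
  · obtain ⟨s, hs, hb⟩ := Set.exists_subset_bijOn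
      {y | y ∈ L v ∧ ∃ x n, Wk H (2 * n) x₀ x ∧ Wk H (G.dist v₀ v) x y} (nb H)
    have hfin : s.Finite := Set.toFinite s
    have hirr : Irr H hfin.toFinset := by
      intro a ha b hb'
      rw [Set.Finite.mem_toFinset] at ha hb'
      refine ⟨?_, fun hab => ?_⟩
      · obtain ⟨-, x, n, h1, h2⟩ := hs ha
        obtain ⟨-, x', n', h1', h2'⟩ := hs hb'
        refine ⟨G.dist v₀ v + n + n', ?_⟩
        have := Wk.add (Wk.add (Wk.symm hH h2) (Wk.symm hH h1)) (Wk.add h1' h2')
        have e : G.dist v₀ v + 2 * n + (2 * n' + G.dist v₀ v) = 2 * (G.dist v₀ v + n + n') := by ring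
        rwa [e] at this
      · by_contra h
        push Not at h
        refine hab (hb.injOn ha hb' ?_)
        ext t
        exact h t
    have h1 := cls_irr hirr
    have h2 : hfin.toFinset.card = (nbs H {y | y ∈ L v ∧ ∃ x n, Wk H (2 * n) x₀ x ∧
        Wk H (G.dist v₀ v) x y}).ncard := by
      rw [nbs, ← hb.image_eq, hb.injOn.ncard_image, Set.ncard_eq_toFinset_card s hfin]
    rw [← h2]
    exact h1
  · ext f
    constructor
    · rintro ⟨h1, h2⟩
      refine ⟨⟨fun v => (h1 v).1, h2⟩, ?_⟩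
      obtain ⟨-, x, n, h3, h4⟩ := h1 v₀
      rw [SimpleGraph.dist_self] at h4
      have : x = f v₀ := h4
      exact ⟨n, this ▸ h3⟩
    · rintro ⟨hf, n, hn⟩
      refine ⟨fun v => ⟨hf.1 v, f v₀, n, hn, ?_⟩, hf.2⟩
      obtain ⟨p, hp⟩ := hw v
      rw [← hp]
      exact cls_walk hf p

end Pool.Agent.EXB
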