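import Mathlib
import Pool.Agent.EXB.St

/-!
# EXB: proper colourings with `q ≥ 3` colours
-/

set_option autoImplicit false

namespace Pool.Agent.EXB

private theorem col_irr {q : ℕ} (hq : 3 ≤ q) :
    Irr (fun a b : Fin q => a ≠ b) (Finset.univ : Finset (Fin q)) := by
  classical
  intro a _ b _
  refine ⟨?_, fun hab => ⟨a, fun h => ?_⟩⟩
  · have h1 : ({a, b} : Finset (Fin q)).card < (Finset.univ : Finset (Fin q)).card := by
      have h2 : ({a, b} : Finset (Fin q)).card ≤ 2 := Finset.card_le_two
      have h3 : (Finset.univ : Finset (Fin q)).card = q := by simp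
      omega
    obtain ⟨c, _, hc⟩ := Finset.exists_mem_notMem_of_card_lt_card h1
    have hca : c ≠ a := fun h => hc (by simp [h])
    have hcb : c ≠ b := fun h => hc (by simp [h])
    exact ⟨1, c, hca.symm, b, hcb, rfl⟩
  · exact (h.2 hab.symm) rfl

/-- for proper `q`-colourings with `q ≥ 3` the base is `q` -/
theorem thm_Col : ∀ q : ℕ, 3 ≤ q → irr (fun a b : Fin q => a ≠ b) = q := by
  classical
  intro q hq
  unfold irr
  apply le_antisymm
  · apply Finset.sup_le
    intro S _
    exact (Finset.card_le_univ S).trans (le_of_eq (by simp))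
  · have h1 : (Finset.univ : Finset (Fin q)) ∈
        (Finset.univ : Finset (Finset (Fin q))).filter fun S => Irr (fun a b : Fin q => a ≠ b) S :=
      Finset.mem_filter.2 ⟨Finset.mem_univ _, col_irr hq⟩
    have h2 := Finset.le_sup (f := Finset.card) h1
    have h3 : (Finset.univ : Finset (Fin q)).card = q := by simp
    rw [h3] at h2
    refine h2.trans (le_of_eq ?_)
    congr 1

end Pool.Agent.EXB
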