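import Mathlib
import Pool.Agent.EXB.St

/-!
# EXB: `irr H = 1` is the tractable case of Dyer and Greenhill
-/

set_option autoImplicit false

namespace Pool.Agent.EXB

private theorem dg_even {D : Type} {H : D → D → Prop}
    (hR : ∀ a b c d, H a b → H b c → H c d → H a d) :
    ∀ (n : ℕ) (a b : D), Wk H (2 * n) a b → ∀ t, H b t → H a t
  | 0, a, b, h, t, ht => by
      have h1 : a = b := h
      rw [h1]
      exact ht
  | n + 1, a, b, h, t, ht => by
      obtain ⟨c, hc, c', hc', h'⟩ := h
      exact hR a c c' t hc hc' (dg_even hR n c' b h' t ht)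

private theorem card_le_irr {D : Type} [Fintype D] {H : D → D → Prop} {S : Finset D}
    (hS : Irr H S) : S.card ≤ irr H := by
  classical
  unfold irr
  refine le_trans ?_ (Finset.le_sup (f := Finset.card) (Finset.mem_filter.2
    ⟨Finset.mem_univ S, hS⟩))
  exact le_rfl

private theorem irr_le {D : Type} [Fintype D] {H : D → D → Prop} {k : ℕ}
    (h : ∀ S : Finset D, Irr H S → S.card ≤ k) : irr H ≤ k := by
  classical
  unfold irr
  refine Finset.sup_le fun S hS => ?_
  rw [Finset.mem_filter] at hS
  exact h S hS.2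

/-- `irr H = 1` iff every component of `H` is a complete bipartite graph or a complete graph with
all loops (the tractable case of Dyer and Greenhill) -/
theorem thm_DG : ∀ (D : Type) [Fintype D] [Nonempty D] (H : D → D → Prop),
    (∀ a b, H a b → H b a) →
    (irr H = 1 ↔ ∀ a b c d, H a b → H b c → H c d → H a d) := by
  classical
  intro D _ _ H hH
  have h1 : 1 ≤ irr H := by
    obtain ⟨a⟩ := ‹Nonempty D›
    have hS : Irr H ({a} : Finset D) := by
      intro x hx y hy
      rw [Finset.mem_singleton] at hx hy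
      subst hx
      subst hy
      exact ⟨⟨0, rfl⟩, fun h => absurd rfl h⟩
    have := card_le_irr hS
    simpa using this
  constructor
  · intro hi a b c d hab hbc hcd
    by_contra had
    have hac : a ≠ c := fun h => had (h ▸ hcd)
    have hw : Wk H (2 * 1) a c := ⟨b, hab, c, hbc, rfl⟩
    have hw' : Wk H (2 * 1) c a := ⟨b, hH _ _ hbc, a, hH _ _ hab, rfl⟩
    have hS : Irr H ({a, c} : Finset D) := by
      intro x hx y hy
      rw [Finset.mem_insert, Finset.mem_singleton] at hx hy
      rcases hx with rfl | rfl <;> rcases hy with rfl | rfl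
      · exact ⟨⟨0, rfl⟩, fun h => absurd rfl h⟩
      · exact ⟨⟨1, hw⟩, fun _ => ⟨d, fun h => had (h.2 hcd)⟩⟩
      · exact ⟨⟨1, hw'⟩, fun _ => ⟨d, fun h => had (h.1 hcd)⟩⟩
      · exact ⟨⟨0, rfl⟩, fun h => absurd rfl h⟩
    have h2 := card_le_irr hS
    rw [Finset.card_pair hac] at h2
    omega
  · intro hR
    refine le_antisymm (irr_le fun S hS => Finset.card_le_one.2 fun a ha b hb => ?_) h1
    by_contra hab
    obtain ⟨⟨n, hn⟩, h2⟩ := hS a ha b hb
    obtain ⟨t, ht⟩ := h2 hab
    exact ht ⟨fun h => dg_even hR n b a (Wk.symm hH hn) t h, fun h => dg_even hR n a b hn t h⟩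

end Pool.Agent.EXB
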