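import Pool.Agent.EXB.St

/-!
# EXB: degrees of the explicit graph
-/

set_option autoImplicit false

namespace Pool.Agent.EXB

private theorem dgr_range {α ι : Type} [Fintype ι] (f : ι → α) (s : Set α) (h : s ⊆ Set.range f) :
    s.ncard ≤ Fintype.card ι := by
  refine (Set.ncard_le_ncard h (Set.finite_range f)).trans ?_
  rw [← Set.image_univ]
  refine (Set.ncard_image_le Set.finite_univ).trans ?_
  rw [Set.ncard_univ, Nat.card_eq_fintype_card]

variable {D : Type} {w K m : ℕ}

private theorem dgr_posU (Y : Lay D w K) (k : Fin K) (j : ℕ) (hj : j ≤ m + 1) (r : Fin w)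
    (i : Fin (K + 1)) (h : pos Y m k j = U m r i) : k.castSucc = i ∧ (j = 0 ∨ j = m + 1) := by
  unfold pos at h
  split_ifs at h with h1 h2
  · simp only [U, Sum.inl.injEq, Prod.mk.injEq] at h
    exact ⟨h.2, Or.inl h1⟩
  · exact absurd h (by simp [U, Zz])
  · simp only [U, Sum.inl.injEq, Prod.mk.injEq] at h
    exact ⟨h.2, Or.inr (by omega)⟩

private theorem dgr_posV (Y : Lay D w K) (k : Fin K) (j : ℕ) (r : Fin w)
    (i : Fin K) (p : D × D) (h : pos Y m k j = Vv m r i p) : False := by
  unfold pos at h
  split_ifs at h with h1 h2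
  · exact absurd h (by simp [U, Vv])
  · exact absurd h (by simp [Vv, Zz])
  · exact absurd h (by simp [U, Vv])

private theorem dgr_posZ (Y : Lay D w K) (k : Fin K) (j : ℕ) (k' : Fin K) (j' : Fin m)
    (h : pos Y m k j = Zz k' j') : k = k' ∧ j = j' + 1 := by
  unfold pos at h
  split_ifs at h with h1 h2
  · exact absurd h (by simp [U, Zz])
  · simp only [Zz, Sum.inr.injEq, Prod.mk.injEq] at h
    refine ⟨h.1, ?_⟩
    have := congrArg Fin.val h.2
    simp only at this
    omega
  · exact absurd h (by simp [U, Zz])

theorem thm_Dgr : St_Dgr := by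
  intro D _ w K m Y hm v
  rcases v with ⟨r, i⟩ | ⟨r, i, p⟩ | ⟨k, j⟩
  · -- rows
    let f : (D × D) ⊕ ((D × D) ⊕ Bool) → Vx D w K m
      | Sum.inl p => if h : i.1 < K then Vv m r ⟨i.1, h⟩ p else U m r i
      | Sum.inr (Sum.inl p) => if h : i.1 - 1 < K then Vv m r ⟨i.1 - 1, h⟩ p else U m r i
      | Sum.inr (Sum.inr b) => if h : i.1 < K then pos Y m ⟨i.1, h⟩ (if b then 1 else m)
          else U m r i
    have h1 : ((Gr Y m).neighborSet (Sum.inl (r, i))).ncard ≤
        Fintype.card ((D × D) ⊕ ((D × D) ⊕ Bool)) := by
      refine dgr_range f _ ?_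
      intro u hu
      rw [SimpleGraph.mem_neighborSet, Gr, SimpleGraph.fromRel_adj] at hu
      obtain ⟨-, hu | hu⟩ := hu
      · generalize hv : (Sum.inl (r, i) : Vx D w K m) = v at hu
        cases hu with
        | uv r' i' p =>
          simp only [U, Sum.inl.injEq, Prod.mk.injEq] at hv
          obtain ⟨rfl, rfl⟩ := hv
          exact ⟨Sum.inl p, by simp [f]⟩
        | vu r' i' p => exact absurd hv (by simp [Vv])
        | cn k j hj =>
          obtain ⟨rfl, h | h⟩ := dgr_posU Y k j (by omega) r i hv.symm
          · subst h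
            exact ⟨Sum.inr (Sum.inr true), by simp [f]⟩
          · omega
      · generalize hv : (Sum.inl (r, i) : Vx D w K m) = v at hu
        cases hu with
        | uv r' i' p => exact absurd hv (by simp [Vv])
        | vu r' i' p =>
          simp only [U, Sum.inl.injEq, Prod.mk.injEq] at hv
          obtain ⟨rfl, rfl⟩ := hv
          exact ⟨Sum.inr (Sum.inl p), by simp [f]⟩
        | cn k j hj =>
          obtain ⟨rfl, h | h⟩ := dgr_posU Y k (j + 1) (by omega) r i hv.symm
          · omega
          · obtain rfl : j = m := by omega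
            exact ⟨Sum.inr (Sum.inr false), by simp [f]⟩
    refine h1.trans (le_of_eq ?_)
    simp only [Fintype.card_sum, Fintype.card_prod, Fintype.card_bool]
    ring
  · -- between the rows
    let f : Bool → Vx D w K m := fun b => if b then U m r i.castSucc else U m r i.succ
    have h1 : ((Gr Y m).neighborSet (Sum.inr (Sum.inl (r, i, p)))).ncard ≤
        Fintype.card Bool := by
      refine dgr_range f _ ?_
      intro u hu
      rw [SimpleGraph.mem_neighborSet, Gr, SimpleGraph.fromRel_adj] at hu
      obtain ⟨-, hu | hu⟩ := hu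
      · generalize hv : (Sum.inr (Sum.inl (r, i, p)) : Vx D w K m) = v at hu
        cases hu with
        | uv r' i' p' => exact absurd hv (by simp [U])
        | vu r' i' p' =>
          simp only [Vv, Sum.inr.injEq, Sum.inl.injEq, Prod.mk.injEq] at hv
          obtain ⟨rfl, rfl, rfl⟩ := hv
          exact ⟨false, by simp [f]⟩
        | cn k j hj => exact (dgr_posV Y k j r i p hv.symm).elim
      · generalize hv : (Sum.inr (Sum.inl (r, i, p)) : Vx D w K m) = v at hu
        cases hu with
        | uv r' i' p' =>
          simp only [Vv, Sum.inr.injEq, Sum.inl.injEq, Prod.mk.injEq] at hv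
          obtain ⟨rfl, rfl, rfl⟩ := hv
          exact ⟨true, by simp [f]⟩
        | vu r' i' p' => exact absurd hv (by simp [U])
        | cn k j hj => exact (dgr_posV Y k (j + 1) r i p hv.symm).elim
    refine h1.trans ?_
    simp only [Fintype.card_bool]
    omega
  · -- connectors
    let f : Bool → Vx D w K m := fun b => if b then pos Y m k j else pos Y m k (j + 2)
    have h1 : ((Gr Y m).neighborSet (Sum.inr (Sum.inr (k, j)))).ncard ≤
        Fintype.card Bool := by
      refine dgr_range f _ ?_
      intro u hu
      rw [SimpleGraph.mem_neighborSet, Gr, SimpleGraph.fromRel_adj] at hu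
      obtain ⟨-, hu | hu⟩ := hu
      · generalize hv : (Sum.inr (Sum.inr (k, j)) : Vx D w K m) = v at hu
        cases hu with
        | uv r' i' p' => exact absurd hv (by simp [U])
        | vu r' i' p' => exact absurd hv (by simp [Vv])
        | cn k' j' hj =>
          obtain ⟨rfl, rfl⟩ := dgr_posZ Y k' j' k j hv.symm
          exact ⟨false, by simp [f]⟩
      · generalize hv : (Sum.inr (Sum.inr (k, j)) : Vx D w K m) = v at hu
        cases hu with
        | uv r' i' p' => exact absurd hv (by simp [Vv])
        | vu r' i' p' => exact absurd hv (by simp [U])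
        | cn k' j' hj =>
          obtain ⟨rfl, h⟩ := dgr_posZ Y k' (j' + 1) k j hv.symm
          obtain rfl : j' = j := by omega
          exact ⟨true, by simp [f]⟩
    refine h1.trans ?_
    simp only [Fintype.card_bool]
    omega

end Pool.Agent.EXB
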