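import Pool.Agent.EXB.St

/-!
# EXB, module Dya: dynamic programming over a tree decomposition, semantics
-/

set_option autoImplicit false

namespace Pool.Agent.EXB

section

variable {V D : Type} {G : SimpleGraph V} {N t : ℕ} {H : D → D → Prop} {L : V → Set D}
  (T : TreeDec G N t)

private theorem Dya_old {T : TreeDec G N t} {i : ℕ} {v : V} :
    v ∈ Old T i ↔ v ∈ T.bag i ∧ T.top v ≠ i := by
  unfold Old
  rw [Finset.mem_filter]

private theorem Dya_new {T : TreeDec G N t} {i : ℕ} {v : V} :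
    v ∈ New T i ↔ v ∈ T.bag i ∧ T.top v = i := by
  unfold New
  rw [Finset.mem_filter]

private theorem Dya_res_pos {A : Finset V} {φ : V → Set D} {v : V} (h : v ∈ A) :
    res A φ v = φ v := by
  unfold res
  exact if_pos h

private theorem Dya_res_neg {A : Finset V} {φ : V → Set D} {v : V} (h : v ∉ A) :
    res A φ v = ∅ := by
  unfold res
  exact if_neg h

private theorem Dya_res_congr {A : Finset V} {φ φ' : V → Set D} (h : ∀ v ∈ A, φ v = φ' v) :
    res A φ = res A φ' := by
  funext v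
  by_cases hv : v ∈ A
  · rw [Dya_res_pos hv, Dya_res_pos hv, h v hv]
  · rw [Dya_res_neg hv, Dya_res_neg hv]

private theorem Dya_res_empty {A : Finset V} {φ : V → Set D} (h : ∀ v, v ∉ A) :
    res A φ = fun _ => ∅ := by
  funext v
  exact Dya_res_neg (h v)

private theorem Dya_AX (i : ℕ) (ψ : V → Set D) (f : V → D) :
    f ∈ AX H L T i ψ ↔ ∃ φ, IsSt H L (T.bag i) φ ∧ Vd H G (T.bag i) φ ∧
      res (Old T i) φ = ψ ∧ f ∈ PX H L T i φ := by
  rw [AX]
  constructor
  · rintro ⟨φ, h1, h2, h3, h4, h5⟩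
    exact ⟨φ, h1, h2, h3, h4, fun c hc hp => h5 ⟨c, hc⟩ hp⟩
  · rintro ⟨φ, h1, h2, h3, h4, h5⟩
    exact ⟨φ, h1, h2, h3, h4, fun c hp => h5 c.1 c.2 hp⟩

private theorem Dya_disj (i : ℕ) (φ φ' : V → Set D) (h1 : IsSt H L (T.bag i) φ)
    (h2 : IsSt H L (T.bag i) φ') (h3 : res (Old T i) φ = res (Old T i) φ') (h4 : φ ≠ φ') :
    Disjoint (PX H L T i φ) (PX H L T i φ') := by
  rw [Set.disjoint_left]
  rintro f ⟨hf, -⟩ ⟨hf', -⟩
  apply h4
  funext v
  by_cases hv : v ∈ T.bag i
  · by_cases ht : T.top v = i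
    · have hn : v ∈ New T i := Dya_new.2 ⟨hv, ht⟩
      exact (hf v hn).2.symm.trans (hf' v hn).2
    · have ho : v ∈ Old T i := Dya_old.2 ⟨hv, ht⟩
      have h5 := congrFun h3 v
      rwa [Dya_res_pos ho, Dya_res_pos ho] at h5
  · rw [h1.2 v hv, h2.2 v hv]

private theorem Dya_iter (n x : ℕ) : x ≤ T.par^[n] x := by
  induction n with
  | zero => exact le_rfl
  | succ n ih =>
    rw [Function.iterate_succ_apply']
    exact ih.trans (T.par_lt _).le

private theorem Dya_sb [Fintype V] {T : TreeDec G N t} {i : ℕ} {v : V} :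
    v ∈ Sb T i ↔ ∃ n, T.par^[n] (T.top v) = i := by
  classical
  unfold Sb
  simp only [Finset.mem_filter, Finset.mem_univ, true_and]

private theorem Dya_dep [Fintype V] : ∀ i φ, DepOn (Sb T i) (AX H L T i φ) ∧
    DepOn (Sb T i) (PX H L T i φ) := by
  intro i
  induction i using Nat.strong_induction_on with
  | _ i ih =>
    have hP : ∀ φ, DepOn (Sb T i) (PX H L T i φ) := by
      rintro φ f g hfg ⟨h1, h2⟩
      refine ⟨fun v hv => ?_, fun c hc hp => ?_⟩
      · have h3 : f v = g v := hfg v (Dya_sb.2 ⟨0, (Dya_new.1 hv).2⟩)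
        have h4 := h1 v hv
        exact ⟨h3 ▸ h4.1, h3 ▸ h4.2⟩
      · refine (ih c hc _).1 f g (fun v hv => hfg v ?_) (h2 c hc hp)
        obtain ⟨n, hn⟩ := Dya_sb.1 hv
        refine Dya_sb.2 ⟨n + 1, ?_⟩
        rw [Function.iterate_succ_apply', hn, hp]
    refine fun φ => ⟨?_, hP φ⟩
    intro f g hfg hf
    obtain ⟨ψ, h1, h2, h3, h4⟩ := (Dya_AX T i φ f).1 hf
    exact (Dya_AX T i φ g).2 ⟨ψ, h1, h2, h3, hP ψ f g hfg h4⟩

private theorem Dya_lt_aux (x n n' i c c' : ℕ) (h : T.par^[n] x = c) (h' : T.par^[n'] x = c')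
    (hp : T.par c = i) (hp' : T.par c' = i) (hn : n < n') : False := by
  obtain ⟨k, rfl⟩ : ∃ k, n' = k + (n + 1) := ⟨n' - (n + 1), by omega⟩
  rw [Function.iterate_add_apply, Function.iterate_succ_apply', h, hp] at h'
  have h1 := Dya_iter T k i
  have h2 := T.par_lt c'
  omega

private theorem Dya_child [Fintype V] (i c c' : ℕ) (hp : T.par c = i) (hp' : T.par c' = i)
    (hne : c ≠ c') : Disjoint (Sb T c) (Sb T c') := by
  rw [Finset.disjoint_left]
  intro v hv hv'
  obtain ⟨n, hn⟩ := Dya_sb.1 hv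
  obtain ⟨n', hn'⟩ := Dya_sb.1 hv'
  rcases lt_trichotomy n n' with h | h | h
  · exact Dya_lt_aux T _ n n' i c c' hn hn' hp hp' h
  · rw [h] at hn
    exact hne (hn.symm.trans hn')
  · exact Dya_lt_aux T _ n' n i c' c hn' hn hp' hp h

private theorem Dya_top [Fintype V] (c : ℕ) (v : V) (h : T.top v = T.par c) : v ∉ Sb T c := by
  intro hv
  obtain ⟨n, hn⟩ := Dya_sb.1 hv
  have h1 := Dya_iter T n (T.top v)
  have h2 := T.par_lt c
  omega

/-- the state of `f` -/
private noncomputable def Dya_st (H : D → D → Prop) (T : TreeDec G N t) (f : V → D) (i : ℕ) :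
    V → Set D := res (T.bag i) fun v => nb H (f v)

private theorem Dya_fwd (hH : ∀ a b, H a b → H b a) (f : V → D) (hf : f ∈ Hom H G L) :
    ∀ i < N, f ∈ AX H L T i (res (Old T i) (Dya_st H T f i)) := by
  intro i
  induction i using Nat.strong_induction_on with
  | _ i ih =>
    intro hi
    refine (Dya_AX T i _ f).2 ⟨Dya_st H T f i, ⟨fun v hv => ?_, fun v hv => Dya_res_neg hv⟩,
      fun u hu v hv huv a b ha hb => ?_, rfl, fun v hv => ?_, fun c hc hp => ?_⟩
    · unfold Dya_st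
      rw [Dya_res_pos hv]
      exact ⟨f v, hf.1 v, rfl⟩
    · unfold Dya_st at ha hb
      rw [Dya_res_pos hu] at ha
      rw [Dya_res_pos hv] at hb
      have h1 : f v ∈ nb H a := by
        rw [ha]
        exact hf.2 u v huv
      have h2 : a ∈ nb H b := by
        rw [hb]
        exact hH _ _ h1
      exact hH _ _ h2
    · refine ⟨hf.1 v, ?_⟩
      unfold Dya_st
      rw [Dya_res_pos (Dya_new.1 hv).1]
    · have h1 := ih c hc (hc.trans hi)
      have h2 : res (Old T c) (Dya_st H T f i) = res (Old T c) (Dya_st H T f c) := by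
        refine Dya_res_congr fun v hv => ?_
        have h3 := Dya_old.1 hv
        have h4 := T.up v c (hc.trans hi) h3.1 (Ne.symm h3.2)
        rw [hp] at h4
        unfold Dya_st
        rw [Dya_res_pos h4.2, Dya_res_pos h3.1]
      rw [h2]
      exact h1

private theorem Dya_root (i : ℕ) (hi : i < N) (hr : N ≤ T.par i) (v : V) : v ∉ Old T i := by
  intro hv
  have h3 := Dya_old.1 hv
  have h4 := T.up v i hi h3.1 (Ne.symm h3.2)
  omega

/-- the state found at `i` is the one of `f` -/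
private theorem Dya_found (f : V → D) (i : ℕ) (φ : V → Set D)
    (h3 : res (Old T i) φ = res (Old T i) fun v => nb H (f v)) (h4 : f ∈ PX H L T i φ) (v : V)
    (hv : v ∈ T.bag i) : φ v = nb H (f v) := by
  by_cases ht : T.top v = i
  · exact (h4.1 v (Dya_new.2 ⟨hv, ht⟩)).2.symm
  · have ho : v ∈ Old T i := Dya_old.2 ⟨hv, ht⟩
    have h5 := congrFun h3 v
    rwa [Dya_res_pos ho, Dya_res_pos ho] at h5

private theorem Dya_bwd (f : V → D) (hf : ∀ i < N, N ≤ T.par i → f ∈ AX H L T i fun _ => ∅) :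
    ∀ k i, i < N → N ≤ i + k → f ∈ AX H L T i (res (Old T i) fun v => nb H (f v)) := by
  intro k
  induction k with
  | zero =>
    intro i hi hk
    omega
  | succ k ih =>
    intro i hi hk
    rcases Nat.lt_or_ge (T.par i) N with hr | hr
    · have hlt := T.par_lt i
      have h1 := ih (T.par i) hr (by omega)
      obtain ⟨φ, -, -, h3, h4⟩ := (Dya_AX T _ _ f).1 h1
      have h5 := h4.2 i hlt rfl
      have h6 : res (Old T i) φ = res (Old T i) fun v => nb H (f v) := by
        refine Dya_res_congr fun v hv => ?_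
        have h7 := Dya_old.1 hv
        exact Dya_found T f (T.par i) φ h3 h4 v (T.up v i hi h7.1 (Ne.symm h7.2)).2
      rw [h6] at h5
      exact h5
    · rw [Dya_res_empty (Dya_root T i hi hr)]
      exact hf i hi hr

private theorem Dya_hom (hH : ∀ a b, H a b → H b a) :
    Hom H G L = {f | ∀ i < N, N ≤ T.par i → f ∈ AX H L T i (fun _ => ∅)} := by
  ext f
  constructor
  · intro hf i hi hr
    have h1 := Dya_fwd T hH f hf i hi
    rwa [Dya_res_empty (Dya_root T i hi hr)] at h1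
  · intro hf
    have h1 : ∀ i < N, f ∈ AX H L T i (res (Old T i) fun v => nb H (f v)) := fun i hi =>
      Dya_bwd T f hf (N - i) i hi (by omega)
    constructor
    · intro v
      obtain ⟨φ, -, -, -, h4⟩ := (Dya_AX T _ _ f).1 (h1 _ (T.top_lt v))
      exact (h4.1 v (Dya_new.2 ⟨T.top_mem v, rfl⟩)).1
    · intro u v huv
      obtain ⟨i, hi, hu, hv⟩ := T.edge u v huv
      obtain ⟨φ, -, h2, h3, h4⟩ := (Dya_AX T _ _ f).1 (h1 i hi)
      exact h2 u hu v hv huv (f u) (f v) (Dya_found T f i φ h3 h4 u hu).symm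
        (Dya_found T f i φ h3 h4 v hv).symm

end

/-- **Module Dya** -/
theorem thm_Dya : St_Dya := by
  intro V D _ H hH G L N t T
  exact ⟨fun i ψ f => Dya_AX T i ψ f, fun i φ φ' h1 h2 h3 h4 => Dya_disj T i φ φ' h1 h2 h3 h4,
    fun i φ => Dya_dep T i φ, fun i c c' hp hp' hne => Dya_child T i c c' hp hp' hne,
    fun c v h => Dya_top T c v h, Dya_hom T hH⟩

end Pool.Agent.EXB
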