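import Mathlib
import Pool.Agent.EXB.St

/-!
# EXB, module Dyn: the circuit of the dynamic programming

`thm_Dyn : St_Dyn`.
-/

set_option autoImplicit false

namespace Pool.Agent.EXB

open Finset

section

variable {V D : Type} [Fintype V] [Fintype D] (H : D → D → Prop) {G : SimpleGraph V}
  (L : V → Set D) {N t : ℕ} (T : TreeDec G N t)

/-- leaf items -/
private abbrev DL : Type := Σ v : V, {σ : Set D // σ ∈ nbs H (L v)}

/-- the items `P i φ` -/
private abbrev DP : Type :=
  Σ i : Fin N, {φ : V → Set D // IsSt H L (T.bag i) φ ∧ Vd H G (T.bag i) φ}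

/-- the items `A i ψ` -/
private abbrev DA : Type := Σ i : Fin N, {ψ : V → Set D // IsSt H L (Old T i) ψ}

/-- all items -/
private abbrev DI : Type := DL H L ⊕ (DP H L T ⊕ (DA H L T ⊕ Unit))

private def drk : DI H L T → ℕ
  | Sum.inl _ => 0
  | Sum.inr (Sum.inl x) => 2 * x.1 + 1
  | Sum.inr (Sum.inr (Sum.inl x)) => 2 * x.1 + 2
  | Sum.inr (Sum.inr (Sum.inr _)) => 2 * N + 1

private noncomputable def dsc : DI H L T → Finset V
  | Sum.inl x => {x.1}
  | Sum.inr (Sum.inl x) => Sb T x.1
  | Sum.inr (Sum.inr (Sum.inl x)) => Sb T x.1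
  | Sum.inr (Sum.inr (Sum.inr _)) => univ

private noncomputable def dX : DI H L T → Set (V → D)
  | Sum.inl x => LX H L x.1 x.2.1
  | Sum.inr (Sum.inl x) => PX H L T x.1 x.2.1
  | Sum.inr (Sum.inr (Sum.inl x)) => AX H L T x.1 x.2.1
  | Sum.inr (Sum.inr (Sum.inr _)) => Hom H G L

/-- the second item is an input of the first one -/
private def dR : DI H L T → DI H L T → Prop
  | Sum.inr (Sum.inl x), Sum.inl y => y.1 ∈ New T x.1 ∧ y.2.1 = x.2.1 y.1
  | Sum.inr (Sum.inl x), Sum.inr (Sum.inr (Sum.inl y)) =>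
      T.par y.1 = x.1 ∧ y.2.1 = res (Old T y.1) x.2.1
  | Sum.inr (Sum.inr (Sum.inl x)), Sum.inr (Sum.inl y) =>
      y.1 = x.1 ∧ res (Old T x.1) y.2.1 = x.2.1
  | Sum.inr (Sum.inr (Sum.inr _)), Sum.inr (Sum.inr (Sum.inl y)) =>
      N ≤ T.par y.1 ∧ y.2.1 = fun _ => ∅
  | _, _ => False

omit [Fintype V] [Fintype D] in
private lemma Dyn_mem_New (i : ℕ) (v : V) : v ∈ New T i ↔ v ∈ T.bag i ∧ T.top v = i := by
  classical
  simp [New]

omit [Fintype V] [Fintype D] in
private lemma Dyn_mem_Old (i : ℕ) (v : V) : v ∈ Old T i ↔ v ∈ T.bag i ∧ T.top v ≠ i := by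
  classical
  simp [Old]

omit [Fintype D] in
private lemma Dyn_mem_Sb (i : ℕ) (v : V) : v ∈ Sb T i ↔ ∃ n, T.par^[n] (T.top v) = i := by
  classical
  simp [Sb]

omit [Fintype V] [Fintype D] in
private lemma Dyn_res_st {i c : ℕ} (hc : c < N) (hp : T.par c = i) {φ : V → Set D}
    (hφ : IsSt H L (T.bag i) φ) : IsSt H L (Old T c) (res (Old T c) φ) := by
  classical
  refine ⟨fun v hv => ?_, fun v hv => by simp [res, hv]⟩
  have h1 := (Dyn_mem_Old T c v).1 hv
  have h2 := (T.up v c hc h1.1 (Ne.symm h1.2)).2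
  rw [hp] at h2
  have h3 : res (Old T c) φ v = φ v := by simp [res, hv]
  rw [h3]
  exact hφ.1 v h2

omit [Fintype V] [Fintype D] in
private lemma Dyn_root {i : ℕ} (hi : i < N) (hp : N ≤ T.par i) :
    IsSt H L (Old T i) (fun _ => ∅) := by
  refine ⟨fun v hv => ?_, fun v hv => rfl⟩
  have h1 := (Dyn_mem_Old T i v).1 hv
  have h2 := (T.up v i hi h1.1 (Ne.symm h1.2)).1
  omega

omit [Fintype V] [Fintype D] in
private lemma Dyn_iter_le (n i : ℕ) : i ≤ T.par^[n] i := by
  induction n with
  | zero => exact le_rfl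
  | succ n ih =>
    rw [Function.iterate_succ_apply']
    exact ih.trans (T.par_lt _).le

omit [Fintype D] in
private lemma Dyn_Sb_par {c i : ℕ} (h : T.par c = i) : Sb T c ⊆ Sb T i := by
  intro v hv
  rw [Dyn_mem_Sb] at hv ⊢
  obtain ⟨n, hn⟩ := hv
  exact ⟨n + 1, by rw [Function.iterate_succ_apply', hn, h]⟩

omit [Fintype V] [Fintype D] in
private lemma Dyn_roots_aux {i i' n n' : ℕ} {v : V} (hi' : i' < N) (hp : N ≤ T.par i)
    (h : T.par^[n] (T.top v) = i) (h' : T.par^[n'] (T.top v) = i') (hn : n < n') : False := by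
  obtain ⟨k, rfl⟩ := Nat.exists_eq_add_of_lt hn
  rw [show n + k + 1 = k + (n + 1) by ring, Function.iterate_add_apply,
    Function.iterate_succ_apply', h] at h'
  have h1 := Dyn_iter_le T k (T.par i)
  omega

omit [Fintype D] in
private lemma Dyn_cover {i : ℕ} {v : V} (hv : v ∈ Sb T i) :
    v ∈ New T i ∨ ∃ c, T.par c = i ∧ v ∈ Sb T c := by
  rw [Dyn_mem_Sb] at hv
  obtain ⟨n, hn⟩ := hv
  rcases n with _ | n
  · have h1 : T.top v = i := hn
    exact Or.inl ((Dyn_mem_New T i v).2 ⟨h1 ▸ T.top_mem v, h1⟩)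
  · refine Or.inr ⟨T.par^[n] (T.top v), ?_, (Dyn_mem_Sb T _ v).2 ⟨n, rfl⟩⟩
    rw [← Function.iterate_succ_apply' T.par n]
    exact hn

omit [Fintype D] in
private lemma Dyn_cover_root (v : V) : ∃ i < N, N ≤ T.par i ∧ v ∈ Sb T i := by
  by_contra h
  push Not at h
  have h1 : ∀ n, T.par^[n] (T.top v) < N := by
    intro n
    induction n with
    | zero => exact T.top_lt v
    | succ n ih =>
      by_contra h2
      push Not at h2
      rw [Function.iterate_succ_apply'] at h2
      exact h _ ih h2 ((Dyn_mem_Sb T _ v).2 ⟨n, rfl⟩)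
  have h2 : ∀ n, n ≤ T.par^[n] (T.top v) := by
    intro n
    induction n with
    | zero => exact Nat.zero_le _
    | succ n ih =>
      rw [Function.iterate_succ_apply']
      have := T.par_lt (T.par^[n] (T.top v))
      omega
  have h3 := h1 N
  have h4 := h2 N
  omega

omit [Fintype D] in
private lemma Dyn_roots {i i' : ℕ} (hi : i < N) (hi' : i' < N) (hp : N ≤ T.par i)
    (hp' : N ≤ T.par i') (hne : i ≠ i') : Disjoint (Sb T i) (Sb T i') := by
  rw [Finset.disjoint_left]
  intro v hv hv'
  rw [Dyn_mem_Sb] at hv hv'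
  obtain ⟨n, hn⟩ := hv
  obtain ⟨n', hn'⟩ := hv'
  rcases lt_trichotomy n n' with h | h | h
  · exact Dyn_roots_aux T hi' hp hn hn' h
  · subst h
    exact hne (hn.symm.trans hn')
  · exact Dyn_roots_aux T hi hp' hn' hn h

/-- number of states -/
private lemma Dyn_states {q : ℕ} (hq : 1 ≤ q) (hL : ∀ v, (nbs H (L v)).ncard ≤ q) (A : Finset V)
    (hA : A.card ≤ t + 1) : Nat.card {φ : V → Set D // IsSt H L A φ} ≤ q ^ (t + 1) := by
  classical
  let f : {φ : V → Set D // IsSt H L A φ} → ((v : A) → nbs H (L v)) := fun φ v =>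
    ⟨φ.1 v.1, φ.2.1 v.1 v.2⟩
  have hf : Function.Injective f := by
    intro φ φ' h
    apply Subtype.ext
    funext v
    by_cases hv : v ∈ A
    · exact congrArg Subtype.val (congrFun h ⟨v, hv⟩)
    · rw [φ.2.2 v hv, φ'.2.2 v hv]
  refine (Nat.card_le_card_of_injective f hf).trans ?_
  rw [Nat.card_pi]
  calc ∏ v : A, Nat.card (nbs H (L v)) ≤ ∏ _v : A, q := by
        refine Finset.prod_le_prod' fun v _ => ?_
        rw [Nat.card_coe_set_eq]
        exact hL v
    _ = q ^ A.card := by rw [prod_const, card_univ, Fintype.card_coe]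
    _ ≤ q ^ (t + 1) := Nat.pow_le_pow_right hq hA

end

/-- counting pairs, the second one determines the first one -/
private lemma Dyn_pairs {α β : Type} [Fintype α] [Fintype β] (r : α → β → Prop)
    [∀ x, DecidablePred (r x)] (h : ∀ x x' y, r x y → r x' y → x = x') :
    ∑ x, (univ.filter (r x)).card ≤ Fintype.card β := by
  classical
  rw [← card_sigma, ← card_univ]
  refine card_le_card_of_injOn (fun p => p.2) (fun _ _ => mem_univ _) ?_
  rintro ⟨x, y⟩ hx ⟨x', y'⟩ hx' hyy
  simp only [coe_sigma, Set.mem_sigma_iff, mem_coe, mem_filter, mem_univ, true_and] at hx hx' hyy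
  subst hyy
  rw [h x x' y hx hx']

/-- [Dyn] -/
theorem thm_Dyn : St_Dyn := by
  classical
  intro hBld hDya V D _ _ H hH G L N t q hq hN hL T
  obtain ⟨d1, d2, -, d4, d5, d6⟩ := hDya V D H hH G L N t T
  let ch : DI H L T → Finset (DI H L T) := fun x => univ.filter (dR H L T x)
  have hch : ∀ x y, y ∈ ch x ↔ dR H L T x y := fun x y => by simp [ch]
  have hc1 : ∀ i, ∀ j ∈ ch i, drk H L T j < drk H L T i ∧ dsc H L T j ⊆ dsc H L T i := by
    intro x y hy
    rw [hch] at hy
    rcases x with x | ⟨i, φ, hφ⟩ | ⟨i, ψ, hψ⟩ | x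
    · exact (show False from hy).elim
    · rcases y with ⟨v, σ⟩ | y | ⟨c, ψ⟩ | y
      · refine ⟨?_, ?_⟩
        · change 0 < 2 * (i : ℕ) + 1
          omega
        · change {v} ⊆ Sb T i
          rw [singleton_subset_iff, Dyn_mem_Sb]
          exact ⟨0, ((Dyn_mem_New T _ _).1 hy.1).2⟩
      · exact (show False from hy).elim
      · refine ⟨?_, Dyn_Sb_par T hy.1⟩
        change 2 * (c : ℕ) + 2 < 2 * (i : ℕ) + 1
        have h1 := T.par_lt c
        have h2 : T.par c = i := hy.1
        omega
      · exact (show False from hy).elim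
    · rcases y with y | ⟨i', φ⟩ | y | y
      · exact (show False from hy).elim
      · have h1 : i' = i := hy.1
        subst h1
        refine ⟨?_, Subset.refl _⟩
        change 2 * (i' : ℕ) + 1 < 2 * (i' : ℕ) + 2
        omega
      · exact (show False from hy).elim
      · exact (show False from hy).elim
    · rcases y with y | y | ⟨i', ψ⟩ | y
      · exact (show False from hy).elim
      · exact (show False from hy).elim
      · refine ⟨?_, subset_univ _⟩
        change 2 * (i' : ℕ) + 2 < 2 * N + 1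
        have := i'.2
        omega
      · exact (show False from hy).elim
  have hc2 : ∀ i, (ch i = ∅ ∧ (dsc H L T i).card ≤ 1 ∧ DepOn (dsc H L T i) (dX H L T i)) ∨
      (((∀ j ∈ ch i, ∀ j' ∈ ch i, j ≠ j' → Disjoint (dsc H L T j) (dsc H L T j')) ∧
        ∀ f, f ∈ dX H L T i ↔ ∀ j ∈ ch i, f ∈ dX H L T j) ∧
          ∀ v ∈ dsc H L T i, ∃ j ∈ ch i, v ∈ dsc H L T j) ∨
      ((∀ f, f ∈ dX H L T i ↔ ∃ j ∈ ch i, f ∈ dX H L T j) ∧
        (∀ j ∈ ch i, dsc H L T j = dsc H L T i) ∧
        ∀ j ∈ ch i, ∀ j' ∈ ch i, j ≠ j' → Disjoint (dX H L T j) (dX H L T j')) := by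
    rintro (⟨v, σ⟩ | ⟨i, φ, hφ⟩ | ⟨i, ψ, hψ⟩ | x)
    · left
      refine ⟨?_, ?_, ?_⟩
      · rw [eq_empty_iff_forall_notMem]
        intro y hy
        exact (hch _ _).1 hy
      · change ({v} : Finset V).card ≤ 1
        rw [card_singleton]
      · intro f g hfg hf
        have h1 : f v = g v := hfg v (mem_singleton_self v)
        change g v ∈ L v ∧ nb H (g v) = σ.1
        rw [← h1]
        exact hf
    · right; left
      refine ⟨⟨?_, fun f => ⟨fun hf y hy => ?_, fun hf => ⟨fun v hv => ?_, fun c hc hp => ?_⟩⟩⟩,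
        fun v hv => ?_⟩
      · intro y hy y' hy' hne
        rw [hch] at hy hy'
        rcases y with ⟨v, σ⟩ | y | ⟨c, ψ⟩ | y
        · rcases y' with ⟨v', σ'⟩ | y' | ⟨c', ψ'⟩ | y'
          · change Disjoint {v} {v'}
            rw [disjoint_singleton]
            rintro rfl
            exact hne (congrArg Sum.inl (Sigma.ext rfl (heq_of_eq (Subtype.ext
              (hy.2.trans hy'.2.symm)))))
          · exact (show False from hy').elim
          · change Disjoint {v} (Sb T c')
            rw [disjoint_singleton_left]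
            exact d5 c' v (((Dyn_mem_New T _ _).1 hy.1).2.trans hy'.1.symm)
          · exact (show False from hy').elim
        · exact (show False from hy).elim
        · rcases y' with ⟨v', σ'⟩ | y' | ⟨c', ψ'⟩ | y'
          · change Disjoint (Sb T c) {v'}
            rw [disjoint_singleton_right]
            exact d5 c v' (((Dyn_mem_New T _ _).1 hy'.1).2.trans hy.1.symm)
          · exact (show False from hy').elim
          · refine d4 i c c' hy.1 hy'.1 fun hcc => hne ?_
            have h1 : c = c' := Fin.ext hcc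
            subst h1
            exact congrArg (fun z => (Sum.inr (Sum.inr (Sum.inl z)) : DI H L T))
              (Sigma.ext rfl (heq_of_eq (Subtype.ext (hy.2.trans hy'.2.symm))))
          · exact (show False from hy').elim
        · exact (show False from hy).elim
      · rw [hch] at hy
        rcases y with ⟨v, σ⟩ | y | ⟨c, ψ⟩ | y
        · change f ∈ LX H L v σ.1
          rw [hy.2]
          exact hf.1 v hy.1
        · exact (show False from hy).elim
        · change f ∈ AX H L T c ψ.1
          rw [hy.2]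
          have h2 : T.par c = i := hy.1
          exact hf.2 c (h2 ▸ T.par_lt c) h2
        · exact (show False from hy).elim
      · exact hf (Sum.inl ⟨v, φ v, hφ.1.1 v ((Dyn_mem_New T _ _).1 hv).1⟩)
          ((hch _ _).2 ⟨hv, rfl⟩)
      · have hcN : c < N := hc.trans i.2
        exact hf (Sum.inr (Sum.inr (Sum.inl ⟨⟨c, hcN⟩, res (Old T c) φ,
          Dyn_res_st H L T hcN hp hφ.1⟩))) ((hch _ _).2 ⟨hp, rfl⟩)
      · rcases Dyn_cover T (show v ∈ Sb T i from hv) with h1 | ⟨c, hp, h1⟩
        · exact ⟨Sum.inl ⟨v, φ v, hφ.1.1 v ((Dyn_mem_New T _ _).1 h1).1⟩,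
            (hch _ _).2 ⟨h1, rfl⟩, mem_singleton_self v⟩
        · have hcN : c < N := (T.par_lt c).trans (by
            rw [hp]
            exact i.2)
          exact ⟨Sum.inr (Sum.inr (Sum.inl ⟨⟨c, hcN⟩, res (Old T c) φ,
            Dyn_res_st H L T hcN hp hφ.1⟩)), (hch _ _).2 ⟨hp, rfl⟩, h1⟩
    · right; right
      refine ⟨fun f => ?_, ?_, ?_⟩
      · change f ∈ AX H L T i ψ ↔ _
        rw [d1]
        constructor
        · rintro ⟨φ, h1, h2, h3, h4⟩
          exact ⟨Sum.inr (Sum.inl ⟨i, φ, h1, h2⟩), (hch _ _).2 ⟨rfl, h3⟩, h4⟩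
        · rintro ⟨y, hy, hf⟩
          rw [hch] at hy
          rcases y with y | ⟨i', φ, hφ⟩ | y | y
          · exact (show False from hy).elim
          · obtain ⟨h1, h2⟩ := hy
            dsimp only at h1 h2
            subst h1
            exact ⟨φ, hφ.1, hφ.2, h2, hf⟩
          · exact (show False from hy).elim
          · exact (show False from hy).elim
      · intro y hy
        rw [hch] at hy
        rcases y with y | ⟨i', φ, hφ⟩ | y | y
        · exact (show False from hy).elim
        · have h1 : i' = i := hy.1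
          subst h1
          rfl
        · exact (show False from hy).elim
        · exact (show False from hy).elim
      · intro y hy y' hy' hne
        rw [hch] at hy hy'
        rcases y with y | ⟨i', φ, hφ⟩ | y | y
        · exact (show False from hy).elim
        · rcases y' with y' | ⟨i'', φ', hφ'⟩ | y' | y'
          · exact (show False from hy').elim
          · obtain ⟨h1, h2⟩ := hy
            obtain ⟨h3, h4⟩ := hy'
            dsimp only at h1 h2 h3 h4
            subst h1
            subst h3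
            refine d2 i'' φ φ' hφ.1 hφ'.1 (h2.trans h4.symm) fun h5 => hne ?_
            subst h5
            rfl
          · exact (show False from hy').elim
          · exact (show False from hy').elim
        · exact (show False from hy).elim
        · exact (show False from hy).elim
    · right; left
      refine ⟨⟨?_, fun f => ?_⟩, fun v _ => ?_⟩
      · intro y hy y' hy' hne
        rw [hch] at hy hy'
        rcases y with y | y | ⟨c, ψ⟩ | y
        · exact (show False from hy).elim
        · exact (show False from hy).elim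
        · rcases y' with y' | y' | ⟨c', ψ'⟩ | y'
          · exact (show False from hy').elim
          · exact (show False from hy').elim
          · refine Dyn_roots T c.2 c'.2 hy.1 hy'.1 fun hcc => hne ?_
            have h1 : c = c' := Fin.ext hcc
            subst h1
            exact congrArg (fun z => (Sum.inr (Sum.inr (Sum.inl z)) : DI H L T))
              (Sigma.ext rfl (heq_of_eq (Subtype.ext (hy.2.trans hy'.2.symm))))
          · exact (show False from hy').elim
        · exact (show False from hy).elim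
      · change f ∈ Hom H G L ↔ _
        rw [d6]
        constructor
        · intro hf y hy
          rw [hch] at hy
          rcases y with y | y | ⟨c, ψ⟩ | y
          · exact (show False from hy).elim
          · exact (show False from hy).elim
          · change f ∈ AX H L T c ψ.1
            rw [hy.2]
            exact hf c c.2 hy.1
          · exact (show False from hy).elim
        · intro hf j hj hp
          exact hf (Sum.inr (Sum.inr (Sum.inl ⟨⟨j, hj⟩, fun _ => ∅, Dyn_root H L T hj hp⟩)))
            ((hch _ _).2 ⟨hp, rfl⟩)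
      · obtain ⟨j, hj, hp, hv⟩ := Dyn_cover_root T v
        exact ⟨Sum.inr (Sum.inr (Sum.inl ⟨⟨j, hj⟩, fun _ => ∅, Dyn_root H L T hj hp⟩)),
          (hch _ _).2 ⟨hp, rfl⟩, hv⟩
  obtain ⟨Q, hQ1, hQ2, hQ0, hQ3, hQ4⟩ := hBld V D (DI H L T) (drk H L T) (dsc H L T) (dX H L T)
    ch (Sum.inr (Sum.inr (Sum.inr ()))) hc1 hc2
  refine ⟨Q, hQ1, hQ2, hQ0, hQ3, ?_⟩
  rw [hQ4]
  -- the numbers of items
  have hB : 1 ≤ q ^ (t + 1) := Nat.one_le_pow _ _ hq
  have hqB : q ≤ q ^ (t + 1) := by
    calc q = q ^ 1 := (pow_one q).symm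
      _ ≤ q ^ (t + 1) := Nat.pow_le_pow_right hq (by omega)
  have nL : Fintype.card (DL H L) ≤ Fintype.card V * q ^ (t + 1) := by
    rw [Fintype.card_sigma]
    calc ∑ v : V, Fintype.card {σ : Set D // σ ∈ nbs H (L v)} ≤ ∑ _v : V, q ^ (t + 1) := by
          refine sum_le_sum fun v _ => ?_
          rw [← Nat.card_eq_fintype_card]
          exact (hL v).trans hqB
      _ = Fintype.card V * q ^ (t + 1) := by rw [sum_const, card_univ, smul_eq_mul]
  have sP : ∀ i : Fin N,
      Fintype.card {φ : V → Set D // IsSt H L (T.bag i) φ ∧ Vd H G (T.bag i) φ} ≤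
        q ^ (t + 1) := by
    intro i
    refine le_trans ?_ (Dyn_states (t := t) H L hq hL (T.bag i) (T.card_le i))
    rw [Nat.card_eq_fintype_card]
    refine Fintype.card_le_of_injective (fun φ => ⟨φ.1, φ.2.1⟩) ?_
    intro φ φ' h
    have h1 := congrArg Subtype.val h
    exact Subtype.ext h1
  have sA : ∀ i : Fin N, Fintype.card {ψ : V → Set D // IsSt H L (Old T i) ψ} ≤
      q ^ (t + 1) := by
    intro i
    rw [← Nat.card_eq_fintype_card]
    exact Dyn_states (t := t) H L hq hL (Old T i)
      ((card_le_card fun v hv => ((Dyn_mem_Old T i v).1 hv).1).trans (T.card_le i))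
  have nP : Fintype.card (DP H L T) ≤ N * q ^ (t + 1) := by
    rw [Fintype.card_sigma]
    calc _ ≤ ∑ _i : Fin N, q ^ (t + 1) := sum_le_sum fun i _ => sP i
      _ = N * q ^ (t + 1) := by rw [sum_const, card_univ, Fintype.card_fin, smul_eq_mul]
  have nA : Fintype.card (DA H L T) ≤ N * q ^ (t + 1) := by
    rw [Fintype.card_sigma]
    calc _ ≤ ∑ _i : Fin N, q ^ (t + 1) := sum_le_sum fun i _ => sA i
      _ = N * q ^ (t + 1) := by rw [sum_const, card_univ, Fintype.card_fin, smul_eq_mul]
  have nI : Fintype.card (DI H L T) = Fintype.card (DL H L) + (Fintype.card (DP H L T) +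
      (Fintype.card (DA H L T) + 1)) := by
    rw [Fintype.card_sum, Fintype.card_sum, Fintype.card_sum, Fintype.card_unit]
  -- the numbers of wires
  have wL : ∀ x : DL H L, (ch (Sum.inl x)).card = 0 := by
    intro x
    rw [card_eq_zero, eq_empty_iff_forall_notMem]
    intro y hy
    exact (hch _ _).1 hy
  have wP : ∀ x : DP H L T, (ch (Sum.inr (Sum.inl x))).card ≤
      (New T x.1).card + (univ.filter fun c : Fin N => T.par c = x.1).card := by
    intro x
    have hsub : ch (Sum.inr (Sum.inl x)) ⊆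
        ((New T x.1).attach.image fun v => (Sum.inl ⟨v.1, x.2.1 v.1,
          x.2.2.1.1 v.1 ((Dyn_mem_New T _ _).1 v.2).1⟩ : DI H L T)) ∪
        ((univ.filter fun c : Fin N => T.par c = x.1).attach.image
          fun c : {c // c ∈ univ.filter fun c : Fin N => T.par c = x.1} =>
          (Sum.inr (Sum.inr (Sum.inl ⟨c.1, res (Old T c.1) x.2.1,
            Dyn_res_st H L T c.1.2 (show T.par c.1 = x.1 from (mem_filter.1 c.2).2)
              x.2.2.1⟩)) : DI H L T)) := by
      intro y hy
      rw [hch] at hy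
      rcases y with ⟨v, σ⟩ | y | ⟨c, ψ⟩ | y
      · refine mem_union_left _ (mem_image.2 ⟨⟨v, hy.1⟩, mem_attach _ _, ?_⟩)
        refine congrArg Sum.inl (Sigma.ext rfl (heq_of_eq (Subtype.ext hy.2.symm)))
      · exact hy.elim
      · refine mem_union_right _ (mem_image.2 ⟨⟨c, mem_filter.2 ⟨mem_univ _, hy.1⟩⟩,
          mem_attach _ _, ?_⟩)
        refine congrArg (fun z => (Sum.inr (Sum.inr (Sum.inl z)) : DI H L T))
          (Sigma.ext rfl (heq_of_eq (Subtype.ext hy.2.symm)))
      · exact hy.elim
    refine (card_le_card hsub).trans ((card_union_le _ _).trans (add_le_add ?_ ?_))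
    · exact card_image_le.trans (card_attach).le
    · exact card_image_le.trans (card_attach).le
  have wA : ∀ x : DA H L T, (ch (Sum.inr (Sum.inr (Sum.inl x)))).card ≤
      (univ.filter fun y : DP H L T => y.1 = x.1 ∧ res (Old T x.1) y.2.1 = x.2.1).card := by
    intro x
    have hsub : ch (Sum.inr (Sum.inr (Sum.inl x))) ⊆
        (univ.filter fun y : DP H L T => y.1 = x.1 ∧ res (Old T x.1) y.2.1 = x.2.1).image
          fun y => (Sum.inr (Sum.inl y) : DI H L T) := by
      intro y hy
      rw [hch] at hy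
      rcases y with y | y | y | y
      · exact hy.elim
      · exact mem_image.2 ⟨y, mem_filter.2 ⟨mem_univ _, hy⟩, rfl⟩
      · exact hy.elim
      · exact hy.elim
    exact (card_le_card hsub).trans card_image_le
  have wR : (ch (Sum.inr (Sum.inr (Sum.inr ())))).card ≤ N := by
    have hsub : ch (Sum.inr (Sum.inr (Sum.inr ()))) ⊆
        ((univ.filter fun i : Fin N => N ≤ T.par i).attach.image
          fun i : {i // i ∈ univ.filter fun i : Fin N => N ≤ T.par i} =>
          (Sum.inr (Sum.inr (Sum.inl ⟨i.1, fun _ => ∅,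
            Dyn_root H L T i.1.2 (show N ≤ T.par i.1 from (mem_filter.1 i.2).2)⟩)) :
            DI H L T)) := by
      intro y hy
      rw [hch] at hy
      rcases y with y | y | ⟨i, ψ⟩ | y
      · exact hy.elim
      · exact hy.elim
      · refine mem_image.2 ⟨⟨i, mem_filter.2 ⟨mem_univ _, hy.1⟩⟩, mem_attach _ _, ?_⟩
        refine congrArg (fun z => (Sum.inr (Sum.inr (Sum.inl z)) : DI H L T))
          (Sigma.ext rfl (heq_of_eq (Subtype.ext hy.2.symm)))
      · exact hy.elim
    refine (card_le_card hsub).trans (card_image_le.trans ?_)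
    rw [card_attach]
    exact (card_le_univ _).trans (Fintype.card_fin N).le
  have sNew : ∑ i : Fin N, (New T i).card ≤ Fintype.card V := by
    have h1 := Dyn_pairs (fun (i : Fin N) (v : V) => v ∈ New T i) fun i i' v h h' => by
      rw [Dyn_mem_New] at h h'
      exact Fin.ext (h.2.symm.trans h'.2)
    refine le_trans (sum_le_sum fun i _ => card_le_card fun v hv => ?_) h1
    exact mem_filter.2 ⟨mem_univ _, hv⟩
  have sCh : ∑ i : Fin N, (univ.filter fun c : Fin N => T.par c = i).card ≤ N := by
    have h1 := Dyn_pairs (fun (i : Fin N) (c : Fin N) => T.par c = i) fun i i' c h h' =>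
      Fin.ext (h.symm.trans h')
    rwa [Fintype.card_fin] at h1
  have tP : ∑ x : DP H L T, (ch (Sum.inr (Sum.inl x))).card ≤
      (Fintype.card V + N) * q ^ (t + 1) := by
    refine (sum_le_sum fun x _ => wP x).trans ?_
    rw [Fintype.sum_sigma]
    calc ∑ i : Fin N, ∑ _y : {φ : V → Set D // IsSt H L (T.bag i) φ ∧ Vd H G (T.bag i) φ},
          ((New T i).card + (univ.filter fun c : Fin N => T.par c = i).card)
        ≤ ∑ i : Fin N, q ^ (t + 1) * ((New T i).card +
            (univ.filter fun c : Fin N => T.par c = i).card) := by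
          refine sum_le_sum fun i _ => ?_
          rw [sum_const, card_univ, smul_eq_mul]
          exact Nat.mul_le_mul_right _ (sP i)
      _ = q ^ (t + 1) * (∑ i : Fin N, (New T i).card +
            ∑ i : Fin N, (univ.filter fun c : Fin N => T.par c = i).card) := by
          rw [← mul_sum, sum_add_distrib]
      _ ≤ q ^ (t + 1) * (Fintype.card V + N) :=
          Nat.mul_le_mul_left _ (add_le_add sNew sCh)
      _ = _ := mul_comm _ _
  have tA : ∑ x : DA H L T, (ch (Sum.inr (Sum.inr (Sum.inl x)))).card ≤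
      N * q ^ (t + 1) := by
    refine (sum_le_sum fun x _ => wA x).trans (le_trans ?_ nP)
    refine Dyn_pairs (fun (x : DA H L T) (y : DP H L T) =>
      y.1 = x.1 ∧ res (Old T x.1) y.2.1 = x.2.1) ?_
    rintro ⟨i, ψ⟩ ⟨i', ψ'⟩ ⟨k, φ⟩ ⟨h1, h2⟩ ⟨h3, h4⟩
    dsimp only at h1 h2 h3 h4
    subst h1
    subst h3
    rw [Subtype.ext (h2.symm.trans h4)]
  have tot : ∑ x : DI H L T, (ch x).card ≤
      (Fintype.card V + N) * q ^ (t + 1) + N * q ^ (t + 1) + N := by
    rw [Fintype.sum_sum_type, Fintype.sum_sum_type, Fintype.sum_sum_type]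
    have h1 : ∑ x : DL H L, (ch (Sum.inl x)).card = 0 := sum_eq_zero fun x _ => wL x
    have h2 : ∑ x : Unit, (ch (Sum.inr (Sum.inr (Sum.inr x)))).card ≤ N := by
      rw [Fintype.sum_unique]
      exact wR
    omega
  have hNB : N ≤ N * q ^ (t + 1) := Nat.le_mul_of_pos_right _ hB
  have h1B : 1 ≤ N * q ^ (t + 1) := hN.trans hNB
  rw [nI]
  have e1 : 6 * (Fintype.card V + N) * q ^ (t + 1) =
    6 * (Fintype.card V * q ^ (t + 1)) + 6 * (N * q ^ (t + 1)) := by ring
  have e2 : (Fintype.card V + N) * q ^ (t + 1) =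
    Fintype.card V * q ^ (t + 1) + N * q ^ (t + 1) := by ring
  rw [e2] at tot
  rw [e1]
  omega

end Pool.Agent.EXB
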