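import Mathlib
import Pool.Agent.EXB.St

/-!
# EXB, module Fin: the mass of a small circuit
-/

set_option autoImplicit false

namespace Pool.Agent.EXB

/-- a finite cover by sets of small mass -/
private theorem Fin_cover {F κ : Type} [Fintype F] (μ : F → ℝ) (hμ : ∀ f, 0 ≤ μ f) (I : Finset κ)
    (s : κ → Set F) (X : Set F) (h : ∀ f ∈ X, ∃ k ∈ I, f ∈ s k) (q : ℝ) (hq : 0 ≤ q)
    (hs : ∀ k ∈ I, (∑ᶠ f ∈ s k, μ f) * q ≤ 1) : (∑ᶠ f ∈ X, μ f) * q ≤ I.card := by
  classical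
  have hms : ∀ R : Set F, ∑ᶠ f ∈ R, μ f = ∑ f, R.indicator μ f := by
    intro R
    rw [finsum_mem_def, finsum_eq_sum_of_fintype]
  have h1 : ∑ᶠ f ∈ X, μ f ≤ ∑ k ∈ I, ∑ᶠ f ∈ s k, μ f := by
    rw [hms]
    have h2 : ∑ k ∈ I, ∑ᶠ f ∈ s k, μ f = ∑ f, ∑ k ∈ I, (s k).indicator μ f := by
      rw [Finset.sum_comm]
      exact Finset.sum_congr rfl fun k _ => hms (s k)
    rw [h2]
    refine Finset.sum_le_sum fun f _ => ?_
    have hnn : ∀ k ∈ I, 0 ≤ (s k).indicator μ f := fun k _ => Set.indicator_nonneg (fun f _ => hμ f) f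
    by_cases hf : f ∈ X
    · obtain ⟨k, hk, hfk⟩ := h f hf
      rw [Set.indicator_of_mem hf]
      refine le_trans (le_of_eq ?_) (Finset.single_le_sum hnn hk)
      rw [Set.indicator_of_mem hfk]
    · rw [Set.indicator_of_notMem hf]
      exact Finset.sum_nonneg hnn
  calc (∑ᶠ f ∈ X, μ f) * q ≤ (∑ k ∈ I, ∑ᶠ f ∈ s k, μ f) * q := mul_le_mul_of_nonneg_right h1 hq
    _ = ∑ k ∈ I, (∑ᶠ f ∈ s k, μ f) * q := by rw [Finset.sum_mul]
    _ ≤ ∑ k ∈ I, (1 : ℝ) := Finset.sum_le_sum hs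
    _ = I.card := by rw [Finset.sum_const, nsmul_eq_mul, mul_one]

/-- **Module Fin** -/
theorem thm_Fin : St_Fin := by
  classical
  intro hWal hOmg hMea hRow hNeg hRec hInd D _ H hH S τ w K M L lf Y hS hS2 hT hM hw hlf hK hL hδ Q hQ
    hsub
  have hFt : Fintype (Vx D w K (2 * M + 3) → D) := Fintype.ofFinite _
  obtain ⟨m1, -, -, -, m5, m6⟩ := hMea D H hH S τ w K M Y hS hS2 hT hM
  obtain ⟨r1, r2, r3, r4, r5⟩ := hRec _ _ Q lf hQ
  have hUinj : ∀ r : Fin w, Function.Injective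
      (fun i : Fin (K + 1) => (U (2 * M + 3) r i : Vx D w K (2 * M + 3))) := by
    intro r i j hij
    have h1 : (r, i) = (r, j) := Sum.inl_injective hij
    exact (Prod.ext_iff.1 h1).2
  let rows : Fin w → Finset (Vx D w K (2 * M + 3)) := fun r =>
    Finset.univ.image fun i : Fin (K + 1) => (U (2 * M + 3) r i : Vx D w K (2 * M + 3))
  have hrows : ∀ r v, v ∈ rows r ↔ ∃ i : Fin (K + 1), (U (2 * M + 3) r i : Vx D w K (2 * M + 3)) = v := by
    intro r v
    show v ∈ Finset.image _ _ ↔ _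
    rw [Finset.mem_image]
    simp
  have hm1 : 1 ≤ 2 * M + 3 := by omega
  have hRsub : ∀ R : Set (Vx D w K (2 * M + 3) → D), R ⊆ Q.X Q.out →
      R ⊆ Hom H (Gr Y (2 * M + 3)) (Li S) := fun R h => h.trans hsub
  have key := hInd hRec _ _ Q lf hQ (Fin w) rows (fun R r => One H S τ Y R r) (by
      intro R R' r hRR' h c c' hc hc' h1 h2
      exact h c c' hc hc' (h1.mono (Set.inter_subset_inter_left _ hRR'))
        (h2.mono (Set.inter_subset_inter_left _ hRR'))) (by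
      intro r
      show lf < (Finset.image _ _).card
      rw [Finset.card_image_of_injective _ (hUinj r), Finset.card_univ, Fintype.card_fin]
      omega) (by
      intro R A r hR hmix h1 h2
      obtain ⟨u1, hu1, hu1A⟩ := h1
      obtain ⟨u2, hu2, hu2A⟩ := h2
      obtain ⟨i1, rfl⟩ := (hrows r u1).1 hu1
      obtain ⟨i2, rfl⟩ := (hrows r u2).1 hu2
      have hex : ∃ i : Fin K, (U (2 * M + 3) r i.castSucc ∈ A ∧ U (2 * M + 3) r i.succ ∉ A) ∨
          (U (2 * M + 3) r i.castSucc ∉ A ∧ U (2 * M + 3) r i.succ ∈ A) := by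
        by_contra hno
        push Not at hno
        have hall : ∀ i : Fin (K + 1), (U (2 * M + 3) r i ∈ A ↔ U (2 * M + 3) r 0 ∈ A) := by
          intro i
          induction i using Fin.induction with
          | zero => rfl
          | succ i ih =>
            rw [← ih]
            constructor
            · intro h
              by_contra h'
              exact (hno i).2 h' h
            · intro h
              by_contra h'
              exact h' ((hno i).1 h)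
        exact hu2A ((hall i2).2 ((hall i1).1 hu1A))
      obtain ⟨i, hi⟩ := hex
      exact (hRow D H hH S τ w K (2 * M + 3) Y hS hT hm1 R (hRsub R hR)).1 A r i hmix hi) (by
      intro R r hR hfree
      refine (hRow D H hH S τ w K (2 * M + 3) Y hS hT hm1 R (hRsub R hR)).2 hK r ?_
      intro f hf g hg
      refine hfree f hf g fun v hv => hg v ?_
      rintro rfl
      exact hv ((hrows r _).2 ⟨0, rfl⟩))
  -- the mass of negligible rectangles
  have hD1 : (1 : ℝ) ≤ (Fintype.card D : ℝ) := by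
    have h1 : S.card ≤ Fintype.card D := Finset.card_le_univ S
    have h2 : 1 ≤ Fintype.card D := by omega
    exact_mod_cast h2
  have hbase : 0 ≤ 1 - 1 / (Fintype.card D : ℝ) ^ (2 * M + 3) := by
    rw [sub_nonneg, div_le_one (by positivity)]
    exact one_le_pow₀ hD1
  have hq0 : (0 : ℝ) ≤ (S.card : ℝ) ^ w := by positivity
  have hnegmass : ∀ j < Q.n, (∃ r r', rows r ⊆ Q.sc j ∧ Disjoint (rows r') (Q.sc j) ∧
      ¬ One H S τ Y (Rc Q j) r ∧ ¬ One H S τ Y (Rc Q j) r') →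
      (∑ᶠ f ∈ Rc Q j, mu H S τ Y (2 * M + 3) f) * (S.card : ℝ) ^ w ≤ 1 := by
    rintro j hj ⟨r, r', h1, h2, h3, h4⟩
    have h5 := m6 (Rc Q j) ((1 - 1 / (Fintype.card D : ℝ) ^ (2 * M + 3)) ^ L) (by positivity)
      (hNeg hWal hOmg D H hH S τ w K M L Y hS hS2 hT hM r r' (hL r r') (Rc Q j) (Q.sc j)
        (hRsub _ (r3 j)) (r5 j hj) (fun i => h1 ((hrows r _).2 ⟨i, rfl⟩))
        (fun i => Finset.disjoint_left.1 h2 ((hrows r' _).2 ⟨i, rfl⟩)) h3 h4)
    exact (mul_le_mul_of_nonneg_right h5 hq0).trans hδ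
  -- the cover
  let s : (ℕ ⊕ (ℕ ⊕ (Σ _ : ℕ, ℕ))) → Set (Vx D w K (2 * M + 3) → D) :=
    Sum.elim (fun j => {f | f ∈ Rc Q j ∧ ∃ r r', rows r ⊆ Q.sc j ∧ Disjoint (rows r') (Q.sc j) ∧
        ¬ One H S τ Y (Rc Q j) r ∧ ¬ One H S τ Y (Rc Q j) r'})
      (Sum.elim (fun j => {f | f ∈ Rc Q j ∧ ∀ r, One H S τ Y (Rc Q j) r})
        (fun x => {f | f ∈ Rc Q x.1 ∩ Q.X x.2 ∧ ∀ r, One H S τ Y (Rc Q x.1 ∩ Q.X x.2) r}))
  have hempty : ∀ (R : Set (Vx D w K (2 * M + 3) → D)) (p : Prop),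
      (p → (∑ᶠ f ∈ R, mu H S τ Y (2 * M + 3) f) * (S.card : ℝ) ^ w ≤ 1) →
      (∑ᶠ f ∈ {f | f ∈ R ∧ p}, mu H S τ Y (2 * M + 3) f) * (S.card : ℝ) ^ w ≤ 1 := by
    intro R p hp
    by_cases h : p
    · have e1 : {f | f ∈ R ∧ p} = R := by
        ext f
        exact ⟨fun h' => h'.1, fun h' => ⟨h', h⟩⟩
      rw [e1]
      exact hp h
    · have e1 : {f | f ∈ R ∧ p} = ∅ := by
        ext f
        exact ⟨fun h' => absurd h'.2 h, fun h' => absurd h' (Set.notMem_empty f)⟩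
      rw [e1, finsum_mem_empty, zero_mul]
      exact zero_le_one
  have hfin := Fin_cover (mu H S τ Y (2 * M + 3)) m1
    ((Finset.range Q.n).disjSum ((Finset.range Q.n).disjSum
      ((Finset.range Q.n).sigma fun i => Q.ch i))) s (Q.X Q.out) (by
      intro f hf
      rcases key f hf with ⟨j, hj, hfj, hneg⟩ | ⟨j, hj, hfj, hone⟩ | ⟨i, hi, j, hj, hfj, hone⟩
      · exact ⟨Sum.inl j, Finset.inl_mem_disjSum.2 (Finset.mem_range.2 hj), hfj, hneg⟩
      · exact ⟨Sum.inr (Sum.inl j),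
          Finset.inr_mem_disjSum.2 (Finset.inl_mem_disjSum.2 (Finset.mem_range.2 hj)), hfj, hone⟩
      · exact ⟨Sum.inr (Sum.inr ⟨i, j⟩), Finset.inr_mem_disjSum.2 (Finset.inr_mem_disjSum.2
          (Finset.mem_sigma.2 ⟨Finset.mem_range.2 hi, hj⟩)), hfj, hone⟩) ((S.card : ℝ) ^ w) hq0 (by
      intro k hk
      rcases k with j | j | x
      · rw [Finset.inl_mem_disjSum, Finset.mem_range] at hk
        exact hempty (Rc Q j) _ (hnegmass j hk)
      · exact hempty (Rc Q j) _ (m5 (Rc Q j))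
      · exact hempty (Rc Q x.1 ∩ Q.X x.2) _ (m5 (Rc Q x.1 ∩ Q.X x.2)))
  refine hfin.trans ?_
  rw [Finset.card_disjSum, Finset.card_disjSum, Finset.card_sigma, Finset.card_range]
  unfold Circ.size
  push_cast
  have h0 : (0 : ℝ) ≤ ∑ i ∈ Finset.range Q.n, ((Q.ch i).card : ℝ) :=
    Finset.sum_nonneg fun i _ => Nat.cast_nonneg _
  linarith

end Pool.Agent.EXB
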