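import Pool.Agent.EXB.StN

/-!
# EXB: maximum weight independent sets, upper bound (substitution)
-/

set_option autoImplicit false

namespace Pool.Agent.EXB

/-- the weights `x (v, ())` for `(v, true)` and `0` for `(v, false)` -/
private def wt {V : Type} (x : V × Unit → ℝ) (p : V × Bool) : ℝ :=
  if p.2 = true then x (p.1, ()) else 0

/-- the substituted circuit -/
private def sub {V : Type} (T : MaxPlus V Bool) : MaxPlus V Unit where
  n := T.n
  F i x := T.F i (wt x)
  ch := T.ch
  out := T.out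

private lemma sub_ok {V : Type} (T : MaxPlus V Bool) (h : T.Ok) : (sub T).Ok := by
  refine ⟨h.1, fun i hi => ⟨(h.2 i hi).1, ?_⟩⟩
  rcases (h.2 i hi).2 with ⟨h1, c, hc⟩ | ⟨h1, p, hp⟩ | h1 | h1
  · exact Or.inl ⟨h1, c, fun x => hc _⟩
  · by_cases hb : p.2 = true
    · refine Or.inr (Or.inl ⟨h1, (p.1, ()), fun x => ?_⟩)
      change T.F i (wt x) = _
      rw [hp (wt x), wt, if_pos hb]
    · refine Or.inl ⟨h1, ((0 : ℝ) : WithBot ℝ), fun x => ?_⟩
      change T.F i (wt x) = _
      rw [hp (wt x), wt, if_neg hb]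
  · exact Or.inr (Or.inr (Or.inl fun x => h1 (wt x)))
  · exact Or.inr (Or.inr (Or.inr fun x => h1 (wt x)))

theorem thm_InU : St_InU := by
  classical
  intro V _ G T hT hS
  refine ⟨sub T, sub_ok T hT, ?_, le_rfl⟩
  intro x _
  have h := hS (wt fun p => x p.1)
  have key : {y : WithBot ℝ | ∃ I : Finset V, G.IsIndepSet (I : Set V) ∧
      y = ((∑ v ∈ I, x v : ℝ) : WithBot ℝ)} =
      {y : WithBot ℝ | ∃ f ∈ Hom IndSet G fun _ => Set.univ,
        y = ((∑ v, wt (fun p => x p.1) (v, f v) : ℝ) : WithBot ℝ)} := by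
    ext y
    constructor
    · rintro ⟨I, hI, rfl⟩
      refine ⟨fun v => decide (v ∈ I), ⟨fun v => Set.mem_univ _, ?_⟩, ?_⟩
      · rintro u v huv ⟨h1, h2⟩
        exact hI (by simpa using h1) (by simpa using h2) huv.ne huv
      · congr 1
        simp only [wt, decide_eq_true_eq]
        rw [← Finset.sum_filter]
        congr 1
        ext v
        simp
    · rintro ⟨f, hf, rfl⟩
      refine ⟨Finset.univ.filter fun v => f v = true, ?_, ?_⟩
      · intro u hu v hv _ huv
        exact hf.2 u v huv ⟨by simpa using hu, by simpa using hv⟩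
      · congr 1
        simp only [wt]
        rw [← Finset.sum_filter]
  rw [key]
  exact h

end Pool.Agent.EXB
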