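import Mathlib
import Pool.Agent.EXB.St

/-!
# EXB, module Ind: the walk by states
-/

set_option autoImplicit false

namespace Pool.Agent.EXB

/-- **Module Ind** -/
theorem thm_Ind : St_Ind := by
  classical
  intro hRec V D C k hC ι rows P mono hk cut free f0 hf0
  obtain ⟨hdep, hctx, hout, hlt, hmix⟩ := hRec V D C k hC
  by_contra hcon
  push Not at hcon
  obtain ⟨hneg, hone, hwire⟩ := hcon
  -- the three positions of a row
  have pos3 : ∀ (r : ι) (A : Finset V), rows r ⊆ A ∨ Disjoint (rows r) A ∨
      ((∃ u ∈ rows r, u ∈ A) ∧ ∃ u ∈ rows r, u ∉ A) := by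
    intro r A
    by_cases h1 : rows r ⊆ A
    · exact Or.inl h1
    · by_cases h2 : Disjoint (rows r) A
      · exact Or.inr (Or.inl h2)
      · right
        right
        obtain ⟨u, hu, hu'⟩ := Finset.not_subset.1 h1
        rw [Finset.not_disjoint_iff] at h2
        exact ⟨h2, u, hu, hu'⟩
  have hcutR : ∀ j < C.n, ∀ r, ((∃ u ∈ rows r, u ∈ C.sc j) ∧ ∃ u ∈ rows r, u ∉ C.sc j) →
      P (Rc C j) r := fun j hj r h => cut _ (C.sc j) r (hout j) (hmix j hj) h.1 h.2
  have claim : ∀ j, j < C.n → f0 ∈ Rc C j → (∀ r, Disjoint (rows r) (C.sc j) → P (Rc C j) r) →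
      False := by
    intro j
    induction j using Nat.strong_induction_on with
    | _ j ih =>
      intro hj hfj hdis
      obtain ⟨hch, hcase⟩ := hC.2 j hj
      -- rows which are not inside
      have hnin : ∀ r, ¬ rows r ⊆ C.sc j → P (Rc C j) r := by
        intro r hr
        rcases pos3 r (C.sc j) with h | h | h
        · exact absurd h hr
        · exact hdis r h
        · exact hcutR j hj r h
      rcases hcase with ⟨-, hcard, -⟩ | hu | hp
      · -- leaf
        obtain ⟨r, hr⟩ := hone j hj hfj
        refine hr (hnin r fun hsub => ?_)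
        have := Finset.card_le_card hsub
        have := hk r
        omega
      · -- union
        obtain ⟨j', hj', hfj'⟩ := (hu f0).1 hfj.1
        have hj'n : j' < C.n := lt_trans (hch j' hj').1 hj
        have hfR : f0 ∈ Rc C j' := ⟨hfj', Ctx.uni j j' f0 hj hj' hu hfj.2⟩
        by_cases hall : ∀ r, Disjoint (rows r) (C.sc j') → P (Rc C j') r
        · exact ih j' (hch j' hj').1 hj'n hfR hall
        · push Not at hall
          obtain ⟨r0, hr0, hr0'⟩ := hall
          have hin : ∀ r, rows r ⊆ C.sc j' → P (Rc C j') r := by
            intro r hr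
            by_contra hP
            exact hr0' (hneg j' hj'n hfR r r0 hr hr0 hP)
          have hT1 : Rc C j ∩ C.X j' ⊆ Rc C j' := by
            intro g hg
            exact ⟨hg.2, Ctx.uni j j' g hj hj' hu hg.1.2⟩
          have hT2 : Rc C j ∩ C.X j' ⊆ Rc C j := Set.inter_subset_left
          obtain ⟨r, hr⟩ := hwire j hj j' hj' ⟨hfj, hfj'⟩
          apply hr
          rcases pos3 r (C.sc j') with h | h | h
          · exact mono _ _ r hT1 (hin r h)
          · by_cases hins : rows r ⊆ C.sc j
            · refine free _ r (hT2.trans (hout j)) ?_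
              intro f hf g hg
              have hgX : g ∈ C.X j' := by
                refine hdep j' hj'n f g ?_ hf.2
                intro v hv
                exact (hg v (Finset.disjoint_right.1 h hv)).symm
              refine ⟨⟨(hu g).2 ⟨j', hj', hgX⟩, ?_⟩, hgX⟩
              refine hctx j f g ?_ hf.1.2
              intro v hv
              exact (hg v fun h' => hv (hins h')).symm
            · exact mono _ _ r hT2 (hnin r hins)
          · exact mono _ _ r hT1 (hcutR j' hj'n r h)
      · -- product
        have hRc : ∀ j' ∈ C.ch j, Rc C j ⊆ Rc C j' := by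
          intro j' hj' g hg
          have hX := (hp.2 g).1 hg.1
          exact ⟨hX j' hj', Ctx.pro j j' g hj hj' hp (fun j'' h'' _ => hX j'' h'') hg.2⟩
        by_cases hsub : ∃ j' ∈ C.ch j, ∃ r, rows r ⊆ C.sc j' ∧ ¬ P (Rc C j') r
        · obtain ⟨j', hj', r, hr, hrP⟩ := hsub
          have hj'n : j' < C.n := lt_trans (hch j' hj').1 hj
          refine ih j' (hch j' hj').1 hj'n (hRc j' hj' hfj) ?_
          intro r' hr'
          exact hneg j' hj'n (hRc j' hj' hfj) r r' hr hr' hrP
        · push Not at hsub
          obtain ⟨r, hr⟩ := hone j hj hfj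
          apply hr
          by_cases hmeet : ∃ j' ∈ C.ch j, ¬ Disjoint (rows r) (C.sc j')
          · obtain ⟨j', hj', hnd⟩ := hmeet
            have hj'n : j' < C.n := lt_trans (hch j' hj').1 hj
            rcases pos3 r (C.sc j') with h | h | h
            · exact mono _ _ r (hRc j' hj') (hsub j' hj' r h)
            · exact absurd h hnd
            · exact mono _ _ r (hRc j' hj') (hcutR j' hj'n r h)
          · push Not at hmeet
            by_cases hins : rows r ⊆ C.sc j
            · refine free _ r (hout j) ?_
              intro f hf g hg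
              have hgX : ∀ j' ∈ C.ch j, g ∈ C.X j' := by
                intro j' hj'
                refine hdep j' (lt_trans (hch j' hj').1 hj) f g ?_ ((hp.2 f).1 hf.1 j' hj')
                intro v hv
                exact (hg v (Finset.disjoint_right.1 (hmeet j' hj') hv)).symm
              refine ⟨(hp.2 g).2 hgX, ?_⟩
              refine hctx j f g ?_ hf.2
              intro v hv
              exact (hg v fun h' => hv (hins h')).symm
            · exact hnin r hins
  refine claim C.out hC.1 ⟨hf0, Ctx.out f0⟩ ?_
  intro r hr
  refine free _ r (hout C.out) ?_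
  intro f hf g hg
  refine ⟨?_, Ctx.out g⟩
  refine hdep C.out hC.1 f g ?_ hf.1
  intro v hv
  exact (hg v (Finset.disjoint_right.1 hr hv)).symm

end Pool.Agent.EXB
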