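import Pool.Agent.EXB.St

/-!
# EXB: walks and complete pairs (proof of `St_Key`)
-/

set_option autoImplicit false

namespace Pool.Agent.EXB

private theorem Key_ex {D : Type} {H : D → D → Prop} (hH : ∀ a b, H a b → H b a) {a b : D}
    (hab : H a b) : ∀ n : ℕ, ∃ x, Wk H n a x
  | 0 => ⟨a, rfl⟩
  | n + 1 => by
      obtain ⟨x, hx⟩ := Key_ex hH (hH _ _ hab) n
      exact ⟨x, b, hab, hx⟩

theorem thm_Key : St_Key := by
  intro D H hH J a a' b s d t x Z Z' n₀ n₁ hZ hA hB hx hxa hab hab' has hsd hst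
  match J with
  | 0 =>
    have h1 : a' = x := hxa
    subst h1
    exact hab' (hZ _ hx _ (hB _ (Wk.one hab)))
  | 1 =>
    obtain ⟨c, hc, hcx⟩ := hxa
    have h1 : c = x := hcx
    subst h1
    have h2 : H c a := hZ _ hx _ (hB _ ⟨b, hab, a, hH _ _ hab, rfl⟩)
    exact hab' (hH _ _ (hZ _ (hA _ (Wk.one hab)) _ (hB _ ⟨c, hH _ _ h2, a', hH _ _ hc, rfl⟩)))
  | j + 2 =>
    have hN : ∀ u y, Wk H (j + 2) a u → (H u y ↔ Wk H (j + 3) a y) := fun u y hu =>
      ⟨fun h => Wk.add (m := j + 2) (n := 1) hu (Wk.one h), fun h => hZ _ (hA _ hu) _ (hB _ h)⟩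
    obtain ⟨x₀, hx₀⟩ := Key_ex hH hab j
    have hdn : ∀ y, Wk H (j + 3) a y → Wk H (j + 1) a y := fun y hy =>
      Wk.add (m := j) (n := 1) hx₀ (Wk.one ((hN x₀ y (Wk.pad hH hab hx₀)).2 hy))
    have hN' : ∀ y z, Wk H (j + 3) a y → (H y z ↔ Wk H (j + 2) a z) := fun y z hy =>
      ⟨fun h => Wk.add (m := j + 1) (n := 1) (hdn y hy) (Wk.one h), fun h => hH _ _ ((hN z y h).2 hy)⟩
    have hreach : ∀ (n : ℕ) (u v : D), Wk H n u v → (Wk H (j + 2) a u ∨ Wk H (j + 3) a u) →
        (Wk H (j + 2) a v ∨ Wk H (j + 3) a v) := by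
      intro n
      induction n with
      | zero =>
        intro u v h h'
        have h1 : u = v := h
        subst h1
        exact h'
      | succ n ih =>
        rintro u v ⟨c, hc, h⟩ h'
        refine ih c v h ?_
        rcases h' with h' | h'
        · exact Or.inr ((hN u c h').1 hc)
        · exact Or.inl ((hN' u c h').1 hc)
    have heven : ∀ (n : ℕ) (u v : D), Wk H (2 * n) u v →
        (Wk H (j + 2) a u → Wk H (j + 2) a v) ∧ (Wk H (j + 3) a u → Wk H (j + 3) a v) := by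
      intro n
      induction n with
      | zero =>
        intro u v h
        have h1 : u = v := h
        subst h1
        exact ⟨id, id⟩
      | succ n ih =>
        rintro u v ⟨c, hc, c', hc', h⟩
        refine ⟨fun h' => (ih c' v h).1 ?_, fun h' => (ih c' v h).2 ?_⟩
        · exact (hN' c c' ((hN u c h').1 hc)).1 hc'
        · exact (hN c c' ((hN' u c h').1 hc)).1 hc'
    obtain ⟨x₁, hx₁⟩ := Key_ex hH hab (j + 2)
    have ha := hreach (j + 2) x₁ a (Wk.symm hH hx₁) (Or.inl hx₁)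
    rcases hreach n₀ a s has ha with hs | hs
    · exact hst ((hN s t hs).trans (hN d t ((heven n₁ s d hsd).1 hs)).symm)
    · exact hst ((hN' s t hs).trans (hN' d t ((heven n₁ s d hsd).2 hs)).symm)

end Pool.Agent.EXB
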