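import Mathlib
import Pool.Agent.EXB.St

/-!
# EXB: the lower bound, assembled from the modules
-/

set_option autoImplicit false

namespace Pool.Agent.EXB

/-- monotone in the width -/
private theorem pathDec_mono {V : Type} {G : SimpleGraph V} {m m' : ℕ} (h : m ≤ m')
    (hG : PathDec G m) : PathDec G m' := by
  obtain ⟨bag, h1, h2, h3, h4⟩ := hG
  exact ⟨bag, fun i => (h1 i).trans (by omega), h2, h3, h4⟩

/-- a largest set of colours -/
private theorem exists_irr {D : Type} [Fintype D] (H : D → D → Prop) :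
    ∃ S : Finset D, Irr H S ∧ irr H = S.card := by
  classical
  have hne : ((Finset.univ : Finset (Finset D)).filter fun S => Irr H S).Nonempty := by
    refine ⟨∅, ?_⟩
    rw [Finset.mem_filter]
    refine ⟨Finset.mem_univ _, ?_⟩
    intro a ha
    exact absurd ha (Finset.notMem_empty a)
  obtain ⟨S, hS, hc⟩ := Finset.exists_mem_eq_sup _ hne Finset.card
  rw [Finset.mem_filter] at hS
  refine ⟨S, hS.2, ?_⟩
  unfold irr
  refine Eq.trans ?_ hc
  congr 1

/-- the degenerate case: one vertex -/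
private theorem low_small {D : Type} [Fintype D] [Nonempty D] (H : D → D → Prop)
    (hq : irr H ≤ 1) (w : ℕ) (hw : 1 ≤ w) :
    ∃ (V : Type) (_ : Fintype V) (G : SimpleGraph V)
      (μ : (V → D) → ℝ), Fintype.card V ≤ 1 * w ^ 4 ∧ (∀ v, (G.neighborSet v).ncard ≤ 1) ∧
      G.Connected ∧ PathDec G (w + 1) ∧ (∀ f, 0 ≤ μ f) ∧
      (∀ f, f ∉ Hom H G (fun _ => Set.univ) → μ f = 0) ∧ (∑ᶠ f, μ f = 1) ∧
      ∀ Q : Circ V D, Q.Ok (w ^ 3) → Q.X Q.out ⊆ Hom H G (fun _ => Set.univ) →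
        (∑ᶠ f ∈ Q.X Q.out, μ f) * (irr H : ℝ) ^ w ≤ 2 * Q.size := by
  classical
  obtain ⟨d₀⟩ := ‹Nonempty D›
  let f₀ : Unit → D := fun _ => d₀
  refine ⟨Unit, inferInstance, ⊥, fun f => if f = f₀ then 1 else 0, ?_, ?_, ?_, ?_, ?_, ?_, ?_, ?_⟩
  · rw [one_mul]
    exact le_trans (by simp) (Nat.one_le_pow _ _ hw)
  · intro v
    have h : (⊥ : SimpleGraph Unit).neighborSet v = ∅ := by
      ext u
      simp
    rw [h, Set.ncard_empty]
    exact Nat.zero_le _
  · exact SimpleGraph.Connected.mk (fun u v => by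
      have h : u = v := Subsingleton.elim _ _
      rw [h])
  · exact ⟨fun _ => {()}, fun _ => by simp, fun v => ⟨0, by simp⟩, fun u v h => absurd h (by simp),
      fun v i j k _ _ _ _ => by simp⟩
  · intro f
    show (0 : ℝ) ≤ if f = f₀ then 1 else 0
    split_ifs
    · exact zero_le_one
    · exact le_rfl
  · intro f hf
    exact absurd ⟨fun v => Set.mem_univ _, fun u v h => absurd h (by simp)⟩ hf
  · rw [finsum_eq_sum_of_fintype]
    simp
  · intro Q hQ _
    have h1 : (∑ᶠ f ∈ Q.X Q.out, (if f = f₀ then (1 : ℝ) else 0)) ≤ 1 := by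
      rw [finsum_mem_eq_finite_toFinset_sum _ (Set.toFinite _)]
      refine (Finset.sum_le_univ_sum_of_nonneg (fun f => ?_)).trans ?_
      · split_ifs
        · exact zero_le_one
        · exact le_rfl
      · simp
    have h3 : (irr H : ℝ) ^ w ≤ 1 := pow_le_one₀ (Nat.cast_nonneg _) (by exact_mod_cast hq)
    have h4 : (1 : ℝ) ≤ Q.size := by
      have h5 : 1 ≤ Q.size := by
        have h6 := hQ.1
        unfold Circ.size
        omega
      exact_mod_cast h5
    have h7 : (0 : ℝ) ≤ (irr H : ℝ) ^ w := pow_nonneg (Nat.cast_nonneg _) _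
    calc (∑ᶠ f ∈ Q.X Q.out, (if f = f₀ then (1 : ℝ) else 0)) * (irr H : ℝ) ^ w
        ≤ 1 * (irr H : ℝ) ^ w := mul_le_mul_of_nonneg_right h1 h7
      _ ≤ 2 * Q.size := by linarith

/-! ### The graph is connected -/

private theorem reach_of_rel {D : Type} {w K m : ℕ} (Y : Lay D w K) {u v : Vx D w K m}
    (h : Rel Y m u v) : (Gr Y m).Reachable u v := by
  by_cases huv : u = v
  · rw [huv]
  · exact SimpleGraph.Adj.reachable ((SimpleGraph.fromRel_adj _ _ _).2 ⟨huv, Or.inl h⟩)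

private theorem reach_row {D : Type} [Nonempty D] {w K m : ℕ} (Y : Lay D w K) (r : Fin w)
    (i : Fin (K + 1)) : (Gr Y m).Reachable (U m r 0) (U m r i) := by
  obtain ⟨d₀⟩ := ‹Nonempty D›
  refine Fin.induction (motive := fun i => (Gr Y m).Reachable (U m r 0) (U m r i)) ?_ ?_ i
  · exact SimpleGraph.Reachable.refl _
  · intro i hi
    exact (hi.trans (reach_of_rel Y (Rel.uv r i (d₀, d₀)))).trans
      (reach_of_rel Y (Rel.vu r i (d₀, d₀)))

private theorem reach_pos {D : Type} {w K m : ℕ} (Y : Lay D w K) (k : Fin K) :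
    ∀ j, j ≤ m + 1 → (Gr Y m).Reachable (pos Y m k 0) (pos Y m k j)
  | 0, _ => SimpleGraph.Reachable.refl _
  | j + 1, hj => (reach_pos Y k j (by omega)).trans (reach_of_rel Y (Rel.cn k j (by omega)))

private theorem pos_zero {D : Type} {w K m : ℕ} (Y : Lay D w K) (k : Fin K) :
    pos Y m k 0 = U m (Y.r1 k) k.castSucc := by
  unfold pos
  rw [if_pos rfl]

private theorem pos_last {D : Type} {w K m : ℕ} (Y : Lay D w K) (k : Fin K) :
    pos Y m k (m + 1) = U m (Y.r2 k) k.castSucc := by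
  unfold pos
  rw [if_neg (by omega), dif_neg (by omega)]

private theorem pos_mid {D : Type} {w K m : ℕ} (Y : Lay D w K) (k : Fin K) (j : Fin m) :
    pos Y m k (j + 1) = Zz k j := by
  unfold pos
  rw [if_neg (by omega), dif_pos (show (j : ℕ) + 1 - 1 < m by omega)]
  rfl

private theorem gr_connected {D : Type} [Nonempty D] {w K m : ℕ} (Y : Lay D w K) (hw : 1 ≤ w)
    (hY : ∀ r r' : Fin w, ∃ k, Y.r1 k = r ∧ Y.r2 k = r') : (Gr Y m).Connected := by
  have hrow : ∀ r r' : Fin w, (Gr Y m).Reachable (U m r 0) (U m r' 0) := by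
    intro r r'
    obtain ⟨k, h1, h2⟩ := hY r r'
    have h3 := reach_pos (m := m) Y k (m + 1) le_rfl
    rw [pos_zero, pos_last, h1, h2] at h3
    exact ((reach_row Y r _).trans h3).trans (reach_row Y r' _).symm
  have hall : ∀ v : Vx D w K m, ∃ r : Fin w, (Gr Y m).Reachable (U m r 0) v := by
    rintro (⟨r, i⟩ | ⟨r, i, p⟩ | ⟨k, j⟩)
    · exact ⟨r, reach_row Y r i⟩
    · exact ⟨r, (reach_row Y r i.castSucc).trans (reach_of_rel Y (Rel.uv r i p))⟩
    · refine ⟨Y.r1 k, ?_⟩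
      have h3 := reach_pos (m := m) Y k (j + 1) (by omega)
      rw [pos_zero, pos_mid] at h3
      exact (reach_row Y _ _).trans h3
  have : Nonempty (Vx D w K m) := ⟨U m ⟨0, hw⟩ 0⟩
  refine SimpleGraph.Connected.mk (fun u v => ?_)
  obtain ⟨r, hr⟩ := hall u
  obtain ⟨r', hr'⟩ := hall v
  exact (hr.symm.trans (hrow r r')).trans hr'

/-- the columns -/
private abbrev Cl (D : Type) (w L : ℕ) : Type :=
  Fin w × Fin w × Option (D × D) × Option (D × D) × Fin L

/-- the layout -/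
private noncomputable def lay {D : Type} [Fintype D] {w L K : ℕ} (e : Fin K ≃ Cl D w L) :
    Lay D w K where
  r1 := fun k => (e k).1
  r2 := fun k => (e k).2.1
  ty1 := fun k => (e k).2.2.1
  ty2 := fun k => (e k).2.2.2.1

private theorem lay_many {D : Type} [Fintype D] {w L K : ℕ} (e : Fin K ≃ Cl D w L)
    (r r' : Fin w) (α β : Option (D × D)) :
    L ≤ {k | (lay e).r1 k = r ∧ (lay e).r2 k = r' ∧ (lay e).ty1 k = α ∧
      (lay e).ty2 k = β}.ncard := by
  classical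
  have h1 : (Set.range fun j : Fin L => e.symm (r, r', α, β, j)) ⊆
      {k | (lay e).r1 k = r ∧ (lay e).r2 k = r' ∧ (lay e).ty1 k = α ∧ (lay e).ty2 k = β} := by
    rintro k ⟨j, rfl⟩
    simp [lay]
  have h2 : (Set.range fun j : Fin L => e.symm (r, r', α, β, j)).ncard = L := by
    rw [← Set.image_univ, Set.ncard_image_of_injective, Set.ncard_univ, Nat.card_eq_fintype_card,
      Fintype.card_fin]
    intro j j' hj
    have := e.symm.injective hj
    simpa using this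
  calc L = _ := h2.symm
    _ ≤ _ := Set.ncard_le_ncard h1 (Set.toFinite _)

private theorem card_Cl (D : Type) [Fintype D] (w L : ℕ) :
    Fintype.card (Cl D w L) = w * w * (Fintype.card D ^ 2 + 1) ^ 2 * L := by
  classical
  simp only [Fintype.card_prod, Fintype.card_fin, Fintype.card_option]
  ring

private theorem card_Vx (D : Type) [Fintype D] (w K m : ℕ) :
    Fintype.card (Vx D w K m) = w * (K + 1) + w * K * Fintype.card D ^ 2 + K * m := by
  classical
  simp only [Fintype.card_sum, Fintype.card_prod, Fintype.card_fin]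
  ring

/-- [Low] -/
theorem thm_Low : St_Low := by
  intro hMix hTau hPdc hDgr hMea hOmg hWal hRow hNeg hRec hInd hFin D _ _ H hH
  classical
  by_cases hq : irr H ≤ 1
  · exact ⟨1, fun w hw => low_small H hq w hw⟩
  obtain ⟨S, hS, hcard⟩ := exists_irr H
  have hS2 : 2 ≤ S.card := by omega
  obtain ⟨τ, hτ⟩ := hTau D H hH S hS hS2
  obtain ⟨M, hM⟩ := hMix D H hH
  have hD : 1 ≤ Fintype.card D := Fintype.card_pos
  have hDm : (1 : ℝ) ≤ (Fintype.card D : ℝ) ^ (2 * M + 3) := by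
    exact_mod_cast Nat.one_le_pow _ _ hD
  have hDm0 : (0 : ℝ) < (Fintype.card D : ℝ) ^ (2 * M + 3) := lt_of_lt_of_le one_pos hDm
  have hr0 : (0 : ℝ) ≤ 1 - 1 / (Fintype.card D : ℝ) ^ (2 * M + 3) := by
    have : 1 / (Fintype.card D : ℝ) ^ (2 * M + 3) ≤ 1 := by
      rw [div_le_one hDm0]
      exact hDm
    linarith
  have hr1 : 1 - 1 / (Fintype.card D : ℝ) ^ (2 * M + 3) < 1 := by
    have : 0 < 1 / (Fintype.card D : ℝ) ^ (2 * M + 3) := by positivity
    linarith
  have hqpos : (0 : ℝ) < S.card := by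
    have : 0 < S.card := by omega
    exact_mod_cast this
  obtain ⟨C₀, hC₀⟩ := exists_pow_lt_of_lt_one (show (0 : ℝ) < 1 / (S.card : ℝ) by positivity) hr1
  have hC₀1 : (1 - 1 / (Fintype.card D : ℝ) ^ (2 * M + 3)) ^ (C₀ + 1) * (S.card : ℝ) ≤ 1 := by
    have h1 : (1 - 1 / (Fintype.card D : ℝ) ^ (2 * M + 3)) ^ (C₀ + 1) ≤
        (1 - 1 / (Fintype.card D : ℝ) ^ (2 * M + 3)) ^ C₀ := by
      rw [pow_succ]
      exact mul_le_of_le_one_right (pow_nonneg hr0 _) hr1.le
    have h2 : (1 - 1 / (Fintype.card D : ℝ) ^ (2 * M + 3)) ^ (C₀ + 1) ≤ 1 / (S.card : ℝ) :=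
      h1.trans hC₀.le
    calc (1 - 1 / (Fintype.card D : ℝ) ^ (2 * M + 3)) ^ (C₀ + 1) * (S.card : ℝ)
        ≤ 1 / (S.card : ℝ) * (S.card : ℝ) := mul_le_mul_of_nonneg_right h2 hqpos.le
      _ = 1 := by field_simp
  set d := Fintype.card D with hd
  set m := 2 * M + 3 with hm
  set C₁ := (d ^ 2 + 1) ^ 2 * (C₀ + 1) with hC₁
  have hC₁1 : 1 ≤ C₁ := by
    have : 0 < (d ^ 2 + 1) ^ 2 * (C₀ + 1) := by positivity
    omega
  refine ⟨C₁ * (2 + d ^ 2 + m) + (2 * d ^ 2 + 2) + (d ^ 2 + m + 3), ?_⟩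
  intro w hw
  -- the columns
  set L := (C₀ + 1) * w with hL
  set K := Fintype.card (Cl D w L) with hK
  have hKc : K = C₁ * w ^ 3 := by
    rw [hK, card_Cl, hL, hC₁, ← hd]
    ring
  have hw3 : 1 ≤ w ^ 3 := Nat.one_le_pow _ _ hw
  have hwK : w ^ 3 ≤ K := by
    rw [hKc]
    exact Nat.le_mul_of_pos_left _ hC₁1
  have hK1 : 1 ≤ K := hw3.trans hwK
  let e : Fin K ≃ Cl D w L := (Fintype.equivFin (Cl D w L)).symm
  let Y : Lay D w K := lay e
  obtain ⟨hmu0, hmuH, hmu1, -⟩ := hMea D H hH S τ w K M Y hS hS2 hτ hM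
  have hδ : (1 - 1 / (Fintype.card D : ℝ) ^ (2 * M + 3)) ^ L * (S.card : ℝ) ^ w ≤ 1 := by
    rw [hL, pow_mul, ← mul_pow]
    exact pow_le_one₀ (mul_nonneg (pow_nonneg hr0 _) hqpos.le) hC₀1
  have hY : ∀ r r' : Fin w, ∃ k, Y.r1 k = r ∧ Y.r2 k = r' := by
    intro r r'
    have hL0 : 0 < L := Nat.mul_pos (Nat.succ_pos _) hw
    exact ⟨e.symm (r, r', none, none, ⟨0, hL0⟩), by simp [Y, lay], by simp [Y, lay]⟩
  refine ⟨Vx D w K m, inferInstance, Gr Y m, mu H S τ Y m, ?_, ?_, gr_connected Y hw hY, ?_, hmu0,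
    hmuH, hmu1, ?_⟩
  · rw [card_Vx, ← hd]
    have h1 : w * (K + 1) ≤ w * K * 2 := by nlinarith
    have h2 : K * m ≤ w * K * m := by
      rw [mul_assoc]
      exact Nat.le_mul_of_pos_left _ hw
    calc w * (K + 1) + w * K * d ^ 2 + K * m ≤ w * K * 2 + w * K * d ^ 2 + w * K * m := by omega
      _ = C₁ * (2 + d ^ 2 + m) * w ^ 4 := by
          rw [hKc]
          ring
      _ ≤ (C₁ * (2 + d ^ 2 + m) + (2 * d ^ 2 + 2) + (d ^ 2 + m + 3)) * w ^ 4 :=
          Nat.mul_le_mul_right _ (by omega)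
  · intro v
    refine (hDgr D w K m Y (by omega) v).trans ?_
    rw [← hd]
    omega
  · refine pathDec_mono ?_ (hPdc D w K m Y hw hK1 (by omega))
    rw [← hd]
    omega
  · intro Q hQ hQH
    rw [hcard]
    exact hFin hWal hOmg hMea hRow hNeg hRec hInd D H hH S τ w K M L (w ^ 3) Y hS hS2 hτ hM hw
      hwK hK1 (lay_many e) hδ Q hQ hQH

end Pool.Agent.EXB
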