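import Pool.Agent.EXB.St

/-!
# EXB: the measure
-/

set_option autoImplicit false

namespace Pool.Agent.EXB

open Finset

section

variable {D : Type} [Fintype D] {w K m : ℕ}

open Classical in
/-- the row states -/
private noncomputable def mea_C (S : Finset D) (w : ℕ) : Finset (Fin w → D) :=
  Fintype.piFinset fun _ => S

omit [Fintype D] in
private theorem mea_mem {S : Finset D} {w : ℕ} {c : Fin w → D} : c ∈ mea_C S w ↔ ∀ r, c r ∈ S := by
  classical
  simp [mea_C]

omit [Fintype D] in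
private theorem mea_card (S : Finset D) (w : ℕ) : (mea_C S w).card = S.card ^ w := by
  classical
  simp [mea_C]

open Classical in
private theorem mea_mu (H : D → D → Prop) (S : Finset D) (τ : D × D → D → D) (Y : Lay D w K)
    (f : Vx D w K m → D) :
    mu H S τ Y m f = ∑ c ∈ mea_C S w, if f ∈ Om H τ Y m c then
      1 / ((S.card : ℝ) ^ w * ((Om H τ Y m c).ncard : ℝ)) else 0 := by
  rw [mu, finsum_mem_eq_finite_toFinset_sum _ (Set.toFinite _), ← Finset.sum_filter]
  refine Finset.sum_congr ?_ fun _ _ => rfl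
  ext c
  simp [mea_mem]

open Classical in
private theorem mea_sum (H : D → D → Prop) (S : Finset D) (τ : D × D → D → D) (Y : Lay D w K)
    (R : Set (Vx D w K m → D)) :
    ∑ᶠ f ∈ R, mu H S τ Y m f = ∑ c ∈ mea_C S w, ((R ∩ Om H τ Y m c).ncard : ℝ) *
      (1 / ((S.card : ℝ) ^ w * ((Om H τ Y m c).ncard : ℝ))) := by
  rw [finsum_mem_eq_finite_toFinset_sum _ (Set.toFinite _)]
  simp only [mea_mu]
  rw [Finset.sum_comm]
  refine Finset.sum_congr rfl fun c _ => ?_
  rw [← Finset.sum_filter, Finset.sum_const, nsmul_eq_mul]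
  congr 2
  rw [Set.ncard_eq_toFinset_card _ (Set.toFinite _)]
  congr 1
  ext f
  simp

end

/-- the measure -/
theorem thm_Mea (hO : St_Omg) : St_Mea := by
  classical
  intro D _ H hH S τ w K M Y hS hS2 hτ hM
  have hq : (0 : ℝ) < (S.card : ℝ) ^ w := by
    have : (0 : ℝ) < S.card := by exact_mod_cast (by omega : 0 < S.card)
    positivity
  have hO' := hO D H hH S τ w K M Y hS hS2 hτ hM
  have hn : ∀ c ∈ mea_C S w, (0 : ℝ) < ((Om H τ Y (2 * M + 3) c).ncard : ℝ) := by
    intro c hc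
    obtain ⟨-, h2, -⟩ := hO' c (mea_mem.1 hc)
    choose g hg using h2
    have : (Om H τ Y (2 * M + 3) c).Nonempty := ⟨asm τ c g, g, hg, rfl⟩
    exact_mod_cast (Set.ncard_pos (Set.toFinite _)).2 this
  have hle : ∀ (R : Set (Vx D w K (2 * M + 3) → D)) (c : Fin w → D),
      ((R ∩ Om H τ Y (2 * M + 3) c).ncard : ℝ) ≤ ((Om H τ Y (2 * M + 3) c).ncard : ℝ) :=
    fun R c => by exact_mod_cast Set.ncard_le_ncard Set.inter_subset_right (Set.toFinite _)
  have hone : ∀ c ∈ mea_C S w, ((Om H τ Y (2 * M + 3) c).ncard : ℝ) *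
      (1 / ((S.card : ℝ) ^ w * ((Om H τ Y (2 * M + 3) c).ncard : ℝ))) = 1 / (S.card : ℝ) ^ w := by
    intro c hc
    have := hn c hc
    field_simp
  have hpos : ∀ c : Fin w → D,
      0 ≤ 1 / ((S.card : ℝ) ^ w * ((Om H τ Y (2 * M + 3) c).ncard : ℝ)) := fun c => by positivity
  have hcard : ((mea_C S w).card : ℝ) = (S.card : ℝ) ^ w := by
    rw [mea_card]; push_cast; rfl
  refine ⟨fun f => ?_, fun f hf => ?_, ?_, fun f hf => ?_, fun R hR => ?_, fun R δ hδ hR => ?_⟩
  · rw [mea_mu]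
    refine Finset.sum_nonneg fun c _ => ?_
    split_ifs
    · exact hpos c
    · exact le_rfl
  · rw [mea_mu]
    refine Finset.sum_eq_zero fun c hc => if_neg fun h => hf ((hO' c (mea_mem.1 hc)).1 h)
  · rw [← finsum_mem_univ, mea_sum]
    have : ∀ c ∈ mea_C S w, ((Set.univ ∩ Om H τ Y (2 * M + 3) c).ncard : ℝ) *
        (1 / ((S.card : ℝ) ^ w * ((Om H τ Y (2 * M + 3) c).ncard : ℝ))) = 1 / (S.card : ℝ) ^ w := by
      intro c hc
      rw [Set.univ_inter, hone c hc]
    rw [Finset.sum_congr rfl this, Finset.sum_const, nsmul_eq_mul, hcard]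
    field_simp
  · by_contra hc
    push Not at hc
    refine hf ?_
    rw [mea_mu]
    exact Finset.sum_eq_zero fun c hc' => if_neg (hc c (mea_mem.1 hc'))
  · rw [mea_sum]
    by_cases hex : ∃ c₀ ∈ mea_C S w, (R ∩ Om H τ Y (2 * M + 3) c₀).Nonempty
    · obtain ⟨c₀, hc₀, hne⟩ := hex
      rw [Finset.sum_eq_single_of_mem c₀ hc₀]
      · calc _ ≤ ((Om H τ Y (2 * M + 3) c₀).ncard : ℝ) *
              (1 / ((S.card : ℝ) ^ w * ((Om H τ Y (2 * M + 3) c₀).ncard : ℝ))) * (S.card : ℝ) ^ w :=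
              mul_le_mul_of_nonneg_right (mul_le_mul_of_nonneg_right (hle R c₀) (hpos c₀)) hq.le
          _ = 1 := by rw [hone c₀ hc₀]; field_simp
      · intro c hc hcc
        have : ¬ (R ∩ Om H τ Y (2 * M + 3) c).Nonempty := fun h => hcc (funext fun r =>
          hR r c c₀ (mea_mem.1 hc) (mea_mem.1 hc₀) h hne)
        rw [Set.not_nonempty_iff_eq_empty.1 this]
        simp
    · push Not at hex
      rw [Finset.sum_eq_zero fun c hc => ?_]
      · simp
      · rw [hex c hc]
        simp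
  · rw [mea_sum]
    calc _ ≤ ∑ c ∈ mea_C S w, δ * (1 / (S.card : ℝ) ^ w) := by
          refine Finset.sum_le_sum fun c hc => ?_
          rw [← hone c hc, ← mul_assoc]
          exact mul_le_mul_of_nonneg_right (hR c (mea_mem.1 hc)) (hpos c)
      _ = δ := by
          rw [Finset.sum_const, nsmul_eq_mul, hcard]
          field_simp

end Pool.Agent.EXB
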