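import Mathlib
import Pool.Agent.EXB.St

/-!
# EXB: mixing length of a finite symmetric relation
-/

set_option autoImplicit false

namespace Pool.Agent.EXB

theorem Mix_pad {D : Type} {H : D → D → Prop} (hH : ∀ a b, H a b → H b a) {a b x : D}
    (hx : H a x) (n : ℕ) (h : Wk H n a b) : ∀ k : ℕ, Wk H (n + 2 * k) a b
  | 0 => h
  | k + 1 => (Mix_pad hH hx n h k).pad hH hx

open Classical in
/-- the length of some walk of the given parity -/
noncomputable def Mix_len {D : Type} (H : D → D → Prop) (a b : D) (p : ℕ) : ℕ :=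
  if h : ∃ m, m % 2 = p ∧ Wk H m a b then h.choose else 0

theorem Mix_len_spec {D : Type} {H : D → D → Prop} {a b : D} {p m : ℕ} (hm : m % 2 = p)
    (h : Wk H m a b) : Mix_len H a b p % 2 = p ∧ Wk H (Mix_len H a b p) a b := by
  have h' : ∃ m, m % 2 = p ∧ Wk H m a b := ⟨m, hm, h⟩
  unfold Mix_len
  rw [dif_pos h']
  exact h'.choose_spec

theorem thm_Mix : St_Mix := by
  intro D _ H hH
  refine ⟨∑ a, ∑ b, (Mix_len H a b 0 + Mix_len H a b 1), ?_⟩
  intro a b n₀ n hw hx hn hp
  obtain ⟨x, hx⟩ := hx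
  have h1 := Mix_len_spec (p := n₀ % 2) rfl hw
  have h2 : Mix_len H a b (n₀ % 2) ≤ n := by
    refine le_trans ?_ hn
    have h3 : Mix_len H a b 0 + Mix_len H a b 1 ≤
        ∑ a, ∑ b, (Mix_len H a b 0 + Mix_len H a b 1) :=
      (Finset.single_le_sum (f := fun b => Mix_len H a b 0 + Mix_len H a b 1)
        (fun _ _ => Nat.zero_le _) (Finset.mem_univ b)).trans
        (Finset.single_le_sum (f := fun a => ∑ b, (Mix_len H a b 0 + Mix_len H a b 1))
          (fun _ _ => Nat.zero_le _) (Finset.mem_univ a))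
    rcases Nat.mod_two_eq_zero_or_one n₀ with h | h <;> rw [h] <;> omega
  have h4 : n = Mix_len H a b (n₀ % 2) + 2 * ((n - Mix_len H a b (n₀ % 2)) / 2) := by
    omega
  rw [h4]
  exact Mix_pad hH hx _ h1.2 _

end Pool.Agent.EXB
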