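import Mathlib
import Pool.Agent.EXB.St

/-!
# EXB Neg: negligible rectangles
-/

set_option autoImplicit false

namespace Pool.Agent.EXB

private theorem neg_cut (P : ℕ → Prop) (o : ℕ) : ∀ n, P o → ¬ P (o + n) →
    ∃ j, o ≤ j ∧ j < o + n ∧ P j ∧ ¬ P (j + 1)
  | 0, h, h' => (h' h).elim
  | n + 1, h, h' => by
    by_cases hn : P (o + n)
    · exact ⟨o + n, by omega, by omega, hn, h'⟩
    · obtain ⟨j, h1, h2, h3, h4⟩ := neg_cut P o n h hn
      exact ⟨j, h1, by omega, h3, h4⟩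

private theorem neg_walk {D : Type} {H : D → D → Prop} (z : ℕ → D) : ∀ (n p : ℕ),
    (∀ i, p ≤ i → i < p + n → H (z i) (z (i + 1))) → Wk H n (z p) (z (p + n))
  | 0, p, _ => rfl
  | n + 1, p, h => by
    refine ⟨z (p + 1), h p le_rfl (by omega), ?_⟩
    have := neg_walk z n (p + 1) fun i h1 h2 => h i (by omega) (by omega)
    rw [show p + 1 + n = p + (n + 1) by omega] at this
    exact this

section

variable {D : Type} {w K m : ℕ}

private theorem neg_asm (τ : D × D → D → D) (Y : Lay D w K) (c : Fin w → D)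
    (g : Fin K → Fin m → D) (k : Fin K) (j : ℕ) :
    asm τ c g (pos Y m k j) = vl Y c k (g k) j := by
  unfold pos vl
  split_ifs <;> rfl

private theorem neg_ne (Y : Lay D w K) (hm : 1 ≤ m) (k : Fin K) (j : ℕ) (hj : j ≤ m) :
    pos Y m k j ≠ pos Y m k (j + 1) := by
  unfold pos
  rw [if_neg (Nat.succ_ne_zero j)]
  by_cases h0 : j = 0
  · subst h0
    rw [if_pos rfl, dif_pos (show 0 + 1 - 1 < m by omega)]
    intro h
    cases h
  · rw [if_neg h0, dif_pos (show j - 1 < m by omega)]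
    by_cases h1 : j + 1 - 1 < m
    · rw [dif_pos h1]
      intro h
      have h2 : (⟨j - 1, by omega⟩ : Fin m) = ⟨j + 1 - 1, h1⟩ :=
        congrArg Prod.snd (Sum.inr_injective (Sum.inr_injective h))
      have h3 := congrArg Fin.val h2
      simp only at h3
      omega
    · rw [dif_neg h1]
      intro h
      cases h

private theorem neg_edge {H : D → D → Prop} {Y : Lay D w K} (hm : 1 ≤ m) {L : Vx D w K m → Set D}
    {f : Vx D w K m → D} (hf : f ∈ Hom H (Gr Y m) L) (k : Fin K) (j : ℕ) (hj : j ≤ m) :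
    H (f (pos Y m k j)) (f (pos Y m k (j + 1))) :=
  hf.2 _ _ ⟨neg_ne Y hm k j hj, Or.inl (Rel.cn k j hj)⟩

/-- data at one end of a connector -/
private def EndD (H : D → D → Prop) (τ : D × D → D → D) (s d : D) (α : Option (D × D)) (o : ℕ)
    (a a' : D) : Prop :=
  (o = 0 ∧ α = none ∧ a = s ∧ a' = d) ∨
    (o = 1 ∧ α = some (s, d) ∧ a = τ (s, d) s ∧ a' = τ (s, d) d ∧ ¬ H s a' ∧ H s a)

private theorem neg_end {H : D → D → Prop} (hH : ∀ a b, H a b → H b a) {S : Finset D}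
    {τ : D × D → D → D} (hS : Irr H S) (hτ : Tau H S τ) {s d : D} (hs : s ∈ S) (hd : d ∈ S)
    (hne : s ≠ d) : ∃ (α : Option (D × D)) (o : ℕ) (a a' b : D), EndD H τ s d α o a a' ∧
      H a b ∧ ¬ H a' b ∧ ∃ (n n' : ℕ) (t : D), Wk H n a s ∧ Wk H (2 * n') s d ∧
        ¬ (H s t ↔ H d t) := by
  obtain ⟨⟨n', hn'⟩, h⟩ := hS s hs d hd
  obtain ⟨t, ht⟩ := h hne
  by_cases h1 : ∃ b, H s b ∧ ¬ H d b
  · obtain ⟨b, hb, hb'⟩ := h1
    exact ⟨none, 0, s, d, b, Or.inl ⟨rfl, rfl, rfl, rfl⟩, hb, hb', 0, n', t, rfl, hn', ht⟩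
  · have h2 : ∃ t, H d t ∧ ¬ H s t := by
      by_contra h2
      push Not at h1 h2
      exact ht ⟨h1 t, h2 t⟩
    have h3 : ¬ H s (τ (s, d) d) := hτ.2 s hs d hd h2
    have h4 : H s (τ (s, d) s) := hτ.1 (s, d) s hs
    exact ⟨some (s, d), 1, τ (s, d) s, τ (s, d) d, s, Or.inr ⟨rfl, rfl, rfl, rfl, h3, h4⟩,
      hH _ _ h4, fun h => h3 (hH _ _ h), 1, n', t, Wk.one (hH _ _ h4), hn', ht⟩

private theorem neg_vl0 (Y : Lay D w K) (c : Fin w → D) (k : Fin K) (h : Fin m → D) :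
    vl Y c k h 0 = c (Y.r1 k) := by
  unfold vl
  rw [if_pos rfl]

private theorem neg_vl1 (Y : Lay D w K) (c : Fin w → D) (k : Fin K) (h : Fin m → D) :
    vl Y c k h (m + 1) = c (Y.r2 k) := by
  unfold vl
  rw [if_neg (Nat.succ_ne_zero m), dif_neg (by omega)]

private theorem neg_vlm (Y : Lay D w K) (c : Fin w → D) (k : Fin K) (h : Fin m → D) (j : ℕ)
    (h0 : j ≠ 0) (h1 : j - 1 < m) : vl Y c k h j = h ⟨j - 1, h1⟩ := by
  unfold vl
  rw [if_neg h0, dif_pos h1]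

private theorem neg_key (hWal : St_Wal) {H : D → D → Prop} [Fintype D]
    (hH : ∀ a b, H a b → H b a) {S : Finset D} {τ : D × D → D → D} {M : ℕ} {Y : Lay D w K}
    (hm : m = 2 * M + 3) (hS : Irr H S) (hτ : Tau H S τ) (hM : Mixes H M) {r r' : Fin w}
    {R : Set (Vx D w K m → D)} {A : Finset (Vx D w K m)} (hR : R ⊆ Hom H (Gr Y m) (Li S))
    (hmix : MixCl A R) (hr : ∀ i, U m r i ∈ A) (hr' : ∀ i, U m r' i ∉ A)
    {c c₁ c₂ : Fin w → D} (hc : ∀ r, c r ∈ S) (hc₁ : ∀ r, c₁ r ∈ S) (hc₂ : ∀ r, c₂ r ∈ S)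
    {g₀ g₁ g₂ : Fin K → Fin m → D} (hg₀ : ∀ k, Gd H τ Y c k (g₀ k))
    (hg₁ : ∀ k, Gd H τ Y c₁ k (g₁ k)) (hg₂ : ∀ k, Gd H τ Y c₂ k (g₂ k))
    (h₀ : asm τ c g₀ ∈ R) (h₁ : asm τ c₁ g₁ ∈ R) (h₂ : asm τ c₂ g₂ ∈ R)
    (hne₁ : c r ≠ c₁ r) (hne₂ : c r' ≠ c₂ r') :
    ∃ α β, ∀ k, Y.r1 k = r ∧ Y.r2 k = r' ∧ Y.ty1 k = α ∧ Y.ty2 k = β →
      ∃ h : Fin m → D, Gd H τ Y c k h ∧ ∀ g : Fin K → Fin m → D, asm τ c g ∈ R → g k ≠ h := by
  classical
  obtain ⟨α, o, a, a', b, hE, hb, hb', n, n', t, hw, hw', ht⟩ :=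
    neg_end hH hS hτ (hc r) (hc₁ r) hne₁
  obtain ⟨β, p, e, e', q, hE', hq, hq', n₂, n₃, t', hv, hv', ht'⟩ :=
    neg_end hH hS hτ (hc r') (hc₂ r') hne₂
  refine ⟨α, β, ?_⟩
  rintro k ⟨hk1, hk2, hk3, hk4⟩
  have hm1 : 1 ≤ m := by omega
  have ho : o ≤ 1 := by
    rcases hE with h | h
    · omega
    · omega
  have hp : p ≤ 1 := by
    rcases hE' with h | h
    · omega
    · omega
  -- values at the ends
  have v1 : ∀ (cc : Fin w → D) (g : Fin K → Fin m → D), Gd H τ Y cc k (g k) →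
      (cc r = c r → vl Y cc k (g k) o = a) ∧ (cc r = c₁ r → vl Y cc k (g k) o = a') := by
    intro cc g hg
    rcases hE with ⟨h1, h2, h3, h4⟩ | ⟨h1, h2, h3, h4, -, -⟩
    · rw [h1, h3, h4, neg_vl0, hk1]
      exact ⟨id, id⟩
    · rw [h1, h3, h4, hg.2.1 (c r, c₁ r) (by rw [hk3, h2]), hk1]
      exact ⟨fun h => by rw [h], fun h => by rw [h]⟩
  have v2 : ∀ (cc : Fin w → D) (g : Fin K → Fin m → D), Gd H τ Y cc k (g k) →
      (cc r' = c r' → vl Y cc k (g k) (m + 1 - p) = e) ∧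
        (cc r' = c₂ r' → vl Y cc k (g k) (m + 1 - p) = e') := by
    intro cc g hg
    rcases hE' with ⟨h1, h2, h3, h4⟩ | ⟨h1, h2, h3, h4, -, -⟩
    · rw [h1, h3, h4, Nat.sub_zero, neg_vl1, hk2]
      exact ⟨id, id⟩
    · rw [h1, h3, h4, Nat.add_sub_cancel, hg.2.2 (c r', c₂ r') (by rw [hk4, h2]), hk2]
      exact ⟨fun h => by rw [h], fun h => by rw [h]⟩
  have e0 : ∀ {cc : Fin w → D} {g : Fin K → Fin m → D}, asm τ cc g ∈ R → ∀ j ≤ m,
      H (vl Y cc k (g k) j) (vl Y cc k (g k) (j + 1)) := by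
    intro cc g hg j hj
    rw [← neg_asm τ Y cc g, ← neg_asm τ Y cc g]
    exact neg_edge hm1 (hR hg) k j hj
  -- mixed points
  have mixH : ∀ {f f' : Vx D w K m → D}, f ∈ R → f' ∈ R → ∀ j ≤ m, pos Y m k j ∈ A →
      pos Y m k (j + 1) ∉ A → H (f (pos Y m k j)) (f' (pos Y m k (j + 1))) := by
    intro f f' hf hf' j hj h1 h2
    have h3 : (fun v => if v ∈ A then f v else f' v) ∈ R := by
      refine hmix f hf f' hf' _ (fun v hv => if_pos hv) (fun v hv => if_neg hv)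
    have h4 := neg_edge hm1 (hR h3) k j hj
    simp only [h1, h2, if_true, if_false] at h4
    exact h4
  have p0 : pos Y m k 0 ∈ A := by
    unfold pos
    rw [if_pos rfl, hk1]
    exact hr _
  have p1 : pos Y m k (m + 1) ∉ A := by
    unfold pos
    rw [if_neg (Nat.succ_ne_zero m), dif_neg (by omega), hk2]
    exact hr' _
  have po : pos Y m k o ∈ A := by
    rcases hE with ⟨h1, -⟩ | ⟨h1, -, -, -, h5, -⟩
    · rw [h1]
      exact p0
    · by_contra h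
      rw [h1] at h
      have h6 := mixH h₀ h₁ 0 (by omega) p0 h
      rw [neg_asm, neg_asm, neg_vl0, hk1] at h6
      have h7 := (v1 c₁ g₁ (hg₁ k)).2 rfl
      rw [h1] at h7
      rw [show 0 + 1 = 1 from rfl, h7] at h6
      exact h5 h6
  have pp : pos Y m k (m + 1 - p) ∉ A := by
    rcases hE' with ⟨h1, -⟩ | ⟨h1, -, -, -, h5, -⟩
    · rw [h1]
      exact p1
    · intro h
      rw [h1, Nat.add_sub_cancel] at h
      have h6 := mixH h₂ h₀ m le_rfl h p1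
      rw [neg_asm, neg_asm, neg_vl1, hk2] at h6
      have h7 := (v2 c₂ g₂ (hg₂ k)).2 rfl
      rw [h1, Nat.add_sub_cancel] at h7
      rw [h7] at h6
      exact h5 (hH _ _ h6)
  obtain ⟨j, hj1, hj2, hj3, hj4⟩ := neg_cut (fun j => pos Y m k j ∈ A) o (m + 1 - p - o) po
    (by rw [show o + (m + 1 - p - o) = m + 1 - p by omega]; exact pp)
  have wk : ∀ {cc : Fin w → D} {g : Fin K → Fin m → D}, asm τ cc g ∈ R → ∀ i n : ℕ,
      i + n ≤ m + 1 → Wk H n (vl Y cc k (g k) i) (vl Y cc k (g k) (i + n)) := by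
    intro cc g hg i n hn
    exact neg_walk _ n i fun l _ h2 => e0 hg l (by omega)
  have W0 : Wk H (m + 1 - p - o) a e := by
    have h := wk h₀ o (m + 1 - p - o) (by omega)
    rw [show o + (m + 1 - p - o) = m + 1 - p by omega, (v1 c g₀ (hg₀ k)).1 rfl,
      (v2 c g₀ (hg₀ k)).1 rfl] at h
    exact h
  have W1 : Wk H (j - o) a' (asm τ c₁ g₁ (pos Y m k j)) := by
    have h := wk h₁ o (j - o) (by omega)
    rw [show o + (j - o) = j by omega, (v1 c₁ g₁ (hg₁ k)).2 rfl] at h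
    rw [neg_asm]
    exact h
  have W2 : Wk H (m + 1 - p - (j + 1)) e' (asm τ c₂ g₂ (pos Y m k (j + 1))) := by
    have h := wk h₂ (j + 1) (m + 1 - p - (j + 1)) (by omega)
    rw [show j + 1 + (m + 1 - p - (j + 1)) = m + 1 - p by omega, (v2 c₂ g₂ (hg₂ k)).2 rfl] at h
    rw [neg_asm]
    exact Wk.symm hH h
  have hJ : j - o + 1 + (m + 1 - p - (j + 1)) = m + 1 - p - o := by omega
  obtain ⟨z, z1, z2, z3, z4⟩ := hWal D H hH M (j - o) (m + 1 - p - (j + 1)) a a' b (c r) (c₁ r) t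
    e e' q (c r') (c₂ r') t' (asm τ c₁ g₁ (pos Y m k j)) (asm τ c₂ g₂ (pos Y m k (j + 1)))
    {x | ∃ f ∈ R, f (pos Y m k j) = x} {x | ∃ f ∈ R, f (pos Y m k (j + 1)) = x}
    (m + 1 - p - o) n n' n₂ n₃ hM (by omega)
    (by
      rintro _ ⟨f, hf, rfl⟩ _ ⟨f', hf', rfl⟩
      exact mixH hf hf' j (by omega) hj3 hj4)
    W0 (by rw [hJ]) ⟨_, h₁, rfl⟩ W1 hb hb' hw hw' ht ⟨_, h₂, rfl⟩ W2 hq hq' hv hv' ht'
  rw [hJ] at z2 z3
  -- the new inner values
  let h : Fin m → D := fun i => z (i.1 + 1 - o)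
  have hz : ∀ i, o ≤ i → i ≤ m + 1 - p → vl Y c k h i = z (i - o) := by
    intro i hi1 hi2
    by_cases hi0 : i = 0
    · have ho0 : o = 0 := by omega
      rcases hE with ⟨-, -, h3, -⟩ | ⟨h3, -⟩
      · rw [hi0, neg_vl0, hk1, Nat.zero_sub, z1, h3]
      · omega
    · by_cases hi3 : i = m + 1
      · have hp0 : p = 0 := by omega
        rcases hE' with ⟨-, -, h3, -⟩ | ⟨h3, -⟩
        · rw [hi3, neg_vl1, hk2, ← h3, ← z2, hp0, Nat.sub_zero]
        · omega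
      · rw [neg_vlm Y c k h i hi0 (by omega)]
        show z (i - 1 + 1 - o) = z (i - o)
        rw [show i - 1 + 1 - o = i - o by omega]
  refine ⟨h, ⟨?_, ?_, ?_⟩, ?_⟩
  · intro i hi
    by_cases hi1 : o ≤ i
    · by_cases hi2 : i + 1 ≤ m + 1 - p
      · rw [hz i hi1 (by omega), hz (i + 1) (by omega) hi2,
          show i + 1 - o = i - o + 1 by omega]
        exact z3 _ (by omega)
      · have hi3 : i = m := by omega
        have hp1 : p = 1 := by omega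
        rcases hE' with ⟨h3, -⟩ | ⟨-, -, -, -, -, h8⟩
        · omega
        · have h9 := hz i hi1 (by omega)
          have h10 : i - o = m + 1 - p - o := by omega
          rw [h10, z2] at h9
          rw [h9, hi3, neg_vl1, hk2]
          exact hH _ _ h8
    · have hi3 : i = 0 := by omega
      have ho1 : o = 1 := by omega
      rcases hE with ⟨h3, -⟩ | ⟨-, -, -, -, -, h8⟩
      · omega
      · have h9 := hz (i + 1) (by omega) (by omega)
        have h10 : i + 1 - o = 0 := by omega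
        rw [h10, z1] at h9
        rw [h9, hi3, neg_vl0, hk1]
        exact h8
  · intro pq hpq
    rcases hE with ⟨-, h2, -⟩ | ⟨h1, h2, h3, -⟩
    · rw [hk3, h2] at hpq
      cases hpq
    · rw [hk3, h2] at hpq
      cases hpq
      have h9 := hz 1 (by omega) (by omega)
      rw [h9, h1, Nat.sub_self, z1, h3, hk1]
  · intro pq hpq
    rcases hE' with ⟨-, h2, -⟩ | ⟨h1, h2, h3, -⟩
    · rw [hk4, h2] at hpq
      cases hpq
    · rw [hk4, h2] at hpq
      cases hpq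
      have h9 := hz m (by omega) (by omega)
      have h10 : m - o = m + 1 - p - o := by omega
      rw [h9, h10, z2, h3, hk2]
  · intro g hg hgk
    refine z4 ⟨⟨_, hg, ?_⟩, ⟨_, hg, ?_⟩⟩
    · rw [neg_asm, hgk, hz j hj1 (by omega)]
    · rw [neg_asm, hgk, hz (j + 1) (by omega) (by omega), show j + 1 - o = j - o + 1 by omega]

private theorem neg_two {S : Finset D} {H : D → D → Prop} {τ : D × D → D → D} {Y : Lay D w K}
    {R : Set (Vx D w K m → D)} {r : Fin w} (h : ¬ One H S τ Y R r) (c : Fin w → D) :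
    ∃ (c₁ : Fin w → D) (g₁ : Fin K → Fin m → D), (∀ r, c₁ r ∈ S) ∧
      (∀ k, Gd H τ Y c₁ k (g₁ k)) ∧ asm τ c₁ g₁ ∈ R ∧ c r ≠ c₁ r := by
  unfold One at h
  push Not at h
  obtain ⟨c₁, c₂, h1, h2, ⟨f₁, h3, g₁, h4, h5⟩, ⟨f₂, h6, g₂, h7, h8⟩, h9⟩ := h
  by_cases h10 : c r = c₁ r
  · refine ⟨c₂, g₂, h2, h7, ?_, ?_⟩
    · rw [← h8]
      exact h6
    · rw [h10]
      exact h9
  · refine ⟨c₁, g₁, h1, h4, ?_, h10⟩
    rw [← h5]
    exact h3

end

theorem thm_Neg : St_Neg := by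
  intro hWal hOmg D _ H hH S τ w K M L Y hS hS2 hτ hM r r' hL R A hR hmix hr hr' hO hO' c hc
  classical
  have hD : 1 ≤ Fintype.card D := by
    have := Finset.card_le_univ S
    omega
  have hD' : (1 : ℝ) ≤ (Fintype.card D : ℝ) ^ (2 * M + 3) :=
    one_le_pow₀ (by exact_mod_cast hD)
  have hδ0 : (0 : ℝ) ≤ 1 - 1 / (Fintype.card D : ℝ) ^ (2 * M + 3) := by
    have : 1 / (Fintype.card D : ℝ) ^ (2 * M + 3) ≤ 1 := by
      rw [div_le_one (by linarith)]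
      exact hD'
    linarith
  have hδ1 : 1 - 1 / (Fintype.card D : ℝ) ^ (2 * M + 3) ≤ 1 := by
    have : (0 : ℝ) ≤ 1 / (Fintype.card D : ℝ) ^ (2 * M + 3) := by positivity
    linarith
  rcases (R ∩ Om H τ Y (2 * M + 3) c).eq_empty_or_nonempty with hemp | ⟨f₀, hf₀, g₀, hg₀, he₀⟩
  · rw [hemp, Set.ncard_empty]
    push_cast
    positivity
  obtain ⟨c₁, g₁, hc₁, hg₁, h₁, hne₁⟩ := neg_two hO c
  obtain ⟨c₂, g₂, hc₂, hg₂, h₂, hne₂⟩ := neg_two hO' c
  rw [he₀] at hf₀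
  obtain ⟨α, β, hk⟩ := neg_key hWal hH rfl hS hτ hM hR hmix hr hr' hc hc₁ hc₂ hg₀ hg₁ hg₂ hf₀ h₁
    h₂ hne₁ hne₂
  let T : Set (Fin K) := {k | Y.r1 k = r ∧ Y.r2 k = r' ∧ Y.ty1 k = α ∧ Y.ty2 k = β}
  have hT : L ≤ T.ncard := hL α β
  have hne : Nonempty D := Fintype.card_pos_iff.1 hD
  choose! h hh1 hh2 using hk
  obtain ⟨-, -, hcount⟩ := hOmg D H hH S τ w K M Y hS hS2 hτ hM c hc
  let Nn : Fin K → ℕ := fun k => {x : Fin (2 * M + 3) → D | Gd H τ Y c k x}.ncard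
  have c0 : (Om H τ Y (2 * M + 3) c).ncard = ∏ k, Nn k := by
    have := hcount fun _ _ => True
    simp only [and_true] at this
    exact this
  have c1 : (R ∩ Om H τ Y (2 * M + 3) c).ncard ≤
      ∏ k, {x : Fin (2 * M + 3) → D | Gd H τ Y c k x ∧ (k ∈ T → x ≠ h k)}.ncard := by
    rw [← hcount fun k x => k ∈ T → x ≠ h k]
    refine Set.ncard_le_ncard ?_ (Set.toFinite _)
    rintro f ⟨hf, g, hg, rfl⟩
    exact ⟨g, fun k => ⟨hg k, fun hkT => hh2 k hkT g hf⟩, rfl⟩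
  have c2 : ∀ k, (({x : Fin (2 * M + 3) → D | Gd H τ Y c k x ∧ (k ∈ T → x ≠ h k)}.ncard : ℕ) : ℝ) ≤
      (if k ∈ T then (1 - 1 / (Fintype.card D : ℝ) ^ (2 * M + 3)) else 1) * (Nn k : ℝ) := by
    intro k
    by_cases hkT : k ∈ T
    · rw [if_pos hkT]
      have h1 : {x : Fin (2 * M + 3) → D | Gd H τ Y c k x ∧ (k ∈ T → x ≠ h k)} =
          {x : Fin (2 * M + 3) → D | Gd H τ Y c k x} \ {h k} := by
        ext x
        simp [hkT]
      have h2 : ({x : Fin (2 * M + 3) → D | Gd H τ Y c k x} \ {h k}).ncard = Nn k - 1 :=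
        Set.ncard_sdiff_singleton_of_mem (hh1 k hkT)
      have h3 : 0 < Nn k := (Set.ncard_pos (Set.toFinite _)).2 ⟨h k, hh1 k hkT⟩
      have h4 : (Nn k : ℝ) ≤ (Fintype.card D : ℝ) ^ (2 * M + 3) := by
        have h5 : Nn k ≤ (Set.univ : Set (Fin (2 * M + 3) → D)).ncard :=
          Set.ncard_le_ncard (Set.subset_univ _) (Set.toFinite _)
        rw [Set.ncard_univ, Nat.card_eq_fintype_card, Fintype.card_fun, Fintype.card_fin] at h5
        exact_mod_cast h5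
      rw [h1, h2, Nat.cast_sub h3, Nat.cast_one]
      have h6 : 1 / (Fintype.card D : ℝ) ^ (2 * M + 3) * (Nn k : ℝ) ≤ 1 := by
        rw [one_div, inv_mul_le_iff₀ (by linarith), mul_one]
        exact h4
      linarith
    · rw [if_neg hkT, one_mul]
      refine Nat.cast_le.2 (Set.ncard_le_ncard ?_ (Set.toFinite _))
      rintro x ⟨hx, -⟩
      exact hx
  have c3 : (((R ∩ Om H τ Y (2 * M + 3) c).ncard : ℕ) : ℝ) ≤
      (∏ k : Fin K, if k ∈ T then (1 - 1 / (Fintype.card D : ℝ) ^ (2 * M + 3)) else 1) *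
        ∏ k, (Nn k : ℝ) := by
    rw [← Finset.prod_mul_distrib]
    refine (Nat.cast_le.2 c1).trans ?_
    rw [Nat.cast_prod]
    exact Finset.prod_le_prod (fun _ _ => Nat.cast_nonneg _) fun k _ => c2 k
  have c4 : (∏ k : Fin K, if k ∈ T then (1 - 1 / (Fintype.card D : ℝ) ^ (2 * M + 3)) else 1) =
      (1 - 1 / (Fintype.card D : ℝ) ^ (2 * M + 3)) ^ T.ncard := by
    rw [Finset.prod_ite, Finset.prod_const, Finset.prod_const_one, mul_one,
      Set.ncard_eq_toFinset_card']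
    congr 2
    ext k
    simp
  rw [c4] at c3
  rw [c0, Nat.cast_prod]
  refine c3.trans (mul_le_mul_of_nonneg_right ?_ (Finset.prod_nonneg fun _ _ =>
    Nat.cast_nonneg _))
  exact pow_le_pow_of_le_one hδ0 hδ1 hT

end Pool.Agent.EXB
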