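import Mathlib
import Pool.Agent.EXB.St

/-! # EXB: the points of the measure -/

set_option autoImplicit false

namespace Pool.Agent.EXB

namespace OmgAux

variable {D : Type} {w K m : ℕ}

theorem asm_pos (τ : D × D → D → D) (Y : Lay D w K) (c : Fin w → D) (g : Fin K → Fin m → D)
    (k : Fin K) (j : ℕ) : asm τ c g (pos Y m k j) = vl Y c k (g k) j := by
  unfold pos vl
  split_ifs <;> rfl

theorem walk_fun {H : D → D → Prop} : ∀ {n : ℕ} {a b : D}, Wk H n a b →
    ∃ z : ℕ → D, z 0 = a ∧ z n = b ∧ ∀ i < n, H (z i) (z (i + 1))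
  | 0, a, b, h => ⟨fun _ => a, rfl, h, fun i hi => absurd hi (Nat.not_lt_zero i)⟩
  | n + 1, a, b, h => by
      obtain ⟨d, hd, h⟩ := h
      obtain ⟨z, h0, h1, h2⟩ := walk_fun h
      refine ⟨fun i => if i = 0 then a else z (i - 1), rfl, by simpa using h1, ?_⟩
      intro i hi
      rcases Nat.eq_zero_or_pos i with h3 | h3
      · subst h3
        simp only [if_true, Nat.zero_add, one_ne_zero, if_false, Nat.sub_self, h0]
        exact hd
      · have h4 : i ≠ 0 := by omega
        have h5 : i + 1 ≠ 0 := by omega
        simp only [h4, h5, if_false, Nat.add_sub_cancel]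
        have h6 := h2 (i - 1) (by omega)
        rwa [Nat.sub_add_cancel (by omega)] at h6

theorem asm_inj (τ : D × D → D → D) (c : Fin w → D) :
    Function.Injective (asm (K := K) (m := m) τ c) := by
  intro g g' h
  funext k j
  exact congrFun h (Sum.inr (Sum.inr (k, j)))

theorem ncard_pi [Fintype D] (P : Fin K → (Fin m → D) → Prop) :
    {g : Fin K → Fin m → D | ∀ k, P k (g k)}.ncard = ∏ k, {h : Fin m → D | P k h}.ncard := by
  classical
  have h1 : {g : Fin K → Fin m → D | ∀ k, P k (g k)}.ncard =
      Nat.card (∀ k, {h : Fin m → D // P k h}) := by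
    rw [← Nat.card_coe_set_eq]
    exact Nat.card_congr (Equiv.subtypePiEquivPi (p := fun k h => P k h))
  rw [h1, Nat.card_pi]
  refine Finset.prod_congr rfl fun k _ => ?_
  exact Nat.card_coe_set_eq {h : Fin m → D | P k h}

end OmgAux

open OmgAux in
theorem thm_Omg : St_Omg := by
  intro D _ H hH S τ w K M Y hS h2 hτ hM c hc
  refine ⟨?_, ?_, ?_⟩
  · rintro f ⟨g, hg, rfl⟩
    refine ⟨fun v => trivial, ?_⟩
    have key : ∀ u v, Rel Y (2 * M + 3) u v → H (asm τ c g u) (asm τ c g v) := by
      intro u v h
      cases h with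
      | uv r i p => exact hτ.1 p (c r) (hc r)
      | vu r i p => exact hH _ _ (hτ.1 p (c r) (hc r))
      | cn k j hj =>
        rw [asm_pos, asm_pos]
        exact (hg k).1 j hj
    intro u v huv
    unfold Gr at huv
    rw [SimpleGraph.fromRel_adj] at huv
    rcases huv.2 with h | h
    · exact key _ _ h
    · exact hH _ _ (key _ _ h)
  · intro k
    set s := c (Y.r1 k) with hs
    set e := c (Y.r2 k) with he
    have hsS : s ∈ S := hc _
    have heS : e ∈ S := hc _
    obtain ⟨n, hn⟩ := (hS s hsS e heS).1
    have h1 : H s (τ ((Y.ty1 k).getD (s, s)) s) := hτ.1 _ _ hsS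
    have h3 : H e (τ ((Y.ty2 k).getD (s, s)) e) := hτ.1 _ _ heS
    set a := τ ((Y.ty1 k).getD (s, s)) s with ha
    set b := τ ((Y.ty2 k).getD (s, s)) e with hb
    have h4 : Wk H (1 + (2 * n + 1)) a b :=
      Wk.add (Wk.one (hH _ _ h1)) (Wk.add hn (Wk.one h3))
    have h5 : Wk H (2 * M + 2) a b :=
      hM a b _ (2 * M + 2) h4 ⟨s, hH _ _ h1⟩ (by omega) (by omega)
    obtain ⟨z, z0, z1, z2⟩ := walk_fun h5
    refine ⟨fun j => z j.1, ?_, ?_, ?_⟩
    · intro j hj
      rcases Nat.eq_zero_or_pos j with h6 | h6
      · subst h6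
        have e1 : vl Y c k (fun j : Fin (2 * M + 3) => z j.1) 0 = s := rfl
        have e2 : vl Y c k (fun j : Fin (2 * M + 3) => z j.1) (0 + 1) = a := by
          unfold vl
          rw [if_neg (by omega), dif_pos (by omega)]
          exact z0
        rw [e1, e2]
        exact h1
      · rcases Nat.lt_or_ge j (2 * M + 3) with h7 | h7
        · have e1 : vl Y c k (fun j : Fin (2 * M + 3) => z j.1) j = z (j - 1) := by
            unfold vl
            rw [if_neg (by omega), dif_pos (by omega)]
          have e2 : vl Y c k (fun j : Fin (2 * M + 3) => z j.1) (j + 1) = z j := by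
            unfold vl
            rw [if_neg (by omega), dif_pos (by omega)]
            rfl
          rw [e1, e2]
          have h8 := z2 (j - 1) (by omega)
          rwa [Nat.sub_add_cancel (by omega)] at h8
        · have h9 : j = 2 * M + 3 := by omega
          subst h9
          have e1 : vl Y c k (fun j : Fin (2 * M + 3) => z j.1) (2 * M + 3) = b := by
            unfold vl
            rw [if_neg (by omega), dif_pos (by omega)]
            exact z1
          have e2 : vl Y c k (fun j : Fin (2 * M + 3) => z j.1) (2 * M + 3 + 1) = e := by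
            unfold vl
            rw [if_neg (by omega), dif_neg (by omega)]
          rw [e1, e2]
          exact hH _ _ h3
    · intro p hp
      have e2 : vl Y c k (fun j : Fin (2 * M + 3) => z j.1) 1 = a := by
        unfold vl
        rw [if_neg (by omega), dif_pos (by omega)]
        exact z0
      rw [e2, ha, hp]
      rfl
    · intro p hp
      have e1 : vl Y c k (fun j : Fin (2 * M + 3) => z j.1) (2 * M + 3) = b := by
        unfold vl
        rw [if_neg (by omega), dif_pos (by omega)]
        exact z1
      rw [e1, hb, hp]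
      rfl
  · intro B
    have h1 : {f | ∃ g : Fin K → Fin (2 * M + 3) → D, (∀ k, Gd H τ Y c k (g k) ∧ B k (g k)) ∧
        f = asm τ c g} = asm τ c '' {g | ∀ k, Gd H τ Y c k (g k) ∧ B k (g k)} := by
      ext f
      constructor
      · rintro ⟨g, hg, rfl⟩
        exact ⟨g, hg, rfl⟩
      · rintro ⟨g, hg, rfl⟩
        exact ⟨g, hg, rfl⟩
    rw [h1, Set.ncard_image_of_injective _ (asm_inj τ c)]
    exact ncard_pi (fun k h => Gd H τ Y c k h ∧ B k h)

end Pool.Agent.EXB
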