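import Mathlib
import Pool.Agent.EXB.St

/-!
# EXB [Pdc]: path decomposition of the graph `Gr` (helper72)
-/

set_option autoImplicit false

namespace Pool.Agent.EXB

section

variable {D : Type} {w K m : ℕ}

/-- first bag -/
private def pdc_lo (D : Type) (w K m : ℕ) : Vx D w K m → ℕ
  | Sum.inl (r, i) => w * i.val + r.val - w
  | Sum.inr (Sum.inl (r, i, _)) => w * i.val + r.val
  | Sum.inr (Sum.inr (k, _)) => w * k.val

open Classical in
/-- last bag -/
private noncomputable def pdc_hi (Y : Lay D w K) (m : ℕ) : Vx D w K m → ℕ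
  | Sum.inl (r, i) =>
      if ∃ k : Fin K, k.castSucc = i ∧ (r = Y.r1 k ∨ r = Y.r2 k) then w * i.val + (w - 1)
      else w * i.val + r.val
  | Sum.inr (Sum.inl (r, i, _)) => w * i.val + r.val
  | Sum.inr (Sum.inr (k, _)) => w * k.val + (w - 1)

open Classical in
private theorem pdc_hi_eq (Y : Lay D w K) (m : ℕ) (r : Fin w) (i : Fin (K + 1)) :
    pdc_hi Y m (Sum.inl (r, i)) =
      if ∃ k : Fin K, k.castSucc = i ∧ (r = Y.r1 k ∨ r = Y.r2 k) then w * i.val + (w - 1)
      else w * i.val + r.val := rfl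

private theorem pdc_hi_U (Y : Lay D w K) (m : ℕ) (r : Fin w) (i : Fin (K + 1)) :
    w * i.val + r.val ≤ pdc_hi Y m (Sum.inl (r, i)) := by
  have hr := r.isLt
  rw [pdc_hi_eq]
  split_ifs
  · omega
  · exact le_rfl

private theorem pdc_hi_U' (Y : Lay D w K) (m : ℕ) (r : Fin w) (i : Fin (K + 1)) (k : Fin K)
    (hk : k.castSucc = i) (hr : r = Y.r1 k ∨ r = Y.r2 k) :
    pdc_hi Y m (Sum.inl (r, i)) = w * i.val + (w - 1) := by
  rw [pdc_hi_eq]
  exact if_pos ⟨k, hk, hr⟩

private theorem pdc_le (Y : Lay D w K) (m : ℕ) (v : Vx D w K m) :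
    pdc_lo D w K m v ≤ pdc_hi Y m v := by
  rcases v with ⟨r, i⟩ | ⟨r, i, p⟩ | ⟨k, j⟩
  · have h := pdc_hi_U Y m r i
    change w * i.val + r.val - w ≤ _
    omega
  · exact le_rfl
  · exact Nat.le_add_right _ _

private theorem pdc_pos (Y : Lay D w K) (m : ℕ) (k : Fin K) (j : ℕ) :
    pdc_lo D w K m (pos Y m k j) ≤ w * k.val + (w - 1) ∧
      w * k.val + (w - 1) ≤ pdc_hi Y m (pos Y m k j) := by
  unfold pos
  split_ifs with h1 h2
  · constructor
    · have hr := (Y.r1 k).isLt
      change w * k.val + (Y.r1 k).val - w ≤ _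
      omega
    · exact (pdc_hi_U' Y m (Y.r1 k) k.castSucc k rfl (Or.inl rfl)).ge
  · exact ⟨Nat.le_add_right _ _, le_rfl⟩
  · constructor
    · have hr := (Y.r2 k).isLt
      change w * k.val + (Y.r2 k).val - w ≤ _
      omega
    · exact (pdc_hi_U' Y m (Y.r2 k) k.castSucc k rfl (Or.inr rfl)).ge

private theorem pdc_rel (Y : Lay D w K) (m : ℕ) (u v : Vx D w K m) (h : Rel Y m u v) :
    ∃ t, (pdc_lo D w K m u ≤ t ∧ t ≤ pdc_hi Y m u) ∧
      (pdc_lo D w K m v ≤ t ∧ t ≤ pdc_hi Y m v) := by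
  cases h with
  | uv r i p =>
    refine ⟨w * i.val + r.val, ⟨?_, ?_⟩, le_rfl, le_rfl⟩
    · exact Nat.sub_le _ _
    · exact pdc_hi_U Y m r i.castSucc
  | vu r i p =>
    refine ⟨w * i.val + r.val, ⟨le_rfl, le_rfl⟩, ?_, ?_⟩
    · change w * (i.val + 1) + r.val - w ≤ _
      rw [Nat.mul_succ]
      omega
    · refine le_trans ?_ (pdc_hi_U Y m r i.succ)
      rw [Fin.val_succ, Nat.mul_succ]
      omega
  | cn k j hj => exact ⟨w * k.val + (w - 1), pdc_pos Y m k j, pdc_pos Y m k (j + 1)⟩

/-- quotient and remainder -/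
private theorem pdc_div {w a b r s : ℕ} (hr : r < w) (hs : s < w)
    (h : w * a + r = w * b + s) : a = b ∧ r = s := by
  have h1 : (w * a + r) / w = a := by
    rw [Nat.mul_add_div (by omega), Nat.div_eq_of_lt hr, add_zero]
  have h2 : (w * b + s) / w = b := by
    rw [Nat.mul_add_div (by omega), Nat.div_eq_of_lt hs, add_zero]
  have h3 : a = b := by rw [← h1, ← h2, h]
  subst h3
  exact ⟨rfl, by omega⟩

variable [Fintype D]

open Classical in
/-- the bags -/
private noncomputable def pdc_bag (Y : Lay D w K) (m t : ℕ) : Finset (Vx D w K m) :=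
  Finset.univ.filter fun v => pdc_lo D w K m v ≤ t ∧ t ≤ pdc_hi Y m v

private theorem pdc_mem (Y : Lay D w K) (m t : ℕ) (v : Vx D w K m) :
    v ∈ pdc_bag Y m t ↔ pdc_lo D w K m v ≤ t ∧ t ≤ pdc_hi Y m v := by
  classical
  unfold pdc_bag
  rw [Finset.mem_filter]
  exact ⟨fun h => h.2, fun h => ⟨Finset.mem_univ _, h⟩⟩

open Classical in
private noncomputable def pdc_S1 (w K t : ℕ) : Finset (Fin w × Fin (K + 1)) :=
  Finset.univ.filter fun x => t ≤ w * x.2.val + x.1.val ∧ w * x.2.val + x.1.val ≤ t + w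

private theorem pdc_S1_card (w K t : ℕ) : (pdc_S1 w K t).card ≤ w + 1 := by
  classical
  have h1 : (Finset.Icc t (t + w)).card = w + 1 := by
    rw [Nat.card_Icc]
    omega
  rw [← h1]
  refine Finset.card_le_card_of_injOn (fun x => w * x.2.val + x.1.val) ?_ ?_
  · intro x hx
    have hx' := Finset.mem_coe.1 hx
    unfold pdc_S1 at hx'
    rw [Finset.mem_filter] at hx'
    exact Finset.mem_coe.2 (Finset.mem_Icc.2 hx'.2)
  · intro x hx y hy hxy
    obtain ⟨h2, h3⟩ := pdc_div x.1.isLt y.1.isLt hxy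
    exact Prod.ext (Fin.ext h3) (Fin.ext h2)

open Classical in
private noncomputable def pdc_S3 (D : Type) [Fintype D] (w K t : ℕ) :
    Finset (Fin w × Fin K × D × D) :=
  Finset.univ.filter fun x => w * x.2.1.val + x.1.val = t

private theorem pdc_S3_card (D : Type) [Fintype D] (w K t : ℕ) :
    (pdc_S3 D w K t).card ≤ Fintype.card D ^ 2 := by
  classical
  have h1 : (Finset.univ : Finset (D × D)).card = Fintype.card D ^ 2 := by
    rw [Finset.card_univ, Fintype.card_prod, sq]
  rw [← h1]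
  refine Finset.card_le_card_of_injOn (fun x => x.2.2) ?_ ?_
  · intro x hx
    exact Finset.mem_coe.2 (Finset.mem_univ _)
  · intro x hx y hy hxy
    have hx' := Finset.mem_coe.1 hx
    have hy' := Finset.mem_coe.1 hy
    unfold pdc_S3 at hx' hy'
    rw [Finset.mem_filter] at hx' hy'
    obtain ⟨h2, h3⟩ := pdc_div x.1.isLt y.1.isLt (hx'.2.trans hy'.2.symm)
    exact Prod.ext (Fin.ext h3) (Prod.ext (Fin.ext h2) hxy)

open Classical in
private noncomputable def pdc_S4 (w K m t : ℕ) : Finset (Fin K × Fin m) :=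
  Finset.univ.filter fun x => x.1.val = t / w

private theorem pdc_S4_card (w K m t : ℕ) : (pdc_S4 w K m t).card ≤ m := by
  classical
  have h1 : (Finset.univ : Finset (Fin m)).card = m := by
    rw [Finset.card_univ, Fintype.card_fin]
  refine le_trans ?_ h1.le
  refine Finset.card_le_card_of_injOn (fun x => x.2) ?_ ?_
  · intro x hx
    exact Finset.mem_coe.2 (Finset.mem_univ _)
  · intro x hx y hy hxy
    have hx' := Finset.mem_coe.1 hx
    have hy' := Finset.mem_coe.1 hy
    unfold pdc_S4 at hx' hy'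
    rw [Finset.mem_filter] at hx' hy'
    exact Prod.ext (Fin.ext (hx'.2.trans hy'.2.symm)) hxy

open Classical in
private noncomputable def pdc_S2 (Y : Lay D w K) (t : ℕ) : Finset (Fin w × Fin (K + 1)) :=
  if h : t / w < K then {(Y.r1 ⟨t / w, h⟩, (⟨t / w, h⟩ : Fin K).castSucc),
    (Y.r2 ⟨t / w, h⟩, (⟨t / w, h⟩ : Fin K).castSucc)} else ∅

omit [Fintype D] in
private theorem pdc_S2_card (Y : Lay D w K) (t : ℕ) : (pdc_S2 Y t).card ≤ 2 := by
  classical
  unfold pdc_S2
  split_ifs with h
  · exact Finset.card_le_two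
  · simp

private theorem pdc_card (Y : Lay D w K) (m t : ℕ) :
    (pdc_bag Y m t).card ≤ w + 1 + 2 + Fintype.card D ^ 2 + m := by
  classical
  have hsub : pdc_bag Y m t ⊆ (((pdc_S1 w K t).image fun x => (Sum.inl x : Vx D w K m)) ∪
      ((pdc_S2 Y t).image fun x => (Sum.inl x : Vx D w K m))) ∪
      ((pdc_S3 D w K t).image fun x => (Sum.inr (Sum.inl x) : Vx D w K m)) ∪
      ((pdc_S4 w K m t).image fun x => (Sum.inr (Sum.inr x) : Vx D w K m)) := by
    intro v hv
    rw [pdc_mem] at hv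
    obtain ⟨h1, h2⟩ := hv
    rw [Finset.mem_union, Finset.mem_union, Finset.mem_union, Finset.mem_image, Finset.mem_image,
      Finset.mem_image, Finset.mem_image]
    rcases v with ⟨r, i⟩ | ⟨r, i, p⟩ | ⟨k, j⟩
    · have hr := r.isLt
      change w * i.val + r.val - w ≤ t at h1
      by_cases h3 : t ≤ w * i.val + r.val
      · left; left; left
        refine ⟨(r, i), ?_, rfl⟩
        unfold pdc_S1
        rw [Finset.mem_filter]
        refine ⟨Finset.mem_univ _, h3, ?_⟩
        change w * i.val + r.val ≤ t + w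
        omega
      · left; left; right
        rw [pdc_hi_eq] at h2
        split_ifs at h2 with h4
        · obtain ⟨k, hk, hr'⟩ := h4
          have h5 : t / w = k.val := by
            have h6 : i.val = k.val := by rw [← hk]; rfl
            rw [h6] at h2 h3
            rw [Nat.div_eq_iff (by omega)]
            rw [Nat.mul_comm k.val w]
            omega
          have h7 : t / w < K := h5 ▸ k.isLt
          have h8 : (⟨t / w, h7⟩ : Fin K) = k := Fin.ext h5
          refine ⟨(r, i), ?_, rfl⟩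
          unfold pdc_S2
          rw [dif_pos h7, h8, Finset.mem_insert, Finset.mem_singleton]
          rcases hr' with hr' | hr'
          · left
            rw [hr', hk]
          · right
            rw [hr', hk]
        · exact absurd h2 h3
    · left; right
      refine ⟨(r, i, p), ?_, rfl⟩
      unfold pdc_S3
      rw [Finset.mem_filter]
      exact ⟨Finset.mem_univ _, le_antisymm h1 h2⟩
    · right
      refine ⟨(k, j), ?_, rfl⟩
      unfold pdc_S4
      rw [Finset.mem_filter]
      refine ⟨Finset.mem_univ _, ?_⟩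
      change w * k.val ≤ t at h1
      change t ≤ w * k.val + (w - 1) at h2
      have hw : 0 < w := (Y.r1 k).pos
      change k.val = t / w
      symm
      rw [Nat.div_eq_iff hw, Nat.mul_comm k.val w]
      omega
  refine le_trans (Finset.card_le_card hsub) ?_
  refine le_trans (Finset.card_union_le _ _) ?_
  refine Nat.add_le_add ?_ (le_trans Finset.card_image_le (pdc_S4_card w K m t))
  refine le_trans (Finset.card_union_le _ _) ?_
  refine Nat.add_le_add ?_ (le_trans Finset.card_image_le (pdc_S3_card D w K t))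
  refine le_trans (Finset.card_union_le _ _) ?_
  exact Nat.add_le_add (le_trans Finset.card_image_le (pdc_S1_card w K t))
    (le_trans Finset.card_image_le (pdc_S2_card Y t))

end

/-- [Pdc] -/
theorem thm_Pdc : St_Pdc := by
  intro D _ w K m Y hw hK hm
  refine ⟨pdc_bag Y m, fun t => ?_, fun v => ?_, fun u v huv => ?_, fun v i j k hij hjk hi hk => ?_⟩
  · have h := pdc_card Y m t
    omega
  · exact ⟨pdc_lo D w K m v, (pdc_mem Y m _ v).2 ⟨le_rfl, pdc_le Y m v⟩⟩
  · have h1 : u ≠ v ∧ (Rel Y m u v ∨ Rel Y m v u) := (SimpleGraph.fromRel_adj _ _ _).1 huv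
    rcases h1.2 with h2 | h2
    · obtain ⟨t, h3, h4⟩ := pdc_rel Y m u v h2
      exact ⟨t, (pdc_mem Y m t u).2 h3, (pdc_mem Y m t v).2 h4⟩
    · obtain ⟨t, h3, h4⟩ := pdc_rel Y m v u h2
      exact ⟨t, (pdc_mem Y m t u).2 h4, (pdc_mem Y m t v).2 h3⟩
  · have h1 := (pdc_mem Y m i v).1 hi
    have h2 := (pdc_mem Y m k v).1 hk
    exact (pdc_mem Y m j v).2 ⟨h1.1.trans hij, hjk.trans h2.2⟩

end Pool.Agent.EXB
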