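import Pool.Agent.EXB.StN

/-!
# EXB: the graph with pendant vertices
-/

set_option autoImplicit false

namespace Pool.Agent.EXB

private lemma pen_conn {V : Type} (G : SimpleGraph V) (h : G.Connected) : (Pen G).Connected := by
  obtain ⟨v0⟩ := h.nonempty
  have hl : ∀ u v, (Pen G).Reachable (Sum.inl u) (Sum.inl v) := by
    intro u v
    let φ : G →g Pen G := ⟨Sum.inl, fun {a b} hab => Or.inl ⟨a, b, rfl, rfl, hab⟩⟩
    exact (h.preconnected u v).map φ
  have hr : ∀ v, (Pen G).Reachable (Sum.inl v) (Sum.inr v) := by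
    intro v
    have : (Pen G).Adj (Sum.inl v) (Sum.inr v) := Or.inr (Or.inl ⟨v, rfl, rfl⟩)
    exact this.reachable
  have key : ∀ a, (Pen G).Reachable (Sum.inl v0) a := by
    rintro (v | v)
    · exact hl _ _
    · exact (hl _ _).trans (hr v)
  exact (SimpleGraph.connected_iff _).2
    ⟨fun a b => (key a).symm.trans (key b), ⟨Sum.inl v0⟩⟩

private lemma pen_deg {V : Type} [Fintype V] (G : SimpleGraph V) (C : ℕ)
    (h : ∀ v, (G.neighborSet v).ncard ≤ C) (v : V ⊕ V) :
    ((Pen G).neighborSet v).ncard ≤ C + 1 := by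
  rcases v with v | v
  · have hsub : (Pen G).neighborSet (Sum.inl v) ⊆
        insert (Sum.inr v) (Sum.inl '' G.neighborSet v) := by
      intro b hb
      rcases hb with ⟨u, w, h1, h2, h3⟩ | ⟨u, h1, h2⟩ | ⟨u, h1, h2⟩
      · rw [h2]
        rw [← Sum.inl_injective h1] at h3
        exact Or.inr ⟨w, h3, rfl⟩
      · rw [h2, ← Sum.inl_injective h1]
        exact Or.inl rfl
      · exact absurd h1 Sum.inl_ne_inr
    calc ((Pen G).neighborSet (Sum.inl v)).ncard
        ≤ (insert (Sum.inr v) (Sum.inl '' G.neighborSet v)).ncard :=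
          Set.ncard_le_ncard hsub (Set.toFinite _)
      _ ≤ (Sum.inl '' G.neighborSet v).ncard + 1 := Set.ncard_insert_le _ _
      _ ≤ C + 1 := by
          have := Set.ncard_image_le (f := (Sum.inl : V → V ⊕ V)) (Set.toFinite (G.neighborSet v))
          have := h v
          omega
  · have hsub : (Pen G).neighborSet (Sum.inr v) ⊆ {Sum.inl v} := by
      intro b hb
      rcases hb with ⟨u, w, h1, h2, h3⟩ | ⟨u, h1, h2⟩ | ⟨u, h1, h2⟩
      · exact absurd h1 Sum.inr_ne_inl
      · exact absurd h1 Sum.inr_ne_inl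
      · rw [h2, ← Sum.inr_injective h1]
        rfl
    calc ((Pen G).neighborSet (Sum.inr v)).ncard
        ≤ ({Sum.inl v} : Set (V ⊕ V)).ncard := Set.ncard_le_ncard hsub (Set.toFinite _)
      _ = 1 := Set.ncard_singleton _
      _ ≤ C + 1 := by omega

private lemma pen_path {V : Type} [Fintype V] (G : SimpleGraph V) (h : G.Connected) (m : ℕ)
    (hm : PathDec G m) : PathDec (Pen G) (m + 1) := by
  classical
  obtain ⟨bag, hcard, hcov, hedge, hint⟩ := hm
  have hne := h.nonempty
  have hn : 0 < Fintype.card V := Fintype.card_pos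
  set n := Fintype.card V with hnd
  let e : V ≃ Fin n := Fintype.equivFin V
  choose i hi using hcov
  have hdiv : ∀ a b : ℕ, b < n → (n * a + b) / n = a := by
    intro a b hb
    rw [Nat.mul_add_div hn, Nat.div_eq_of_lt hb, Nat.add_zero]
  have hmod : ∀ a b : ℕ, b < n → (n * a + b) % n = b := by
    intro a b hb
    rw [Nat.mul_add_mod, Nat.mod_eq_of_lt hb]
  refine ⟨fun t => Finset.disjSum (bag (t / n))
    (Finset.univ.filter fun v => i v = t / n ∧ (e v : ℕ) = t % n), ?_, ?_, ?_, ?_⟩
  · intro t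
    rw [Finset.card_disjSum]
    have h1 := hcard (t / n)
    have h2 : (Finset.univ.filter fun v => i v = t / n ∧ (e v : ℕ) = t % n).card ≤ 1 := by
      rw [Finset.card_le_one]
      intro a ha b hb
      have ha' := (Finset.mem_filter.1 ha).2.2
      have hb' := (Finset.mem_filter.1 hb).2.2
      exact e.injective (Fin.ext (ha'.trans hb'.symm))
    omega
  · rintro (v | v)
    · refine ⟨n * i v + 0, ?_⟩
      rw [Finset.inl_mem_disjSum, hdiv _ _ hn]
      exact hi v
    · refine ⟨n * i v + e v, ?_⟩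
      rw [Finset.inr_mem_disjSum, hdiv _ _ (e v).2, hmod _ _ (e v).2]
      exact Finset.mem_filter.2 ⟨Finset.mem_univ _, rfl, rfl⟩
  · have hlr : ∀ v : V, ∃ t, Sum.inl v ∈ Finset.disjSum (bag (t / n))
        (Finset.univ.filter fun v => i v = t / n ∧ (e v : ℕ) = t % n) ∧
        Sum.inr v ∈ Finset.disjSum (bag (t / n))
        (Finset.univ.filter fun v => i v = t / n ∧ (e v : ℕ) = t % n) := by
      intro v
      refine ⟨n * i v + e v, ?_, ?_⟩
      · rw [Finset.inl_mem_disjSum, hdiv _ _ (e v).2]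
        exact hi v
      · rw [Finset.inr_mem_disjSum, hdiv _ _ (e v).2, hmod _ _ (e v).2]
        exact Finset.mem_filter.2 ⟨Finset.mem_univ _, rfl, rfl⟩
    rintro a b (⟨u, v, rfl, rfl, huv⟩ | ⟨v, rfl, rfl⟩ | ⟨v, rfl, rfl⟩)
    · obtain ⟨j, hu, hv⟩ := hedge u v huv
      refine ⟨n * j + 0, ?_, ?_⟩
      · rw [Finset.inl_mem_disjSum, hdiv _ _ hn]
        exact hu
      · rw [Finset.inl_mem_disjSum, hdiv _ _ hn]
        exact hv
    · exact hlr v
    · obtain ⟨t, h1, h2⟩ := hlr v
      exact ⟨t, h2, h1⟩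
  · rintro (v | v) a b c hab hbc ha hc
    · rw [Finset.inl_mem_disjSum] at ha hc ⊢
      exact hint v (a / n) (b / n) (c / n) (Nat.div_le_div_right hab) (Nat.div_le_div_right hbc)
        ha hc
    · rw [Finset.inr_mem_disjSum] at ha hc
      have ha' := (Finset.mem_filter.1 ha).2
      have hc' := (Finset.mem_filter.1 hc).2
      have h1 : a = c := by
        rw [← Nat.div_add_mod a n, ← Nat.div_add_mod c n, ← ha'.1, ← hc'.1, ← ha'.2, ← hc'.2]
      have h2 : b = a := by omega
      rw [Finset.inr_mem_disjSum, h2]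
      exact ha

theorem thm_PeG : St_PeG := by
  intro V _ G h
  exact ⟨pen_conn G h, fun C hC v => pen_deg G C hC v, fun m hm => pen_path G h m hm⟩

end Pool.Agent.EXB
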