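import Pool.Agent.EXB.StN

/-!
# EXB, module Pen: independent sets of the graph with pendant vertices
-/

set_option autoImplicit false

namespace Pool.Agent.EXB

open Classical in
private theorem pen_sum {V : Type} [Fintype V] (I : Finset (V ⊕ V)) (y : V ⊕ V → ℝ) :
    ∑ w ∈ I, y w = ∑ v : V, ((if Sum.inl v ∈ I then y (Sum.inl v) else 0) +
      if Sum.inr v ∈ I then y (Sum.inr v) else 0) := by
  have h1 : ∑ w ∈ I, y w = ∑ w : V ⊕ V, if w ∈ I then y w else 0 := by
    rw [← Finset.sum_filter]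
    congr 1
    ext w
    simp
  rw [h1, Fintype.sum_sum_type, Finset.sum_add_distrib]

/-- the weights of the vertices -/
private def penW {V : Type} (x : V × Bool → ℝ) (w : V ⊕ V) : ℝ :=
  Sum.elim (fun v => x (v, true)) (fun v => x (v, false)) w

private theorem pen_indep {V : Type} {G : SimpleGraph V} {I : Finset (V ⊕ V)}
    (hI : (Pen G).IsIndepSet (I : Set (V ⊕ V))) {a b : V ⊕ V} (ha : a ∈ I) (hb : b ∈ I) :
    ¬ (Pen G).Adj a b := by
  intro h
  exact hI ha hb h.ne h

open Classical in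
private theorem pen_lub {V : Type} [Fintype V] (G : SimpleGraph V) (x : V × Bool → ℝ)
    (hx : ∀ p, 0 ≤ x p) (z : WithBot ℝ)
    (h : IsLUB {y : WithBot ℝ | ∃ I : Finset (V ⊕ V), (Pen G).IsIndepSet (I : Set (V ⊕ V)) ∧
      y = ((∑ v ∈ I, penW x v : ℝ) : WithBot ℝ)} z) :
    IsLUB {y : WithBot ℝ | ∃ f ∈ Hom IndSet G fun _ => Set.univ,
      y = ((∑ v, x (v, f v) : ℝ) : WithBot ℝ)} z := by
  constructor
  · rintro y ⟨f, hf, rfl⟩
    apply h.1
    refine ⟨Finset.univ.filter fun w : V ⊕ V =>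
      Sum.elim (fun v => f v = true) (fun v => f v = false) w, ?_, ?_⟩
    · intro a ha b hb hab hadj
      rw [Finset.mem_coe, Finset.mem_filter] at ha hb
      rcases hadj with ⟨u, v, rfl, rfl, h3⟩ | ⟨v, rfl, rfl⟩ | ⟨v, rfl, rfl⟩
      · exact hf.2 u v h3 ⟨ha.2, hb.2⟩
      · have e1 : f v = true := ha.2
        have e2 : f v = false := hb.2
        rw [e1] at e2
        exact Bool.noConfusion e2
      · have e1 : f v = false := ha.2
        have e2 : f v = true := hb.2
        rw [e1] at e2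
        exact Bool.noConfusion e2
    · rw [pen_sum]
      congr 1
      refine Finset.sum_congr rfl fun v _ => ?_
      cases hv : f v <;> simp [penW, hv]
  · intro z' hz'
    apply h.2
    rintro y ⟨I, hI, rfl⟩
    have hf : (fun v => decide (Sum.inl v ∈ I)) ∈ Hom IndSet G fun _ : V => Set.univ := by
      refine ⟨fun v => Set.mem_univ _, fun u v huv hh => ?_⟩
      have e1 : Sum.inl u ∈ I := of_decide_eq_true hh.1
      have e2 : Sum.inl v ∈ I := of_decide_eq_true hh.2
      exact pen_indep hI e1 e2 (Or.inl ⟨u, v, rfl, rfl, huv⟩)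
    refine le_trans ?_ (hz' ⟨_, hf, rfl⟩)
    rw [WithBot.coe_le_coe, pen_sum]
    refine Finset.sum_le_sum fun v _ => ?_
    by_cases h1 : Sum.inl v ∈ I
    · have h2 : Sum.inr v ∉ I := fun h2 => pen_indep hI h1 h2 (Or.inr (Or.inl ⟨v, rfl, rfl⟩))
      simp [h1, h2, penW]
    · by_cases h2 : Sum.inr v ∈ I
      · simp [h1, h2, penW]
      · simp [h1, h2, hx]

theorem thm_Pen : St_Pen := by
  intro V _ G T hT hS
  refine ⟨⟨T.n, fun i x => T.F i fun p => penW x p.1, T.ch, T.out⟩, ⟨hT.1, fun i hi => ?_⟩,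
    fun x hx => ?_, le_rfl⟩
  · obtain ⟨h1, h2⟩ := hT.2 i hi
    refine ⟨h1, ?_⟩
    rcases h2 with ⟨h3, c, h4⟩ | ⟨h3, p, h4⟩ | h3 | h3
    · exact Or.inl ⟨h3, c, fun x => h4 _⟩
    · refine Or.inr (Or.inl ⟨h3, ?_⟩)
      obtain ⟨w | w, u⟩ := p
      · exact ⟨(w, true), fun x => h4 _⟩
      · exact ⟨(w, false), fun x => h4 _⟩
    · exact Or.inr (Or.inr (Or.inl fun x => h3 _))
    · exact Or.inr (Or.inr (Or.inr fun x => h3 _))
  · refine pen_lub G x hx _ ?_
    refine hS (penW x) fun v => ?_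
    rcases v with v | v
    · exact hx _
    · exact hx _

end Pool.Agent.EXB
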