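import Mathlib
import Pool.Agent.EXB.St

/-!
# EXB, module Rec: rectangles of gates
-/

set_option autoImplicit false

namespace Pool.Agent.EXB

variable {V D : Type}

private theorem Rec_dep (C : Circ V D) (k : ℕ) (hC : C.Ok k) : ∀ i < C.n, DepOn (C.sc i) (C.X i) := by
  intro i
  induction i using Nat.strong_induction_on with
  | _ i ih =>
    intro hi
    obtain ⟨hch, hcase⟩ := hC.2 i hi
    rcases hcase with ⟨-, -, h⟩ | h | ⟨-, h⟩
    · exact h
    · intro f g hfg hf
      obtain ⟨j, hj, hfj⟩ := (h f).1 hf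
      exact (h g).2 ⟨j, hj, ih j (hch j hj).1 (lt_trans (hch j hj).1 hi) f g
        (fun v hv => hfg v ((hch j hj).2 hv)) hfj⟩
    · intro f g hfg hf
      refine (h g).2 fun j hj => ?_
      exact ih j (hch j hj).1 (lt_trans (hch j hj).1 hi) f g
        (fun v hv => hfg v ((hch j hj).2 hv)) ((h f).1 hf j hj)

private theorem Rec_ctx (C : Circ V D) (k : ℕ) (hC : C.Ok k) (i : ℕ) (f : V → D) (h : Ctx C i f) :
    ∀ g : V → D, (∀ v, v ∉ C.sc i → f v = g v) → Ctx C i g := by
  induction h with
  | out f =>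
    intro g _
    exact Ctx.out g
  | uni i j f hi hj hu _ ih =>
    intro g hg
    refine Ctx.uni i j g hi hj hu (ih g fun v hv => hg v fun h => hv ?_)
    exact ((hC.2 i hi).1 j hj).2 h
  | pro i j f hi hj hp hX _ ih =>
    intro g hg
    refine Ctx.pro i j g hi hj hp ?_ (ih g fun v hv => hg v fun h => hv ?_)
    · intro j' hj' hne
      have hd := hp.1 j' hj' j hj hne
      refine Rec_dep C k hC j' (lt_trans ((hC.2 i hi).1 j' hj').1 hi) f g ?_ (hX j' hj' hne)
      intro v hv
      exact hg v (Finset.disjoint_left.1 hd hv)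
    · exact ((hC.2 i hi).1 j hj).2 h

private theorem Rec_out (C : Circ V D) (i : ℕ) (f : V → D) (h : Ctx C i f) :
    f ∈ C.X i → f ∈ C.X C.out := by
  induction h with
  | out f => exact fun h => h
  | uni i j f hi hj hu _ ih => exact fun h => ih ((hu f).2 ⟨j, hj, h⟩)
  | pro i j f hi hj hp hX _ ih =>
    intro h
    refine ih ((hp.2 f).2 fun j' hj' => ?_)
    by_cases hne : j' = j
    · rw [hne]
      exact h
    · exact hX j' hj' hne

private theorem Rec_lt (C : Circ V D) (k : ℕ) (hC : C.Ok k) (i : ℕ) (f : V → D) (h : Ctx C i f) :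
    i < C.n := by
  induction h with
  | out f => exact hC.1
  | uni i j f hi hj hu _ ih => exact lt_trans ((hC.2 i hi).1 j hj).1 hi
  | pro i j f hi hj hp hX _ ih => exact lt_trans ((hC.2 i hi).1 j hj).1 hi

/-- **Module Rec** -/
theorem thm_Rec : St_Rec := by
  intro V D C k hC
  refine ⟨Rec_dep C k hC, ?_, ?_, ?_, ?_⟩
  · intro i f g hfg hf
    exact Rec_ctx C k hC i f hf g hfg
  · intro i f hf
    exact Rec_out C i f hf.2 hf.1
  · intro i f hf
    exact Rec_lt C k hC i f hf
  · intro i hi f hf g hg h hhf hhg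
    constructor
    · exact Rec_dep C k hC i hi f h (fun v hv => (hhf v hv).symm) hf.1
    · exact Rec_ctx C k hC i g hg.2 h fun v hv => (hhg v hv).symm

end Pool.Agent.EXB
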