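import Pool.Agent.EXB.St

/-!
# EXB: rows which are cut, free rows (helper13)
-/

set_option autoImplicit false

namespace Pool.Agent.EXB

private theorem row_adj1 {D : Type} {w K m : ℕ} (Y : Lay D w K) (r : Fin w) (i : Fin K)
    (p : D × D) : (Gr Y m).Adj (U m r i.castSucc) (Vv m r i p) := by
  rw [Gr, SimpleGraph.fromRel_adj]
  exact ⟨by simp [U, Vv], Or.inl (Rel.uv r i p)⟩

private theorem row_adj2 {D : Type} {w K m : ℕ} (Y : Lay D w K) (r : Fin w) (i : Fin K)
    (p : D × D) : (Gr Y m).Adj (U m r i.succ) (Vv m r i p) := by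
  rw [Gr, SimpleGraph.fromRel_adj]
  exact ⟨by simp [U, Vv], Or.inr (Rel.vu r i p)⟩

private theorem row_bad {D : Type} {H : D → D → Prop} {S : Finset D} {τ : D × D → D → D}
    {w K m : ℕ} {Y : Lay D w K} (hT : Tau H S τ) {R : Set (Vx D w K m → D)}
    (hR : R ⊆ Hom H (Gr Y m) (Li S)) {s s' : D} (hs : s ∈ S) (hs' : s' ∈ S)
    (ht : ∃ t, H s' t ∧ ¬ H s t) {h : Vx D w K m → D} (hh : h ∈ R) (r : Fin w) (i : Fin K)
    (j : Fin (K + 1)) (hj : j = i.castSucc ∨ j = i.succ) (h1 : h (U m r j) = s)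
    (h2 : h (Vv m r i (s, s')) = τ (s, s') s') : False := by
  have h3 : (Gr Y m).Adj (U m r j) (Vv m r i (s, s')) := by
    rcases hj with rfl | rfl
    · exact row_adj1 Y r i _
    · exact row_adj2 Y r i _
  have h4 := (hR hh).2 _ _ h3
  rw [h1, h2] at h4
  exact hT.2 s hs s' hs' ht h4

private theorem row_one {D : Type} {H : D → D → Prop} {S : Finset D} {τ : D × D → D → D}
    {w K m : ℕ} {Y : Lay D w K} (hI : Irr H S) {R : Set (Vx D w K m → D)} {r : Fin w}
    (key : ∀ c c' : Fin w → D, (∀ r, c r ∈ S) → (∀ r, c' r ∈ S) → ∀ f ∈ R, ∀ f' ∈ R,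
      f ∈ Om H τ Y m c → f' ∈ Om H τ Y m c' → (∃ t, H (c' r) t ∧ ¬ H (c r) t) → False) :
    One H S τ Y R r := by
  intro c c' hc hc' h1 h2
  obtain ⟨f, hf, hfc⟩ := h1
  obtain ⟨f', hf', hfc'⟩ := h2
  by_contra hne
  obtain ⟨t, ht⟩ := (hI _ (hc r) _ (hc' r)).2 hne
  by_cases h3 : H (c r) t
  · have h4 : ¬ H (c' r) t := fun h => ht ⟨fun _ => h, fun _ => h3⟩
    exact key c' c hc' hc f' hf' f hf hfc' hfc ⟨t, h3, h4⟩
  · have h4 : H (c' r) t := by
      by_contra h
      exact ht ⟨fun h' => (h3 h').elim, fun h' => (h h').elim⟩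
    exact key c c' hc hc' f hf f' hf' hfc hfc' ⟨t, h4, h3⟩

private theorem row_U {D : Type} {H : D → D → Prop} {τ : D × D → D → D} {w K m : ℕ}
    {Y : Lay D w K} {c : Fin w → D} {f : Vx D w K m → D} (hf : f ∈ Om H τ Y m c) (r : Fin w)
    (j : Fin (K + 1)) : f (U m r j) = c r := by
  obtain ⟨g, -, rfl⟩ := hf
  rfl

private theorem row_V {D : Type} {H : D → D → Prop} {τ : D × D → D → D} {w K m : ℕ}
    {Y : Lay D w K} {c : Fin w → D} {f : Vx D w K m → D} (hf : f ∈ Om H τ Y m c) (r : Fin w)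
    (i : Fin K) (p : D × D) : f (Vv m r i p) = τ p (c r) := by
  obtain ⟨g, -, rfl⟩ := hf
  rfl

/-- [Row] -/
theorem thm_Row : St_Row := by
  classical
  intro D _ H hH S τ w K m Y hI hT hm R hR
  refine ⟨fun A r i hA hcut => row_one hI ?_, fun hK r hfree => row_one hI ?_⟩
  · intro c c' hc hc' f hf f' hf' hfc hfc' ht
    -- the end `j` in `A`, the end `j'` outside
    obtain ⟨j, j', hj, hj', hjA, hjA'⟩ : ∃ j j' : Fin (K + 1), (j = i.castSucc ∨ j = i.succ) ∧
        (j' = i.castSucc ∨ j' = i.succ) ∧ U m r j ∈ A ∧ U m r j' ∉ A := by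
      rcases hcut with ⟨h1, h2⟩ | ⟨h1, h2⟩
      · exact ⟨_, _, Or.inl rfl, Or.inr rfl, h1, h2⟩
      · exact ⟨_, _, Or.inr rfl, Or.inl rfl, h2, h1⟩
    by_cases hv : Vv m r i (c r, c' r) ∈ A
    · -- `f'` on `A`, `f` outside
      have hh : (fun v => if v ∈ A then f' v else f v) ∈ R :=
        hA f' hf' f hf _ (fun v hv => if_pos hv) (fun v hv => if_neg hv)
      refine row_bad hT hR (hc r) (hc' r) ht hh r i j' hj' ?_ ?_
      · change (if U m r j' ∈ A then _ else _) = _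
        rw [if_neg hjA', row_U hfc]
      · change (if Vv m r i (c r, c' r) ∈ A then _ else _) = _
        rw [if_pos hv, row_V hfc']
    · -- `f` on `A`, `f'` outside
      have hh : (fun v => if v ∈ A then f v else f' v) ∈ R :=
        hA f hf f' hf' _ (fun v hv => if_pos hv) (fun v hv => if_neg hv)
      refine row_bad hT hR (hc r) (hc' r) ht hh r i j hj ?_ ?_
      · change (if U m r j ∈ A then _ else _) = _
        rw [if_pos hjA, row_U hfc]
      · change (if Vv m r i (c r, c' r) ∈ A then _ else _) = _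
        rw [if_neg hv, row_V hfc']
  · intro c c' hc hc' f hf f' hf' hfc hfc' ht
    have hh : Function.update f' (U m r 0) (c r) ∈ R :=
      hfree f' hf' _ fun v hv => Function.update_of_ne hv _ _
    refine row_bad hT hR (hc r) (hc' r) ht hh r ⟨0, hK⟩ 0 (Or.inl rfl) ?_ ?_
    · rw [Function.update_self]
    · rw [Function.update_of_ne (by simp [U, Vv]), row_V hfc']

end Pool.Agent.EXB
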