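import Pool.Agent.EXB.StM

/-!
# EXB [Sup]: from monotone arithmetic circuits to union / product circuits
-/

set_option autoImplicit false

namespace Pool.Agent.EXB

open Classical in
/-- the exponents of the monomial `∏ v ∈ B, x (v, f v)` -/
private noncomputable def mA {V D : Type} (B : Finset V) (f : V → D) : (V × D) →₀ ℕ :=
  ∑ v ∈ B, Finsupp.single (v, f v) 1

open Classical in
private theorem mA_apply {V D : Type} (B : Finset V) (f : V → D) (v : V) (a : D) :
    mA B f (v, a) = if v ∈ B ∧ f v = a then 1 else 0 := by
  unfold mA
  rw [Finsupp.finsetSum_apply]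
  simp only [Finsupp.single_apply, Prod.mk.injEq]
  by_cases h : v ∈ B ∧ f v = a
  · rw [if_pos h, Finset.sum_eq_single v]
    · rw [if_pos ⟨rfl, h.2⟩]
    · intro b _ hb
      rw [if_neg fun h' => hb h'.1]
    · intro h'
      exact absurd h.1 h'
  · rw [if_neg h]
    apply Finset.sum_eq_zero
    intro b hb
    rw [if_neg]
    rintro ⟨rfl, h2⟩
    exact h ⟨hb, h2⟩

private theorem mono_eq {V D : Type} [Fintype V] (f : V → D) : mono f = mA Finset.univ f := rfl

open Classical in
private theorem mono_apply {V D : Type} [Fintype V] (f : V → D) (v : V) (a : D) :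
    mono f (v, a) = if f v = a then 1 else 0 := by
  rw [mono_eq, mA_apply]
  simp

private theorem mA_congr {V D : Type} (B : Finset V) (f g : V → D) (h : ∀ v ∈ B, f v = g v) :
    mA B f = mA B g := by
  unfold mA
  exact Finset.sum_congr rfl fun v hv => by rw [h v hv]

open Classical in
/-- the variables which occur in `S` -/
private noncomputable def Bs {V D : Type} [Fintype V] (S : Finset ((V × D) →₀ ℕ)) : Finset V :=
  Finset.univ.filter fun v => ∃ m ∈ S, ∃ a, m (v, a) ≠ 0

private theorem mem_Bs {V D : Type} [Fintype V] (S : Finset ((V × D) →₀ ℕ)) (v : V) :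
    v ∈ Bs S ↔ ∃ m ∈ S, ∃ a, m (v, a) ≠ 0 := by
  unfold Bs
  simp

/-- `m₀` witnesses that `S` is useful -/
private def Wt {V D : Type} [Fintype V] (S : Finset ((V × D) →₀ ℕ)) (m₀ : (V × D) →₀ ℕ) : Prop :=
  ∀ m ∈ S, ∃ f : V → D, m₀ + m = mono f

open Classical in
private theorem fact {V D : Type} [Fintype V] (m₀ m : (V × D) →₀ ℕ) (f : V → D)
    (h : m₀ + m = mono f) (v : V) (a : D) :
    m (v, a) = if (∀ b, m₀ (v, b) = 0) ∧ f v = a then 1 else 0 := by
  have h1 : ∀ b, m₀ (v, b) + m (v, b) = if f v = b then 1 else 0 := by
    intro b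
    rw [← mono_apply, ← h]
    rfl
  by_cases hB : ∀ b, m₀ (v, b) = 0
  · have h2 := h1 a
    rw [hB a, zero_add] at h2
    rw [h2]
    simp [hB]
  · rw [if_neg fun h' => hB h'.1]
    push Not at hB
    obtain ⟨b, hb⟩ := hB
    have h2 := h1 b
    by_cases hfb : f v = b
    · rw [if_pos hfb] at h2
      by_cases hab : a = b
      · subst hab
        omega
      · have h3 := h1 a
        rw [if_neg (by rw [hfb]; exact fun e => hab e.symm)] at h3
        omega
    · rw [if_neg hfb] at h2
      omega

private theorem Bs_iff {V D : Type} [Fintype V] (S : Finset ((V × D) →₀ ℕ)) (m₀ : (V × D) →₀ ℕ)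
    (hS : S.Nonempty) (hw : Wt S m₀) (v : V) : v ∈ Bs S ↔ ∀ b, m₀ (v, b) = 0 := by
  classical
  rw [mem_Bs]
  constructor
  · rintro ⟨m, hm, a, ha⟩
    obtain ⟨f, hf⟩ := hw m hm
    rw [fact m₀ m f hf] at ha
    by_contra hn
    exact ha (if_neg fun h' => hn h'.1)
  · intro h
    obtain ⟨m, hm⟩ := hS
    obtain ⟨f, hf⟩ := hw m hm
    refine ⟨m, hm, f v, ?_⟩
    rw [fact m₀ m f hf, if_pos ⟨h, rfl⟩]
    exact one_ne_zero

private theorem U2 {V D : Type} [Fintype V] (S : Finset ((V × D) →₀ ℕ)) (m₀ : (V × D) →₀ ℕ)
    (hw : Wt S m₀) (m : (V × D) →₀ ℕ) (hm : m ∈ S) : ∃ g, m = mA (Bs S) g := by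
  classical
  obtain ⟨f, hf⟩ := hw m hm
  refine ⟨f, ?_⟩
  ext ⟨v, a⟩
  rw [fact m₀ m f hf, mA_apply]
  have := Bs_iff S m₀ ⟨m, hm⟩ hw v
  simp only [this]

private theorem sup_add {σ : Type} (p q : MvPolynomial σ NNReal) (m : σ →₀ ℕ) :
    m ∈ (p + q).support ↔ m ∈ p.support ∨ m ∈ q.support := by
  rw [MvPolynomial.mem_support_iff, MvPolynomial.mem_support_iff, MvPolynomial.mem_support_iff,
    MvPolynomial.coeff_add, ne_eq, add_eq_zero]
  tauto

private theorem sup_mul {σ : Type} (p q : MvPolynomial σ NNReal) (m : σ →₀ ℕ) :
    m ∈ (p * q).support ↔ ∃ a ∈ p.support, ∃ b ∈ q.support, a + b = m := by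
  classical
  rw [MvPolynomial.mem_support_iff, MvPolynomial.coeff_mul, ne_eq, Finset.sum_eq_zero_iff]
  push Not
  constructor
  · rintro ⟨x, hx, h⟩
    have hx : x.1 + x.2 = m := Finset.HasAntidiagonal.mem_antidiagonal.1 hx
    refine ⟨x.1, ?_, x.2, ?_, hx⟩
    · rw [MvPolynomial.mem_support_iff]
      exact left_ne_zero_of_mul h
    · rw [MvPolynomial.mem_support_iff]
      exact right_ne_zero_of_mul h
  · rintro ⟨a, ha, b, hb, h⟩
    rw [MvPolynomial.mem_support_iff] at ha hb
    exact ⟨(a, b), Finset.HasAntidiagonal.mem_antidiagonal.2 h, mul_ne_zero ha hb⟩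

private theorem sup_sum {σ : Type} (P : ℕ → MvPolynomial σ NNReal) (l : List ℕ) (m : σ →₀ ℕ) :
    m ∈ (l.map P).sum.support ↔ ∃ j ∈ l, m ∈ (P j).support := by
  induction l with
  | nil => simp
  | cons a l ih =>
    rw [List.map_cons, List.sum_cons, sup_add, ih]
    simp

private theorem sup_prod {σ : Type} (P : ℕ → MvPolynomial σ NNReal) (h : ℕ → (σ →₀ ℕ))
    (l : List ℕ) (hl : ∀ j ∈ l, h j ∈ (P j).support) :
    (l.map h).sum ∈ (l.map P).prod.support := by
  induction l with
  | nil => simp
  | cons a l ih =>
    rw [List.map_cons (f := h), List.sum_cons, List.map_cons, List.prod_cons, sup_mul]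
    exact ⟨h a, hl a (by simp), _, ih fun j hj => hl j (by simp [hj]), rfl⟩

private theorem sum_ne {σ : Type} (h : ℕ → (σ →₀ ℕ)) (l : List ℕ) (x : σ)
    (hx : (l.map h).sum x ≠ 0) : ∃ j ∈ l, h j x ≠ 0 := by
  induction l with
  | nil => simp at hx
  | cons a l ih =>
    rw [List.map_cons, List.sum_cons, Finsupp.add_apply] at hx
    by_cases ha : h a x = 0
    · rw [ha, zero_add] at hx
      obtain ⟨j, hj, hj'⟩ := ih hx
      exact ⟨j, by simp [hj], hj'⟩
    · exact ⟨a, by simp, ha⟩

/-- useful gates -/
private def Us {V D : Type} [Fintype V] (S : Finset ((V × D) →₀ ℕ)) : Prop :=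
  S.Nonempty ∧ ∃ m₀, Wt S m₀

open Classical in
/-- the circuit of the supports -/
private noncomputable def QQ {V D : Type} [Fintype V] (A : Arith V D) : Circ V D where
  n := A.n
  sc i := if Us (A.P i).support then Bs (A.P i).support else ∅
  X i := if Us (A.P i).support then {f | mA (Bs (A.P i).support) f ∈ (A.P i).support} else ∅
  ch i := if Us (A.P i).support then (A.ch i).toFinset.filter fun j => A.P j ≠ 0 else ∅
  out := A.out

private theorem dep_mA {V D : Type} (B : Finset V) (S : Finset ((V × D) →₀ ℕ)) :
    DepOn B {f : V → D | mA B f ∈ S} := by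
  intro f g h hf
  show mA B g ∈ S
  rw [← mA_congr B f g h]
  exact hf

theorem thm_Sup : St_Sup := by
  classical
  intro V D _ A hA hout
  refine ⟨QQ A, ⟨hA.1, fun i hi => ?_⟩, ?_, ?_⟩
  · by_cases hU : Us (A.P i).support
    · have hsc : (QQ A).sc i = Bs (A.P i).support := if_pos hU
      have hX : (QQ A).X i = {f | mA (Bs (A.P i).support) f ∈ (A.P i).support} := if_pos hU
      have hch : (QQ A).ch i = (A.ch i).toFinset.filter fun j => A.P j ≠ 0 := if_pos hU
      have hi' := hA.2 i hi
      obtain ⟨hne, m₀, hm₀⟩ := hU
      rcases hi'.2 with ⟨hnil, c, hc⟩ | ⟨hnil, p, hp⟩ | hs | hpr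
      · -- constants
        have hc0 : c ≠ 0 := by
          rintro rfl
          rw [hc, MvPolynomial.C_0, MvPolynomial.support_zero] at hne
          exact absurd hne Finset.not_nonempty_empty
        have hsup : ∀ m, m ∈ (A.P i).support ↔ m = 0 := by
          intro m
          rw [hc, MvPolynomial.mem_support_iff, MvPolynomial.coeff_C]
          by_cases h0 : (0 : (V × D) →₀ ℕ) = m
          · rw [if_pos h0]; exact ⟨fun _ => h0.symm, fun _ => hc0⟩
          · rw [if_neg h0]; exact ⟨fun h => absurd rfl h, fun h => absurd h.symm h0⟩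
        have hB : Bs (A.P i).support = ∅ := by
          rw [Finset.eq_empty_iff_forall_notMem]
          intro v hv
          rw [mem_Bs] at hv
          obtain ⟨m, hm, a, ha⟩ := hv
          rw [hsup] at hm
          rw [hm] at ha
          exact ha rfl
        refine ⟨?_, Or.inl ⟨?_, ?_, ?_⟩⟩
        · intro j hj
          rw [hch, hnil] at hj
          simp at hj
        · rw [hch, hnil]
          rfl
        · rw [hsc, hB]
          simp
        · rw [hsc, hX]
          exact dep_mA _ _
      · -- variables
        have hsup : ∀ m, m ∈ (A.P i).support ↔ m = Finsupp.single p 1 := by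
          intro m
          rw [hp, MvPolynomial.support_X, Finset.mem_singleton]
        have hB : Bs (A.P i).support ⊆ {p.1} := by
          intro v hv
          rw [mem_Bs] at hv
          obtain ⟨m, hm, a, ha⟩ := hv
          rw [hsup] at hm
          rw [hm, Finsupp.single_apply] at ha
          rw [Finset.mem_singleton]
          by_contra hn
          apply ha
          rw [if_neg]
          intro h
          exact hn (by rw [h])
        refine ⟨?_, Or.inl ⟨?_, ?_, ?_⟩⟩
        · intro j hj
          rw [hch, hnil] at hj
          simp at hj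
        · rw [hch, hnil]
          rfl
        · rw [hsc]
          exact (Finset.card_le_card hB).trans (by simp)
        · rw [hsc, hX]
          exact dep_mA _ _
      · -- sums
        have hsub : ∀ j ∈ A.ch i, ∀ m ∈ (A.P j).support, m ∈ (A.P i).support := by
          intro j hj m hm
          rw [hs, sup_sum]
          exact ⟨j, hj, hm⟩
        have hj1 : ∀ j ∈ (QQ A).ch i, j ∈ A.ch i ∧ (A.P j).support.Nonempty ∧
            Wt (A.P j).support m₀ ∧ Bs (A.P j).support = Bs (A.P i).support := by
          intro j hj
          rw [hch, Finset.mem_filter, List.mem_toFinset] at hj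
          have e1 : (A.P j).support.Nonempty := by
            rw [Finset.nonempty_iff_ne_empty, ne_eq, MvPolynomial.support_eq_empty]
            exact hj.2
          have e2 : Wt (A.P j).support m₀ := fun m hm => hm₀ m (hsub j hj.1 m hm)
          refine ⟨hj.1, e1, e2, ?_⟩
          ext v
          rw [Bs_iff _ m₀ e1 e2, Bs_iff _ m₀ hne hm₀]
        refine ⟨fun j hj => ⟨hi'.1 j (hj1 j hj).1, ?_⟩, Or.inr (Or.inl ?_)⟩
        · have e := hj1 j hj
          have hscj : (QQ A).sc j = Bs (A.P j).support := if_pos ⟨e.2.1, m₀, e.2.2.1⟩
          rw [hscj, hsc, e.2.2.2]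
        · intro f
          rw [hX]
          constructor
          · intro hf
            have hf' : mA (Bs (A.P i).support) f ∈ (A.P i).support := hf
            have hf2 := hf'
            rw [hs, sup_sum] at hf2
            obtain ⟨j, hj, hfj⟩ := hf2
            have hjc : j ∈ (QQ A).ch i := by
              rw [hch, Finset.mem_filter, List.mem_toFinset]
              refine ⟨hj, ?_⟩
              intro h0
              rw [h0] at hfj
              simp at hfj
            have e := hj1 j hjc
            refine ⟨j, hjc, ?_⟩
            have hXj : (QQ A).X j = {f | mA (Bs (A.P j).support) f ∈ (A.P j).support} :=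
              if_pos ⟨e.2.1, m₀, e.2.2.1⟩
            rw [hXj]
            show mA (Bs (A.P j).support) f ∈ (A.P j).support
            rw [e.2.2.2, hs]
            exact hfj
          · rintro ⟨j, hj, hf⟩
            have e := hj1 j hj
            have hXj : (QQ A).X j = {f | mA (Bs (A.P j).support) f ∈ (A.P j).support} :=
              if_pos ⟨e.2.1, m₀, e.2.2.1⟩
            rw [hXj] at hf
            have hf' : mA (Bs (A.P j).support) f ∈ (A.P j).support := hf
            rw [e.2.2.2] at hf'
            exact hsub j e.1 _ hf'
      · -- products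
        have hPi0 : A.P i ≠ 0 := by
          intro h0
          rw [h0, MvPolynomial.support_zero] at hne
          exact absurd hne Finset.not_nonempty_empty
        have hfac : ∀ j ∈ A.ch i, A.P i = A.P j * (((A.ch i).erase j).map A.P).prod := by
          intro j hj
          rw [hpr, List.prod_map_erase A.P hj]
        have hj1 : ∀ j ∈ A.ch i, (A.P j).support.Nonempty ∧ (∃ m₁, Wt (A.P j).support m₁) ∧
            Bs (A.P j).support ⊆ Bs (A.P i).support := by
          intro j hj
          have e0 := hfac j hj
          obtain ⟨R, hR⟩ : ∃ R, R = (((A.ch i).erase j).map A.P).prod := ⟨_, rfl⟩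
          rw [← hR] at e0
          have hj0 : A.P j ≠ 0 := by
            intro h0
            rw [h0, zero_mul] at e0
            exact hPi0 e0
          have hR0 : R ≠ 0 := by
            intro h0
            rw [h0, mul_zero] at e0
            exact hPi0 e0
          have e1 : (A.P j).support.Nonempty := by
            rw [Finset.nonempty_iff_ne_empty, ne_eq, MvPolynomial.support_eq_empty]
            exact hj0
          obtain ⟨r, hr⟩ : R.support.Nonempty := by
            rw [Finset.nonempty_iff_ne_empty, ne_eq, MvPolynomial.support_eq_empty]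
            exact hR0
          refine ⟨e1, ⟨m₀ + r, ?_⟩, ?_⟩
          · intro m hm
            have h1 : m + r ∈ (A.P i).support := by
              rw [e0, sup_mul]
              exact ⟨m, hm, r, hr, rfl⟩
            obtain ⟨f, hf⟩ := hm₀ _ h1
            refine ⟨f, ?_⟩
            rw [← hf, add_assoc, add_comm r m]
          · intro v hv
            rw [mem_Bs] at hv ⊢
            obtain ⟨m, hm, a, ha⟩ := hv
            refine ⟨m + r, ?_, a, ?_⟩
            · rw [e0, sup_mul]
              exact ⟨m, hm, r, hr, rfl⟩
            · rw [Finsupp.add_apply]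
              omega
        have hmem : ∀ j, j ∈ (QQ A).ch i ↔ j ∈ A.ch i := by
          intro j
          rw [hch, Finset.mem_filter, List.mem_toFinset]
          refine ⟨fun h => h.1, fun h => ⟨h, ?_⟩⟩
          intro h0
          have := (hj1 j h).1
          rw [h0, MvPolynomial.support_zero] at this
          exact absurd this Finset.not_nonempty_empty
        have hscj : ∀ j ∈ A.ch i, (QQ A).sc j = Bs (A.P j).support := fun j hj =>
          if_pos ⟨(hj1 j hj).1, (hj1 j hj).2.1⟩
        have hXj : ∀ j ∈ A.ch i,
            (QQ A).X j = {f | mA (Bs (A.P j).support) f ∈ (A.P j).support} := fun j hj =>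
          if_pos ⟨(hj1 j hj).1, (hj1 j hj).2.1⟩
        refine ⟨fun j hj => ?_, Or.inr (Or.inr ⟨?_, ?_⟩)⟩
        · rw [hmem] at hj
          refine ⟨hi'.1 j hj, ?_⟩
          rw [hscj j hj, hsc]
          exact (hj1 j hj).2.2
        · intro j hj j' hj' hjj
          rw [hmem] at hj hj'
          rw [hscj j hj, hscj j' hj', Finset.disjoint_left]
          intro v hv hv'
          rw [mem_Bs] at hv hv'
          obtain ⟨m, hm, a, ha⟩ := hv
          obtain ⟨m', hm', a', ha'⟩ := hv'
          have e0 := hfac j hj
          have hj'' : j' ∈ (A.ch i).erase j := (List.mem_erase_of_ne (Ne.symm hjj)).2 hj'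
          rw [← List.prod_map_erase A.P hj''] at e0
          obtain ⟨R, hR⟩ : ∃ R, R = ((((A.ch i).erase j).erase j').map A.P).prod := ⟨_, rfl⟩
          rw [← hR] at e0
          have hR0 : R ≠ 0 := by
            intro h0
            rw [h0, mul_zero, mul_zero] at e0
            exact hPi0 e0
          obtain ⟨r, hr⟩ : R.support.Nonempty := by
            rw [Finset.nonempty_iff_ne_empty, ne_eq, MvPolynomial.support_eq_empty]
            exact hR0
          have h1 : m + (m' + r) ∈ (A.P i).support := by
            rw [e0, sup_mul]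
            refine ⟨m, hm, m' + r, ?_, rfl⟩
            rw [sup_mul]
            exact ⟨m', hm', r, hr, rfl⟩
          obtain ⟨f, hf⟩ := hm₀ _ h1
          have h2 : ∀ b, m₀ (v, b) + (m (v, b) + (m' (v, b) + r (v, b))) =
              if f v = b then 1 else 0 := by
            intro b
            rw [← mono_apply, ← hf]
            rfl
          have h3 := h2 a
          have h4 := h2 a'
          by_cases hfa : f v = a
          · by_cases hfa' : f v = a'
            · rw [← hfa', hfa] at ha'
              rw [if_pos hfa] at h3
              omega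
            · rw [if_neg hfa'] at h4
              omega
          · rw [if_neg hfa] at h3
            omega
        · intro f
          rw [hX]
          constructor
          · intro hf j hj
            rw [hmem] at hj
            rw [hXj j hj]
            have hf' : mA (Bs (A.P i).support) f ∈ (A.P i).support := hf
            rw [hfac j hj, sup_mul] at hf'
            obtain ⟨m, hm, r, hr, hmr⟩ := hf'
            rw [← hfac j hj] at hmr
            obtain ⟨m₁, hm₁⟩ := (hj1 j hj).2.1
            obtain ⟨g, hg⟩ := U2 _ m₁ hm₁ m hm
            have hfg : ∀ v ∈ Bs (A.P j).support, g v = f v := by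
              intro v hv
              have h1 : m (v, g v) + r (v, g v) = mA (Bs (A.P i).support) f (v, g v) := by
                rw [← hmr]; rfl
              rw [mA_apply, hg, mA_apply, if_pos ⟨hv, rfl⟩] at h1
              by_contra hn
              rw [if_neg fun h => hn h.2.symm] at h1
              omega
            show mA (Bs (A.P j).support) f ∈ (A.P j).support
            rw [← mA_congr _ g f hfg, ← hg]
            exact hm
          · intro hf
            have h1 : ((A.ch i).map fun j => mA (Bs (A.P j).support) f).sum ∈
                (A.P i).support := by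
              rw [hpr]
              refine sup_prod A.P _ _ fun j hj => ?_
              have := hf j ((hmem j).2 hj)
              rw [hXj j hj] at this
              exact this
            obtain ⟨g, hg⟩ := U2 _ m₀ hm₀ _ h1
            have hfg : ∀ v ∈ Bs (A.P i).support, g v = f v := by
              intro v hv
              have h2 : mA (Bs (A.P i).support) g (v, g v) ≠ 0 := by
                rw [mA_apply, if_pos ⟨hv, rfl⟩]
                exact one_ne_zero
              rw [← hg] at h2
              obtain ⟨j, hj, hj'⟩ := sum_ne _ _ _ h2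
              rw [mA_apply] at hj'
              by_contra hn
              exact hj' (if_neg fun h => hn h.2.symm)
            show mA (Bs (A.P i).support) f ∈ (A.P i).support
            rw [← mA_congr _ g f hfg, ← hg]
            exact h1
    · have hsc : (QQ A).sc i = ∅ := if_neg hU
      have hX : (QQ A).X i = ∅ := if_neg hU
      have hch : (QQ A).ch i = ∅ := if_neg hU
      refine ⟨?_, Or.inl ⟨hch, ?_, ?_⟩⟩
      · intro j hj
        rw [hch] at hj
        exact absurd hj (Finset.notMem_empty j)
      · rw [hsc]
        simp
      · rw [hX]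
        intro f g _ hf
        exact hf
  · show (QQ A).X A.out = _
    have hw : Wt (A.P A.out).support 0 := by
      intro m hm
      obtain ⟨f, hf⟩ := hout m hm
      exact ⟨f, by rw [zero_add, hf]⟩
    by_cases hne : (A.P A.out).support.Nonempty
    · have hX : (QQ A).X A.out =
          {f | mA (Bs (A.P A.out).support) f ∈ (A.P A.out).support} := if_pos ⟨hne, 0, hw⟩
      have hB : Bs (A.P A.out).support = Finset.univ := by
        ext v
        rw [Bs_iff _ 0 hne hw]
        simp
      rw [hX, hB]
      rfl
    · have hX : (QQ A).X A.out = ∅ := if_neg fun h => hne h.1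
      rw [hX]
      rw [Finset.not_nonempty_iff_eq_empty] at hne
      rw [hne]
      ext f
      simp
  · unfold Circ.size Arith.size
    refine Nat.add_le_add_left (Finset.sum_le_sum fun i _ => ?_) _
    by_cases hU : Us (A.P i).support
    · have hch : (QQ A).ch i = (A.ch i).toFinset.filter fun j => A.P j ≠ 0 := if_pos hU
      rw [hch]
      exact (Finset.card_filter_le _ _).trans (List.toFinset_card_le _)
    · have hch : (QQ A).ch i = ∅ := if_neg hU
      rw [hch]
      simp

end Pool.Agent.EXB
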