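import Pool.Agent.EXB.St

/-!
# EXB: choice of `τ`
-/

set_option autoImplicit false

namespace Pool.Agent.EXB

/-- every element of `S` has a neighbour -/
private theorem tau_nb {D : Type} {H : D → D → Prop} {S : Finset D} (hS : Irr H S)
    (h2 : 2 ≤ S.card) {e : D} (he : e ∈ S) : ∃ t, H e t := by
  obtain ⟨e', he', hne⟩ := Finset.exists_mem_ne (by omega : 1 < S.card) e
  obtain ⟨⟨n, hn⟩, -⟩ := hS e he e' he'
  cases n with
  | zero => exact absurd (show e = e' from hn).symm hne
  | succ n =>
    have hn' : Wk H (2 * n + 1 + 1) e e' := hn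
    obtain ⟨c, hc, -⟩ := hn'
    exact ⟨c, hc⟩

theorem thm_Tau : St_Tau := by
  intro D H _ S hS h2
  classical
  refine ⟨fun p e => if h : e = p.2 ∧ ∃ t, H p.2 t ∧ ¬ H p.1 t then h.2.choose
    else if h : ∃ t, H e t then h.choose else e, ?_, ?_⟩
  · intro p e he
    dsimp only
    split_ifs with h1 h3
    · obtain ⟨rfl, h⟩ := h1
      exact h.choose_spec.1
    · exact h3.choose_spec
    · exact absurd (tau_nb hS h2 he) h3
  · intro s _ s' _ ht
    dsimp only
    rw [dif_pos ⟨rfl, ht⟩]
    exact (Exists.choose_spec ht).2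

end Pool.Agent.EXB
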