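import Pool.Agent.EXB.StN

/-!
# EXB: the part of highest degree of a monotone arithmetic circuit (`St_Top`)
-/

set_option autoImplicit false

namespace Pool.Agent.EXB

open MvPolynomial

section

variable {σ : Type}

/-- the part of highest degree -/
private noncomputable def top_p (P : MvPolynomial σ NNReal) : MvPolynomial σ NNReal :=
  homogeneousComponent P.totalDegree P

private theorem top_coeff (P : MvPolynomial σ NNReal) (m : σ →₀ ℕ) :
    coeff m (top_p P) = if m.degree = P.totalDegree then coeff m P else 0 :=
  coeff_homogeneousComponent _ _ _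

private theorem top_le {P : MvPolynomial σ NNReal} {m : σ →₀ ℕ} (h : m ∈ P.support) :
    m.degree ≤ P.totalDegree := le_totalDegree h

private theorem top_support (P : MvPolynomial σ NNReal) (m : σ →₀ ℕ) :
    m ∈ (top_p P).support ↔ m ∈ P.support ∧ ∀ m' ∈ P.support, m'.degree ≤ m.degree := by
  rw [mem_support_iff, top_coeff]
  constructor
  · intro h
    split_ifs at h with h1
    · refine ⟨mem_support_iff.2 h, fun m' hm' => ?_⟩
      rw [h1]
      exact top_le hm'
    · exact absurd rfl h
  · rintro ⟨h1, h2⟩
    have h3 : m.degree = P.totalDegree :=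
      le_antisymm (top_le h1) (Finset.sup_le fun m' hm' => h2 m' hm')
    rw [if_pos h3]
    exact mem_support_iff.1 h1

private theorem top_ne {P : MvPolynomial σ NNReal} (hP : P ≠ 0) : top_p P ≠ 0 := by
  have hne : P.support.Nonempty := support_nonempty.2 hP
  obtain ⟨m, hm, h⟩ := Finset.exists_max_image P.support (fun m => m.degree) hne
  intro h0
  have h1 : m ∈ (top_p P).support := (top_support P m).2 ⟨hm, h⟩
  rw [h0] at h1
  exact absurd h1 (by simp)

private theorem top_mul (P Q : MvPolynomial σ NNReal) : top_p (P * Q) = top_p P * top_p Q := by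
  classical
  by_cases hP : P = 0
  · subst hP
    simp [top_p]
  by_cases hQ : Q = 0
  · subst hQ
    simp [top_p]
  have key : homogeneousComponent (P.totalDegree + Q.totalDegree) (P * Q) =
      top_p P * top_p Q := by
    ext m
    rw [coeff_homogeneousComponent, coeff_mul, coeff_mul]
    split_ifs with h
    · congr 1
      refine Finset.sum_congr rfl fun x hx => ?_
      rw [Finset.HasAntidiagonal.mem_antidiagonal] at hx
      rw [top_coeff, top_coeff]
      by_cases h1 : coeff x.1 P = 0
      · rw [h1]
        simp
      by_cases h2 : coeff x.2 Q = 0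
      · rw [h2]
        simp
      have h3 := top_le (mem_support_iff.2 h1)
      have h4 := top_le (mem_support_iff.2 h2)
      have h5 : x.1.degree + x.2.degree = m.degree := by rw [← hx, map_add]
      rw [if_pos (by omega), if_pos (by omega)]
    · congr 1
      symm
      refine Finset.sum_eq_zero fun x hx => ?_
      rw [Finset.HasAntidiagonal.mem_antidiagonal] at hx
      rw [top_coeff, top_coeff]
      have h5 : x.1.degree + x.2.degree = m.degree := by rw [← hx, map_add]
      by_cases h1 : x.1.degree = P.totalDegree
      · by_cases h2 : x.2.degree = Q.totalDegree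
        · exact absurd (by omega) h
        · rw [if_neg h2, mul_zero]
      · rw [if_neg h1, zero_mul]
  have h1 : (P * Q).totalDegree = P.totalDegree + Q.totalDegree := by
    refine le_antisymm (totalDegree_mul P Q) ?_
    by_contra hlt
    push Not at hlt
    have h2 := homogeneousComponent_eq_zero _ _ hlt
    rw [key] at h2
    rcases mul_eq_zero.1 h2 with h | h
    · exact top_ne hP h
    · exact top_ne hQ h
  rw [top_p, h1, key]

private theorem top_C (c : NNReal) : top_p (C c : MvPolynomial σ NNReal) = C c := by
  rw [top_p, totalDegree_C, homogeneousComponent_zero, coeff_zero_C]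

private theorem top_X (p : σ) : top_p (X p : MvPolynomial σ NNReal) = X p := by
  rw [top_p, totalDegree_X, homogeneousComponent_of_mem (isHomogeneous_X NNReal p), if_pos rfl]

private theorem top_prod (l : List (MvPolynomial σ NNReal)) :
    top_p l.prod = (l.map top_p).prod := by
  induction l with
  | nil =>
    rw [List.map_nil, List.prod_nil]
    exact top_C 1
  | cons P l ih => rw [List.map_cons, List.prod_cons, List.prod_cons, top_mul, ih]

private theorem top_mem_sum (l : List (MvPolynomial σ NNReal)) (P : MvPolynomial σ NNReal)
    (h : P ∈ l) : P.totalDegree ≤ l.sum.totalDegree := by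
  refine Finset.sup_le fun m hm => ?_
  refine le_totalDegree ?_
  rw [mem_support_iff] at hm ⊢
  obtain ⟨s, t, rfl⟩ := List.append_of_mem h
  rw [List.sum_append, List.sum_cons, coeff_add, coeff_add]
  intro h0
  have h1 := (add_eq_zero.1 h0).2
  exact hm (add_eq_zero.1 h1).1

private theorem top_sum (P : ℕ → MvPolynomial σ NNReal) (l : List ℕ) (d : ℕ)
    (h : ∀ j ∈ l, (P j).totalDegree ≤ d) :
    homogeneousComponent d (l.map P).sum =
      ((l.filter fun j => (P j).totalDegree = d).map fun j => top_p (P j)).sum := by
  induction l with
  | nil => simp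
  | cons j l ih =>
    have ih := ih fun i hi => h i (List.mem_cons_of_mem _ hi)
    rw [List.map_cons, List.sum_cons, map_add, ih]
    by_cases hj : (P j).totalDegree = d
    · rw [List.filter_cons_of_pos (by simpa using hj), List.map_cons, List.sum_cons, top_p, hj]
    · rw [List.filter_cons_of_neg (by simpa using hj)]
      have h1 : (P j).totalDegree < d := lt_of_le_of_ne (h j List.mem_cons_self) hj
      rw [homogeneousComponent_eq_zero _ _ h1, zero_add]

end

theorem thm_Top : St_Top := by
  classical
  intro V D A hA
  let ch' : ℕ → List ℕ := fun i => if A.P i = ((A.ch i).map A.P).prod then A.ch i else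
    (A.ch i).filter fun j => (A.P j).totalDegree = (A.P i).totalDegree
  have hsub : ∀ i, ∀ j ∈ ch' i, j ∈ A.ch i := by
    intro i j hj
    by_cases h : A.P i = ((A.ch i).map A.P).prod
    · rwa [show ch' i = A.ch i from if_pos h] at hj
    · rw [show ch' i = _ from if_neg h] at hj
      exact (List.mem_filter.1 hj).1
  have hnil : ∀ i, A.ch i = [] → ch' i = [] := by
    intro i hi
    refine List.eq_nil_iff_forall_not_mem.2 fun j hj => ?_
    have := hsub i j hj
    rw [hi] at this
    exact absurd this List.not_mem_nil
  have hlen : ∀ i, (ch' i).length ≤ (A.ch i).length := by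
    intro i
    by_cases h : A.P i = ((A.ch i).map A.P).prod
    · rw [show ch' i = A.ch i from if_pos h]
    · rw [show ch' i = _ from if_neg h]
      exact List.length_filter_le _ _
  refine ⟨⟨A.n, fun i => top_p (A.P i), ch', A.out⟩, ⟨hA.1, fun i hi => ⟨fun j hj =>
    (hA.2 i hi).1 j (hsub i j hj), ?_⟩⟩, ?_, fun m => top_support _ m⟩
  · by_cases h : A.P i = ((A.ch i).map A.P).prod
    · refine Or.inr (Or.inr (Or.inr ?_))
      change top_p (A.P i) = ((ch' i).map fun j => top_p (A.P j)).prod
      rw [show ch' i = A.ch i from if_pos h, h, top_prod, List.map_map]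
      rfl
    · rcases (hA.2 i hi).2 with ⟨h1, c, h2⟩ | ⟨h1, p, h2⟩ | h2 | h2
      · refine Or.inl ⟨hnil i h1, c, ?_⟩
        change top_p (A.P i) = _
        rw [h2, top_C]
      · refine Or.inr (Or.inl ⟨hnil i h1, p, ?_⟩)
        change top_p (A.P i) = _
        rw [h2, top_X]
      · refine Or.inr (Or.inr (Or.inl ?_))
        change top_p (A.P i) = ((ch' i).map fun j => top_p (A.P j)).sum
        rw [show ch' i = _ from if_neg h]
        have h3 := top_sum A.P (A.ch i) (A.P i).totalDegree fun j hj => by
          rw [h2]
          exact top_mem_sum _ _ (List.mem_map_of_mem hj)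
        rw [← h3, ← h2]
        rfl
      · exact absurd h2 h
  · change A.n + ∑ i ∈ Finset.range A.n, (ch' i).length ≤
      A.n + ∑ i ∈ Finset.range A.n, (A.ch i).length
    exact Nat.add_le_add_left (Finset.sum_le_sum fun i _ => hlen i) _

end Pool.Agent.EXB
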