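import Pool.Agent.EXB.StT

/-!
# EXB: from monotone arithmetic circuits to (max, +) circuits (helper82)
-/

set_option autoImplicit false

namespace Pool.Agent.EXB

open MvPolynomial

/-- the weight of a monomial -/
private noncomputable def TrA_w {V D : Type} (x : V × D → ℝ) (m : (V × D) →₀ ℕ) : ℝ :=
  m.sum fun p k => (k : ℝ) * x p

/-- the largest weight of a monomial of `P` -/
private noncomputable def TrA_val {V D : Type} (P : MvPolynomial (V × D) NNReal)
    (x : V × D → ℝ) : WithBot ℝ :=
  P.support.sup fun m => ((TrA_w x m : ℝ) : WithBot ℝ)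

private lemma TrA_w_add {V D : Type} (x : V × D → ℝ) (m m' : (V × D) →₀ ℕ) :
    TrA_w x (m + m') = TrA_w x m + TrA_w x m' := by
  unfold TrA_w
  apply Finsupp.sum_add_index'
  · intro a
    simp
  · intro a b c
    push_cast
    ring

private lemma TrA_w_zero {V D : Type} (x : V × D → ℝ) : TrA_w x 0 = 0 := by
  unfold TrA_w
  exact Finsupp.sum_zero_index

private lemma TrA_w_single {V D : Type} (x : V × D → ℝ) (p : V × D) :
    TrA_w x (Finsupp.single p 1) = x p := by
  unfold TrA_w
  rw [Finsupp.sum_single_index] <;> simp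

private lemma TrA_w_mono {V D : Type} [Fintype V] (x : V × D → ℝ) (f : V → D) :
    TrA_w x (mono f) = ∑ v, x (v, f v) := by
  classical
  unfold mono
  have key : ∀ s : Finset V, TrA_w x (∑ v ∈ s, Finsupp.single (v, f v) 1) =
      ∑ v ∈ s, x (v, f v) := by
    intro s
    induction s using Finset.induction_on with
    | empty => rw [Finset.sum_empty, Finset.sum_empty, TrA_w_zero]
    | insert a s ha ih =>
      rw [Finset.sum_insert ha, Finset.sum_insert ha, TrA_w_add, ih, TrA_w_single]
  exact key Finset.univ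

private lemma TrA_zero {V D : Type} (x : V × D → ℝ) :
    TrA_val (0 : MvPolynomial (V × D) NNReal) x = ⊥ := by
  unfold TrA_val
  rw [support_zero, Finset.sup_empty]

private lemma TrA_C {V D : Type} (c : NNReal) (hc : c ≠ 0) (x : V × D → ℝ) :
    TrA_val (C c : MvPolynomial (V × D) NNReal) x = ((0 : ℝ) : WithBot ℝ) := by
  classical
  unfold TrA_val
  rw [← monomial_zero', support_monomial, if_neg hc, Finset.sup_singleton, TrA_w_zero]

private lemma TrA_X {V D : Type} (p : V × D) (x : V × D → ℝ) :
    TrA_val (X p : MvPolynomial (V × D) NNReal) x = ((x p : ℝ) : WithBot ℝ) := by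
  classical
  unfold TrA_val
  rw [support_X, Finset.sup_singleton, TrA_w_single]

private lemma TrA_add {V D : Type} (P Q : MvPolynomial (V × D) NNReal) (x : V × D → ℝ) :
    TrA_val (P + Q) x = TrA_val P x ⊔ TrA_val Q x := by
  classical
  unfold TrA_val
  have h : (P + Q).support = P.support ∪ Q.support := by
    ext m
    rw [Finset.mem_union, mem_support_iff, mem_support_iff, mem_support_iff, coeff_add,
      Ne, add_eq_zero]
    tauto
  rw [h, Finset.sup_union]

private lemma TrA_mul {V D : Type} (P Q : MvPolynomial (V × D) NNReal) (x : V × D → ℝ) :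
    TrA_val (P * Q) x = TrA_val P x + TrA_val Q x := by
  classical
  by_cases hP : P = 0
  · rw [hP, zero_mul, TrA_zero, WithBot.bot_add]
  by_cases hQ : Q = 0
  · rw [hQ, mul_zero, TrA_zero, WithBot.add_bot]
  have hP' : P.support.Nonempty := by
    rw [Finset.nonempty_iff_ne_empty, Ne, support_eq_empty]
    exact hP
  have hQ' : Q.support.Nonempty := by
    rw [Finset.nonempty_iff_ne_empty, Ne, support_eq_empty]
    exact hQ
  have hm : ∀ a ∈ P.support, ∀ b ∈ Q.support, a + b ∈ (P * Q).support := by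
    intro a ha b hb
    rw [mem_support_iff] at ha hb ⊢
    intro h0
    rw [coeff_mul, Finset.sum_eq_zero_iff] at h0
    have h1 := h0 (a, b) (Finset.HasAntidiagonal.mem_antidiagonal.2 rfl)
    rcases mul_eq_zero.1 h1 with h | h
    · exact ha h
    · exact hb h
  apply le_antisymm
  · unfold TrA_val
    apply Finset.sup_le
    intro m hm'
    have h1 := support_mul P Q hm'
    rw [Finset.mem_add] at h1
    obtain ⟨a, ha, b, hb, rfl⟩ := h1
    rw [TrA_w_add, WithBot.coe_add]
    exact add_le_add (Finset.le_sup (f := fun m => ((TrA_w x m : ℝ) : WithBot ℝ)) ha)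
      (Finset.le_sup (f := fun m => ((TrA_w x m : ℝ) : WithBot ℝ)) hb)
  · unfold TrA_val
    obtain ⟨a, ha, hae⟩ := Finset.exists_mem_eq_sup P.support hP'
      (fun m => ((TrA_w x m : ℝ) : WithBot ℝ))
    obtain ⟨b, hb, hbe⟩ := Finset.exists_mem_eq_sup Q.support hQ'
      (fun m => ((TrA_w x m : ℝ) : WithBot ℝ))
    rw [hae, hbe]
    have h2 : ((TrA_w x a : ℝ) : WithBot ℝ) + ((TrA_w x b : ℝ) : WithBot ℝ) =
        ((TrA_w x (a + b) : ℝ) : WithBot ℝ) := by
      rw [TrA_w_add, WithBot.coe_add]
    show ((TrA_w x a : ℝ) : WithBot ℝ) + ((TrA_w x b : ℝ) : WithBot ℝ) ≤ _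
    rw [h2]
    exact Finset.le_sup (f := fun m => ((TrA_w x m : ℝ) : WithBot ℝ)) (hm a ha b hb)

private lemma TrA_list_sum {V D : Type} (P : ℕ → MvPolynomial (V × D) NNReal)
    (x : V × D → ℝ) (l : List ℕ) :
    TrA_val ((l.map P).sum) x = l.toFinset.sup fun j => TrA_val (P j) x := by
  classical
  induction l with
  | nil =>
    rw [List.map_nil, List.sum_nil, TrA_zero, List.toFinset_nil, Finset.sup_empty]
  | cons a l ih =>
    rw [List.map_cons, List.sum_cons, TrA_add, ih, List.toFinset_cons, Finset.sup_insert]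

private lemma TrA_list_prod {V D : Type} (P : ℕ → MvPolynomial (V × D) NNReal)
    (x : V × D → ℝ) (l : List ℕ) :
    TrA_val ((l.map P).prod) x = (l.map fun j => TrA_val (P j) x).sum := by
  classical
  induction l with
  | nil =>
    rw [List.map_nil, List.prod_nil, List.map_nil, List.sum_nil, ← C_1, TrA_C 1 one_ne_zero,
      WithBot.coe_zero]
  | cons a l ih =>
    rw [List.map_cons, List.prod_cons, TrA_mul, ih, List.map_cons, List.sum_cons]

private lemma TrA_supp {V D : Type} [Fintype V] [Fintype D] (X : Set (V → D))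
    (m : (V × D) →₀ ℕ) :
    m ∈ (∑ᶠ f ∈ X, monomial (mono f) (1 : NNReal) : MvPolynomial (V × D) NNReal).support ↔
      ∃ f ∈ X, m = mono f := by
  classical
  have hX : X.Finite := Set.toFinite X
  rw [finsum_mem_eq_finite_toFinset_sum _ hX, mem_support_iff, coeff_sum, Ne,
    Finset.sum_eq_zero_iff]
  push Not
  constructor
  · rintro ⟨f, hf, h⟩
    refine ⟨f, hX.mem_toFinset.1 hf, ?_⟩
    by_contra hne
    apply h
    rw [coeff_monomial, if_neg (fun h => hne h.symm)]
  · rintro ⟨f, hf, rfl⟩
    refine ⟨f, hX.mem_toFinset.2 hf, ?_⟩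
    rw [coeff_monomial, if_pos rfl]
    exact one_ne_zero

/-- from monotone arithmetic circuits to (max, +) circuits -/
theorem thm_TrA : St_TrA := by
  classical
  intro V D _ _ A X hOk hout
  refine ⟨⟨A.n, fun i x => TrA_val (A.P i) x, A.ch, A.out⟩, ⟨hOk.1, fun i hi => ?_⟩,
    fun x => ?_, le_rfl⟩
  · obtain ⟨h1, h2⟩ := hOk.2 i hi
    refine ⟨h1, ?_⟩
    rcases h2 with ⟨h3, c, hc⟩ | ⟨h3, p, hp⟩ | h3 | h3
    · left
      refine ⟨h3, ?_⟩
      by_cases h0 : c = 0
      · refine ⟨⊥, fun x => ?_⟩
        show TrA_val (A.P i) x = ⊥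
        rw [hc, h0, C_0, TrA_zero]
      · refine ⟨((0 : ℝ) : WithBot ℝ), fun x => ?_⟩
        show TrA_val (A.P i) x = _
        rw [hc, TrA_C c h0]
    · right
      left
      refine ⟨h3, p, fun x => ?_⟩
      show TrA_val (A.P i) x = _
      rw [hp, TrA_X]
    · right
      right
      left
      intro x
      show TrA_val (A.P i) x = _
      rw [h3, TrA_list_sum]
    · right
      right
      right
      intro x
      show TrA_val (A.P i) x = _
      rw [h3, TrA_list_prod]
  · show IsLUB _ (TrA_val (A.P A.out) x)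
    rw [hout]
    constructor
    · rintro y ⟨f, hf, rfl⟩
      unfold TrA_val
      rw [← TrA_w_mono]
      exact Finset.le_sup (f := fun m => ((TrA_w x m : ℝ) : WithBot ℝ))
        ((TrA_supp X _).2 ⟨f, hf, rfl⟩)
    · intro b hb
      unfold TrA_val
      apply Finset.sup_le
      intro m hm
      obtain ⟨f, hf, rfl⟩ := (TrA_supp X m).1 hm
      apply hb
      refine ⟨f, hf, ?_⟩
      rw [TrA_w_mono]

end Pool.Agent.EXB
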