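import Pool.Agent.EXB.StN

/-!
# EXB, module TrN: from (max, +) circuits which are correct for nonnegative weights to monotone
arithmetic circuits
-/

set_option autoImplicit false

namespace Pool.Agent.EXB

section poly

variable {P : Type} [Fintype P]

/-- the scalar product of an exponent vector and a weight -/
private noncomputable def tnDot (m : P →₀ ℕ) (x : P → ℝ) : ℝ := ∑ p, (m p : ℝ) * x p

private theorem tnDot_add (m m' : P →₀ ℕ) (x : P → ℝ) :
    tnDot (m + m') x = tnDot m x + tnDot m' x := by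
  unfold tnDot
  rw [← Finset.sum_add_distrib]
  refine Finset.sum_congr rfl fun p _ => ?_
  rw [Finsupp.add_apply]
  push_cast
  ring

/-- the value of the tropical polynomial -/
private noncomputable def tnVal (q : MvPolynomial P NNReal) (c : (P →₀ ℕ) → ℝ) (x : P → ℝ) :
    WithBot ℝ := q.support.sup fun m => ((c m + tnDot m x : ℝ) : WithBot ℝ)

omit [Fintype P] in
private theorem tn_mem_add (p q : MvPolynomial P NNReal) (m : P →₀ ℕ) :
    m ∈ (p + q).support ↔ m ∈ p.support ∨ m ∈ q.support := by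
  rw [MvPolynomial.mem_support_iff, MvPolynomial.mem_support_iff, MvPolynomial.mem_support_iff,
    MvPolynomial.coeff_add]
  constructor
  · intro h
    by_contra hcon
    push Not at hcon
    exact h (by rw [hcon.1, hcon.2, add_zero])
  · rintro (h | h) h0
    · exact h (add_eq_zero.1 h0).1
    · exact h (add_eq_zero.1 h0).2

omit [Fintype P] in
private theorem tn_mem_mul (p q : MvPolynomial P NNReal) (m : P →₀ ℕ) :
    m ∈ (p * q).support ↔ ∃ m' ∈ p.support, ∃ m'' ∈ q.support, m' + m'' = m := by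
  classical
  rw [MvPolynomial.mem_support_iff, MvPolynomial.coeff_mul]
  constructor
  · intro h
    obtain ⟨pr, hpr, hne⟩ := Finset.exists_ne_zero_of_sum_ne_zero h
    refine ⟨pr.1, ?_, pr.2, ?_, Finset.HasAntidiagonal.mem_antidiagonal.1 hpr⟩
    · rw [MvPolynomial.mem_support_iff]
      exact left_ne_zero_of_mul hne
    · rw [MvPolynomial.mem_support_iff]
      exact right_ne_zero_of_mul hne
  · rintro ⟨m', h', m'', h'', rfl⟩ h0
    rw [MvPolynomial.mem_support_iff] at h' h''
    have h1 := (Finset.sum_eq_zero_iff.1 h0) (m', m'') (Finset.HasAntidiagonal.mem_antidiagonal.2 rfl)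
    exact mul_ne_zero h' h'' h1

private theorem tn_add (p q : MvPolynomial P NNReal) (cp cq : (P →₀ ℕ) → ℝ) :
    ∃ c, ∀ x, tnVal (p + q) c x = tnVal p cp x ⊔ tnVal q cq x := by
  classical
  obtain ⟨c, c1, c2, c3⟩ : ∃ c : (P →₀ ℕ) → ℝ,
      (∀ m, m ∈ p.support → m ∈ q.support → c m = max (cp m) (cq m)) ∧
      (∀ m, m ∈ p.support → m ∉ q.support → c m = cp m) ∧
      ∀ m, m ∉ p.support → c m = cq m :=
    ⟨fun m => if m ∈ p.support then (if m ∈ q.support then max (cp m) (cq m) else cp m)
      else cq m, fun m h1 h2 => (if_pos h1).trans (if_pos h2),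
      fun m h1 h2 => (if_pos h1).trans (if_neg h2), fun m h1 => if_neg h1⟩
  refine ⟨c, fun x => le_antisymm ?_ ?_⟩
  · refine Finset.sup_le fun m hm => ?_
    have e1 : m ∈ p.support → ((cp m + tnDot m x : ℝ) : WithBot ℝ) ≤ tnVal p cp x := fun h =>
      Finset.le_sup (f := fun m => ((cp m + tnDot m x : ℝ) : WithBot ℝ)) h
    have e2 : m ∈ q.support → ((cq m + tnDot m x : ℝ) : WithBot ℝ) ≤ tnVal q cq x := fun h =>
      Finset.le_sup (f := fun m => ((cq m + tnDot m x : ℝ) : WithBot ℝ)) h
    by_cases h1 : m ∈ p.support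
    · by_cases h2 : m ∈ q.support
      · rw [c1 m h1 h2]
        rcases max_cases (cp m) (cq m) with h | h
        · rw [h.1]
          exact (e1 h1).trans le_sup_left
        · rw [h.1]
          exact (e2 h2).trans le_sup_right
      · rw [c2 m h1 h2]
        exact (e1 h1).trans le_sup_left
    · rw [c3 m h1]
      have h2 : m ∈ q.support := ((tn_mem_add p q m).1 hm).resolve_left h1
      exact (e2 h2).trans le_sup_right
  · refine sup_le (Finset.sup_le fun m hm => ?_) (Finset.sup_le fun m hm => ?_)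
    · refine le_trans ?_ (Finset.le_sup ((tn_mem_add p q m).2 (Or.inl hm)))
      rw [WithBot.coe_le_coe]
      by_cases h2 : m ∈ q.support
      · rw [c1 m hm h2]
        have := le_max_left (cp m) (cq m)
        linarith
      · rw [c2 m hm h2]
    · refine le_trans ?_ (Finset.le_sup ((tn_mem_add p q m).2 (Or.inr hm)))
      rw [WithBot.coe_le_coe]
      by_cases h2 : m ∈ p.support
      · rw [c1 m h2 hm]
        have := le_max_right (cp m) (cq m)
        linarith
      · rw [c3 m h2]

private theorem tn_mul (p q : MvPolynomial P NNReal) (cp cq : (P →₀ ℕ) → ℝ) :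
    ∃ c, ∀ x, tnVal (p * q) c x = tnVal p cp x + tnVal q cq x := by
  classical
  have hex : ∀ m : P →₀ ℕ, ∃ r : ℝ, m ∈ (p * q).support →
      (∃ m' ∈ p.support, ∃ m'' ∈ q.support, m' + m'' = m ∧ r = cp m' + cq m'') ∧
      ∀ m' ∈ p.support, ∀ m'' ∈ q.support, m' + m'' = m → cp m' + cq m'' ≤ r := by
    intro m
    by_cases hm : m ∈ (p * q).support
    · let S := (p.support ×ˢ q.support).filter fun pr => pr.1 + pr.2 = m
      have hS : S.Nonempty := by
        obtain ⟨m', h', m'', h'', h⟩ := (tn_mem_mul p q m).1 hm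
        exact ⟨(m', m''), Finset.mem_filter.2 ⟨Finset.mem_product.2 ⟨h', h''⟩, h⟩⟩
      obtain ⟨pr, hpr, hmax⟩ := Finset.exists_max_image S (fun pr => cp pr.1 + cq pr.2) hS
      have h1 := Finset.mem_filter.1 hpr
      have h2 := Finset.mem_product.1 h1.1
      refine ⟨cp pr.1 + cq pr.2, fun _ => ⟨⟨pr.1, h2.1, pr.2, h2.2, h1.2, rfl⟩,
        fun m' h' m'' h'' h => ?_⟩⟩
      exact hmax (m', m'') (Finset.mem_filter.2 ⟨Finset.mem_product.2 ⟨h', h''⟩, h⟩)
    · exact ⟨0, fun h => absurd h hm⟩
  choose c hc using hex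
  refine ⟨c, fun x => le_antisymm ?_ ?_⟩
  · refine Finset.sup_le fun m hm => ?_
    obtain ⟨⟨m', h', m'', h'', h, hr⟩, -⟩ := hc m hm
    have e1 : ((cp m' + tnDot m' x : ℝ) : WithBot ℝ) ≤ tnVal p cp x :=
      Finset.le_sup (f := fun m => ((cp m + tnDot m x : ℝ) : WithBot ℝ)) h'
    have e2 : ((cq m'' + tnDot m'' x : ℝ) : WithBot ℝ) ≤ tnVal q cq x :=
      Finset.le_sup (f := fun m => ((cq m + tnDot m x : ℝ) : WithBot ℝ)) h''
    have e3 : ((c m + tnDot m x : ℝ) : WithBot ℝ) =
        ((cp m' + tnDot m' x : ℝ) : WithBot ℝ) + ((cq m'' + tnDot m'' x : ℝ) : WithBot ℝ) := by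
      rw [← WithBot.coe_add, hr, ← h, tnDot_add]
      congr 1
      ring
    rw [e3]
    exact add_le_add e1 e2
  · rcases p.support.eq_empty_or_nonempty with h1 | h1
    · have : tnVal p cp x = ⊥ := by
        unfold tnVal
        rw [h1, Finset.sup_empty]
      rw [this, WithBot.bot_add]
      exact bot_le
    rcases q.support.eq_empty_or_nonempty with h2 | h2
    · have : tnVal q cq x = ⊥ := by
        unfold tnVal
        rw [h2, Finset.sup_empty]
      rw [this, WithBot.add_bot]
      exact bot_le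
    obtain ⟨m', h', e1⟩ := Finset.exists_mem_eq_sup p.support h1
      (fun m => ((cp m + tnDot m x : ℝ) : WithBot ℝ))
    obtain ⟨m'', h'', e2⟩ := Finset.exists_mem_eq_sup q.support h2
      (fun m => ((cq m + tnDot m x : ℝ) : WithBot ℝ))
    have hm : m' + m'' ∈ (p * q).support := (tn_mem_mul p q _).2 ⟨m', h', m'', h'', rfl⟩
    have e3 := (hc _ hm).2 m' h' m'' h'' rfl
    have e4 : ((c (m' + m'') + tnDot (m' + m'') x : ℝ) : WithBot ℝ) ≤ tnVal (p * q) c x :=
      Finset.le_sup (f := fun m => ((c m + tnDot m x : ℝ) : WithBot ℝ)) hm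
    refine le_trans ?_ e4
    unfold tnVal
    rw [e1, e2, ← WithBot.coe_add, WithBot.coe_le_coe, tnDot_add]
    linarith

private theorem tn_zero (x : P → ℝ) (c : (P →₀ ℕ) → ℝ) : tnVal 0 c x = ⊥ := by
  unfold tnVal
  rw [MvPolynomial.support_zero, Finset.sup_empty]

private theorem tn_one (x : P → ℝ) (r : ℝ) : tnVal 1 (fun _ => r) x = (r : WithBot ℝ) := by
  unfold tnVal
  rw [MvPolynomial.support_one, Finset.sup_singleton]
  simp [tnDot]

private theorem tn_X (p : P) (x : P → ℝ) :
    tnVal (MvPolynomial.X p) (fun _ => 0) x = (x p : WithBot ℝ) := by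
  classical
  unfold tnVal
  rw [MvPolynomial.support_X, Finset.sup_singleton, zero_add]
  unfold tnDot
  rw [Finset.sum_eq_single p]
  · simp
  · intro b _ hb
    simp [Ne.symm hb]
  · intro h
    exact absurd (Finset.mem_univ _) h

private theorem tn_list_sum (Q : ℕ → MvPolynomial P NNReal) (c : ℕ → (P →₀ ℕ) → ℝ)
    (F : ℕ → (P → ℝ) → WithBot ℝ) (l : List ℕ) (h : ∀ j ∈ l, ∀ x, F j x = tnVal (Q j) (c j) x) :
    ∃ c', ∀ x, (l.toFinset.sup fun j => F j x) = tnVal (l.map Q).sum c' x := by
  classical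
  induction l with
  | nil => exact ⟨fun _ => 0, fun x => by simp [tn_zero]⟩
  | cons a l ih =>
    obtain ⟨c', hc'⟩ := ih fun j hj => h j (List.mem_cons_of_mem _ hj)
    obtain ⟨c'', hc''⟩ := tn_add (Q a) (l.map Q).sum (c a) c'
    refine ⟨c'', fun x => ?_⟩
    rw [List.toFinset_cons, Finset.sup_insert, List.map_cons, List.sum_cons, hc'' x, ← hc' x,
      h a List.mem_cons_self x]

private theorem tn_list_prod (Q : ℕ → MvPolynomial P NNReal) (c : ℕ → (P →₀ ℕ) → ℝ)
    (F : ℕ → (P → ℝ) → WithBot ℝ) (l : List ℕ) (h : ∀ j ∈ l, ∀ x, F j x = tnVal (Q j) (c j) x) :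
    ∃ c', ∀ x, (l.map fun j => F j x).sum = tnVal (l.map Q).prod c' x := by
  classical
  induction l with
  | nil => exact ⟨fun _ => 0, fun x => by simp [tn_one]⟩
  | cons a l ih =>
    obtain ⟨c', hc'⟩ := ih fun j hj => h j (List.mem_cons_of_mem _ hj)
    obtain ⟨c'', hc''⟩ := tn_mul (Q a) (l.map Q).prod (c a) c'
    refine ⟨c'', fun x => ?_⟩
    rw [List.map_cons, List.sum_cons, List.map_cons, List.prod_cons, hc'' x, ← hc' x,
      h a List.mem_cons_self x]

end poly

section circ

variable {V D : Type} [Fintype V] [Fintype D]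

/-- the polynomials of the gates -/
private theorem tn_main (T : MaxPlus V D) (hT : T.Ok) (N : ℕ) : N ≤ T.n →
    ∃ (Q : ℕ → MvPolynomial (V × D) NNReal) (c : ℕ → ((V × D) →₀ ℕ) → ℝ), ∀ i < N,
      ((T.ch i = [] ∧ ∃ c, Q i = MvPolynomial.C c) ∨
        (T.ch i = [] ∧ ∃ p, Q i = MvPolynomial.X p) ∨
        Q i = ((T.ch i).map Q).sum ∨ Q i = ((T.ch i).map Q).prod) ∧
      ∀ x, T.F i x = tnVal (Q i) (c i) x := by
  classical
  induction N with
  | zero => exact fun _ => ⟨fun _ => 0, fun _ _ => 0, fun i hi => absurd hi (Nat.not_lt_zero i)⟩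
  | succ N ih =>
    intro hN
    obtain ⟨Q, c, h⟩ := ih (by omega)
    obtain ⟨hlt, htype⟩ := hT.2 N (by omega)
    have hF : ∀ j ∈ T.ch N, ∀ x, T.F j x = tnVal (Q j) (c j) x := fun j hj => (h j (hlt j hj)).2
    have hnew : ∃ (q : MvPolynomial (V × D) NNReal) (c' : ((V × D) →₀ ℕ) → ℝ),
        ((T.ch N = [] ∧ ∃ c, q = MvPolynomial.C c) ∨ (T.ch N = [] ∧ ∃ p, q = MvPolynomial.X p) ∨
          q = ((T.ch N).map Q).sum ∨ q = ((T.ch N).map Q).prod) ∧
        ∀ x, T.F N x = tnVal q c' x := by
      rcases htype with ⟨h1, r, h2⟩ | ⟨h1, p, h2⟩ | h2 | h2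
      · induction r using WithBot.recBotCoe with
        | bot =>
          exact ⟨0, fun _ => 0, Or.inl ⟨h1, 0, (map_zero _).symm⟩,
            fun x => by rw [h2 x, tn_zero]⟩
        | coe r =>
          exact ⟨1, fun _ => r, Or.inl ⟨h1, 1, (map_one _).symm⟩,
            fun x => by rw [h2 x, tn_one]⟩
      · exact ⟨MvPolynomial.X p, fun _ => 0, Or.inr (Or.inl ⟨h1, p, rfl⟩),
          fun x => by rw [h2 x, tn_X]⟩
      · obtain ⟨c', hc'⟩ := tn_list_sum Q c T.F (T.ch N) hF
        exact ⟨_, c', Or.inr (Or.inr (Or.inl rfl)), fun x => by rw [h2 x]; exact hc' x⟩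
      · obtain ⟨c', hc'⟩ := tn_list_prod Q c T.F (T.ch N) hF
        exact ⟨_, c', Or.inr (Or.inr (Or.inr rfl)), fun x => by rw [h2 x]; exact hc' x⟩
    obtain ⟨q, c', hq, hv⟩ := hnew
    refine ⟨Function.update Q N q, Function.update c N c', fun i hi => ?_⟩
    have hmap : ∀ i, (∀ j ∈ T.ch i, j < N) →
        (T.ch i).map (Function.update Q N q) = (T.ch i).map Q := fun i hi =>
      List.map_congr_left fun j hj => Function.update_of_ne (hi j hj).ne _ _
    rcases Nat.eq_or_lt_of_le (Nat.le_of_lt_succ hi) with rfl | hi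
    · rw [hmap i hlt, Function.update_self, Function.update_self]
      exact ⟨hq, hv⟩
    · rw [hmap i (fun j hj => ((hT.2 i (by omega)).1 j hj).trans hi),
        Function.update_of_ne hi.ne, Function.update_of_ne hi.ne]
      exact h i hi

omit [Fintype D] in
private theorem tn_mono_apply (f : V → D) (v : V) (a : D) [Decidable (f v = a)] :
    mono f (v, a) = if f v = a then 1 else 0 := by
  classical
  unfold mono
  rw [Finsupp.finsetSum_apply, Finset.sum_eq_single v]
  · rw [Finsupp.single_apply]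
    by_cases h : f v = a
    · rw [if_pos h, if_pos (by rw [h])]
    · rw [if_neg h, if_neg (fun h' => h (congrArg Prod.snd h'))]
  · intro u _ hu
    rw [Finsupp.single_apply, if_neg (fun h' => hu (congrArg Prod.fst h'))]
  · intro h
    exact absurd (Finset.mem_univ _) h

private theorem tn_degree (m : (V × D) →₀ ℕ) : m.degree = ∑ v, ∑ a, m (v, a) := by
  rw [← Fintype.sum_prod_type']
  unfold Finsupp.degree
  exact Finset.sum_subset (Finset.subset_univ _) fun p _ hp => Finsupp.notMem_support_iff.1 hp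

private theorem tn_degree_mono (f : V → D) : (mono f).degree = Fintype.card V := by
  classical
  rw [tn_degree]
  have h1 : ∀ v : V, ∑ a : D, mono f (v, a) = 1 := fun v => by
    simp only [tn_mono_apply]
    rw [Finset.sum_ite_eq Finset.univ (f v) (fun _ => 1), if_pos (Finset.mem_univ _)]
  simp only [h1]
  simp

/-- a vector with row sums at most one which has a one at every `(v, f v)` is `mono f` -/
private theorem tn_eq_mono (m : (V × D) →₀ ℕ) (hrow : ∀ v, ∑ a, m (v, a) ≤ 1) (f : V → D)
    (h : ∀ v, 1 ≤ m (v, f v)) : m = mono f := by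
  classical
  ext ⟨v, a⟩
  rw [tn_mono_apply]
  by_cases ha : f v = a
  · rw [if_pos ha, ← ha]
    exact le_antisymm ((Finset.single_le_sum (f := fun a => m (v, a))
      (fun _ _ => Nat.zero_le _) (Finset.mem_univ _)).trans (hrow v)) (h v)
  · rw [if_neg ha]
    have h1 : m (v, f v) + m (v, a) ≤ 1 := by
      rw [← Finset.sum_pair (f := fun a => m (v, a)) ha]
      exact (Finset.sum_le_sum_of_subset (Finset.subset_univ _)).trans (hrow v)
    have h2 := h v
    omega

end circ

/-- **TrN.** -/
theorem thm_TrN : St_TrN := by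
  classical
  intro V D _ _ T X hT hX
  obtain ⟨Q, c, hQ⟩ := tn_main T hT T.n le_rfl
  have hval : ∀ x, T.F T.out x = tnVal (Q T.out) (c T.out) x := (hQ T.out hT.1).2
  have hfin : X.Finite := Set.toFinite X
  have hge : ∀ m ∈ (Q T.out).support, ∀ x : V × D → ℝ,
      ((c T.out m + tnDot m x : ℝ) : WithBot ℝ) ≤ T.F T.out x := fun m hm x => by
    rw [hval]
    exact Finset.le_sup (f := fun m => ((c T.out m + tnDot m x : ℝ) : WithBot ℝ)) hm
  -- (a)
  have ha : ∀ m ∈ (Q T.out).support, ∀ x : V × D → ℝ, (∀ p, 0 ≤ x p) →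
      ∃ f ∈ X, tnDot m x ≤ ∑ v, x (v, f v) := by
    intro m hm x hx
    by_contra hcon
    push Not at hcon
    obtain ⟨M, hM, hXM⟩ : ∃ M, M < tnDot m x ∧ ∀ f ∈ X, ∑ v, x (v, f v) ≤ M := by
      rcases X.eq_empty_or_nonempty with h0 | h0
      · exact ⟨tnDot m x - 1, by linarith, fun f hf => by simp [h0] at hf⟩
      · obtain ⟨f, hf, hmax⟩ := Set.exists_max_image X (fun f => ∑ v, x (v, f v)) hfin h0
        exact ⟨_, hcon f hf, hmax⟩
    let s : ℝ := (|c T.out m| + 1) / (tnDot m x - M)
    have hd : 0 < tnDot m x - M := by linarith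
    have hs : 0 < s := div_pos (by positivity) hd
    have h1 := hX (fun p => s * x p) (fun p => mul_nonneg hs.le (hx p))
    have h2 : T.F T.out (fun p => s * x p) ≤ ((s * M : ℝ) : WithBot ℝ) := by
      refine h1.2 ?_
      rintro y ⟨f, hf, rfl⟩
      rw [WithBot.coe_le_coe, ← Finset.mul_sum]
      exact mul_le_mul_of_nonneg_left (hXM f hf) hs.le
    have h3 := (hge m hm (fun p => s * x p)).trans h2
    rw [WithBot.coe_le_coe] at h3
    have h4 : tnDot m (fun p => s * x p) = s * tnDot m x := by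
      unfold tnDot
      rw [Finset.mul_sum]
      exact Finset.sum_congr rfl fun p _ => by ring
    rw [h4] at h3
    have h5 : s * (tnDot m x - M) = |c T.out m| + 1 := div_mul_cancel₀ _ hd.ne'
    have h6 := neg_abs_le (c T.out m)
    nlinarith
  have hrow : ∀ m ∈ (Q T.out).support, ∀ v, ∑ a, m (v, a) ≤ 1 := by
    intro m hm v
    obtain ⟨f, -, h⟩ := ha m hm (fun p => if p.1 = v then 1 else 0)
      (fun p => by split_ifs <;> norm_num)
    have h1 : ∑ u, (if (u, f u).1 = v then (1 : ℝ) else 0) = 1 := by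
      simp
    have h2 : tnDot m (fun p => if p.1 = v then 1 else 0) = ((∑ a, m (v, a) : ℕ) : ℝ) := by
      unfold tnDot
      rw [Fintype.sum_prod_type, Finset.sum_eq_single v]
      · push_cast
        refine Finset.sum_congr rfl fun a _ => ?_
        simp
      · intro u _ hu
        refine Finset.sum_eq_zero fun a _ => ?_
        simp [hu]
      · intro h
        exact absurd (Finset.mem_univ _) h
    rw [h1, h2] at h
    exact_mod_cast h
  have hdeg : ∀ m ∈ (Q T.out).support, m.degree ≤ Fintype.card V := by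
    intro m hm
    rw [tn_degree]
    calc ∑ v, ∑ a, m (v, a) ≤ ∑ _v : V, 1 := Finset.sum_le_sum fun v _ => hrow m hm v
      _ = Fintype.card V := by simp
  have htop : ∀ m ∈ (Q T.out).support, m.degree = Fintype.card V → ∃ g : V → D, m = mono g := by
    intro m hm h
    have h1 : ∀ v, ∑ a, m (v, a) = 1 := by
      rw [tn_degree] at h
      have h2 : ∑ v, ∑ a, m (v, a) = ∑ _v : V, 1 := by
        rw [h]
        simp
      intro v
      exact (Finset.sum_eq_sum_iff_of_le fun v _ => hrow m hm v).1 h2 v (Finset.mem_univ v)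
    have h2 : ∀ v, ∃ a, 1 ≤ m (v, a) := by
      intro v
      by_contra hcon
      push Not at hcon
      have h3 : ∑ a, m (v, a) = 0 := Finset.sum_eq_zero fun a _ => by
        have := hcon a
        omega
      rw [h1 v] at h3
      exact one_ne_zero h3
    choose g hg using h2
    exact ⟨g, tn_eq_mono m (hrow m hm) g hg⟩
  refine ⟨⟨T.n, Q, T.ch, T.out⟩, ⟨hT.1, fun i hi => ⟨(hT.2 i hi).1, (hQ i hi).1⟩⟩, hdeg, ?_,
    le_rfl⟩
  intro m
  constructor
  · rintro ⟨hm, hd⟩
    obtain ⟨g, rfl⟩ := htop m hm hd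
    obtain ⟨f, hf, h⟩ := ha (mono g) hm (fun p => (mono g p : ℝ)) (fun p => Nat.cast_nonneg _)
    refine ⟨f, hf, ?_⟩
    congr 1
    have h1 : tnDot (mono g) (fun p => (mono g p : ℝ)) = Fintype.card V := by
      unfold tnDot
      rw [Fintype.sum_prod_type]
      have h2 : ∀ v : V, ∑ a : D, ((mono g (v, a) : ℕ) : ℝ) * ((mono g (v, a) : ℕ) : ℝ) = 1 := by
        intro v
        rw [Finset.sum_eq_single (g v)]
        · rw [tn_mono_apply, if_pos rfl]
          norm_num
        · intro a _ hne
          rw [tn_mono_apply, if_neg (Ne.symm hne)]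
          norm_num
        · intro h
          exact absurd (Finset.mem_univ _) h
      simp only [h2]
      simp
    rw [h1] at h
    have h3 : ∀ v, ((mono g (v, f v) : ℕ) : ℝ) ≤ 1 := fun v => by
      rw [tn_mono_apply]
      split_ifs <;> norm_num
    have h4 : ∑ v, ((mono g (v, f v) : ℕ) : ℝ) = ∑ _v : V, (1 : ℝ) := by
      refine le_antisymm (Finset.sum_le_sum fun v _ => h3 v) ?_
      simpa using h
    have h5 := (Finset.sum_eq_sum_iff_of_le fun v _ => h3 v).1 h4
    funext v
    have h6 := h5 v (Finset.mem_univ v)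
    rw [tn_mono_apply] at h6
    by_contra hne
    rw [if_neg hne] at h6
    norm_num at h6
  · rintro ⟨f, hf, rfl⟩
    refine ⟨?_, tn_degree_mono f⟩
    by_contra hnot
    have hle : ∀ m ∈ (Q T.out).support, tnDot m (fun p => (mono f p : ℝ)) ≤
        (Fintype.card V : ℝ) - 1 := by
      intro m hm
      have h1 : tnDot m (fun p => (mono f p : ℝ)) = ((∑ v, m (v, f v) : ℕ) : ℝ) := by
        unfold tnDot
        rw [Fintype.sum_prod_type]
        push_cast
        refine Finset.sum_congr rfl fun v _ => ?_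
        rw [Finset.sum_eq_single (f v)]
        · rw [tn_mono_apply, if_pos rfl]
          norm_num
        · intro a _ hne
          rw [tn_mono_apply, if_neg (Ne.symm hne)]
          norm_num
        · intro h
          exact absurd (Finset.mem_univ _) h
      have hone : ∀ v, m (v, f v) ≤ 1 := fun v =>
        (Finset.single_le_sum (f := fun a => m (v, a)) (fun _ _ => Nat.zero_le _)
          (Finset.mem_univ _)).trans (hrow m hm v)
      have h2 : ∑ v, m (v, f v) < Fintype.card V := by
        have h3 : ∃ v, m (v, f v) < 1 := by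
          by_contra hcon
          push Not at hcon
          exact hnot (tn_eq_mono m (hrow m hm) f hcon ▸ hm)
        obtain ⟨v, hv⟩ := h3
        calc ∑ v, m (v, f v) < ∑ _v : V, 1 :=
              Finset.sum_lt_sum (fun v _ => hone v) ⟨v, Finset.mem_univ _, hv⟩
          _ = Fintype.card V := by simp
      rw [h1]
      have h4 : ((∑ v, m (v, f v) : ℕ) : ℝ) + 1 ≤ (Fintype.card V : ℝ) := by exact_mod_cast h2
      linarith
    let K : ℝ := ∑ m ∈ (Q T.out).support, |c T.out m|
    have hK : ∀ m ∈ (Q T.out).support, c T.out m ≤ K := fun m hm =>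
      (le_abs_self _).trans (Finset.single_le_sum (f := fun m => |c T.out m|)
        (fun _ _ => abs_nonneg _) hm)
    have hK0 : 0 ≤ K := Finset.sum_nonneg fun _ _ => abs_nonneg _
    have hs : 0 < K + 1 := by linarith
    have h1 := hX (fun p => (K + 1) * (mono f p : ℝ))
      (fun p => mul_nonneg hs.le (Nat.cast_nonneg _))
    have h2 : (((K + 1) * Fintype.card V : ℝ) : WithBot ℝ) ≤
        T.F T.out (fun p => (K + 1) * (mono f p : ℝ)) := by
      refine h1.1 ⟨f, hf, ?_⟩
      congr 1
      rw [← Finset.mul_sum]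
      congr 1
      have h3 : ∀ v : V, ((mono f (v, f v) : ℕ) : ℝ) = 1 := fun v => by
        rw [tn_mono_apply, if_pos rfl]
        norm_num
      simp only [h3]
      simp
    rw [hval] at h2
    have hne : (Q T.out).support.Nonempty := by
      rw [Finset.nonempty_iff_ne_empty]
      intro h0
      unfold tnVal at h2
      rw [h0, Finset.sup_empty, le_bot_iff] at h2
      exact WithBot.coe_ne_bot h2
    obtain ⟨m, hm, e1⟩ := Finset.exists_mem_eq_sup (Q T.out).support hne
      (fun m => ((c T.out m + tnDot m (fun p => (K + 1) * (mono f p : ℝ)) : ℝ) : WithBot ℝ))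
    unfold tnVal at h2
    rw [e1, WithBot.coe_le_coe] at h2
    have h4 : tnDot m (fun p => (K + 1) * (mono f p : ℝ)) =
        (K + 1) * tnDot m (fun p => (mono f p : ℝ)) := by
      unfold tnDot
      rw [Finset.mul_sum]
      exact Finset.sum_congr rfl fun p _ => by ring
    rw [h4] at h2
    have h5 := hle m hm
    have h6 := hK m hm
    nlinarith

end Pool.Agent.EXB
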