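import Mathlib
import Pool.Agent.EXB.StT

/-!
# EXB: module Trp, from (max, +) circuits to monotone arithmetic circuits
-/

set_option autoImplicit false

namespace Pool.Agent.EXB

open Finset

variable {V D : Type}

private noncomputable def lin [Fintype V] [Fintype D] (m : (V × D) →₀ ℕ) (x : V × D → ℝ) : ℝ :=
  ∑ p, (m p : ℝ) * x p

private theorem lin_add [Fintype V] [Fintype D] (m m' : (V × D) →₀ ℕ) (x : V × D → ℝ) :
    lin (m + m') x = lin m x + lin m' x := by
  unfold lin
  rw [← Finset.sum_add_distrib]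
  refine Finset.sum_congr rfl fun p _ => ?_
  rw [Finsupp.add_apply]
  push_cast
  ring

private theorem lin_smul [Fintype V] [Fintype D] (m : (V × D) →₀ ℕ) (s : ℝ) (x : V × D → ℝ) :
    lin m (fun p => s * x p) = s * lin m x := by
  unfold lin
  rw [Finset.mul_sum]
  refine Finset.sum_congr rfl fun p _ => ?_
  ring

private def Rep [Fintype V] [Fintype D] (F : (V × D → ℝ) → WithBot ℝ)
    (P : MvPolynomial (V × D) NNReal) : Prop :=
  ∃ c : ((V × D) →₀ ℕ) → ℝ, ∀ x, F x = P.support.sup fun m => ((c m + lin m x : ℝ) : WithBot ℝ)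

private theorem rep_bot [Fintype V] [Fintype D] :
    Rep (V := V) (D := D) (fun _ => ⊥) 0 := by
  refine ⟨fun _ => 0, fun x => ?_⟩
  rw [MvPolynomial.support_zero, Finset.sup_empty]

private theorem rep_const [Fintype V] [Fintype D] (a : ℝ) :
    Rep (V := V) (D := D) (fun _ => (a : WithBot ℝ)) (MvPolynomial.C 1) := by
  classical
  refine ⟨fun _ => a, fun x => ?_⟩
  have h : (MvPolynomial.C 1 : MvPolynomial (V × D) NNReal).support = {0} := by
    ext m
    rw [MvPolynomial.mem_support_iff, MvPolynomial.coeff_C, Finset.mem_singleton]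
    by_cases hm : 0 = m
    · simp [hm.symm]
    · simp [hm, Ne.symm hm]
  rw [h, Finset.sup_singleton]
  simp [lin]

private theorem rep_X [Fintype V] [Fintype D] (p : V × D) :
    Rep (V := V) (D := D) (fun x => (x p : WithBot ℝ)) (MvPolynomial.X p) := by
  classical
  refine ⟨fun _ => 0, fun x => ?_⟩
  rw [MvPolynomial.support_X, Finset.sup_singleton]
  simp [lin, Finsupp.single_apply]

private theorem mem_add (P Q : MvPolynomial (V × D) NNReal) (m : (V × D) →₀ ℕ) :
    m ∈ (P + Q).support ↔ m ∈ P.support ∨ m ∈ Q.support := by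
  rw [MvPolynomial.mem_support_iff, MvPolynomial.mem_support_iff, MvPolynomial.mem_support_iff,
    MvPolynomial.coeff_add]
  constructor
  · intro h
    by_contra hc
    push Not at hc
    apply h
    rw [hc.1, hc.2, add_zero]
  · rintro (h | h) h'
    · exact h (add_eq_zero.1 h').1
    · exact h (add_eq_zero.1 h').2

private theorem mem_mul (P Q : MvPolynomial (V × D) NNReal) (m : (V × D) →₀ ℕ) :
    m ∈ (P * Q).support ↔ ∃ a ∈ P.support, ∃ b ∈ Q.support, a + b = m := by
  classical
  rw [MvPolynomial.mem_support_iff, MvPolynomial.coeff_mul]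
  constructor
  · intro h
    obtain ⟨q, hq, hq'⟩ := Finset.exists_ne_zero_of_sum_ne_zero h
    refine ⟨q.1, ?_, q.2, ?_, Finset.HasAntidiagonal.mem_antidiagonal.1 hq⟩
    · rw [MvPolynomial.mem_support_iff]
      exact left_ne_zero_of_mul hq'
    · rw [MvPolynomial.mem_support_iff]
      exact right_ne_zero_of_mul hq'
  · rintro ⟨a, ha, b, hb, hab⟩ h
    rw [MvPolynomial.mem_support_iff] at ha hb
    have h1 := Finset.sum_eq_zero_iff.1 h (a, b) (Finset.HasAntidiagonal.mem_antidiagonal.2 hab)
    exact mul_ne_zero ha hb h1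

private theorem rep_sup [Fintype V] [Fintype D] {F G : (V × D → ℝ) → WithBot ℝ}
    {P Q : MvPolynomial (V × D) NNReal} (hF : Rep F P) (hG : Rep G Q) :
    Rep (fun x => F x ⊔ G x) (P + Q) := by
  classical
  obtain ⟨c, hc⟩ := hF
  obtain ⟨d, hd⟩ := hG
  refine ⟨fun m => if m ∈ P.support then (if m ∈ Q.support then max (c m) (d m) else c m)
    else d m, fun x => ?_⟩
  show F x ⊔ G x = _
  rw [hc, hd]
  refine le_antisymm (sup_le ?_ ?_) ?_
  · refine Finset.sup_le fun m hm => ?_
    refine le_trans ?_ (Finset.le_sup ((mem_add P Q m).2 (Or.inl hm)))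
    rw [WithBot.coe_le_coe]
    beta_reduce
    rw [if_pos hm]
    split_ifs
    · have := le_max_left (c m) (d m)
      linarith
    · exact le_refl _
  · refine Finset.sup_le fun m hm => ?_
    refine le_trans ?_ (Finset.le_sup ((mem_add P Q m).2 (Or.inr hm)))
    rw [WithBot.coe_le_coe]
    beta_reduce
    rw [if_pos hm]
    split_ifs
    · have := le_max_right (c m) (d m)
      linarith
    · exact le_refl _
  · refine Finset.sup_le fun m hm => ?_
    beta_reduce
    by_cases h1 : m ∈ P.support
    · rw [if_pos h1]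
      by_cases h2 : m ∈ Q.support
      · rw [if_pos h2]
        rcases max_cases (c m) (d m) with ⟨h3, -⟩ | ⟨h3, -⟩
        · rw [h3]
          exact le_trans (Finset.le_sup (f := fun m => ((c m + lin m x : ℝ) : WithBot ℝ)) h1)
            le_sup_left
        · rw [h3]
          exact le_trans (Finset.le_sup (f := fun m => ((d m + lin m x : ℝ) : WithBot ℝ)) h2)
            le_sup_right
      · rw [if_neg h2]
        exact le_trans (Finset.le_sup (f := fun m => ((c m + lin m x : ℝ) : WithBot ℝ)) h1)
          le_sup_left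
    · rw [if_neg h1]
      have h2 : m ∈ Q.support := ((mem_add P Q m).1 hm).resolve_left h1
      exact le_trans (Finset.le_sup (f := fun m => ((d m + lin m x : ℝ) : WithBot ℝ)) h2)
        le_sup_right

private theorem rep_add [Fintype V] [Fintype D] {F G : (V × D → ℝ) → WithBot ℝ}
    {P Q : MvPolynomial (V × D) NNReal} (hF : Rep F P) (hG : Rep G Q) :
    Rep (fun x => F x + G x) (P * Q) := by
  classical
  obtain ⟨c, hc⟩ := hF
  obtain ⟨d, hd⟩ := hG
  have key : ∀ m ∈ (P * Q).support, ∃ e : ℝ, (∃ a ∈ P.support, ∃ b ∈ Q.support, a + b = m ∧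
      e = c a + d b) ∧ ∀ a ∈ P.support, ∀ b ∈ Q.support, a + b = m → c a + d b ≤ e := by
    intro m hm
    obtain ⟨a, ha, b, hb, hab⟩ := (mem_mul P Q m).1 hm
    obtain ⟨q, hq, hq'⟩ := Finset.exists_max_image
      ((P.support ×ˢ Q.support).filter fun q => q.1 + q.2 = m) (fun q => c q.1 + d q.2)
      ⟨(a, b), by
        rw [Finset.mem_filter, Finset.mem_product]
        exact ⟨⟨ha, hb⟩, hab⟩⟩
    rw [Finset.mem_filter, Finset.mem_product] at hq
    refine ⟨c q.1 + d q.2, ⟨q.1, hq.1.1, q.2, hq.1.2, hq.2, rfl⟩, ?_⟩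
    intro a ha b hb hab
    exact hq' (a, b) (by
      rw [Finset.mem_filter, Finset.mem_product]
      exact ⟨⟨ha, hb⟩, hab⟩)
  choose! e he he' using key
  refine ⟨e, fun x => ?_⟩
  show F x + G x = _
  rw [hc, hd]
  refine le_antisymm ?_ ?_
  · rcases P.support.eq_empty_or_nonempty with h1 | h1
    · rw [h1, Finset.sup_empty, WithBot.bot_add]
      exact bot_le
    · rcases Q.support.eq_empty_or_nonempty with h2 | h2
      · rw [h2, Finset.sup_empty, WithBot.add_bot]
        exact bot_le
      · obtain ⟨a, ha, ha'⟩ := Finset.exists_mem_eq_sup P.support h1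
          (fun m => ((c m + lin m x : ℝ) : WithBot ℝ))
        obtain ⟨b, hb, hb'⟩ := Finset.exists_mem_eq_sup Q.support h2
          (fun m => ((d m + lin m x : ℝ) : WithBot ℝ))
        rw [ha', hb', ← WithBot.coe_add]
        have h3 : a + b ∈ (P * Q).support := (mem_mul P Q _).2 ⟨a, ha, b, hb, rfl⟩
        refine le_trans ?_ (Finset.le_sup h3)
        rw [WithBot.coe_le_coe, lin_add]
        have := he' (a + b) h3 a ha b hb rfl
        linarith
  · refine Finset.sup_le fun m hm => ?_
    obtain ⟨a, ha, b, hb, hab, h3⟩ := he m hm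
    have h4 : ((e m + lin m x : ℝ) : WithBot ℝ) =
        ((c a + lin a x : ℝ) : WithBot ℝ) + ((d b + lin b x : ℝ) : WithBot ℝ) := by
      rw [← WithBot.coe_add, h3, ← hab, lin_add]
      congr 1
      ring
    rw [h4]
    exact add_le_add (Finset.le_sup (f := fun m => ((c m + lin m x : ℝ) : WithBot ℝ)) ha)
      (Finset.le_sup (f := fun m => ((d m + lin m x : ℝ) : WithBot ℝ)) hb)

private theorem rep_list_sup [Fintype V] [Fintype D] (F : ℕ → (V × D → ℝ) → WithBot ℝ)
    (P : ℕ → MvPolynomial (V × D) NNReal) (l : List ℕ) (h : ∀ j ∈ l, Rep (F j) (P j)) :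
    Rep (fun x => l.toFinset.sup fun j => F j x) (l.map P).sum := by
  induction l with
  | nil =>
    simp only [List.toFinset_nil, Finset.sup_empty, List.map_nil, List.sum_nil]
    exact rep_bot
  | cons a l ih =>
    simp only [List.toFinset_cons, Finset.sup_insert, List.map_cons, List.sum_cons]
    exact rep_sup (h a (List.mem_cons_self ..)) (ih fun j hj => h j (List.mem_cons_of_mem _ hj))

private theorem rep_list_sum [Fintype V] [Fintype D] (F : ℕ → (V × D → ℝ) → WithBot ℝ)
    (P : ℕ → MvPolynomial (V × D) NNReal) (l : List ℕ) (h : ∀ j ∈ l, Rep (F j) (P j)) :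
    Rep (fun x => (l.map fun j => F j x).sum) (l.map P).prod := by
  induction l with
  | nil =>
    simp only [List.map_nil, List.sum_nil, List.prod_nil]
    have := rep_const (V := V) (D := D) 0
    rw [WithBot.coe_zero, map_one] at this
    exact this
  | cons a l ih =>
    simp only [List.map_cons, List.sum_cons, List.prod_cons]
    exact rep_add (h a (List.mem_cons_self ..)) (ih fun j hj => h j (List.mem_cons_of_mem _ hj))

/-- the polynomials of the gates -/
private theorem exists_P [Fintype V] [Fintype D] (T : MaxPlus V D) (hT : T.Ok) :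
    ∀ k ≤ T.n, ∃ P : ℕ → MvPolynomial (V × D) NNReal, ∀ i < k,
      ((T.ch i = [] ∧ ∃ c, P i = MvPolynomial.C c) ∨
        (T.ch i = [] ∧ ∃ p, P i = MvPolynomial.X p) ∨
        P i = ((T.ch i).map P).sum ∨ P i = ((T.ch i).map P).prod) ∧ Rep (T.F i) (P i) := by
  classical
  intro k
  induction k with
  | zero => exact fun _ => ⟨fun _ => 0, fun i hi => absurd hi (Nat.not_lt_zero i)⟩
  | succ k ih =>
    intro hk
    obtain ⟨P, hP⟩ := ih (by omega)
    obtain ⟨hch, hg⟩ := hT.2 k (by omega)
    -- the new polynomial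
    obtain ⟨p, hp, hp'⟩ : ∃ p : MvPolynomial (V × D) NNReal,
        ((T.ch k = [] ∧ ∃ c, p = MvPolynomial.C c) ∨
        (T.ch k = [] ∧ ∃ q, p = MvPolynomial.X q) ∨
        p = ((T.ch k).map P).sum ∨ p = ((T.ch k).map P).prod) ∧ Rep (T.F k) p := by
      rcases hg with ⟨h1, c, h2⟩ | ⟨h1, q, h2⟩ | h2 | h2
      · have h3 : T.F k = fun _ => c := funext h2
        rw [h3]
        induction c using WithBot.recBotCoe with
        | bot => exact ⟨0, Or.inl ⟨h1, 0, (map_zero _).symm⟩, rep_bot⟩
        | coe a => exact ⟨MvPolynomial.C 1, Or.inl ⟨h1, 1, rfl⟩, rep_const a⟩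
      · have h3 : T.F k = fun x => (x q : WithBot ℝ) := funext h2
        rw [h3]
        exact ⟨MvPolynomial.X q, Or.inr (Or.inl ⟨h1, q, rfl⟩), rep_X q⟩
      · have h3 : T.F k = fun x => (T.ch k).toFinset.sup fun j => T.F j x := funext h2
        rw [h3]
        exact ⟨_, Or.inr (Or.inr (Or.inl rfl)),
          rep_list_sup T.F P (T.ch k) fun j hj => (hP j (hch j hj)).2⟩
      · have h3 : T.F k = fun x => ((T.ch k).map fun j => T.F j x).sum := funext h2
        rw [h3]
        exact ⟨_, Or.inr (Or.inr (Or.inr rfl)),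
          rep_list_sum T.F P (T.ch k) fun j hj => (hP j (hch j hj)).2⟩
    refine ⟨Function.update P k p, fun i hi => ?_⟩
    have hmap : ∀ i ≤ k, (T.ch i).map (Function.update P k p) = (T.ch i).map P := by
      intro i hi
      refine List.map_congr_left fun j hj => ?_
      have h1 := (hT.2 i (by omega)).1 j hj
      rw [Function.update_of_ne (by omega)]
    rw [hmap i (by omega)]
    rcases Nat.lt_succ_iff_lt_or_eq.1 hi with h1 | h1
    · rw [Function.update_of_ne (by omega)]
      exact hP i h1
    · subst h1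
      rw [Function.update_self]
      exact ⟨hp, hp'⟩

private theorem mono_apply [Fintype V] (f : V → D) (v : V) (a : D) [Decidable (f v = a)] :
    mono f (v, a) = if f v = a then 1 else 0 := by
  classical
  rw [mono, Finsupp.finsetSum_apply]
  simp only [Finsupp.single_apply, Prod.mk.injEq]
  by_cases h : f v = a
  · rw [if_pos h, Finset.sum_eq_single v]
    · rw [if_pos ⟨rfl, h⟩]
    · intro b _ hb
      rw [if_neg]
      rintro ⟨h1, -⟩
      exact hb h1
    · intro h1
      exact absurd (Finset.mem_univ v) h1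
  · rw [if_neg h]
    refine Finset.sum_eq_zero fun b _ => ?_
    rw [if_neg]
    rintro ⟨h1, h2⟩
    rw [h1] at h2
    exact h h2

private theorem lin_mono [Fintype V] [Fintype D] (f : V → D) (x : V × D → ℝ) :
    lin (mono f) x = ∑ v, x (v, f v) := by
  classical
  unfold lin
  rw [Fintype.sum_prod_type]
  refine Finset.sum_congr rfl fun v _ => ?_
  simp only [mono_apply]
  rw [Finset.sum_eq_single (f v)]
  · simp
  · intro b _ hb
    simp [Ne.symm hb]
  · intro h
    exact absurd (Finset.mem_univ _) h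

/-- the two monomials have few common factors -/
private theorem lin_mono_mono [Fintype V] [Fintype D] (f g : V → D)
    (h : (Fintype.card V : ℝ) ≤ lin (mono g) (fun p => (mono f p : ℝ))) : f = g := by
  classical
  by_contra hc
  obtain ⟨v, hv⟩ := Function.ne_iff.1 hc
  rw [lin_mono] at h
  have h1 : ∑ u, ((mono f (u, g u) : ℕ) : ℝ) < ∑ _u : V, (1 : ℝ) := by
    refine Finset.sum_lt_sum (fun u _ => ?_) ⟨v, Finset.mem_univ v, ?_⟩
    · rw [mono_apply]
      split_ifs <;> simp
    · rw [mono_apply, if_neg hv]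
      simp
  rw [Finset.sum_const, nsmul_eq_mul, mul_one, Finset.card_univ] at h1
  linarith

theorem thm_Trp : St_Trp := by
  classical
  intro V D _ _ T X hT hX
  obtain ⟨P, hP⟩ := exists_P T hT T.n le_rfl
  refine ⟨⟨T.n, P, T.ch, T.out⟩, ⟨hT.1, fun i hi => ⟨(hT.2 i hi).1, (hP i hi).1⟩⟩, ?_, le_rfl⟩
  show ∀ m, m ∈ (P T.out).support ↔ ∃ f ∈ X, m = mono f
  obtain ⟨c, hc⟩ := (hP T.out hT.1).2
  have hfin : X.Finite := Set.toFinite X
  -- every monomial is at most the maximum
  have key : ∀ m ∈ (P T.out).support, ∀ x : V × D → ℝ, ∃ f ∈ X, lin m x ≤ lin (mono f) x := by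
    intro m hm x
    have hne : X.Nonempty := by
      by_contra h
      rw [Set.not_nonempty_iff_eq_empty] at h
      have h1 := hX x
      have h2 : {y : WithBot ℝ | ∃ f ∈ X, y = ((∑ v, x (v, f v) : ℝ) : WithBot ℝ)} = ∅ := by
        rw [h]
        ext y
        simp
      rw [h2, isLUB_empty_iff] at h1
      have h3 : ((c m + lin m x : ℝ) : WithBot ℝ) ≤ T.F T.out x := by
        rw [hc]
        exact Finset.le_sup (f := fun m => ((c m + lin m x : ℝ) : WithBot ℝ)) hm
      have h4 := h3.trans (h1 ⊥)
      rw [le_bot_iff] at h4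
      exact WithBot.coe_ne_bot h4
    obtain ⟨f, hf, hf'⟩ := Set.exists_max_image X (fun f => lin (mono f) x) hfin hne
    refine ⟨f, hf, ?_⟩
    by_contra hlt
    push Not at hlt
    -- scale
    obtain ⟨s, hs, hs'⟩ : ∃ s : ℝ, 0 < s ∧ s * lin (mono f) x < c m + s * lin m x := by
      refine ⟨(|c m| + 1) / (lin m x - lin (mono f) x), ?_, ?_⟩
      · have h1 := abs_nonneg (c m)
        have h2 : 0 < lin m x - lin (mono f) x := by linarith
        positivity
      · have h2 : 0 < lin m x - lin (mono f) x := by linarith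
        have h3 : (|c m| + 1) / (lin m x - lin (mono f) x) * (lin m x - lin (mono f) x) =
            |c m| + 1 := div_mul_cancel₀ _ h2.ne'
        have h4 := neg_abs_le (c m)
        nlinarith
    have h1 : T.F T.out (fun p => s * x p) ≤ ((s * lin (mono f) x : ℝ) : WithBot ℝ) := by
      refine (hX fun p => s * x p).2 ?_
      rintro y ⟨g, hg, rfl⟩
      rw [WithBot.coe_le_coe, ← lin_mono g (fun p => s * x p), lin_smul]
      exact mul_le_mul_of_nonneg_left (hf' g hg) hs.le
    have h2 : ((c m + lin m (fun p => s * x p) : ℝ) : WithBot ℝ) ≤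
        T.F T.out (fun p => s * x p) := by
      rw [hc]
      exact Finset.le_sup (f := fun m => ((c m + lin m (fun p => s * x p) : ℝ) : WithBot ℝ)) hm
    have h3 := h2.trans h1
    rw [WithBot.coe_le_coe, lin_smul] at h3
    linarith
  have keyA : ∀ m ∈ (P T.out).support, ∃ f ∈ X, m = mono f := by
    intro m hm
    -- the sums are one
    have h1 : ∀ v, ∑ a, m (v, a) = 1 := by
      intro v
      have e1 : ∀ (m : (V × D) →₀ ℕ) (t : ℝ), lin m (fun p => if p.1 = v then t else 0) =
          t * ((∑ a, m (v, a) : ℕ) : ℝ) := by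
        intro m t
        unfold lin
        rw [Fintype.sum_prod_type, Finset.sum_eq_single v]
        · simp only [if_true]
          rw [← Finset.sum_mul]
          push_cast
          ring
        · intro b _ hb
          refine Finset.sum_eq_zero fun a _ => ?_
          simp [hb]
        · intro h
          exact absurd (Finset.mem_univ v) h
      have e2 : ∀ f : V → D, ∑ a, mono f (v, a) = 1 := by
        intro f
        simp only [mono_apply]
        simp
      obtain ⟨f, -, h2⟩ := key m hm (fun p => if p.1 = v then 1 else 0)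
      obtain ⟨g, -, h3⟩ := key m hm (fun p => if p.1 = v then -1 else 0)
      rw [e1, e1, e2] at h2 h3
      have h4 : ((∑ a, m (v, a) : ℕ) : ℝ) ≤ ((1 : ℕ) : ℝ) := by linarith
      have h5 : ((1 : ℕ) : ℝ) ≤ ((∑ a, m (v, a) : ℕ) : ℝ) := by linarith
      exact le_antisymm (by exact_mod_cast h4) (by exact_mod_cast h5)
    have h2 : ∀ v, ∃ a, m (v, a) = 1 ∧ ∀ b, b ≠ a → m (v, b) = 0 := by
      intro v
      have h3 : ∑ a, m (v, a) ≠ 0 := by
        rw [h1]
        exact one_ne_zero
      obtain ⟨a, -, ha⟩ := Finset.exists_ne_zero_of_sum_ne_zero h3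
      have h4 := Finset.add_sum_erase Finset.univ (fun a => m (v, a)) (Finset.mem_univ a)
      rw [h1] at h4
      have h5 : ∑ x ∈ Finset.univ.erase a, m (v, x) = 0 := by omega
      refine ⟨a, by omega, fun b hb => ?_⟩
      exact Finset.sum_eq_zero_iff.1 h5 b (Finset.mem_erase.2 ⟨hb, Finset.mem_univ b⟩)
    choose g hg hg' using h2
    have h3 : m = mono g := by
      ext ⟨v, a⟩
      rw [mono_apply]
      by_cases h : g v = a
      · rw [if_pos h, ← h, hg]
      · rw [if_neg h]
        exact hg' v a (Ne.symm h)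
    obtain ⟨f, hf, h4⟩ := key m hm (fun p => (m p : ℝ))
    refine ⟨g, ?_, h3⟩
    rw [h3] at h4
    have h5 : lin (mono g) (fun p => ((mono g) p : ℝ)) = Fintype.card V := by
      rw [lin_mono]
      simp [mono_apply]
    rw [h5] at h4
    have h6 := lin_mono_mono g f h4
    rw [h6]
    exact hf
  intro m
  refine ⟨keyA m, ?_⟩
  rintro ⟨f, hf, rfl⟩
  by_contra hm
  obtain ⟨s, hs, hs'⟩ : ∃ s : ℝ, 0 < s ∧ ∀ m ∈ (P T.out).support, c m < s := by
    refine ⟨1 + ∑ m ∈ (P T.out).support, |c m|, ?_, ?_⟩
    · have : 0 ≤ ∑ m ∈ (P T.out).support, |c m| := Finset.sum_nonneg fun _ _ => abs_nonneg _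
      linarith
    · intro m hm
      have h1 := Finset.single_le_sum (f := fun m => |c m|) (fun _ _ => abs_nonneg _) hm
      have h2 := le_abs_self (c m)
      linarith
  have h1 : ((s * Fintype.card V : ℝ) : WithBot ℝ) ≤
      T.F T.out (fun p => s * (mono f p : ℝ)) := by
    refine (hX fun p => s * (mono f p : ℝ)).1 ⟨f, hf, ?_⟩
    congr 1
    rw [← lin_mono f (fun p => s * (mono f p : ℝ)), lin_smul, lin_mono]
    simp [mono_apply]
  rw [hc] at h1
  rcases (P T.out).support.eq_empty_or_nonempty with h2 | h2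
  · rw [h2, Finset.sup_empty, le_bot_iff] at h1
    exact WithBot.coe_ne_bot h1
  · obtain ⟨m, hm', hm''⟩ := Finset.exists_mem_eq_sup (P T.out).support h2
      (fun m => ((c m + lin m (fun p => s * (mono f p : ℝ)) : ℝ) : WithBot ℝ))
    rw [hm'', WithBot.coe_le_coe, lin_smul] at h1
    obtain ⟨g, -, rfl⟩ := keyA m hm'
    have h3 := hs' _ hm'
    have h4 : lin (mono g) (fun p => (mono f p : ℝ)) ≤ Fintype.card V - 1 := by
      have h5 : f ≠ g := by
        rintro rfl
        exact hm hm'
      obtain ⟨v, hv⟩ := Function.ne_iff.1 h5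
      rw [lin_mono]
      have h6 : ∑ u, ((mono f (u, g u) : ℕ) : ℝ) + 1 ≤ ∑ _u : V, (1 : ℝ) := by
        rw [← Finset.add_sum_erase Finset.univ _ (Finset.mem_univ v),
          ← Finset.add_sum_erase Finset.univ (fun _ : V => (1 : ℝ)) (Finset.mem_univ v)]
        have h7 : ((mono f (v, g v) : ℕ) : ℝ) = 0 := by
          rw [mono_apply, if_neg hv]
          simp
        have h8 : ∑ u ∈ Finset.univ.erase v, ((mono f (u, g u) : ℕ) : ℝ) ≤
            ∑ _u ∈ Finset.univ.erase v, (1 : ℝ) := by
          refine Finset.sum_le_sum fun u _ => ?_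
          rw [mono_apply]
          split_ifs <;> simp
        linarith
      rw [Finset.sum_const, nsmul_eq_mul, mul_one, Finset.card_univ] at h6
      linarith
    nlinarith

end Pool.Agent.EXB
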