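import Pool.Agent.EXB.Bld

/-!
# EXB: union of circuits
-/

set_option autoImplicit false

namespace Pool.Agent.EXB

/-- union of circuits -/
theorem thm_Uni : St_Uni := by
  classical
  intro V D _ n B X hQ hX
  choose Q hOk hDet hsc hout hsize using hQ
  let I : Type := (Σ a : Fin n, Fin (Q a).n) ⊕ Unit
  let N : ℕ := ∑ a, (Q a).n
  have hN : ∀ a, (Q a).n ≤ N := fun a =>
    Finset.single_le_sum (f := fun a => (Q a).n) (fun _ _ => Nat.zero_le _) (Finset.mem_univ a)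
  let rk : I → ℕ := fun x => Sum.elim (fun y => (y.2 : ℕ)) (fun _ => N) x
  let sc : I → Finset V := fun x => Sum.elim (fun y => (Q y.1).sc y.2) (fun _ => Finset.univ) x
  let Z : I → Set (V → D) := fun x => Sum.elim (fun y => (Q y.1).X y.2) (fun _ => ⋃ a, X a) x
  let fl : (a : Fin n) → ℕ → Finset (Fin (Q a).n) := fun a i =>
    Finset.univ.filter fun j => (j : ℕ) ∈ (Q a).ch i
  let ch : I → Finset I := fun x => Sum.elim
    (fun y => (fl y.1 y.2).image fun j => (Sum.inl ⟨y.1, j⟩ : I))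
    (fun _ => Finset.univ.image fun a => (Sum.inl ⟨a, ⟨(Q a).out, (hOk a).1⟩⟩ : I)) x
  have hmem : ∀ (a : Fin n) (i : Fin (Q a).n) (x : I), x ∈ ch (Sum.inl ⟨a, i⟩) ↔
      ∃ j : Fin (Q a).n, (j : ℕ) ∈ (Q a).ch i ∧ (Sum.inl ⟨a, j⟩ : I) = x := by
    intro a i x
    show x ∈ (fl a i).image (fun j => (Sum.inl ⟨a, j⟩ : I)) ↔ _
    simp [fl]
  have hmemr : ∀ x : I, x ∈ ch (Sum.inr ()) ↔
      ∃ a : Fin n, (Sum.inl ⟨a, ⟨(Q a).out, (hOk a).1⟩⟩ : I) = x := by
    intro x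
    show x ∈ Finset.univ.image (fun a => (Sum.inl ⟨a, ⟨(Q a).out, (hOk a).1⟩⟩ : I)) ↔ _
    simp
  have hg1 : ∀ i, ∀ j ∈ ch i, rk j < rk i ∧ sc j ⊆ sc i := by
    rintro (⟨a, i⟩ | ⟨⟩) j hj
    · obtain ⟨j', h, rfl⟩ := (hmem a i j).1 hj
      exact ((hOk a).2 i i.2).1 j' h
    · obtain ⟨a, rfl⟩ := (hmemr j).1 hj
      refine ⟨?_, Finset.subset_univ _⟩
      show (Q a).out < N
      exact (hOk a).1.trans_le (hN a)
  have hg2 : ∀ i, (ch i = ∅ ∧ (sc i).card ≤ 1 ∧ DepOn (sc i) (Z i)) ∨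
      (((∀ j ∈ ch i, ∀ j' ∈ ch i, j ≠ j' → Disjoint (sc j) (sc j')) ∧
        ∀ f, f ∈ Z i ↔ ∀ j ∈ ch i, f ∈ Z j) ∧ ∀ v ∈ sc i, ∃ j ∈ ch i, v ∈ sc j) ∨
      ((∀ f, f ∈ Z i ↔ ∃ j ∈ ch i, f ∈ Z j) ∧ (∀ j ∈ ch i, sc j = sc i) ∧
        ∀ j ∈ ch i, ∀ j' ∈ ch i, j ≠ j' → Disjoint (Z j) (Z j')) := by
    rintro (⟨a, i⟩ | ⟨⟩)
    · rcases hDet a i i.2 with ⟨h5, h6, h7⟩ | ⟨⟨h5, h6⟩, h7⟩ | ⟨h5, h7, h6⟩
      · refine Or.inl ⟨?_, h6, h7⟩
        rw [Finset.eq_empty_iff_forall_notMem]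
        intro x hx
        obtain ⟨j, hj, -⟩ := (hmem a i x).1 hx
        rw [h5] at hj
        exact absurd hj (Finset.notMem_empty _)
      · refine Or.inr (Or.inl ⟨⟨fun x hx y hy hxy => ?_, fun f => ?_⟩, fun v hv => ?_⟩)
        · obtain ⟨j, hj, rfl⟩ := (hmem a i x).1 hx
          obtain ⟨j', hj', rfl⟩ := (hmem a i y).1 hy
          refine h5 j hj j' hj' fun h => hxy ?_
          rw [Fin.val_injective h]
        · show f ∈ (Q a).X i ↔ _
          rw [h6 f]
          constructor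
          · intro h x hx
            obtain ⟨j, hj, rfl⟩ := (hmem a i x).1 hx
            exact h j hj
          · intro h j hj
            exact h (Sum.inl ⟨a, ⟨j, (((hOk a).2 i i.2).1 j hj).1.trans i.2⟩⟩)
              ((hmem a i _).2 ⟨_, hj, rfl⟩)
        · obtain ⟨j, hj, hvj⟩ := h7 v hv
          exact ⟨Sum.inl ⟨a, ⟨j, (((hOk a).2 i i.2).1 j hj).1.trans i.2⟩⟩,
            (hmem a i _).2 ⟨_, hj, rfl⟩, hvj⟩
      · refine Or.inr (Or.inr ⟨fun f => ?_, fun x hx => ?_, fun x hx y hy hxy => ?_⟩)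
        · show f ∈ (Q a).X i ↔ _
          rw [h5 f]
          constructor
          · rintro ⟨j, hj, h⟩
            exact ⟨Sum.inl ⟨a, ⟨j, (((hOk a).2 i i.2).1 j hj).1.trans i.2⟩⟩,
              (hmem a i _).2 ⟨_, hj, rfl⟩, h⟩
          · rintro ⟨x, hx, h⟩
            obtain ⟨j, hj, rfl⟩ := (hmem a i x).1 hx
            exact ⟨j, hj, h⟩
        · obtain ⟨j, hj, rfl⟩ := (hmem a i x).1 hx
          exact h7 j hj
        · obtain ⟨j, hj, rfl⟩ := (hmem a i x).1 hx
          obtain ⟨j', hj', rfl⟩ := (hmem a i y).1 hy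
          refine h6 j hj j' hj' fun h => hxy ?_
          rw [Fin.val_injective h]
    · refine Or.inr (Or.inr ⟨fun f => ?_, fun x hx => ?_, fun x hx y hy hxy => ?_⟩)
      · show f ∈ ⋃ a, X a ↔ _
        rw [Set.mem_iUnion]
        constructor
        · rintro ⟨a, ha⟩
          refine ⟨_, (hmemr _).2 ⟨a, rfl⟩, ?_⟩
          show f ∈ (Q a).X (Q a).out
          rw [hout]
          exact ha
        · rintro ⟨x, hx, h⟩
          obtain ⟨a, rfl⟩ := (hmemr x).1 hx
          refine ⟨a, ?_⟩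
          have h' : f ∈ (Q a).X (Q a).out := h
          rwa [hout] at h'
      · obtain ⟨a, rfl⟩ := (hmemr x).1 hx
        exact hsc a
      · obtain ⟨a, rfl⟩ := (hmemr x).1 hx
        obtain ⟨b, rfl⟩ := (hmemr y).1 hy
        show Disjoint ((Q a).X (Q a).out) ((Q b).X (Q b).out)
        rw [hout, hout]
        exact hX a b fun h => hxy (by subst h; rfl)
  obtain ⟨P, h1, h2, h0, h3, h4⟩ := thm_Bld V D I rk sc Z ch (Sum.inr ()) hg1 hg2
  refine ⟨P, h1, h2, h0, h3, ?_⟩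
  rw [h4]
  have e1 : Fintype.card I = ∑ a, (Q a).n + 1 := by
    simp [I]
  have e2 : ∑ i, (ch i).card = ∑ a, ∑ i : Fin (Q a).n, ((Q a).ch i).card + n := by
    rw [Fintype.sum_sum_type, Fintype.sum_sigma]
    congr 1
    · refine Finset.sum_congr rfl fun a _ => Finset.sum_congr rfl fun i _ => ?_
      show ((fl a i).image (fun j => (Sum.inl ⟨a, j⟩ : I))).card = _
      rw [Finset.card_image_of_injective]
      · rw [← Finset.card_image_of_injective (fl a i) Fin.val_injective]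
        congr 1
        ext j
        simp only [fl, Finset.mem_image, Finset.mem_filter, Finset.mem_univ, true_and]
        constructor
        · rintro ⟨j', h, rfl⟩
          exact h
        · intro h
          exact ⟨⟨j, (((hOk a).2 i i.2).1 j h).1.trans i.2⟩, h, rfl⟩
      · intro j j' hj
        have := Sum.inl.inj hj
        simpa using this
    · rw [Fintype.sum_unique]
      show (Finset.univ.image fun a => (Sum.inl ⟨a, ⟨(Q a).out, (hOk a).1⟩⟩ : I)).card = n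
      rw [Finset.card_image_of_injective, Finset.card_univ, Fintype.card_fin]
      intro a b hab
      have := Sum.inl.inj hab
      exact (Sigma.mk.inj_iff.1 this).1
  have e3 : ∀ a, (Q a).n + ∑ i : Fin (Q a).n, ((Q a).ch i).card ≤ B := by
    intro a
    have := hsize a
    rwa [Circ.size, Finset.sum_range] at this
  have e4 : ∑ a, ((Q a).n + ∑ i : Fin (Q a).n, ((Q a).ch i).card) ≤ n * B := by
    refine (Finset.sum_le_sum fun a _ => e3 a).trans ?_
    simp
  rw [Finset.sum_add_distrib] at e4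
  rw [e1, e2]
  nlinarith

end Pool.Agent.EXB
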