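import Mathlib
import Pool.Agent.EXB.St

/-! # EXB: the upper bound -/

set_option autoImplicit false

namespace Pool.Agent.EXB

private theorem irr_pos {D : Type} [Fintype D] [Nonempty D] (H : D → D → Prop) : 1 ≤ irr H := by
  classical
  obtain ⟨x⟩ := (inferInstance : Nonempty D)
  have h1 : Irr H {x} := by
    intro a ha b hb
    rw [Finset.mem_singleton] at ha hb
    subst ha
    subst hb
    exact ⟨⟨0, rfl⟩, fun h => absurd rfl h⟩
  have h2 : ({x} : Finset D) ∈ (Finset.univ : Finset (Finset D)).filter fun S => Irr H S := by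
    rw [Finset.mem_filter]
    exact ⟨Finset.mem_univ _, h1⟩
  unfold irr
  have h3 := Finset.le_sup (f := Finset.card) h2
  rw [Finset.card_singleton] at h3
  refine le_trans h3 (le_of_eq ?_)
  congr 1

theorem thm_Upp : St_Upp := by
  intro hB hA hD hC hU D _ _ H hH
  classical
  let s : Setoid D :=
    { r := fun x y => ∃ n, Wk H (2 * n) x y
      iseqv :=
        { refl := fun x => ⟨0, rfl⟩
          symm := fun {x y} h => by
            obtain ⟨n, hn⟩ := h
            exact ⟨n, Wk.symm hH hn⟩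
          trans := fun {x y z} h h' => by
            obtain ⟨n, hn⟩ := h
            obtain ⟨n', hn'⟩ := h'
            refine ⟨n + n', ?_⟩
            rw [Nat.mul_add]
            exact Wk.add hn hn' } }
  refine ⟨7 * Fintype.card D + 1, ?_⟩
  intro V _ G L N t hG hT
  obtain ⟨T⟩ := hT
  have hne : Nonempty V := hG.nonempty
  obtain ⟨v₀⟩ := hne
  have hN : 1 ≤ N := lt_of_le_of_lt (Nat.zero_le _) (T.top_lt v₀)
  have hq : 1 ≤ irr H := irr_pos H
  have : Fintype (Quotient s) := Fintype.ofFinite _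
  set n := Fintype.card (Quotient s) with hn
  let e : Quotient s ≃ Fin n := Fintype.equivFin _
  let x : Fin n → D := fun a => (e.symm a).out
  let X : Fin n → Set (V → D) := fun a =>
    {f | f ∈ Hom H G L ∧ ∃ k, Wk H (2 * k) (x a) (f v₀)}
  have hX : ∀ a, ∃ Q : Circ V D, Q.Ok 1 ∧ Q.Det 1 ∧ Q.sc Q.out = Finset.univ ∧
      Q.X Q.out = X a ∧ Q.size ≤ 6 * (Fintype.card V + N) * irr H ^ (t + 1) := by
    intro a
    obtain ⟨L', h1, h2⟩ := hC V D H hH G L v₀ (x a) hG
    obtain ⟨Q, h3, h4, h0, h5, h6⟩ := hD hB hA V D H hH G L' N t (irr H) hq hN h1 T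
    exact ⟨Q, h3, h4, h0, h5.trans h2, h6⟩
  have hdis : ∀ a b, a ≠ b → Disjoint (X a) (X b) := by
    intro a b hab
    rw [Set.disjoint_left]
    rintro f ⟨_, k, hk⟩ ⟨_, k', hk'⟩
    apply hab
    have h1 : (⟦x a⟧ : Quotient s) = ⟦x b⟧ := by
      apply Quotient.sound
      refine ⟨k + k', ?_⟩
      rw [Nat.mul_add]
      exact Wk.add hk (Wk.symm hH hk')
    have h2 : (⟦x a⟧ : Quotient s) = e.symm a := Quotient.out_eq _
    have h3 : (⟦x b⟧ : Quotient s) = e.symm b := Quotient.out_eq _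
    rw [h2, h3] at h1
    exact e.symm.injective h1
  obtain ⟨Q, h1, h2, h0, h3, h4⟩ := hU V D n _ X hX hdis
  refine ⟨Q, h1, h2, h0, ?_, ?_⟩
  · rw [h3]
    ext f
    rw [Set.mem_iUnion]
    constructor
    · rintro ⟨a, ha, _⟩
      exact ha
    · intro hf
      refine ⟨e ⟦f v₀⟧, hf, ?_⟩
      have h5 : s.r (x (e ⟦f v₀⟧)) (f v₀) := by
        apply Quotient.exact (s := s)
        show (⟦(e.symm (e ⟦f v₀⟧)).out⟧ : Quotient s) = ⟦f v₀⟧
        rw [Quotient.out_eq, Equiv.symm_apply_apply]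
      exact h5
  · have h5 : n ≤ Fintype.card D := Fintype.card_le_of_surjective
      (fun d => (⟦d⟧ : Quotient s)) (fun y => ⟨y.out, Quotient.out_eq _⟩)
    set P := (Fintype.card V + N) * irr H ^ (t + 1) with hP
    have h6 : 1 ≤ P := Nat.one_le_iff_ne_zero.2
      (Nat.mul_ne_zero (by omega) (pow_ne_zero _ (by omega)))
    have h7 : 6 * (Fintype.card V + N) * irr H ^ (t + 1) = 6 * P := by rw [hP]; ring
    rw [h7] at h4
    calc Q.size ≤ n * (6 * P + 1) + 1 := h4
      _ ≤ Fintype.card D * (7 * P) + P := by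
          refine Nat.add_le_add (Nat.mul_le_mul h5 (by omega)) h6
      _ = (7 * Fintype.card D + 1) * (Fintype.card V + N) * irr H ^ (t + 1) := by
          rw [hP]; ring

end Pool.Agent.EXB
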