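import Mathlib
import Pool.Agent.EXB.St

/-!
# EXB: a missing walk
-/

set_option autoImplicit false

namespace Pool.Agent.EXB

theorem Wal_seq {D : Type} {H : D → D → Prop} : ∀ {n : ℕ} {a b : D}, Wk H n a b →
    ∃ z : ℕ → D, z 0 = a ∧ z n = b ∧ ∀ i < n, H (z i) (z (i + 1))
  | 0, a, b, h => ⟨fun _ => a, rfl, h, fun i hi => absurd hi (Nat.not_lt_zero i)⟩
  | n + 1, a, b, h => by
      obtain ⟨c, hc, h⟩ := h
      obtain ⟨z, h0, h1, h2⟩ := Wal_seq h
      refine ⟨fun i => if i = 0 then a else z (i - 1), by simp, by simpa using h1, ?_⟩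
      intro i hi
      rcases Nat.eq_zero_or_pos i with rfl | hi0
      · simpa [h0] using hc
      · have h3 := h2 (i - 1) (by omega)
        have e1 : i - 1 + 1 = i := by omega
        rw [e1] at h3
        have h4 : i ≠ 0 := by omega
        have e2 : i + 1 - 1 = i := by omega
        simp only [h4, if_false, Nat.succ_ne_zero]
        rw [e2]
        exact h3

theorem Wal_cat {D : Type} {H : D → D → Prop} {J J' : ℕ} {a u v e : D} (h1 : Wk H J a u)
    (h2 : H u v) (h3 : Wk H J' v e) :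
    ∃ z : ℕ → D, z 0 = a ∧ z (J + 1 + J') = e ∧ (∀ i < J + 1 + J', H (z i) (z (i + 1))) ∧
      z J = u ∧ z (J + 1) = v := by
  obtain ⟨z, hz0, hzJ, hz⟩ := Wal_seq h1
  obtain ⟨y, hy0, hyJ, hy⟩ := Wal_seq h3
  refine ⟨fun i => if i ≤ J then z i else y (i - (J + 1)), ?_, ?_, ?_, ?_, ?_⟩
  · simpa using hz0
  · have h4 : ¬ (J + 1 + J' ≤ J) := by omega
    have h5 : J + 1 + J' - (J + 1) = J' := by omega
    simp only [h4, if_false]
    rw [h5]
    exact hyJ
  · intro i hi
    rcases lt_trichotomy i J with h | h | h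
    · have h4 : i ≤ J := by omega
      have h5 : i + 1 ≤ J := by omega
      simp only [h4, h5, if_true]
      exact hz i h
    · subst h
      have h5 : ¬ (i + 1 ≤ i) := by omega
      simp only [le_refl, h5, if_true, if_false, Nat.sub_self]
      rw [hzJ, hy0]
      exact h2
    · have h4 : ¬ (i ≤ J) := by omega
      have h5 : ¬ (i + 1 ≤ J) := by omega
      have h6 : i + 1 - (J + 1) = i - (J + 1) + 1 := by omega
      simp only [h4, h5, if_false]
      rw [h6]
      exact hy _ (by omega)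
  · simpa using hzJ
  · have h4 : ¬ (J + 1 ≤ J) := by omega
    simp only [h4, if_false, Nat.sub_self]
    exact hy0

theorem Wal_nbr {D : Type} {H : D → D → Prop} (hH : ∀ a b, H a b → H b a) {J : ℕ} {a b u : D}
    (hb : H a b) (h : Wk H J a u) : ∃ v, H u v := by
  cases J with
  | zero =>
    have h' : a = u := h
    subst h'
    exact ⟨b, hb⟩
  | succ J =>
    obtain ⟨c, hc, -⟩ := Wk.symm hH h
    exact ⟨c, hc⟩

theorem Wal_last {D : Type} {H : D → D → Prop} {J : ℕ} {a v : D} (h : Wk H (J + 1) a v) :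
    ∃ u, Wk H J a u ∧ H u v := by
  obtain ⟨u, h1, c, hc, h2⟩ := Wk.split h
  have h2' : c = v := h2
  subst h2'
  exact ⟨u, h1, hc⟩

theorem thm_Wal (hK : St_Key) : St_Wal := by
  intro D H hH M J J' a a' b s d t e e' b' s' d' t' x y Z Z' n₀ n₁ n₂ n₃ n₄ hM hlen hZ hae hpar
    hxZ hx hab hab' has hsd hst hyZ hy heb heb' hes hsd' hst'
  by_contra hcon
  push Not at hcon
  rcases le_or_gt M J' with hMJ | hMJ
  · have key : ∀ u v, Wk H J a u → H u v → u ∈ Z ∧ v ∈ Z' := by
      intro u v hu huv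
      have h1 : Wk H (1 + J + n₀) v e :=
        ((Wk.one (hH _ _ huv)).add (Wk.symm hH hu)).add hae
      have h2 : Wk H J' v e := hM v e _ J' h1 ⟨u, hH _ _ huv⟩ hMJ (by omega)
      obtain ⟨z, hz0, hz1, hz2, hz3, hz4⟩ := Wal_cat hu huv h2
      have h3 := hcon z hz0 hz1 hz2
      rw [hz3, hz4] at h3
      exact h3
    refine hK D H hH J a a' b s d t x Z Z' n₁ n₂ hZ ?_ ?_ hxZ hx hab hab' has hsd hst
    · intro u hu
      obtain ⟨v, hv⟩ := Wal_nbr hH hab hu
      exact (key u v hu hv).1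
    · intro v hv
      obtain ⟨u, hu, huv⟩ := Wal_last hv
      exact (key u v hu huv).2
  · have hMJ' : M ≤ J := by omega
    have key : ∀ u v, Wk H J' e u → H u v → u ∈ Z' ∧ v ∈ Z := by
      intro u v hu huv
      have h1 : Wk H (n₀ + J' + 1) a v := (hae.add hu).add (Wk.one huv)
      have h2 : Wk H J a v := hM a v _ J h1 ⟨b, hab⟩ hMJ' (by omega)
      obtain ⟨z, hz0, hz1, hz2, hz3, hz4⟩ := Wal_cat h2 (hH _ _ huv) (Wk.symm hH hu)
      have h3 := hcon z hz0 hz1 hz2
      rw [hz3, hz4] at h3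
      exact ⟨h3.2, h3.1⟩
    refine hK D H hH J' e e' b' s' d' t' y Z' Z n₃ n₄ (fun u hu v hv => hH _ _ (hZ v hv u hu))
      ?_ ?_ hyZ hy heb heb' hes hsd' hst'
    · intro u hu
      obtain ⟨v, hv⟩ := Wal_nbr hH heb hu
      exact (key u v hu hv).1
    · intro v hv
      obtain ⟨u, hu, huv⟩ := Wal_last hv
      exact (key u v hu huv).2

end Pool.Agent.EXB
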